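import Mathlib

/-!
# TH Osg: bounded separately holomorphic functions of two variables are analytic

Let `f : ℂ × ℂ → E` be bounded by `M` on `ball (a, b) r` (sup norm), holomorphic in each variable.  By the Schwarz lemma `f` is jointly
continuous.  With `X (θ, φ) = a + ρ e^(iθ)`, `Y (θ, φ) = b + ρ e^(iφ)` in the Banach algebra `𝓑` of the bounded continuous functions `ℝ × ℝ → ℂ`
the Cauchy formula (twice) says `f (z, τ) = L ((X - z)⁻¹ (Y - τ)⁻¹)` for a continuous linear map `L : 𝓑 → E`, and the inversion in `𝓑` is analytic.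
-/

set_option autoImplicit false

open Topology Filter Metric

namespace Pool.Agent.TH

private theorem osg_cont {E : Type*} [NormedAddCommGroup E] [NormedSpace ℂ E] {f : ℂ × ℂ → E} {a b : ℂ} {r M : ℝ}
    (hM : ∀ z ∈ ball a r, ∀ τ ∈ ball b r, ‖f (z, τ)‖ ≤ M) (h1 : ∀ τ ∈ ball b r, DifferentiableOn ℂ (fun z => f (z, τ)) (ball a r))
    (h2 : ∀ z ∈ ball a r, DifferentiableOn ℂ (fun τ => f (z, τ)) (ball b r)) : ContinuousOn f (ball a r ×ˢ ball b r) := by
  rintro ⟨z0, τ0⟩ ⟨hz0, hτ0⟩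
  simp only at hz0 hτ0
  have hz0' : dist z0 a < r := hz0
  set s : ℝ := r - dist z0 a with hs
  have hs0 : 0 < s := by linarith
  have hsub : ball z0 s ⊆ ball a r := by
    intro w hw
    have hw' : dist w z0 < s := hw
    have := dist_triangle w z0 a
    rw [mem_ball]
    linarith
  have key : ∀ z ∈ ball z0 s, ∀ τ ∈ ball b r, dist (f (z, τ)) (f (z0, τ)) ≤ (2 * M) / s * dist z z0 := by
    intro z hz τ hτ
    refine Complex.dist_le_div_mul_dist_of_mapsTo_ball (f := fun z => f (z, τ)) ((h1 τ hτ).mono hsub) ?_ hz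
    intro w hw
    rw [mem_closedBall, dist_eq_norm]
    calc ‖f (w, τ) - f (z0, τ)‖ ≤ ‖f (w, τ)‖ + ‖f (z0, τ)‖ := norm_sub_le _ _
      _ ≤ M + M := add_le_add (hM w (hsub hw) τ hτ) (hM z0 hz0 τ hτ)
      _ = 2 * M := by ring
  have hc : ContinuousAt (fun τ => f (z0, τ)) τ0 := ((h2 z0 hz0).differentiableAt (isOpen_ball.mem_nhds hτ0)).continuousAt
  refine ContinuousAt.continuousWithinAt ?_
  show Tendsto f (𝓝 (z0, τ0)) (𝓝 (f (z0, τ0)))
  rw [tendsto_iff_dist_tendsto_zero]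
  have ht : Tendsto (fun p : ℂ × ℂ => (2 * M) / s * dist p.1 z0 + dist (f (z0, p.2)) (f (z0, τ0))) (𝓝 (z0, τ0)) (𝓝 0) := by
    have e1 : Tendsto (fun p : ℂ × ℂ => (2 * M) / s * dist p.1 z0) (𝓝 (z0, τ0)) (𝓝 ((2 * M) / s * dist z0 z0)) :=
      ((continuous_const.mul (continuous_fst.dist continuous_const)).tendsto (z0, τ0))
    have e2 : Tendsto (fun p : ℂ × ℂ => dist (f (z0, p.2)) (f (z0, τ0))) (𝓝 (z0, τ0)) (𝓝 0) := by
      have e3 : Tendsto (fun p : ℂ × ℂ => f (z0, p.2)) (𝓝 (z0, τ0)) (𝓝 (f (z0, τ0))) :=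
        (show Tendsto (fun τ => f (z0, τ)) (𝓝 τ0) (𝓝 (f (z0, τ0))) from hc).comp (continuous_snd.tendsto (z0, τ0))
      exact tendsto_iff_dist_tendsto_zero.1 e3
    have e4 := e1.add e2
    simpa using e4
  refine squeeze_zero' (Eventually.of_forall fun _ => dist_nonneg) ?_ ht
  have hev : ∀ᶠ p : ℂ × ℂ in 𝓝 (z0, τ0), p.1 ∈ ball z0 s ∧ p.2 ∈ ball b r :=
    ((continuous_fst.tendsto (z0, τ0)).eventually (ball_mem_nhds z0 hs0)).and
      ((continuous_snd.tendsto (z0, τ0)).eventually (isOpen_ball.mem_nhds hτ0))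
  filter_upwards [hev] with p hp
  obtain ⟨z, τ⟩ := p
  exact (dist_triangle _ (f (z0, τ)) _).trans (add_le_add (key z hp.1 τ hp.2) le_rfl)

/-- the functional `g ↦ ∫∫ g K` -/
private theorem osg_fun {E : Type*} [NormedAddCommGroup E] [NormedSpace ℂ E] {K : ℝ × ℝ → E} (hK : Continuous K) {B : ℝ} (hB : ∀ p, ‖K p‖ ≤ B) :
    ∃ L : (BoundedContinuousFunction (ℝ × ℝ) ℂ) →L[ℂ] E, ∀ g, L g = ∫ θ in (0:ℝ)..2 * Real.pi, ∫ φ in (0:ℝ)..2 * Real.pi, g (θ, φ) • K (θ, φ) := by
  have hcont : ∀ g : BoundedContinuousFunction (ℝ × ℝ) ℂ, Continuous (fun p : ℝ × ℝ => g p • K p) := fun g => g.continuous.smul hK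
  have hc1 : ∀ (g : BoundedContinuousFunction (ℝ × ℝ) ℂ) (θ : ℝ), Continuous (fun φ : ℝ => g (θ, φ) • K (θ, φ)) := fun g θ =>
    (hcont g).comp (by fun_prop : Continuous fun φ : ℝ => ((θ, φ) : ℝ × ℝ))
  have hc2 : ∀ g : BoundedContinuousFunction (ℝ × ℝ) ℂ, Continuous (fun θ : ℝ => ∫ φ in (0:ℝ)..2 * Real.pi, g (θ, φ) • K (θ, φ)) := by
    intro g
    refine intervalIntegral.continuous_parametric_intervalIntegral_of_continuous' ?_ 0 (2 * Real.pi)
    exact hcont g
  let L0 : (BoundedContinuousFunction (ℝ × ℝ) ℂ) →ₗ[ℂ] E :=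
    { toFun := fun g => ∫ θ in (0:ℝ)..2 * Real.pi, ∫ φ in (0:ℝ)..2 * Real.pi, g (θ, φ) • K (θ, φ)
      map_add' := by
        intro g h
        rw [← intervalIntegral.integral_add ((hc2 g).intervalIntegrable _ _) ((hc2 h).intervalIntegrable _ _)]
        congr 1
        funext θ
        rw [← intervalIntegral.integral_add ((hc1 g θ).intervalIntegrable _ _) ((hc1 h θ).intervalIntegrable _ _)]
        congr 1
        funext φ
        rw [BoundedContinuousFunction.add_apply, add_smul]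
      map_smul' := by
        intro c g
        simp only [RingHom.id_apply]
        rw [← intervalIntegral.integral_smul]
        congr 1
        funext θ
        rw [← intervalIntegral.integral_smul]
        congr 1
        funext φ
        rw [BoundedContinuousFunction.smul_apply, smul_assoc] }
  have hpi : (0:ℝ) ≤ 2 * Real.pi := by positivity
  refine ⟨L0.mkContinuous ((2 * Real.pi) * (2 * Real.pi) * B) ?_, fun g => rfl⟩
  intro g
  show ‖∫ θ in (0:ℝ)..2 * Real.pi, ∫ φ in (0:ℝ)..2 * Real.pi, g (θ, φ) • K (θ, φ)‖ ≤ _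
  have hin : ∀ θ : ℝ, ‖∫ φ in (0:ℝ)..2 * Real.pi, g (θ, φ) • K (θ, φ)‖ ≤ (‖g‖ * B) * |2 * Real.pi - 0| := by
    intro θ
    refine intervalIntegral.norm_integral_le_of_norm_le_const ?_
    intro φ _
    rw [norm_smul]
    exact mul_le_mul (g.norm_coe_le_norm _) (hB _) (norm_nonneg _) (norm_nonneg _)
  have hout := intervalIntegral.norm_integral_le_of_norm_le_const (a := (0:ℝ)) (b := 2 * Real.pi)
    (f := fun θ => ∫ φ in (0:ℝ)..2 * Real.pi, g (θ, φ) • K (θ, φ)) (C := (‖g‖ * B) * |2 * Real.pi - 0|) (fun θ _ => hin θ)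
  refine hout.trans (le_of_eq ?_)
  rw [sub_zero, abs_of_nonneg hpi]
  ring

/-- inversion in the algebra of bounded continuous functions -/
private theorem osg_inv {u : BoundedContinuousFunction (ℝ × ℝ) ℂ} (hu : IsUnit u) (p : ℝ × ℝ) : (Ring.inverse u) p = (u p)⁻¹ := by
  have h := Ring.mul_inverse_cancel u hu
  have h2 : u p * (Ring.inverse u) p = 1 := by
    rw [← BoundedContinuousFunction.mul_apply, h]; rfl
  exact (inv_eq_of_mul_eq_one_right h2).symm

private theorem osg_unit {c : ℂ} {ρ : ℝ} (hρ : 0 < ρ) (π : ℝ × ℝ → ℝ) (hπ : Continuous π) :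
    ∃ u : BoundedContinuousFunction (ℝ × ℝ) ℂ, IsUnit u ∧ ∀ p, u p = circleMap c ρ (π p) - c := by
  have hn : ∀ θ : ℝ, ‖circleMap c ρ θ - c‖ = ρ := by
    intro θ
    rw [← dist_eq_norm]
    have := circleMap_mem_sphere c hρ.le θ
    exact this
  have hne : ∀ θ : ℝ, circleMap c ρ θ - c ≠ 0 := by
    intro θ h0
    have := hn θ
    rw [h0, norm_zero] at this
    exact hρ.ne this
  have hct : Continuous (fun p : ℝ × ℝ => circleMap c ρ (π p) - c) := ((continuous_circleMap c ρ).comp hπ).sub continuous_const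
  let u : BoundedContinuousFunction (ℝ × ℝ) ℂ := BoundedContinuousFunction.ofNormedAddCommGroup (fun p => circleMap c ρ (π p) - c) hct ρ
    (fun p => (hn _).le)
  let v : BoundedContinuousFunction (ℝ × ℝ) ℂ := BoundedContinuousFunction.ofNormedAddCommGroup (fun p => (circleMap c ρ (π p) - c)⁻¹)
    (hct.inv₀ fun p => hne _) ρ⁻¹ (fun p => by rw [norm_inv, hn])
  refine ⟨u, ?_, fun p => rfl⟩
  refine IsUnit.of_mul_eq_one v ?_
  ext p
  show (circleMap c ρ (π p) - c) * (circleMap c ρ (π p) - c)⁻¹ = 1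
  exact mul_inv_cancel₀ (hne _)

theorem osgood {E : Type*} [NormedAddCommGroup E] [NormedSpace ℂ E] [CompleteSpace E] {f : ℂ × ℂ → E} {a b : ℂ} {r M : ℝ} (hr : 0 < r)
    (hM : ∀ z ∈ ball a r, ∀ τ ∈ ball b r, ‖f (z, τ)‖ ≤ M) (h1 : ∀ τ ∈ ball b r, DifferentiableOn ℂ (fun z => f (z, τ)) (ball a r))
    (h2 : ∀ z ∈ ball a r, DifferentiableOn ℂ (fun τ => f (z, τ)) (ball b r)) : AnalyticAt ℂ f (a, b) := by
  have hfc := osg_cont hM h1 h2
  set ρ : ℝ := r / 2 with hρd
  have hρ : 0 < ρ := by positivity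
  have hρr : ρ < r := by rw [hρd]; linarith
  have ha : ∀ θ, circleMap a ρ θ ∈ ball a r := fun θ => by
    have h := circleMap_mem_sphere a hρ.le θ
    rw [mem_ball, mem_sphere.1 h]; exact hρr
  have hb : ∀ θ, circleMap b ρ θ ∈ ball b r := fun θ => by
    have h := circleMap_mem_sphere b hρ.le θ
    rw [mem_ball, mem_sphere.1 h]; exact hρr
  have hHc : Continuous (fun p : ℝ × ℝ => f (circleMap a ρ p.1, circleMap b ρ p.2)) := by
    have hg : Continuous (fun p : ℝ × ℝ => ((circleMap a ρ p.1, circleMap b ρ p.2) : ℂ × ℂ)) :=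
      ((continuous_circleMap a ρ).comp continuous_fst).prodMk ((continuous_circleMap b ρ).comp continuous_snd)
    exact hfc.comp_continuous hg (fun p => ⟨ha _, hb _⟩)
  let K : ℝ × ℝ → E := fun p => (deriv (circleMap a ρ) p.1 * deriv (circleMap b ρ) p.2) • f (circleMap a ρ p.1, circleMap b ρ p.2)
  have hder : ∀ c : ℂ, Continuous (deriv (circleMap c ρ)) := by
    intro c
    have : deriv (circleMap c ρ) = fun θ => circleMap 0 ρ θ * Complex.I := by
      funext θ; exact deriv_circleMap c ρ θ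
    rw [this]
    exact (continuous_circleMap 0 ρ).mul continuous_const
  have hdn : ∀ (c : ℂ) (θ : ℝ), ‖deriv (circleMap c ρ) θ‖ = ρ := by
    intro c θ
    rw [deriv_circleMap, norm_mul, Complex.norm_I, mul_one, norm_circleMap_zero, abs_of_pos hρ]
  have hK : Continuous K := (((hder a).comp continuous_fst).mul ((hder b).comp continuous_snd)).smul hHc
  have hKB : ∀ p, ‖K p‖ ≤ ρ * ρ * M := by
    intro p
    show ‖(deriv (circleMap a ρ) p.1 * deriv (circleMap b ρ) p.2) • f (circleMap a ρ p.1, circleMap b ρ p.2)‖ ≤ _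
    rw [norm_smul, norm_mul, hdn, hdn]
    exact mul_le_mul_of_nonneg_left (hM _ (ha _) _ (hb _)) (by positivity)
  obtain ⟨L, hL⟩ := osg_fun hK hKB
  obtain ⟨u, hu, hu'⟩ := osg_unit (c := a) hρ Prod.fst continuous_fst
  obtain ⟨v, hv, hv'⟩ := osg_unit (c := b) hρ Prod.snd continuous_snd
  let U : ℂ × ℂ → BoundedContinuousFunction (ℝ × ℝ) ℂ := fun p => u - (p.1 - a) • (1 : BoundedContinuousFunction (ℝ × ℝ) ℂ)
  let V : ℂ × ℂ → BoundedContinuousFunction (ℝ × ℝ) ℂ := fun p => v - (p.2 - b) • (1 : BoundedContinuousFunction (ℝ × ℝ) ℂ)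
  have hU0 : U (a, b) = u := by show u - (a - a) • _ = u; rw [sub_self, zero_smul, sub_zero]
  have hV0 : V (a, b) = v := by show v - (b - b) • _ = v; rw [sub_self, zero_smul, sub_zero]
  have hUa : AnalyticAt ℂ U (a, b) := analyticAt_const.sub ((analyticAt_fst.sub analyticAt_const).smul analyticAt_const)
  have hVa : AnalyticAt ℂ V (a, b) := analyticAt_const.sub ((analyticAt_snd.sub analyticAt_const).smul analyticAt_const)
  have hUi : AnalyticAt ℂ (fun p => Ring.inverse (U p)) (a, b) := by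
    have h := analyticAt_inverse (𝕜 := ℂ) hu.unit
    rw [IsUnit.unit_spec, ← hU0] at h
    exact h.comp hUa
  have hVi : AnalyticAt ℂ (fun p => Ring.inverse (V p)) (a, b) := by
    have h := analyticAt_inverse (𝕜 := ℂ) hv.unit
    rw [IsUnit.unit_spec, ← hV0] at h
    exact h.comp hVa
  have hW : AnalyticAt ℂ (fun p => L (Ring.inverse (U p) * Ring.inverse (V p))) (a, b) :=
    (L.analyticAt _).comp (hUi.mul hVi)
  have hWc : AnalyticAt ℂ (fun p => ((2 * Real.pi * Complex.I : ℂ)⁻¹ * (2 * Real.pi * Complex.I : ℂ)⁻¹) •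
      L (Ring.inverse (U p) * Ring.inverse (V p))) (a, b) := analyticAt_const.smul hW
  refine hWc.congr ?_
  have evU : ∀ᶠ p in 𝓝 (a, b), IsUnit (U p) := by
    have h := hUa.continuousAt.eventually (Units.isOpen.mem_nhds (show U (a, b) ∈ {x | IsUnit x} by rw [hU0]; exact hu))
    exact h
  have evV : ∀ᶠ p in 𝓝 (a, b), IsUnit (V p) := by
    have h := hVa.continuousAt.eventually (Units.isOpen.mem_nhds (show V (a, b) ∈ {x | IsUnit x} by rw [hV0]; exact hv))
    exact h
  have evB : ∀ᶠ p : ℂ × ℂ in 𝓝 (a, b), p.1 ∈ ball a ρ ∧ p.2 ∈ ball b ρ :=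
    ((continuous_fst.tendsto (a, b)).eventually (ball_mem_nhds a hρ)).and ((continuous_snd.tendsto (a, b)).eventually (ball_mem_nhds b hρ))
  filter_upwards [evU, evV, evB] with p hpU hpV hpB
  obtain ⟨z, τ⟩ := p
  obtain ⟨hz, hτ⟩ := hpB
  simp only at hz hτ
  have hpi0 : (2 * Real.pi * Complex.I : ℂ) ≠ 0 := Complex.two_pi_I_ne_zero
  -- the Cauchy formulas
  have hzr : τ ∈ ball b r := ball_subset_ball hρr.le hτ
  have c1 : (∮ ζ in C(a, ρ), (ζ - z)⁻¹ • f (ζ, τ)) = (2 * Real.pi * Complex.I : ℂ) • f (z, τ) :=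
    DifferentiableOn.circleIntegral_sub_inv_smul (f := fun ζ => f (ζ, τ)) ((h1 τ hzr).mono (closedBall_subset_ball hρr)) hz
  have c2 : ∀ θ, (∮ σ in C(b, ρ), (σ - τ)⁻¹ • f (circleMap a ρ θ, σ)) = (2 * Real.pi * Complex.I : ℂ) • f (circleMap a ρ θ, τ) := fun θ =>
    DifferentiableOn.circleIntegral_sub_inv_smul (f := fun σ => f (circleMap a ρ θ, σ)) ((h2 _ (ha θ)).mono (closedBall_subset_ball hρr)) hτ
  have hLv : L (Ring.inverse (U (z, τ)) * Ring.inverse (V (z, τ))) =
      (2 * Real.pi * Complex.I : ℂ) • (2 * Real.pi * Complex.I : ℂ) • f (z, τ) := by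
    rw [hL, ← c1, circleIntegral, ← intervalIntegral.integral_smul]
    congr 1
    funext θ
    rw [smul_comm (2 * Real.pi * Complex.I : ℂ), smul_comm (2 * Real.pi * Complex.I : ℂ), ← c2 θ, circleIntegral, ← smul_assoc,
      ← intervalIntegral.integral_smul]
    congr 1
    funext φ
    rw [BoundedContinuousFunction.mul_apply, osg_inv hpU, osg_inv hpV]
    have eU : (U (z, τ)) (θ, φ) = circleMap a ρ θ - z := by
      show u (θ, φ) - (z - a) * 1 = _
      rw [hu' (θ, φ)]; ring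
    have eV : (V (z, τ)) (θ, φ) = circleMap b ρ φ - τ := by
      show v (θ, φ) - (τ - b) * 1 = _
      rw [hv' (θ, φ)]; ring
    rw [eU, eV]
    show _ • ((deriv (circleMap a ρ) θ * deriv (circleMap b ρ) φ) • f (circleMap a ρ θ, circleMap b ρ φ)) = _
    simp only [smul_smul, smul_eq_mul]
    congr 1
    ring
  show _ • L (Ring.inverse (U (z, τ)) * Ring.inverse (V (z, τ))) = f (z, τ)
  rw [hLv, smul_smul, smul_smul]
  have : (2 * Real.pi * Complex.I : ℂ)⁻¹ * (2 * Real.pi * Complex.I : ℂ)⁻¹ * (2 * Real.pi * Complex.I : ℂ) * (2 * Real.pi * Complex.I : ℂ) = 1 := by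
    field_simp
  rw [this, one_smul]

/-- the same for functions on `Fin 2 → ℂ` -/
theorem osgood_pi {E : Type*} [NormedAddCommGroup E] [NormedSpace ℂ E] [CompleteSpace E] {f : (Fin 2 → ℂ) → E} {w : Fin 2 → ℂ} {r M : ℝ} (hr : 0 < r)
    (hM : ∀ y ∈ ball w r, ‖f y‖ ≤ M) (h : ∀ y ∈ ball w r, ∀ l : Fin 2, DifferentiableAt ℂ (fun t : ℂ => f (y + t • Pi.single l 1)) 0) : AnalyticAt ℂ f w := by
  have hmem : ∀ z ∈ ball (w 0) r, ∀ τ ∈ ball (w 1) r, (![z, τ] : Fin 2 → ℂ) ∈ ball w r := by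
    intro z hz τ hτ
    rw [mem_ball, dist_pi_lt_iff hr]
    intro i
    fin_cases i
    · exact hz
    · exact hτ
  have hg : AnalyticAt ℂ (fun p : ℂ × ℂ => f ![p.1, p.2]) (w 0, w 1) := by
    refine osgood (M := M) hr (fun z hz τ hτ => hM _ (hmem z hz τ hτ)) ?_ ?_
    · intro τ hτ z hz
      have h0 := h _ (hmem z hz τ hτ) 0
      have e : (fun z' : ℂ => f ![z', τ]) = (fun t : ℂ => f (![z, τ] + t • Pi.single (0 : Fin 2) (1 : ℂ))) ∘ (fun z' => z' - z) := by
        funext z'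
        show f ![z', τ] = f (![z, τ] + (z' - z) • Pi.single (0 : Fin 2) (1 : ℂ))
        congr 1
        funext i
        fin_cases i <;> simp
      refine DifferentiableAt.differentiableWithinAt ?_
      show DifferentiableAt ℂ (fun z' : ℂ => f ![z', τ]) z
      rw [e]
      refine DifferentiableAt.comp z ?_ (differentiableAt_id.sub_const z)
      simpa using h0
    · intro z hz τ hτ
      have h0 := h _ (hmem z hz τ hτ) 1
      have e : (fun τ' : ℂ => f ![z, τ']) = (fun t : ℂ => f (![z, τ] + t • Pi.single (1 : Fin 2) (1 : ℂ))) ∘ (fun τ' => τ' - τ) := by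
        funext τ'
        show f ![z, τ'] = f (![z, τ] + (τ' - τ) • Pi.single (1 : Fin 2) (1 : ℂ))
        congr 1
        funext i
        fin_cases i <;> simp
      refine DifferentiableAt.differentiableWithinAt ?_
      show DifferentiableAt ℂ (fun τ' : ℂ => f ![z, τ']) τ
      rw [e]
      refine DifferentiableAt.comp τ ?_ (differentiableAt_id.sub_const τ)
      simpa using h0
  let π : (Fin 2 → ℂ) →L[ℂ] ℂ × ℂ := (ContinuousLinearMap.proj 0).prod (ContinuousLinearMap.proj 1)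
  have e : f = (fun p : ℂ × ℂ => f ![p.1, p.2]) ∘ π := by
    funext y
    show f y = f ![y 0, y 1]
    congr 1
    funext i
    fin_cases i <;> rfl
  rw [e]
  exact AnalyticAt.comp (show AnalyticAt ℂ (fun p : ℂ × ℂ => f ![p.1, p.2]) (π w) from hg) (π.analyticAt w)

end Pool.Agent.TH
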