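import Pool.Agent.TH.Defs

/-!
# TH SetA: the setting exists; the zeros of the one-form

`exists_setting`: as `AD.BD.exists_atlas` (`AtlA.exists_cover`), with charts on which `u` has a lift.  For `x ∈ X` take a chart `χ` with `χ.q x = 0` and a local lift
`v` of `u`, analytic at `y₀ = χ.σ 0` (apply `torus.loc` at `χ.σ 0 ∈ X`); choose `s ≤ 1` such that `v` is analytic at `χ.σ p` and `u (χ.σ p) - v (χ.σ p) ∈ Λ` for
`‖p‖ < 2 s`; replace `χ` by the chart `σ_s p = χ.σ (s p)`, `U_s = {x ∈ χ.U : ‖χ.q x‖ < 2 s}`, `q_s = χ.q / s`, and put `β p = v (χ.σ (s p)) + (a constant in Λ)`: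
for `x ∈ X ∩ U_s`, `x = c σ_s (q_s x)`, so `u x - u (σ_s (q_s x)) ∈ Λ`.  The proof of `exists_cover` works for charts with an additional property (copy it, with
`Charts` replaced by `∀ x ∈ X, ∃ χ, Q χ ∧ x ∈ χ.U ∧ χ.q x = 0`), then copy `exists_atlas`.

`hit_iff`: `TorusMapV.du_eq` with the lift `y ↦ β i (q i y)` (analytic at `x ∈ U`), and `AD.tan_chart` / `Chart.tan`, `Chart.fderiv_sigma`: the tangent vectors at `x` are the
`c • Dσ(q x) w + a • x`, and `fderiv (β i ∘ q i) x` of it is `fderiv (β i) (q x) w`; a linear functional on `Vd 3` is `0` iff it is `0` on `Pi.single l 1`.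
-/

set_option autoImplicit false

open Topology Filter Metric

namespace Pool.Agent.TH

open Pool.Agent.H36.BP (EN fs wd Sub)
open Pool.Agent.H14.PP (IsCone CurveAt Tan)
open Pool.Agent.H62.EF (MN pr)
open Pool.Agent.AD (Vd Chart Charts TorusMapV DiscreteSub)
open Pool.Agent.AD.BD (Atlas LC Good qc)
open Pool.Agent.H19T (TForm TNoZero)

variable {N : ℕ} {X : Set (EN N)}

/-- `u` has a lift on the chart -/
private def SetA_Q (Λ : AddSubgroup (Vd 2)) (u : EN N → Vd 2) (χ : Chart 3 X) : Prop :=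
  ∃ β : Vd 3 → Vd 2, (∀ p ∈ ball (0 : Vd 3) 2, AnalyticAt ℂ β p) ∧ ∀ x ∈ X, x ∈ χ.U → u x - β (χ.q x) ∈ Λ

/-- the rescaled chart -/
private noncomputable def SetA_scale (χ : Chart 3 X) (s : ℝ) (hs : 0 < s) (hs1 : s ≤ 1) : Chart 3 X where
  σ p := χ.σ ((s : ℂ) • p)
  U := {x | x ∈ χ.U ∧ ‖χ.q x‖ < 2 * s}
  q x := (s : ℂ)⁻¹ • χ.q x
  isOpen_U := by
    have hc : ContinuousOn (fun x => ‖χ.q x‖) χ.U := fun x hx => (χ.q_an x hx).continuousAt.norm.continuousWithinAt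
    exact hc.isOpen_inter_preimage χ.isOpen_U (isOpen_Iio (a := 2 * s))
  smul_U := by
    rintro x ⟨hx, hq⟩ c hc
    refine ⟨χ.smul_U x hx c hc, ?_⟩
    rw [χ.q_smul x hx c hc]
    exact hq
  σ_an := by
    intro p hp
    have h1 : AnalyticAt ℂ (fun p : Vd 3 => (s : ℂ) • p) p := by fun_prop
    have h2 : (s : ℂ) • p ∈ ball (0 : Vd 3) 2 := by
      rw [mem_ball_zero_iff] at hp ⊢
      rw [norm_smul, Complex.norm_real, Real.norm_of_nonneg hs.le]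
      nlinarith [norm_nonneg p]
    exact AnalyticAt.comp (g := χ.σ) (f := fun p : Vd 3 => (s : ℂ) • p) (χ.σ_an _ h2) h1
  q_an := by
    rintro x ⟨hx, -⟩
    have h1 : AnalyticAt ℂ (fun y : Vd 3 => (s : ℂ)⁻¹ • y) (χ.q x) := by fun_prop
    exact AnalyticAt.comp (g := fun y : Vd 3 => (s : ℂ)⁻¹ • y) (f := χ.q) h1 (χ.q_an x hx)
  q_smul := by
    rintro x ⟨hx, -⟩ c hc
    show (s : ℂ)⁻¹ • χ.q (c • x) = (s : ℂ)⁻¹ • χ.q x
    rw [χ.q_smul x hx c hc]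
  σ_mem := by
    intro p hp
    have hp' := mem_ball_zero_iff.1 hp
    have h3 : ‖(s : ℂ) • p‖ < 2 * s := by
      rw [norm_smul, Complex.norm_real, Real.norm_of_nonneg hs.le]
      nlinarith [norm_nonneg p]
    have h2 : (s : ℂ) • p ∈ ball (0 : Vd 3) 2 := by
      rw [mem_ball_zero_iff]
      linarith
    obtain ⟨h4, h5, h6⟩ := χ.σ_mem _ h2
    refine ⟨h4, ⟨h5, ?_⟩, ?_⟩
    · rw [h6]
      exact h3
    · show (s : ℂ)⁻¹ • χ.q (χ.σ ((s : ℂ) • p)) = p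
      rw [h6, inv_smul_smul₀ (by exact_mod_cast hs.ne')]
  surj := by
    rintro x hx ⟨hU, hq⟩
    obtain ⟨h1, c, hc, h2⟩ := χ.surj x hx hU
    refine ⟨?_, c, hc, ?_⟩
    · rw [mem_ball_zero_iff, norm_smul, norm_inv, Complex.norm_real, Real.norm_of_nonneg hs.le, inv_mul_lt_iff₀ hs]
      linarith
    · show x = c • χ.σ ((s : ℂ) • (s : ℂ)⁻¹ • χ.q x)
      rw [smul_inv_smul₀ (by exact_mod_cast hs.ne')]
      exact h2

/-- charts on which `u` has a lift -/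
private theorem SetA_charts (hch : Charts 3 X) {Λ : AddSubgroup (Vd 2)} {u : EN N → Vd 2} (hu : TorusMapV X Λ u) :
    ∀ x ∈ X, ∃ χ : Chart 3 X, SetA_Q Λ u χ ∧ x ∈ χ.U ∧ χ.q x = 0 := by
  intro x₀ hx₀
  obtain ⟨χ, hU, hq⟩ := hch x₀ hx₀
  have h0 : (0 : Vd 3) ∈ ball (0 : Vd 3) 2 := mem_ball_self (by norm_num)
  obtain ⟨v, hv, hvu⟩ := hu.loc (χ.σ 0) (χ.σ_mem 0 h0).1
  have hc : Tendsto χ.σ (𝓝 0) (𝓝 (χ.σ 0)) := (χ.σ_an 0 h0).continuousAt.tendsto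
  have h1 : ∀ᶠ p in 𝓝 (0 : Vd 3), AnalyticAt ℂ v (χ.σ p) ∧ (χ.σ p ∈ X → u (χ.σ p) - v (χ.σ p) ∈ Λ) :=
    (hc.eventually hv.eventually_analyticAt).and (hc.eventually hvu)
  obtain ⟨r, hr, hball⟩ := Metric.eventually_nhds_iff_ball.1 h1
  set s : ℝ := min 1 (r / 2) with hs_def
  have hs : 0 < s := lt_min one_pos (half_pos hr)
  have hs1 : s ≤ 1 := min_le_left _ _
  have hsr : 2 * s ≤ r := by
    have := min_le_right (1 : ℝ) (r / 2)
    linarith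
  refine ⟨SetA_scale χ s hs hs1, ⟨fun p => v (χ.σ ((s : ℂ) • p)), ?_, ?_⟩, ⟨hU, ?_⟩, ?_⟩
  · intro p hp
    have hp' := mem_ball_zero_iff.1 hp
    have h3 : ‖(s : ℂ) • p‖ < 2 * s := by
      rw [norm_smul, Complex.norm_real, Real.norm_of_nonneg hs.le]
      nlinarith [norm_nonneg p]
    have h2 : (s : ℂ) • p ∈ ball (0 : Vd 3) 2 := by
      rw [mem_ball_zero_iff]
      linarith
    have h4 : (s : ℂ) • p ∈ ball (0 : Vd 3) r := by
      rw [mem_ball_zero_iff]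
      linarith
    have h5 : AnalyticAt ℂ (fun p : Vd 3 => (s : ℂ) • p) p := by fun_prop
    have h6 : AnalyticAt ℂ (fun p : Vd 3 => χ.σ ((s : ℂ) • p)) p :=
      AnalyticAt.comp (g := χ.σ) (f := fun p : Vd 3 => (s : ℂ) • p) (χ.σ_an _ h2) h5
    exact AnalyticAt.comp (g := v) (f := fun p : Vd 3 => χ.σ ((s : ℂ) • p)) (hball _ h4).1 h6
  · rintro x hx ⟨hxU, hxq⟩
    obtain ⟨h2, c, hc0, h3⟩ := χ.surj x hx hxU
    have h4 : χ.q x ∈ ball (0 : Vd 3) r := by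
      rw [mem_ball_zero_iff]
      linarith
    have h5 := (hball _ h4).2 (χ.σ_mem _ h2).1
    have h6 := hu.smul _ (χ.σ_mem _ h2).1 c hc0
    rw [← h3] at h6
    show u x - v (χ.σ ((s : ℂ) • (s : ℂ)⁻¹ • χ.q x)) ∈ Λ
    rw [smul_inv_smul₀ (by exact_mod_cast hs.ne')]
    have h7 : u x - v (χ.σ (χ.q x)) = (u x - u (χ.σ (χ.q x))) + (u (χ.σ (χ.q x)) - v (χ.σ (χ.q x))) := by abel
    rw [h7]
    exact Λ.add_mem h6 h5
  · rw [hq, norm_zero]
    linarith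
  · show (s : ℂ)⁻¹ • χ.q x₀ = 0
    rw [hq, smul_zero]

/-- the points near a point of the cone are in the middle of a chart -/
private theorem SetA_near {Q : Chart 3 X → Prop} (hX : IsCone X) (hch : ∀ x ∈ X, ∃ χ : Chart 3 X, Q χ ∧ x ∈ χ.U ∧ χ.q x = 0) {x₀ : EN N} (hx₀ : x₀ ∈ X) :
    ∃ (χ : Chart 3 X) (δ : ℝ), 0 < δ ∧ Q χ ∧ ∀ y ∈ X, dist (pr y) (pr x₀) < δ → Good χ y := by
  obtain ⟨χ, hQ, hU, hq⟩ := hch x₀ hx₀
  have hV : {y | y ∈ χ.U ∧ ‖χ.q y‖ < 1 / 2} ∈ 𝓝 x₀ := by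
    have h1 : ∀ᶠ y in 𝓝 x₀, y ∈ χ.U := χ.isOpen_U.mem_nhds hU
    have h2 : ∀ᶠ y in 𝓝 x₀, ‖χ.q y‖ < 1 / 2 := by
      have hc : ContinuousAt (fun y => ‖χ.q y‖) x₀ := (χ.q_an x₀ hU).continuousAt.norm
      apply hc.eventually_lt_const
      change ‖χ.q x₀‖ < 1 / 2
      rw [hq, norm_zero]
      norm_num
    exact h1.and h2
  obtain ⟨δ, hδ, h⟩ := Pool.Agent.H62.EF.near_of_pr (hX.ne_zero hx₀) hV
  refine ⟨χ, δ, hδ, hQ, fun y hy hd => ?_⟩
  obtain ⟨c, hc, hcU, hcq⟩ := h y (hX.ne_zero hy) hd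
  have hy' : c⁻¹ • (c • y) = y := by
    rw [smul_smul, inv_mul_cancel₀ hc, one_smul]
  have hyU : y ∈ χ.U := by
    rw [← hy']
    exact χ.smul_U _ hcU _ (inv_ne_zero hc)
  refine ⟨hy, hyU, ?_⟩
  rw [← χ.q_smul y hyU c hc]
  exact hcq.le

private theorem SetA_cover {Q : Chart 3 X → Prop} (hX : IsCone X) (hch : ∀ x ∈ X, ∃ χ : Chart 3 X, Q χ ∧ x ∈ χ.U ∧ χ.q x = 0) (hne : X.Nonempty) :
    ∃ (n : ℕ) (χ : Fin n → Chart 3 X) (idx : MN N → Fin n) (δ : ℝ), 0 < δ ∧ (∀ i, Q (χ i)) ∧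
      ∀ x ∈ X, ∀ y ∈ X, dist (pr x) (pr y) ≤ δ → Good (χ (idx (pr x))) y := by
  classical
  choose! χ d hd hQ hgood using fun x : X => SetA_near hX hch x.2
  obtain ⟨t, ht⟩ := (Pool.Agent.H62.EF.isCompact_pr hX).elim_finite_subcover
    (fun x : X => ball (pr (x : EN N)) (d x / 2)) (fun _ => isOpen_ball) (by
      rintro _ ⟨x, hx, rfl⟩
      rw [Set.mem_iUnion]
      exact ⟨⟨x, hx⟩, mem_ball_self (half_pos (hd _))⟩)
  have htne : t.Nonempty := by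
    obtain ⟨x, hx⟩ := hne
    have := ht (Set.mem_image_of_mem pr hx)
    rw [Set.mem_iUnion₂] at this
    obtain ⟨i, hi, -⟩ := this
    exact ⟨i, hi⟩
  obtain ⟨m, hm, hmin⟩ := t.exists_min_image (fun x => d x / 2) htne
  have hcard : 0 < t.card := htne.card_pos
  let e : Fin t.card ≃ t := t.equivFin.symm
  let idx : MN N → Fin t.card := fun y =>
    if h : ∃ i : Fin t.card, dist y (pr ((e i : X) : EN N)) < d (e i) / 2 then h.choose else ⟨0, hcard⟩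
  refine ⟨t.card, fun i => χ (e i), idx, d m / 2, half_pos (hd m), fun i => hQ _, ?_⟩
  intro x hx y hy hxy
  have hex : ∃ i : Fin t.card, dist (pr x) (pr ((e i : X) : EN N)) < d (e i) / 2 := by
    have := ht (Set.mem_image_of_mem pr hx)
    rw [Set.mem_iUnion₂] at this
    obtain ⟨i, hi, hb⟩ := this
    refine ⟨e.symm ⟨i, hi⟩, ?_⟩
    rw [Equiv.apply_symm_apply]
    exact hb
  have hidx : idx (pr x) = hex.choose := dif_pos hex
  have hspec := hex.choose_spec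
  rw [← hidx] at hspec
  apply hgood
  · exact hy
  · have h1 : d m / 2 ≤ d (e (idx (pr x))) / 2 := hmin _ (e (idx (pr x))).2
    calc dist (pr y) (pr ((e (idx (pr x)) : X) : EN N))
        ≤ dist (pr y) (pr x) + dist (pr x) (pr ((e (idx (pr x)) : X) : EN N)) := dist_triangle _ _ _
      _ < d m / 2 + d (e (idx (pr x))) / 2 := by
          rw [dist_comm (pr y) (pr x)]
          exact add_lt_add_of_le_of_lt hxy hspec
      _ ≤ d (e (idx (pr x))) / 2 + d (e (idx (pr x))) / 2 := by linarith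
      _ = d (e (idx (pr x))) := add_halves _

private theorem SetA_atlas {Q : Chart 3 X → Prop} (hX : IsCone X) (hch : ∀ x ∈ X, ∃ χ : Chart 3 X, Q χ ∧ x ∈ χ.U ∧ χ.q x = 0) (hne : X.Nonempty) :
    ∃ A : Atlas 3 X, ∀ i, Q (A.χ i) := by
  obtain ⟨n, χ, idx, δ, hδ, hQ, hgood⟩ := SetA_cover hX hch hne
  choose C₁ h1 h2 using fun i => Pool.Agent.AD.BD.chart_bilip hX (χ i)
  choose C₂ h3 h4 h5 using fun (i j : Fin n) => Pool.Agent.AD.BD.chart_trans hX (χ i) (χ j)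
  have hC₁ : ∀ i, C₁ i ≤ ∑ i, C₁ i := fun i => Finset.single_le_sum (f := C₁) (fun i _ => zero_le_one.trans (h1 i)) (Finset.mem_univ i)
  have hC₂ : ∀ i j, C₂ i j ≤ ∑ i, ∑ j, C₂ i j := fun i j =>
    (Finset.single_le_sum (f := C₂ i) (fun j _ => zero_le_one.trans (h3 i j)) (Finset.mem_univ j)).trans
      (Finset.single_le_sum (f := fun i => ∑ j, C₂ i j) (fun i _ => Finset.sum_nonneg fun j _ => zero_le_one.trans (h3 i j)) (Finset.mem_univ i))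
  have hs₁ : 0 ≤ ∑ i, C₁ i := Finset.sum_nonneg fun i _ => zero_le_one.trans (h1 i)
  have hs₂ : 0 ≤ ∑ i, ∑ j, C₂ i j := Finset.sum_nonneg fun i _ => Finset.sum_nonneg fun j _ => zero_le_one.trans (h3 i j)
  set C : ℝ := 1 + ∑ i, C₁ i + ∑ i, ∑ j, C₂ i j with hC
  refine ⟨⟨n, χ, idx, δ, C, hδ, by linarith, hgood, fun i x y hx hy => ?_, fun i x y hx hy => ?_, fun i j x hx hy => ?_,
    fun i j x u hx hy => Pool.Agent.AD.BD.chart_inv (χ i) (χ j) hx hy u, fun i j x y hx hx' hy hy' => ?_⟩, hQ⟩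
  · exact (h2 i x y hx hy).1.trans (mul_le_mul_of_nonneg_right (by linarith [hC₁ i]) (norm_nonneg _))
  · exact (h2 i x y hx hy).2.trans (mul_le_mul_of_nonneg_right (by linarith [hC₁ i]) dist_nonneg)
  · exact (h4 i j x hx hy).trans (by linarith [hC₂ i j])
  · exact (h5 i j x y hx hx' hy hy').trans (mul_le_mul_of_nonneg_right (by linarith [hC₂ i j]) (by positivity))

theorem exists_setting (hX : IsCone X) (hch : Charts 3 X) (hne : X.Nonempty) {Λ : AddSubgroup (Vd 2)} {u : EN N → Vd 2} (hu : TorusMapV X Λ u)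
    (hΛ : DiscreteSub Λ) (hcpt : ∃ C : ℝ, ∀ b : Vd 2, ∃ l ∈ Λ, ‖b - l‖ ≤ C) {m J : ℕ} (hm : 1 ≤ m) (Ω : Fin J → TForm 3 3 X m) (hΩ : TNoZero Ω)
    (hfib : ∀ F : ℂ → EN N, Differentiable ℂ F → (∀ z, F z ∈ X) → (∀ z, u (F z) - u (F 0) ∈ Λ) → ∀ z, pr (F z) = pr (F 0)) :
    ∃ S : Setting X, S.Λ = Λ ∧ S.u = u := by
  obtain ⟨A, hA⟩ := SetA_atlas (Q := SetA_Q Λ u) hX (SetA_charts hch hu) hne
  choose β hβ1 hβ2 using hA
  exact ⟨⟨Λ, u, m, J, Ω, A, β, hX, hch, hne, hu, hΛ, hcpt, hm, hΩ, hβ1, hβ2, hfib⟩, rfl, rfl⟩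

theorem Setting.hit_iff (S : Setting X) (v : Vd 2) {x : EN N} (hx : x ∈ X) : S.Hit v x ↔ ∀ w, Tan X x w → om v (S.torus.du x w) = 0 := by
  obtain ⟨hX, hU, -⟩ := S.A.good x hx x hx (by rw [dist_self]; exact S.A.δ_pos.le)
  obtain ⟨hb, c, hc, hxc⟩ := (S.A.χ (S.ix x)).surj x hX hU
  have hq : AnalyticAt ℂ (S.A.χ (S.ix x)).q x := (S.A.χ (S.ix x)).q_an x hU
  have hβ : AnalyticAt ℂ (S.β (S.ix x)) ((S.A.χ (S.ix x)).q x) := S.β_an _ _ hb
  have hl : AnalyticAt ℂ (fun y => S.β (S.ix x) ((S.A.χ (S.ix x)).q y)) x :=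
    AnalyticAt.comp (g := S.β (S.ix x)) (f := (S.A.χ (S.ix x)).q) hβ hq
  have hlu : ∀ᶠ y in 𝓝 x, y ∈ X → S.u y - S.β (S.ix x) ((S.A.χ (S.ix x)).q y) ∈ S.Λ := by
    filter_upwards [(S.A.χ (S.ix x)).isOpen_U.mem_nhds hU] with y hy hyX
    exact S.β_eq _ y hyX hy
  have hfd : fderiv ℂ (fun y => S.β (S.ix x) ((S.A.χ (S.ix x)).q y)) x =
      (fderiv ℂ (S.β (S.ix x)) ((S.A.χ (S.ix x)).q x)).comp (fderiv ℂ (S.A.χ (S.ix x)).q x) :=
    (HasFDerivAt.comp (g := S.β (S.ix x)) (f := (S.A.χ (S.ix x)).q) x hβ.differentiableAt.hasFDerivAt hq.differentiableAt.hasFDerivAt).fderiv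
  have hdu : ∀ w, Tan X x w → S.torus.du x w = fderiv ℂ (S.β (S.ix x)) ((S.A.χ (S.ix x)).q x) (fderiv ℂ (S.A.χ (S.ix x)).q x w) := by
    intro w hw
    rw [S.torus.du_eq S.disc hw hl hlu, hfd]
    rfl
  constructor
  · intro h w hw
    rw [hdu w hw]
    have h1 : ∀ l, om v (fderiv ℂ (S.β (S.ix x)) ((S.A.χ (S.ix x)).q x) (Pi.single l 1)) = 0 := fun l => congrFun h l
    have h2 : ∀ p : Vd 3, om v (fderiv ℂ (S.β (S.ix x)) ((S.A.χ (S.ix x)).q x) p) =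
        ∑ l, p l * om v (fderiv ℂ (S.β (S.ix x)) ((S.A.χ (S.ix x)).q x) (Pi.single l 1)) := by
      intro p
      have h3 : p = ∑ l, p l • (Pi.single l 1 : Vd 3) := by
        ext k
        simp [Finset.sum_apply, Pi.single_apply]
      conv_lhs => rw [h3]
      rw [map_sum]
      simp only [map_smul, om, Finset.sum_apply, Pi.smul_apply, smul_eq_mul, Finset.mul_sum, ← Finset.sum_sub_distrib]
      refine Finset.sum_congr rfl fun l _ => ?_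
      ring
    rw [h2]
    exact Finset.sum_eq_zero fun l _ => by rw [h1, mul_zero]
  · intro h
    funext l
    show om v (fderiv ℂ (S.β (S.ix x)) ((S.A.χ (S.ix x)).q x) (Pi.single l 1)) = 0
    have ht : Tan X ((S.A.χ (S.ix x)).σ ((S.A.χ (S.ix x)).q x)) (fderiv ℂ (S.A.χ (S.ix x)).σ ((S.A.χ (S.ix x)).q x) (Pi.single l 1)) :=
      (S.A.χ (S.ix x)).tan (Pool.Agent.H22.W.isOpenPart_self S.cone) hb ((S.A.χ (S.ix x)).σ_mem _ hb).1 _
    have ht' := Pool.Agent.H22.W.tan_smul S.cone ht hc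
    rw [← hxc] at ht'
    have h1 := h _ ht'
    rw [hdu _ ht'] at h1
    have h2 : fderiv ℂ (S.A.χ (S.ix x)).q x (c • fderiv ℂ (S.A.χ (S.ix x)).σ ((S.A.χ (S.ix x)).q x) (Pi.single l 1)) = Pi.single l 1 := by
      have h3 := (S.A.χ (S.ix x)).fderiv_q_smul ((S.A.χ (S.ix x)).σ_mem _ hb).2.1
        (fderiv ℂ (S.A.χ (S.ix x)).σ ((S.A.χ (S.ix x)).q x) (Pi.single l 1)) hc 0
      rw [zero_smul, add_zero, ← hxc, (S.A.χ (S.ix x)).fderiv_sigma hb] at h3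
      exact h3
    rwa [h2] at h1

end Pool.Agent.TH
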