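import Pool.Agent.TH.Fam
import Pool.Agent.H17.GlobalLift

/-!
# TH Ext: every curve extends to a map of `ℂ²`

* `fam_curve`: for `τ ∈ U` the map `Φ τ` is `pr ∘ G` with `G ∈ G v (b + τ e)` (global lift: `H17.exists_global_lift` as in `H62.EF.limit_curves`).
* `fam_unique`: `U` open and preconnected, `Φ, Φ'` families over the same `b` on `U`, `Φ τ₁ = Φ' τ₁` for one `τ₁ ∈ U`: then they agree on `U`.  The set where `Φ τ = Φ' τ` is closed in `U`; it is open by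
  `sep` on `ball 0 R₁` (`(z, τ) ↦ Φ τ z` is continuous, so for `τ` near `τ₁` the distance of `Φ τ` and `Φ τ₁` is `≤ ε₁ / 2` on `ball 0 R₁`).
* `fam_grow`: a family on `ball 0 R` extends to `ball 0 (R + r₀ / 2)`: for `τ ∈ ball 0 (R + r₀ / 2)` choose `c ∈ ball 0 R` with `‖τ - c‖ < r₀`, and the family `Φ_c` on `ball c r₀` through `Φ c` (`exists_fam` for the
  curve `Φ c`).  On `ball c r₀ ∩ ball 0 R` (convex, contains `c`) it agrees with `Φ`; on `ball c r₀ ∩ ball c' r₀` (convex, contains `(c + c') / 2 ∈ ball 0 R` if nonempty) `Φ_c = Φ_c'`.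
* `extend`: so there are families on all `ball 0 R`, compatible, so on `ℂ`; `Ψ w = Φ τ z` for `w = z v + τ e` (linear coordinates, `om v e ≠ 0`).
-/

set_option autoImplicit false

open Topology Filter Metric

namespace Pool.Agent.TH

open Pool.Agent.H36.BP (EN fs wd Sub)
open Pool.Agent.H14.PP (IsCone CurveAt Tan)
open Pool.Agent.H62.EF (MN pr pr_smul pr_eq_iff continuousAt_pr)
open Pool.Agent.H5.BD (BC evp)
open Pool.Agent.AD (Vd Chart Charts TorusMapV DiscreteSub)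
open Pool.Agent.AD.BD (Atlas LC Good qc)

variable {N : ℕ} {X : Set (EN N)}

private lemma ext_ne_zero {X : Set (EN N)} (hX : IsCone X) {x : EN N} (hx : x ∈ X) : x ≠ 0 := by
  rintro rfl
  exact hX.zero_notMem hx

private lemma ext_coord_an {f : ℂ → EN N} {z : ℂ} (hf : AnalyticAt ℂ f z) (i : Fin (N + 1)) :
    AnalyticAt ℂ (fun w => f w i) z := by
  exact ((EuclideanSpace.proj (𝕜 := ℂ) i : EN N →L[ℂ] ℂ).analyticAt _).comp hf

namespace Setting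

variable (S : Setting X)

theorem fam_curve {v e b : Vd 2} {U : Set ℂ} {Φ : ℂ → ℂ → MN N} (h : S.IsFam v e b U Φ) {τ : ℂ} (hτ : τ ∈ U) :
    ∃ G ∈ S.G v (b + τ • e), ∀ z, Φ τ z = pr (G z) := by
  classical
  have hX := S.cone
  have h1 : ∀ z₀ : ℂ, ∃ ψ : ℂ → EN N, AnalyticAt ℂ ψ z₀ ∧
      ∀ᶠ z in 𝓝 z₀, ψ z ∈ X ∧ Φ τ z = pr (ψ z) ∧ S.u (ψ z) - (b + τ • e + z • v) ∈ S.Λ := by
    intro z₀
    obtain ⟨φ, hφ, hev⟩ := h τ hτ z₀
    have hc : ContinuousAt (fun z : ℂ => (z, τ)) z₀ := by fun_prop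
    refine ⟨fun z => φ (z, τ), ?_, ?_⟩
    · have h2 : AnalyticAt ℂ (fun z : ℂ => (z, τ)) z₀ := analyticAt_id.prod analyticAt_const
      exact AnalyticAt.comp (g := φ) (f := fun z : ℂ => (z, τ)) hφ h2
    · filter_upwards [hc.eventually hev] with z hz
      obtain ⟨h3, h4, h5⟩ := hz
      refine ⟨h3, h4, ?_⟩
      have h6 : b + τ • e + z • v = b + z • v + τ • e := by abel
      rw [h6]
      exact h5
  choose ψ hψa hψ using h1
  have hψX : ∀ z, ψ z z ∈ X := fun z => (hψ z).self_of_nhds.1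
  have hψp : ∀ z, Φ τ z = pr (ψ z z) := fun z => (hψ z).self_of_nhds.2.1
  have hψu : ∀ z, S.u (ψ z z) - (b + τ • e + z • v) ∈ S.Λ := fun z => (hψ z).self_of_nhds.2.2
  have hofne : ∀ w : EN N, w ≠ 0 → w.ofLp ≠ 0 := by
    intro w hw h
    apply hw
    ext j
    exact congrFun h j
  have hψ0 : ∀ z, ψ z z ≠ 0 := fun z => ext_ne_zero hX (hψX z)
  set f : ℂ → Pool.Agent.H17.PN N := fun z => Projectivization.mk ℂ (ψ z z).ofLp (hofne _ (hψ0 z)) with hf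
  have hfhol : Pool.Agent.H17.HolomorphicInto f Set.univ := by
    intro z₀ _
    refine ⟨fun w => (ψ z₀ w).ofLp, ?_, ?_⟩
    · rw [analyticAt_pi_iff]
      intro j
      exact ext_coord_an (hψa z₀) j
    · filter_upwards [hψ z₀] with z hz
      obtain ⟨h2, h3, -⟩ := hz
      have h4 := ext_ne_zero hX h2
      refine ⟨hofne _ h4, ?_⟩
      have h5 : pr (ψ z z) = pr (ψ z₀ z) := by rw [← hψp z, h3]
      obtain ⟨c, hc, h6⟩ := (pr_eq_iff (hψ0 z) h4).mp h5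
      rw [hf, Projectivization.mk_eq_mk_iff']
      exact ⟨c, by rw [h6]; rfl⟩
  obtain ⟨x, hx⟩ := Pool.Agent.H17.exists_global_lift hfhol
  set G : ℂ → EN N := fun z => WithLp.toLp 2 (fun j => (x j : ℂ → ℂ) z) with hG
  have hGd : Differentiable ℂ G := by
    have h1 : Differentiable ℂ (fun z => (fun j => (x j : ℂ → ℂ) z)) :=
      differentiable_pi.2 fun j => (x j).diff
    exact (PiLp.continuousLinearEquiv 2 ℂ (fun _ : Fin (N + 1) => ℂ)).symm.differentiable.comp h1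
  have hGc : ∀ z, ∃ c : ℂ, c ≠ 0 ∧ ψ z z = c • G z := by
    intro z
    obtain ⟨h1, h2⟩ := hx z
    obtain ⟨c, hc, h3⟩ := Pool.Agent.H17.mk_eq_mk_cross h2
    refine ⟨c, hc, ?_⟩
    ext j
    exact h3 j
  have hGX : ∀ z, G z ∈ X := by
    intro z
    obtain ⟨c, hc, h1⟩ := hGc z
    have h2 := hX.smul_mem _ (hψX z) c⁻¹ (inv_ne_zero hc)
    rwa [h1, smul_smul, inv_mul_cancel₀ hc, one_smul] at h2
  refine ⟨G, ⟨hGd, hGX, fun z => ?_⟩, fun z => ?_⟩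
  · obtain ⟨c, hc, h1⟩ := hGc z
    have h2 := S.torus.smul _ (hGX z) c hc
    rw [← h1] at h2
    have h3 := S.Λ.sub_mem (hψu z) h2
    have h4 : S.u (G z) - (b + τ • e + z • v) = S.u (ψ z z) - (b + τ • e + z • v) - (S.u (ψ z z) - S.u (G z)) := by abel
    rw [h4]
    exact h3
  · obtain ⟨c, hc, h1⟩ := hGc z
    rw [hψp z, h1, pr_smul _ hc]

/-- a family is continuous -/
theorem ext_cont {v e b : Vd 2} {U : Set ℂ} {Φ : ℂ → ℂ → MN N} (h : S.IsFam v e b U Φ) {τ : ℂ} (hτ : τ ∈ U) (z : ℂ) :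
    ContinuousAt (fun y : ℂ × ℂ => Φ y.2 y.1) (z, τ) := by
  obtain ⟨φ, hφ, hev⟩ := h τ hτ z
  have h1 : φ (z, τ) ≠ 0 := ext_ne_zero S.cone hev.self_of_nhds.1
  have h2 : ContinuousAt (fun y => pr (φ y)) (z, τ) := ContinuousAt.comp (g := pr) (f := φ) (continuousAt_pr h1) hφ.continuousAt
  refine h2.congr ?_
  filter_upwards [hev] with y hy
  exact hy.2.1.symm

theorem fam_unique {v : Vd 2} (hD : S.Dir v) {e b : Vd 2} {U : Set ℂ} (hU : IsOpen U) (hUc : IsPreconnected U) {Φ Φ' : ℂ → ℂ → MN N} (h : S.IsFam v e b U Φ)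
    (h' : S.IsFam v e b U Φ') {τ₁ : ℂ} (hτ₁ : τ₁ ∈ U) (heq : ∀ z, Φ τ₁ z = Φ' τ₁ z) : ∀ τ ∈ U, ∀ z, Φ τ z = Φ' τ z := by
  obtain ⟨ε₁, R₁, hε₁, hR₁, hsep⟩ := S.sep hD
  have hdc : ∀ τ ∈ U, ∀ z, ContinuousAt (fun y : ℂ × ℂ => dist (Φ y.2 y.1) (Φ' y.2 y.1)) (z, τ) := by
    intro τ hτ z
    exact (S.ext_cont h hτ z).dist (S.ext_cont h' hτ z)
  set A : Set ℂ := {τ | τ ∈ U ∧ ∀ z, Φ τ z = Φ' τ z} with hA
  set B : Set ℂ := {τ | τ ∈ U ∧ ∃ z, Φ τ z ≠ Φ' τ z} with hB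
  have hBo : IsOpen B := by
    rw [isOpen_iff_mem_nhds]
    rintro τ ⟨hτ, z, hz⟩
    have h1 := hdc τ hτ z
    have h2 : ContinuousAt (fun t : ℂ => dist (Φ t z) (Φ' t z)) τ := by
      have h3 : ContinuousAt (fun t : ℂ => (z, t)) τ := by fun_prop
      exact ContinuousAt.comp (g := fun y : ℂ × ℂ => dist (Φ y.2 y.1) (Φ' y.2 y.1)) (f := fun t : ℂ => (z, t)) h1 h3
    have h4 : 0 < dist (Φ τ z) (Φ' τ z) := dist_pos.mpr hz
    filter_upwards [h2.eventually (lt_mem_nhds h4), hU.mem_nhds hτ] with t ht htU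
    exact ⟨htU, z, dist_pos.mp ht⟩
  have hAo : IsOpen A := by
    rw [isOpen_iff_mem_nhds]
    rintro τ ⟨hτ, hz⟩
    -- tube lemma
    have h1 : ∀ z ∈ closedBall (0 : ℂ) R₁, ∀ᶠ y in 𝓝 (z, τ), dist (Φ y.2 y.1) (Φ' y.2 y.1) < ε₁ := by
      intro z _
      have h2 := hdc τ hτ z
      have h3 : dist (Φ τ z) (Φ' τ z) < ε₁ := by rw [hz z, dist_self]; exact hε₁
      exact h2.eventually (gt_mem_nhds h3)
    have h2 : ∀ᶠ t in 𝓝 τ, ∀ z ∈ closedBall (0 : ℂ) R₁, dist (Φ t z) (Φ' t z) < ε₁ := by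
      have h3 := (isCompact_closedBall (0 : ℂ) R₁).eventually_forall_of_forall_eventually (x₀ := τ)
        (P := fun t z => dist (Φ t z) (Φ' t z) < ε₁) (fun z hz => ?_)
      · exact h3
      · have h4 := h1 z hz
        have h5 : ContinuousAt (fun y : ℂ × ℂ => (y.2, y.1)) (τ, z) := by fun_prop
        exact h5.eventually h4
    filter_upwards [h2, hU.mem_nhds hτ] with t ht htU
    refine ⟨htU, ?_⟩
    obtain ⟨G, hG, hGp⟩ := S.fam_curve h htU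
    obtain ⟨G', hG', hGp'⟩ := S.fam_curve h' htU
    have h3 := hsep (b + t • e) G hG G' hG' 0 (fun z hz => ?_)
    · intro z
      rw [hGp, hGp', h3]
    · have h4 := ht z (ball_subset_closedBall hz)
      rw [hGp, hGp'] at h4
      exact h4.le
  have hdisj : Disjoint A B := by
    rw [Set.disjoint_left]
    rintro t ⟨_, h1⟩ ⟨_, z, h2⟩
    exact h2 (h1 z)
  have hcov : U ⊆ A ∪ B := by
    intro t ht
    by_cases h1 : ∀ z, Φ t z = Φ' t z
    · exact Or.inl ⟨ht, h1⟩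
    · push Not at h1
      exact Or.inr ⟨ht, h1⟩
  have hsub := hUc.subset_left_of_subset_union hAo hBo hdisj hcov ⟨τ₁, hτ₁, hτ₁, heq⟩
  intro τ hτ z
  exact (hsub hτ).2 z

/-- translation of a family in the parameter -/
theorem ext_shift {v e b : Vd 2} {r : ℝ} {Φ : ℂ → ℂ → MN N} {c : ℂ} (h : S.IsFam v e (b + c • e) (ball 0 r) Φ) :
    S.IsFam v e b (ball c r) (fun τ z => Φ (τ - c) z) := by
  intro τ₀ hτ₀ z₀
  have h1 : τ₀ - c ∈ ball (0 : ℂ) r := by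
    rw [mem_ball, dist_zero_right, ← dist_eq_norm]
    exact hτ₀
  obtain ⟨φ, hφ, hev⟩ := h (τ₀ - c) h1 z₀
  have hc : ContinuousAt (fun y : ℂ × ℂ => (y.1, y.2 - c)) (z₀, τ₀) := by fun_prop
  refine ⟨fun y => φ (y.1, y.2 - c), ?_, ?_⟩
  · have h2 : AnalyticAt ℂ (fun y : ℂ × ℂ => (y.1, y.2 - c)) (z₀, τ₀) :=
      analyticAt_fst.prod (analyticAt_snd.sub analyticAt_const)
    exact AnalyticAt.comp (g := φ) (f := fun y : ℂ × ℂ => (y.1, y.2 - c)) hφ h2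
  · filter_upwards [hc.eventually hev] with y hy
    obtain ⟨h3, h4, h5⟩ := hy
    refine ⟨h3, h4, ?_⟩
    have h6 : b + y.1 • v + y.2 • e = b + c • e + y.1 • v + (y.2 - c) • e := by
      rw [sub_smul]; abel
    rw [h6]
    exact h5

theorem ext_mono {v e b : Vd 2} {U V : Set ℂ} {Φ : ℂ → ℂ → MN N} (h : S.IsFam v e b U Φ) (hVU : V ⊆ U) : S.IsFam v e b V Φ :=
  fun τ hτ z => h τ (hVU hτ) z

/-- a map which is locally (in the parameter) equal to families is a family -/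
theorem ext_local {v e b : Vd 2} {U : Set ℂ} {Φ : ℂ → ℂ → MN N}
    (h : ∀ τ₀ ∈ U, ∃ (V : Set ℂ) (Φ' : ℂ → ℂ → MN N), V ∈ 𝓝 τ₀ ∧ S.IsFam v e b V Φ' ∧ ∀ τ ∈ V, ∀ z, Φ τ z = Φ' τ z) : S.IsFam v e b U Φ := by
  intro τ₀ hτ₀ z₀
  obtain ⟨V, Φ', hV, hF, heq⟩ := h τ₀ hτ₀
  obtain ⟨φ, hφ, hev⟩ := hF τ₀ (mem_of_mem_nhds hV) z₀
  refine ⟨φ, hφ, ?_⟩
  have hc : ContinuousAt (fun y : ℂ × ℂ => y.2) (z₀, τ₀) := by fun_prop
  filter_upwards [hev, hc.eventually hV] with y hy hyV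
  exact ⟨hy.1, by rw [heq _ hyV]; exact hy.2.1, hy.2.2⟩

theorem ext_grow {v : Vd 2} (hD : S.Dir v) {e b : Vd 2} {r₀ : ℝ} (hr₀ : 0 < r₀)
    (hfam : ∀ b, ∀ F ∈ S.G v b, ∃ Φ : ℂ → ℂ → MN N, S.IsFam v e b (ball 0 r₀) Φ ∧ ∀ z, Φ 0 z = pr (F z))
    {R : ℝ} (hR : 0 < R) {Φ : ℂ → ℂ → MN N} (h : S.IsFam v e b (ball 0 R) Φ) :
    ∃ Φ' : ℂ → ℂ → MN N, S.IsFam v e b (ball 0 (R + r₀ / 2)) Φ' ∧ ∀ z, Φ' 0 z = Φ 0 z := by
  -- the local families
  have h1 : ∀ c : ℂ, ∃ Ψ : ℂ → ℂ → MN N, c ∈ ball (0 : ℂ) R → S.IsFam v e b (ball c r₀) Ψ ∧ ∀ z, Ψ c z = Φ c z := by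
    intro c
    by_cases hc : c ∈ ball (0 : ℂ) R
    · obtain ⟨G, hG, hGp⟩ := S.fam_curve h hc
      obtain ⟨Φc, hΦc, hΦc0⟩ := hfam _ G hG
      refine ⟨fun τ z => Φc (τ - c) z, fun _ => ⟨S.ext_shift hΦc, fun z => ?_⟩⟩
      rw [hGp z]
      simp only [sub_self]
      exact hΦc0 z
    · exact ⟨Φ, fun h => absurd h hc⟩
  choose Ψ hΨ using h1
  -- agreement with `Φ`
  have h2 : ∀ c ∈ ball (0 : ℂ) R, ∀ τ ∈ ball c r₀ ∩ ball 0 R, ∀ z, Ψ c τ z = Φ τ z := by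
    intro c hc
    exact S.fam_unique hD (isOpen_ball.inter isOpen_ball) ((convex_ball c r₀).inter (convex_ball 0 R)).isPreconnected
      (S.ext_mono (hΨ c hc).1 Set.inter_subset_left) (S.ext_mono h Set.inter_subset_right) (τ₁ := c)
      ⟨mem_ball_self hr₀, hc⟩ (hΨ c hc).2
  -- agreement of two local families
  have h3 : ∀ c ∈ ball (0 : ℂ) R, ∀ c' ∈ ball (0 : ℂ) R, ∀ τ ∈ ball c r₀ ∩ ball c' r₀, ∀ z, Ψ c τ z = Ψ c' τ z := by
    intro c hc c' hc' τ hτ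
    have hd : ‖c - c'‖ < 2 * r₀ := by
      have h4 := hτ.1
      have h5 := hτ.2
      rw [mem_ball] at h4 h5
      have h6 : dist c c' ≤ dist τ c + dist τ c' := dist_triangle_left c c' τ
      rw [← dist_eq_norm]
      linarith
    have hm1 : midpoint ℝ c c' ∈ ball c r₀ := by
      rw [mem_ball, dist_comm, dist_left_midpoint, dist_eq_norm]
      simp only [Real.norm_ofNat]
      linarith
    have hm2 : midpoint ℝ c c' ∈ ball c' r₀ := by
      rw [mem_ball, dist_midpoint_right, dist_eq_norm]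
      simp only [Real.norm_ofNat]
      linarith
    have hm3 : midpoint ℝ c c' ∈ ball (0 : ℂ) R := (convex_ball 0 R).midpoint_mem hc hc'
    refine S.fam_unique hD (isOpen_ball.inter isOpen_ball) ((convex_ball c r₀).inter (convex_ball c' r₀)).isPreconnected
      (S.ext_mono (hΨ c hc).1 Set.inter_subset_left) (S.ext_mono (hΨ c' hc').1 Set.inter_subset_right) (τ₁ := midpoint ℝ c c')
      ⟨hm1, hm2⟩ (fun z => ?_) τ hτ
    rw [h2 c hc _ ⟨hm1, hm3⟩, h2 c' hc' _ ⟨hm2, hm3⟩]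
  -- the centre
  set s : ℝ := R / (R + r₀ / 2) with hs
  have hRr : 0 < R + r₀ / 2 := by positivity
  have hs0 : 0 < s := div_pos hR hRr
  have hs1 : s < 1 := by rw [hs, div_lt_one hRr]; linarith
  set c : ℂ → ℂ := fun τ => (s : ℂ) * τ with hc
  have hcR : ∀ τ ∈ ball (0 : ℂ) (R + r₀ / 2), c τ ∈ ball (0 : ℂ) R := by
    intro τ hτ
    rw [mem_ball, dist_zero_right] at hτ ⊢
    rw [hc, norm_mul, Complex.norm_real, Real.norm_of_nonneg hs0.le]
    calc s * ‖τ‖ < s * (R + r₀ / 2) := by gcongr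
      _ = R := by rw [hs]; field_simp
  have hcr : ∀ τ ∈ ball (0 : ℂ) (R + r₀ / 2), τ ∈ ball (c τ) r₀ := by
    intro τ hτ
    rw [mem_ball, dist_zero_right] at hτ
    rw [mem_ball, dist_eq_norm]
    have h4 : τ - c τ = ((1 - s : ℝ) : ℂ) * τ := by rw [hc]; push_cast; ring
    rw [h4, norm_mul, Complex.norm_real, Real.norm_of_nonneg (by linarith)]
    calc (1 - s) * ‖τ‖ ≤ (1 - s) * (R + r₀ / 2) := by gcongr
      _ = r₀ / 2 := by rw [hs]; field_simp; ring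
      _ < r₀ := by linarith
  refine ⟨fun τ z => Ψ (c τ) τ z, ?_, ?_⟩
  · apply S.ext_local
    intro τ₀ hτ₀
    refine ⟨ball (c τ₀) r₀ ∩ ball 0 (R + r₀ / 2), Ψ (c τ₀), ?_, S.ext_mono (hΨ _ (hcR τ₀ hτ₀)).1 Set.inter_subset_left, ?_⟩
    · exact (isOpen_ball.inter isOpen_ball).mem_nhds ⟨hcr τ₀ hτ₀, hτ₀⟩
    · intro τ hτ z
      exact h3 (c τ) (hcR τ hτ.2) (c τ₀) (hcR τ₀ hτ₀) τ ⟨hcr τ hτ.2, hτ.1⟩ z
  · intro z
    have h4 : (0 : ℂ) ∈ ball (0 : ℂ) (R + r₀ / 2) := mem_ball_self hRr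
    exact h2 (c 0) (hcR 0 h4) 0 ⟨hcr 0 h4, mem_ball_self hR⟩ z

theorem extend {v : Vd 2} (hD : S.Dir v) {b : Vd 2} {F : ℂ → EN N} (hF : F ∈ S.G v b) : ∃ Ψ ∈ S.FF b, ∀ z : ℂ, pr (F z) = Ψ (z • v) := by
  obtain ⟨e, he0, he⟩ := S.exists_real hD
  obtain ⟨r₀, hr₀, hfam⟩ := S.exists_fam hD he0 he
  -- families on all the balls
  have h1 : ∀ n : ℕ, ∃ Φ : ℂ → ℂ → MN N, S.IsFam v e b (ball 0 (r₀ + n * (r₀ / 2))) Φ ∧ ∀ z, Φ 0 z = pr (F z) := by
    intro n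
    induction n with
    | zero =>
      obtain ⟨Φ, h2, h3⟩ := hfam b F hF
      exact ⟨Φ, by simpa using h2, h3⟩
    | succ n ih =>
      obtain ⟨Φ, h2, h3⟩ := ih
      obtain ⟨Φ', h4, h5⟩ := S.ext_grow hD hr₀ hfam (R := r₀ + n * (r₀ / 2)) (by positivity) h2
      refine ⟨Φ', ?_, fun z => (h5 z).trans (h3 z)⟩
      have h6 : r₀ + ((n + 1 : ℕ) : ℝ) * (r₀ / 2) = r₀ + n * (r₀ / 2) + r₀ / 2 := by push_cast; ring
      rw [h6]
      exact h4
  choose Φn hΦn hΦ0 using h1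
  have hmono : ∀ {m n : ℕ}, m ≤ n → ball (0 : ℂ) (r₀ + m * (r₀ / 2)) ⊆ ball 0 (r₀ + n * (r₀ / 2)) := by
    intro m n hmn
    apply ball_subset_ball
    have : (m : ℝ) ≤ n := by exact_mod_cast hmn
    gcongr
  have hagr : ∀ m n : ℕ, m ≤ n → ∀ τ ∈ ball (0 : ℂ) (r₀ + m * (r₀ / 2)), ∀ z, Φn m τ z = Φn n τ z := by
    intro m n hmn
    refine S.fam_unique hD isOpen_ball (convex_ball _ _).isPreconnected (hΦn m) (S.ext_mono (hΦn n) (hmono hmn)) (τ₁ := 0)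
      (mem_ball_self (by positivity)) (fun z => ?_)
    rw [hΦ0, hΦ0]
  have hex : ∀ τ : ℂ, ∃ n : ℕ, τ ∈ ball (0 : ℂ) (r₀ + n * (r₀ / 2)) := by
    intro τ
    obtain ⟨n, hn⟩ := exists_nat_gt (‖τ‖ / (r₀ / 2))
    refine ⟨n, ?_⟩
    rw [mem_ball, dist_zero_right]
    rw [div_lt_iff₀ (by positivity)] at hn
    linarith
  choose k hk using hex
  set Φ : ℂ → ℂ → MN N := fun τ z => Φn (k τ) τ z with hΦ
  have hfamΦ : S.IsFam v e b Set.univ Φ := by
    apply S.ext_local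
    intro τ₀ _
    refine ⟨ball 0 (r₀ + k τ₀ * (r₀ / 2)), Φn (k τ₀), isOpen_ball.mem_nhds (hk τ₀), hΦn _, ?_⟩
    intro τ hτ z
    rcases le_total (k τ) (k τ₀) with h2 | h2
    · exact hagr _ _ h2 τ (hk τ) z
    · exact (hagr _ _ h2 τ hτ z).symm
  -- linear coordinates
  set a : Vd 2 → ℂ := fun w => om w e / om v e with ha
  set d : Vd 2 → ℂ := fun w => om v w / om v e with hd
  have hw : ∀ w : Vd 2, a w • v + d w • e = w := by
    intro w
    have h2 : om v e ≠ 0 := he0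
    ext j
    simp only [ha, hd, Pi.add_apply, Pi.smul_apply, smul_eq_mul]
    rw [div_mul_eq_mul_div, div_mul_eq_mul_div, ← add_div, div_eq_iff h2]
    fin_cases j
    · simp only [om, Fin.zero_eta, Fin.isValue]
      ring
    · simp only [om, Fin.mk_one, Fin.isValue]
      ring
  have haa : ∀ w, AnalyticAt ℂ a w := by
    intro w
    have h2 : ∀ j, AnalyticAt ℂ (fun y : Vd 2 => y j) w := fun j => (ContinuousLinearMap.proj (R := ℂ) (φ := fun _ : Fin 2 => ℂ) j).analyticAt w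
    simp only [ha, om]
    exact (((h2 0).mul analyticAt_const).sub ((h2 1).mul analyticAt_const)).div_const
  have hda : ∀ w, AnalyticAt ℂ d w := by
    intro w
    have h2 : ∀ j, AnalyticAt ℂ (fun y : Vd 2 => y j) w := fun j => (ContinuousLinearMap.proj (R := ℂ) (φ := fun _ : Fin 2 => ℂ) j).analyticAt w
    simp only [hd, om]
    exact ((analyticAt_const.mul (h2 1)).sub (analyticAt_const.mul (h2 0))).div_const
  refine ⟨fun w => Φ (d w) (a w), ?_, ?_⟩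
  · intro w
    obtain ⟨φ, hφ, hev⟩ := hfamΦ (d w) (Set.mem_univ _) (a w)
    have hg : AnalyticAt ℂ (fun y : Vd 2 => (a y, d y)) w := (haa w).prod (hda w)
    refine ⟨fun y => φ (a y, d y), AnalyticAt.comp (g := φ) (f := fun y : Vd 2 => (a y, d y)) hφ hg, ?_⟩
    filter_upwards [hg.continuousAt.eventually hev] with y hy
    obtain ⟨h3, h4, h5⟩ := hy
    refine ⟨h3, h4, ?_⟩
    have h6 : b + y = b + a y • v + d y • e := by rw [add_assoc, hw y]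
    rw [h6]
    exact h5
  · intro z
    have h2 : a (z • v) = z := by
      have h3 : om (z • v) e = z * om v e := by
        simp only [om, Pi.smul_apply, smul_eq_mul]; ring
      simp only [ha]
      rw [h3, mul_div_assoc, div_self he0, mul_one]
    have h3 : d (z • v) = 0 := by
      have h4 : om v (z • v) = 0 := by
        simp only [om, Pi.smul_apply, smul_eq_mul]; ring
      simp only [hd]
      rw [h4, zero_div]
    simp only [h2, h3]
    exact (hΦ0 (k 0) z).symm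

end Setting

end Pool.Agent.TH
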