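import Pool.Agent.TH.FFa
import Pool.Agent.TH.Sep

/-!
# TH FFin: over every point there are finitely many maps of `ℂ²`; periodicity

* `FF_inj`: let `Ψ = Ψ'` on `ℂ v`.  The set of the `w` with `Ψ (w + z v) = Ψ' (w + z v)` for all `z` contains `0`; if it contains `w` then also `w + w'` for `2 L ‖w'‖ ≤ ε₁` (`FF_lip`, `sep` for the curves of
  `FF_line`); so it is everything (`w = n (w / n)`).
* `FF_finite`: `FF b → Gs v b` is injective; `Gs v b` is finite (the proof of `Cnt.Gs_finite`; here directly: an injective sequence `Ψ n`, `FF_limit`, `sep`), or import `Cnt`.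
* `FF_per`: `FF b → FF 0`, `Ψ ↦ Ψ (· - b)` is a bijection; let `M = (card (FF 0))!`; for `l ∈ Λ` the map `Ψ ↦ Ψ (l + ·)` is a permutation of the finite set `FF b` (`FF_lat`), so its `M`-th power is the
  identity.
-/

set_option autoImplicit false

open Topology Filter Metric

namespace Pool.Agent.TH

open Pool.Agent.H36.BP (EN fs wd Sub)
open Pool.Agent.H14.PP (IsCone CurveAt Tan)
open Pool.Agent.H62.EF (MN pr)
open Pool.Agent.H5.BD (BC evp)
open Pool.Agent.AD (Vd Chart Charts TorusMapV DiscreteSub)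
open Pool.Agent.AD.BD (Atlas LC Good qc)

variable {N : ℕ} {X : Set (EN N)}

namespace Setting

variable (S : Setting X)

/-- close maps of `ℂ²` on a big disc of a line agree on the line -/
private theorem FFin_line {v : Vd 2} (hD : S.Dir v) : ∃ ε R : ℝ, 0 < ε ∧ 0 < R ∧ ∀ b, ∀ Ψ ∈ S.FF b, ∀ Ψ' ∈ S.FF b, ∀ w : Vd 2,
    (∀ z ∈ ball (0 : ℂ) R, dist (Ψ (w + z • v)) (Ψ' (w + z • v)) ≤ ε) → ∀ z : ℂ, Ψ (w + z • v) = Ψ' (w + z • v) := by
  obtain ⟨ε, R, hε, hR, hs⟩ := S.sep hD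
  refine ⟨ε, R, hε, hR, ?_⟩
  intro b Ψ h Ψ' h' w hc z
  obtain ⟨F, hF, hFe⟩ := S.FF_line h v w
  obtain ⟨G, hG, hGe⟩ := S.FF_line h' v w
  have key := hs (b + w) F hF G hG 0 (by
    intro y hy
    show dist (pr (F y)) (pr (G y)) ≤ ε
    rw [hFe y, hGe y]
    exact hc y hy) z
  rw [← hFe z, ← hGe z]
  exact key

theorem FF_inj {v : Vd 2} (hD : S.Dir v) {b : Vd 2} {Ψ Ψ' : Vd 2 → MN N} (h : Ψ ∈ S.FF b) (h' : Ψ' ∈ S.FF b) (heq : ∀ z : ℂ, Ψ (z • v) = Ψ' (z • v)) : Ψ = Ψ' := by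
  obtain ⟨ε, R, hε, hR, hs⟩ := S.FFin_line hD
  obtain ⟨L, hL, hlip⟩ := S.FF_lip
  have step : ∀ w w' : Vd 2, (∀ z : ℂ, Ψ (w + z • v) = Ψ' (w + z • v)) → 2 * L * ‖w'‖ ≤ ε →
      ∀ z : ℂ, Ψ (w + w' + z • v) = Ψ' (w + w' + z • v) := by
    intro w w' hw hw'
    refine hs b Ψ h Ψ' h' (w + w') ?_
    intro z _
    have h1 := hlip b Ψ h (w + w' + z • v) (w + z • v)
    have h2 := hlip b Ψ' h' (w + z • v) (w + w' + z • v)
    have e1 : w + w' + z • v - (w + z • v) = w' := by abel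
    have e2 : w + z • v - (w + w' + z • v) = -w' := by abel
    rw [e1] at h1
    rw [e2, norm_neg] at h2
    have h3 := dist_triangle4 (Ψ (w + w' + z • v)) (Ψ (w + z • v)) (Ψ' (w + z • v)) (Ψ' (w + w' + z • v))
    rw [hw z, dist_self] at h3
    rw [hw z] at h1
    linarith
  funext w
  obtain ⟨n, hn⟩ := exists_nat_gt (2 * L * ‖w‖ / ε)
  have hn0 : (0 : ℝ) < n := lt_of_le_of_lt (by positivity) hn
  have hnC : (n : ℂ) ≠ 0 := by
    intro h0
    have : (n : ℝ) = 0 := by exact_mod_cast h0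
    linarith
  have hsm : 2 * L * ‖((n : ℂ)⁻¹) • w‖ ≤ ε := by
    rw [norm_smul, norm_inv, Complex.norm_natCast]
    rw [div_lt_iff₀ hε] at hn
    have : 2 * L * ((n : ℝ)⁻¹ * ‖w‖) = (2 * L * ‖w‖) / n := by
      field_simp
    rw [this, div_le_iff₀ hn0]
    nlinarith
  have hind : ∀ k : ℕ, ∀ z : ℂ, Ψ ((k : ℂ) • ((n : ℂ)⁻¹ • w) + z • v) = Ψ' ((k : ℂ) • ((n : ℂ)⁻¹ • w) + z • v) := by
    intro k
    induction k with
    | zero =>
      intro z
      simpa using heq z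
    | succ k ih =>
      intro z
      have := step _ ((n : ℂ)⁻¹ • w) ih hsm z
      have e : ((k + 1 : ℕ) : ℂ) • ((n : ℂ)⁻¹ • w) = (k : ℂ) • ((n : ℂ)⁻¹ • w) + (n : ℂ)⁻¹ • w := by
        push_cast
        rw [add_smul, one_smul]
      rw [e]
      exact this
  have hfin := hind n 0
  have e : (n : ℂ) • ((n : ℂ)⁻¹ • w) + (0 : ℂ) • v = w := by
    rw [smul_smul, mul_inv_cancel₀ hnC, one_smul, zero_smul, add_zero]
  rw [e] at hfin
  exact hfin

theorem FF_finite {v : Vd 2} (hD : S.Dir v) (b : Vd 2) : (S.FF b).Finite := by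
  by_contra hinf
  obtain ⟨f, hf⟩ : ∃ f : ℕ → ↥(S.FF b), Function.Injective f := by
    have := Set.Infinite.to_subtype hinf
    exact ⟨_, (Infinite.natEmbedding ↥(S.FF b)).injective⟩
  obtain ⟨ε, R, hε, hR, hs⟩ := S.FFin_line hD
  obtain ⟨b₀, l, Φ, -, -, -, hu, -⟩ := S.FF_limit (Filter.hyperfilter ℕ) (fun _ => b) (fun n => (f n).1) (fun n => (f n).2)
  have hev := hu (R * ‖v‖) (ε / 2) (by positivity)
  obtain ⟨n, hn⟩ := hev.exists
  have hne : ∀ᶠ m in (Filter.hyperfilter ℕ : Filter ℕ), m ≠ n := by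
    have : ({n}ᶜ : Set ℕ) ∈ (Filter.hyperfilter ℕ : Filter ℕ) := Filter.compl_mem_hyperfilter_of_finite (Set.finite_singleton n)
    exact this
  obtain ⟨m, hm, hmn⟩ := (hev.and hne).exists
  apply hmn
  apply hf
  apply Subtype.ext
  have key := hs b (f m).1 (f m).2 (f n).1 (f n).2 0 (by
    intro z hz
    have hz' : ‖(0 : Vd 2) + z • v‖ ≤ R * ‖v‖ := by
      rw [zero_add, norm_smul]
      have : ‖z‖ < R := by simpa using hz
      exact mul_le_mul_of_nonneg_right this.le (norm_nonneg v)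
    have h1 := hm _ hz'
    have h2 := hn _ hz'
    have h3 := dist_triangle_right ((f m).1 (0 + z • v)) ((f n).1 (0 + z • v)) (Φ (0 + z • v))
    linarith)
  refine S.FF_inj hD (f m).2 (f n).2 ?_
  intro z
  have := key z
  rwa [zero_add] at this

/-- the translation by an element of the lattice as a permutation of the finite set of the maps over `0` -/
private noncomputable def FFin_perm (l : Vd 2) (hl : l ∈ S.Λ) : Equiv.Perm ↥(S.FF 0) where
  toFun Ψ := ⟨fun y => Ψ.1 (l + y), by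
    have h := S.FF_trans Ψ.2 l
    rw [S.FF_lat 0 hl] at h
    exact h⟩
  invFun Ψ := ⟨fun y => Ψ.1 (-l + y), by
    have h := S.FF_trans Ψ.2 (-l)
    rw [S.FF_lat 0 (S.Λ.neg_mem hl)] at h
    exact h⟩
  left_inv Ψ := by
    apply Subtype.ext
    funext y
    show Ψ.1 (l + (-l + y)) = Ψ.1 y
    rw [add_neg_cancel_left]
  right_inv Ψ := by
    apply Subtype.ext
    funext y
    show Ψ.1 (-l + (l + y)) = Ψ.1 y
    rw [neg_add_cancel_left]

private theorem FFin_perm_pow (l : Vd 2) (hl : l ∈ S.Λ) (n : ℕ) (Ψ : ↥(S.FF 0)) (y : Vd 2) :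
    ((S.FFin_perm l hl ^ n) Ψ).1 y = Ψ.1 (n • l + y) := by
  induction n generalizing y with
  | zero => simp
  | succ n ih =>
    rw [pow_succ', Equiv.Perm.mul_apply]
    show ((S.FFin_perm l hl ^ n) Ψ).1 (l + y) = _
    rw [ih, succ_nsmul, add_assoc]

theorem FF_per {v : Vd 2} (hD : S.Dir v) : ∃ M : ℕ, 1 ≤ M ∧ ∀ b, ∀ Ψ ∈ S.FF b, ∀ l ∈ S.Λ, ∀ w, Ψ (w + M • l) = Ψ w := by
  classical
  have : Fintype ↥(S.FF 0) := (S.FF_finite hD 0).fintype
  refine ⟨Fintype.card (Equiv.Perm ↥(S.FF 0)), Fintype.card_pos, ?_⟩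
  intro b Ψ h l hl w
  have h0 : (fun y => Ψ (-b + y)) ∈ S.FF 0 := by
    have h1 := S.FF_trans h (-b)
    rw [add_neg_cancel] at h1
    exact h1
  have hp := S.FFin_perm_pow l hl (Fintype.card (Equiv.Perm ↥(S.FF 0))) ⟨_, h0⟩ (b + w)
  rw [pow_card_eq_one] at hp
  have e1 : -b + (b + w) = w := neg_add_cancel_left b w
  have e2 : -b + (Fintype.card (Equiv.Perm ↥(S.FF 0)) • l + (b + w)) = w + Fintype.card (Equiv.Perm ↥(S.FF 0)) • l := by abel
  have hp' : Ψ (-b + (b + w)) = Ψ (-b + (Fintype.card (Equiv.Perm ↥(S.FF 0)) • l + (b + w))) := hp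
  rw [e1, e2] at hp'
  exact hp'.symm

end Setting

end Pool.Agent.TH
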