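import Mathlib

/-!
# TH AbsExt: extension of a real family of solutions to a holomorphic family

The unknown is a bounded function `ξ` on `ℂ`; the data are the functions `z ↦ φ z₀ z τ (ξ z)` on the discs `ball z₀ ρ`, which have to be holomorphic.
The linearised problem is bounded below (modulo the closed subspace of the holomorphic data), so it has a bounded left inverse (Hahn–Banach, one
coordinate after the other), and the equation is solved by a contraction which depends holomorphically on `τ`.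
-/

set_option autoImplicit false

open Metric Set Filter
open scoped Topology ENNReal

noncomputable section

namespace Pool.Agent.TH

/-- the space of bounded functions -/
abbrev Linf (I : Type*) : Type _ := lp (fun _ : I => ℂ) ∞

/-- a bounded function as an element of `Linf` -/
def mkLinf {I : Type*} (f : I → ℂ) (C : ℝ) (hf : ∀ i, ‖f i‖ ≤ C) : Linf I :=
  ⟨f, memℓp_infty ⟨C, by rintro _ ⟨i, rfl⟩; exact hf i⟩⟩

@[simp] theorem mkLinf_apply {I : Type*} (f : I → ℂ) (C : ℝ) (hf : ∀ i, ‖f i‖ ≤ C) (i : I) : mkLinf f C hf i = f i := rfl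

theorem norm_mkLinf_le {I : Type*} {f : I → ℂ} {C : ℝ} (hC : 0 ≤ C) (hf : ∀ i, ‖f i‖ ≤ C) : ‖mkLinf f C hf‖ ≤ C :=
  lp.norm_le_of_forall_le hC hf

theorem norm_coord_le {I : Type*} (x : Linf I) (i : I) : ‖x i‖ ≤ ‖x‖ :=
  lp.norm_apply_le_norm (by simp) x i

theorem norm_le_of_coord {I : Type*} {x : Linf I} {C : ℝ} (hC : 0 ≤ C) (h : ∀ i, ‖x i‖ ≤ C) : ‖x‖ ≤ C :=
  lp.norm_le_of_forall_le hC h

theorem sub_coord {I : Type*} (x y : Linf I) (i : I) : (x - y) i = x i - y i := rfl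

theorem add_coord {I : Type*} (x y : Linf I) (i : I) : (x + y) i = x i + y i := rfl

theorem smul_coord {I : Type*} (a : ℂ) (x : Linf I) (i : I) : (a • x) i = a * x i := rfl

/-- **Left inverse.** A linear map on `ℓ^∞(I)` which is bounded below has a bounded left inverse (Hahn–Banach, one coordinate after the
other). -/
theorem exists_leftInv {I F : Type*} [NormedAddCommGroup F] [NormedSpace ℂ F] (T : Linf I →ₗ[ℂ] F) {c : ℝ} (hc : 0 < c)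
    (hT : ∀ x, c * ‖x‖ ≤ ‖T x‖) : ∃ P : F →L[ℂ] Linf I, (∀ x, P (T x) = x) ∧ ∀ y, ‖P y‖ ≤ c⁻¹ * ‖y‖ := by
  have hinj : Function.Injective T := by
    refine (injective_iff_map_eq_zero T).2 fun x hx => ?_
    have h1 := hT x
    rw [hx, norm_zero] at h1
    have h2 : ‖x‖ ≤ 0 := by
      by_contra h
      exact absurd h1 (not_le.2 (mul_pos hc (not_le.1 h)))
    exact norm_le_zero_iff.1 h2
  obtain ⟨S, hS⟩ : ∃ S : LinearMap.range T →ₗ[ℂ] Linf I, ∀ x, S (LinearMap.rangeRestrict T x) = x := by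
    obtain ⟨e, he⟩ : ∃ e : Linf I ≃ₗ[ℂ] LinearMap.range T, e = LinearEquiv.ofInjective T hinj := ⟨_, rfl⟩
    refine ⟨e.symm.toLinearMap, fun x => ?_⟩
    have h1 : LinearMap.rangeRestrict T x = e x := by
      apply Subtype.ext
      rw [he]
      rfl
    rw [h1]
    exact e.symm_apply_apply x
  have hSn : ∀ y : LinearMap.range T, ‖S y‖ ≤ c⁻¹ * ‖y‖ := by
    rintro ⟨y, x, rfl⟩
    have h1 : S ⟨T x, x, rfl⟩ = x := hS x
    rw [h1]
    have h2 := hT x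
    have h3 : ‖(⟨T x, x, rfl⟩ : LinearMap.range T)‖ = ‖T x‖ := rfl
    rw [h3, inv_mul_eq_div, le_div_iff₀ hc, mul_comm]
    exact h2
  have hφ : ∀ i : I, ∃ g : F →L[ℂ] ℂ, (∀ y : LinearMap.range T, g y = S y i) ∧ ‖g‖ ≤ c⁻¹ := by
    intro i
    obtain ⟨f, hf⟩ : ∃ f : LinearMap.range T →ₗ[ℂ] ℂ, ∀ y, f y = S y i :=
      ⟨{ toFun := fun y => S y i
         map_add' := fun x y => by rw [map_add, add_coord]
         map_smul' := fun a x => by rw [map_smul, smul_coord, RingHom.id_apply, smul_eq_mul] }, fun _ => rfl⟩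
    have hfn : ∀ y, ‖f y‖ ≤ c⁻¹ * ‖y‖ := fun y => by
      rw [hf]
      exact (norm_coord_le _ _).trans (hSn y)
    obtain ⟨g, hg1, hg2⟩ := exists_extension_norm_eq (𝕜 := ℂ) (LinearMap.range T) (f.mkContinuous c⁻¹ hfn)
    refine ⟨g, fun y => ?_, ?_⟩
    · rw [hg1 y]
      exact hf y
    · rw [hg2]
      exact LinearMap.mkContinuous_norm_le _ (inv_nonneg.2 hc.le) _
  choose g hg1 hg2 using hφ
  have hgy : ∀ (y : F) (i : I), ‖g i y‖ ≤ c⁻¹ * ‖y‖ := fun y i =>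
    ((g i).le_opNorm y).trans (mul_le_mul_of_nonneg_right (hg2 i) (norm_nonneg _))
  have hcy : ∀ y : F, 0 ≤ c⁻¹ * ‖y‖ := fun y => mul_nonneg (inv_nonneg.2 hc.le) (norm_nonneg _)
  obtain ⟨P₀, hP₀⟩ : ∃ P₀ : F →ₗ[ℂ] Linf I, ∀ y i, P₀ y i = g i y :=
    ⟨{ toFun := fun y => mkLinf (fun i => g i y) (c⁻¹ * ‖y‖) (hgy y)
       map_add' := fun x y => by
        apply lp.ext
        funext i
        rw [add_coord, mkLinf_apply, mkLinf_apply, mkLinf_apply, map_add]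
       map_smul' := fun a x => by
        apply lp.ext
        funext i
        rw [RingHom.id_apply, smul_coord, mkLinf_apply, mkLinf_apply, map_smul, smul_eq_mul] }, fun _ _ => rfl⟩
  have hP₀n : ∀ y, ‖P₀ y‖ ≤ c⁻¹ * ‖y‖ := fun y => norm_le_of_coord (hcy y) fun i => by rw [hP₀]; exact hgy y i
  refine ⟨P₀.mkContinuous c⁻¹ hP₀n, fun x => ?_, hP₀n⟩
  apply lp.ext
  funext i
  have h1 : (P₀.mkContinuous c⁻¹ hP₀n) (T x) i = P₀ (T x) i := rfl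
  rw [h1, hP₀]
  have h2 := hg1 i ⟨T x, x, rfl⟩
  have h3 : S ⟨T x, x, rfl⟩ = x := hS x
  rw [h3] at h2
  exact h2

/-- the second order Taylor estimate -/
theorem taylor_two {g : ℂ → ℂ} {τ₀ : ℂ} {δ M : ℝ} (hδ : 0 < δ) (hg : DifferentiableOn ℂ g (ball τ₀ δ))
    (hM : ∀ τ ∈ ball τ₀ δ, ‖g τ‖ ≤ M) :
    ‖deriv g τ₀‖ ≤ 2 * M / δ ∧ ∀ τ ∈ ball τ₀ δ, ‖g τ - g τ₀ - (τ - τ₀) * deriv g τ₀‖ ≤ 4 * M / δ / δ * ‖τ - τ₀‖ ^ 2 := by
  have h0 : τ₀ ∈ ball τ₀ δ := mem_ball_self hδ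
  have hmaps : MapsTo g (ball τ₀ δ) (closedBall (g τ₀) (2 * M)) := by
    intro τ hτ
    rw [mem_closedBall, dist_eq_norm]
    calc ‖g τ - g τ₀‖ ≤ ‖g τ‖ + ‖g τ₀‖ := norm_sub_le _ _
      _ ≤ 2 * M := by linarith [hM τ hτ, hM τ₀ h0]
  have hh : DifferentiableOn ℂ (dslope g τ₀) (ball τ₀ δ) :=
    (Complex.differentiableOn_dslope (isOpen_ball.mem_nhds h0)).2 hg
  have hb : ∀ τ ∈ ball τ₀ δ, ‖dslope g τ₀ τ‖ ≤ 2 * M / δ := fun τ hτ =>
    Complex.norm_dslope_le_div_of_mapsTo_ball hg hmaps hτ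
  have hmaps2 : MapsTo (dslope g τ₀) (ball τ₀ δ) (closedBall (dslope g τ₀ τ₀) (4 * M / δ)) := by
    intro τ hτ
    rw [mem_closedBall, dist_eq_norm]
    calc ‖dslope g τ₀ τ - dslope g τ₀ τ₀‖ ≤ ‖dslope g τ₀ τ‖ + ‖dslope g τ₀ τ₀‖ := norm_sub_le _ _
      _ ≤ 2 * M / δ + 2 * M / δ := add_le_add (hb τ hτ) (hb τ₀ h0)
      _ = 4 * M / δ := by ring
  refine ⟨by rw [← dslope_same]; exact hb τ₀ h0, fun τ hτ => ?_⟩
  have h1 := Complex.dist_le_div_mul_dist_of_mapsTo_ball hh hmaps2 hτ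
  rw [dist_eq_norm, dist_eq_norm, dslope_same] at h1
  have h2 : g τ - g τ₀ = (τ - τ₀) * dslope g τ₀ τ := by
    have := sub_smul_dslope g τ₀ τ
    rw [smul_eq_mul] at this
    exact this.symm
  rw [h2, ← mul_sub, norm_mul]
  calc ‖τ - τ₀‖ * ‖dslope g τ₀ τ - deriv g τ₀‖ ≤ ‖τ - τ₀‖ * (4 * M / δ / δ * ‖τ - τ₀‖) :=
        mul_le_mul_of_nonneg_left h1 (norm_nonneg _)
    _ = 4 * M / δ / δ * ‖τ - τ₀‖ ^ 2 := by ring

/-- **Holomorphic functions with values in `ℓ^∞`.** A bounded function with values in `ℓ^∞` whose coordinates are holomorphic is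
holomorphic. -/
theorem differentiableOn_Linf {K : Type*} {f : ℂ → Linf K} {U : Set ℂ} (hU : IsOpen U) {M : ℝ}
    (hf : ∀ k, DifferentiableOn ℂ (fun τ => f τ k) U) (hM : ∀ τ ∈ U, ‖f τ‖ ≤ M) : DifferentiableOn ℂ f U := by
  intro τ₀ hτ₀
  obtain ⟨δ, hδ, hball⟩ := Metric.isOpen_iff.1 hU τ₀ hτ₀
  have hM0 : 0 ≤ M := (norm_nonneg _).trans (hM τ₀ hτ₀)
  have h1 : ∀ k, ‖deriv (fun τ => f τ k) τ₀‖ ≤ 2 * M / δ ∧ ∀ τ ∈ ball τ₀ δ,
      ‖f τ k - f τ₀ k - (τ - τ₀) * deriv (fun τ => f τ k) τ₀‖ ≤ 4 * M / δ / δ * ‖τ - τ₀‖ ^ 2 := fun k =>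
    taylor_two hδ ((hf k).mono hball) fun τ hτ => (norm_coord_le _ _).trans (hM τ (hball hτ))
  obtain ⟨D, hD⟩ : ∃ D : Linf K, ∀ k, D k = deriv (fun τ => f τ k) τ₀ :=
    ⟨mkLinf _ (2 * M / δ) fun k => (h1 k).1, fun _ => rfl⟩
  have h2 : ∀ τ ∈ ball τ₀ δ, ‖f τ - f τ₀ - (τ - τ₀) • D‖ ≤ 4 * M / δ / δ * ‖τ - τ₀‖ ^ 2 := by
    intro τ hτ
    refine norm_le_of_coord (by positivity) fun k => ?_
    rw [sub_coord, sub_coord, smul_coord, hD]
    exact (h1 k).2 τ hτ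
  have h3 : HasDerivAt f D τ₀ := by
    rw [hasDerivAt_iff_isLittleO]
    refine Asymptotics.IsBigO.trans_isLittleO (g := fun τ => ‖τ - τ₀‖ ^ 2) ?_ ?_
    · refine Asymptotics.IsBigO.of_bound (4 * M / δ / δ) ?_
      filter_upwards [ball_mem_nhds τ₀ hδ] with τ hτ
      rw [norm_pow, norm_norm]
      exact h2 τ hτ
    · have h4 : (fun τ : ℂ => ‖τ - τ₀‖ ^ 2) = fun τ => ‖τ - τ₀‖ * ‖τ - τ₀‖ := by
        funext τ
        ring
      rw [h4]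
      refine Asymptotics.isLittleO_iff.2 fun ε hε => ?_
      filter_upwards [ball_mem_nhds τ₀ hε] with τ hτ
      rw [norm_mul, norm_norm]
      exact mul_le_mul_of_nonneg_right (by rw [mem_ball, dist_eq_norm] at hτ; exact hτ.le) (norm_nonneg _)
  exact h3.differentiableAt.differentiableWithinAt


/-- a function with values in a Banach space which is holomorphic on a disc and vanishes on the real diameter is `0` -/
theorem eq_zero_of_real {F : Type*} [NormedAddCommGroup F] [NormedSpace ℂ F] [CompleteSpace F] {g : ℂ → F} {r₀ : ℝ}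
    (hr₀ : 0 < r₀) (hg : DifferentiableOn ℂ g (ball 0 r₀)) (h0 : ∀ t : ℝ, |t| < r₀ → g t = 0) : ∀ τ ∈ ball (0 : ℂ) r₀, g τ = 0 := by
  have hmem : (0 : ℂ) ∈ ball (0 : ℂ) r₀ := mem_ball_self hr₀
  have hfreq : ∃ᶠ z in 𝓝[≠] (0 : ℂ), g z = 0 := by
    rw [Filter.frequently_iff]
    intro U hU
    obtain ⟨ε, hε, hsub⟩ := Metric.mem_nhdsWithin_iff.1 hU
    obtain ⟨t, ht⟩ : ∃ t : ℝ, t = min ε r₀ / 2 := ⟨_, rfl⟩
    have hm : 0 < min ε r₀ := lt_min hε hr₀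
    have ht0 : 0 < t := by rw [ht]; linarith
    have ht1 : t < ε := by rw [ht]; linarith [min_le_left ε r₀]
    have ht2 : t < r₀ := by rw [ht]; linarith [min_le_right ε r₀]
    refine ⟨(t : ℂ), hsub ⟨?_, ?_⟩, h0 t (by rw [abs_of_pos ht0]; exact ht2)⟩
    · rw [mem_ball_zero_iff, Complex.norm_real, Real.norm_eq_abs, abs_of_pos ht0]
      exact ht1
    · simp [ht0.ne']
  exact fun τ hτ => (hg.analyticOnNhd isOpen_ball).eqOn_zero_of_preconnected_of_frequently_eq_zero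
    (convex_ball (0 : ℂ) r₀).isPreconnected hmem hfreq hτ

/-- **Extension of a real family of solutions to a holomorphic family.** -/
theorem exists_holomorphic_solution {I F : Type*} [NormedAddCommGroup F] [NormedSpace ℂ F] [CompleteSpace F]
    {T : Linf I →ₗ[ℂ] F} {c r r₀ : ℝ} (hc : 0 < c) (hr : 0 < r) (hr₀ : 0 < r₀)
    (hT : ∀ x, c * ‖x‖ ≤ ‖T x‖) {Φ : Linf I → ℂ → F}
    (H1 : ∀ a : ℂ → Linf I, DifferentiableOn ℂ a (ball 0 r₀) → (∀ τ ∈ ball (0 : ℂ) r₀, ‖a τ‖ ≤ r) →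
      DifferentiableOn ℂ (fun τ => Φ (a τ) τ) (ball 0 r₀))
    (H2 : ∀ (a a' : Linf I) (τ : ℂ), ‖a‖ ≤ r → ‖a'‖ ≤ r → τ ∈ ball (0 : ℂ) r₀ → ‖Φ a τ - Φ a' τ - T (a - a')‖ ≤ c / 2 * ‖a - a'‖)
    (H3 : ∀ τ ∈ ball (0 : ℂ) r₀, ‖Φ 0 τ‖ ≤ c * r / 2) (b : ℝ → Linf I) (H4 : ∀ t : ℝ, |t| < r₀ → ‖b t‖ ≤ r ∧ Φ (b t) t = 0) :
    ∃ a : ℂ → Linf I, DifferentiableOn ℂ a (ball 0 r₀) ∧ (∀ τ ∈ ball (0 : ℂ) r₀, ‖a τ‖ ≤ r ∧ Φ (a τ) τ = 0) ∧
      ∀ t : ℝ, |t| < r₀ → a t = b t := by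
  obtain ⟨P, hPT, hP⟩ := exists_leftInv T hc hT
  obtain ⟨S, hS⟩ : ∃ S : Linf I → ℂ → Linf I, ∀ a τ, S a τ = a - P (Φ a τ) := ⟨fun a τ => a - P (Φ a τ), fun _ _ => rfl⟩
  have hcon : ∀ (a a' : Linf I) (τ : ℂ), ‖a‖ ≤ r → ‖a'‖ ≤ r → τ ∈ ball (0 : ℂ) r₀ → ‖S a τ - S a' τ‖ ≤ 1 / 2 * ‖a - a'‖ := by
    intro a a' τ ha ha' hτ
    have h1 : S a τ - S a' τ = - P (Φ a τ - Φ a' τ - T (a - a')) := by
      rw [hS, hS, map_sub, map_sub, hPT]
      abel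
    rw [h1, norm_neg]
    calc ‖P (Φ a τ - Φ a' τ - T (a - a'))‖ ≤ c⁻¹ * ‖Φ a τ - Φ a' τ - T (a - a')‖ := hP _
      _ ≤ c⁻¹ * (c / 2 * ‖a - a'‖) := mul_le_mul_of_nonneg_left (H2 a a' τ ha ha' hτ) (inv_nonneg.2 hc.le)
      _ = 1 / 2 * ‖a - a'‖ := by field_simp
  have hS0 : ∀ τ ∈ ball (0 : ℂ) r₀, ‖S 0 τ‖ ≤ r / 2 := by
    intro τ hτ
    rw [hS, zero_sub, norm_neg]
    calc ‖P (Φ 0 τ)‖ ≤ c⁻¹ * ‖Φ 0 τ‖ := hP _
      _ ≤ c⁻¹ * (c * r / 2) := mul_le_mul_of_nonneg_left (H3 τ hτ) (inv_nonneg.2 hc.le)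
      _ = r / 2 := by field_simp
  have hSr : ∀ (a : Linf I) (τ : ℂ), ‖a‖ ≤ r → τ ∈ ball (0 : ℂ) r₀ → ‖S a τ‖ ≤ r := by
    intro a τ ha hτ
    have h0 : ‖(0 : Linf I)‖ ≤ r := by rw [norm_zero]; exact hr.le
    have h1 := hcon a 0 τ ha h0 hτ
    rw [sub_zero] at h1
    have h2 : S a τ = (S a τ - S 0 τ) + S 0 τ := by abel
    rw [h2]
    calc ‖(S a τ - S 0 τ) + S 0 τ‖ ≤ ‖S a τ - S 0 τ‖ + ‖S 0 τ‖ := norm_add_le _ _
      _ ≤ 1 / 2 * ‖a‖ + r / 2 := add_le_add h1 (hS0 τ hτ)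
      _ ≤ r := by linarith
  -- the iterates
  obtain ⟨A, hA0, hA1⟩ : ∃ A : ℕ → ℂ → Linf I, (∀ τ, A 0 τ = 0) ∧ ∀ n τ, A (n + 1) τ = S (A n τ) τ :=
    ⟨fun n => Nat.rec (fun _ => 0) (fun _ f τ => S (f τ) τ) n, fun _ => rfl, fun _ _ => rfl⟩
  have hAr : ∀ n, ∀ τ ∈ ball (0 : ℂ) r₀, ‖A n τ‖ ≤ r := by
    intro n
    induction n with
    | zero => intro τ _; rw [hA0, norm_zero]; exact hr.le
    | succ n ih => intro τ hτ; rw [hA1]; exact hSr _ _ (ih τ hτ) hτ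
  have hAd : ∀ n, DifferentiableOn ℂ (A n) (ball 0 r₀) := by
    intro n
    induction n with
    | zero =>
      have h1 : A 0 = fun _ => 0 := funext hA0
      rw [h1]
      exact differentiableOn_const _
    | succ n ih =>
      have h1 : A (n + 1) = fun τ => A n τ - P (Φ (A n τ) τ) := by
        funext τ
        rw [hA1, hS]
      rw [h1]
      exact ih.sub (P.differentiable.comp_differentiableOn (H1 _ ih (hAr n)))
  have hdist : ∀ n, ∀ τ ∈ ball (0 : ℂ) r₀, dist (A n τ) (A (n + 1) τ) ≤ r / 2 * (1 / 2) ^ n := by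
    intro n
    induction n with
    | zero =>
      intro τ hτ
      rw [hA1, hA0, pow_zero, mul_one, dist_eq_norm, zero_sub, norm_neg]
      exact hS0 τ hτ
    | succ n ih =>
      intro τ hτ
      rw [hA1 (n + 1), hA1 n, dist_eq_norm]
      have h1 := hcon (A n τ) (S (A n τ) τ) τ (hAr n τ hτ) (hSr _ _ (hAr n τ hτ) hτ) hτ
      have h2 := ih τ hτ
      rw [hA1, dist_eq_norm] at h2
      calc ‖S (A n τ) τ - S (S (A n τ) τ) τ‖ ≤ 1 / 2 * ‖A n τ - S (A n τ) τ‖ := h1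
        _ ≤ 1 / 2 * (r / 2 * (1 / 2) ^ n) := mul_le_mul_of_nonneg_left h2 (by norm_num)
        _ = r / 2 * (1 / 2) ^ (n + 1) := by ring
  have hlim : ∀ τ, ∃ a : Linf I, τ ∈ ball (0 : ℂ) r₀ → Tendsto (fun n => A n τ) atTop (𝓝 a) := by
    intro τ
    by_cases hτ : τ ∈ ball (0 : ℂ) r₀
    · have h1 : CauchySeq fun n => A n τ := cauchySeq_of_le_geometric (1 / 2) (r / 2) (by norm_num) fun n => hdist n τ hτ
      obtain ⟨a, ha⟩ := cauchySeq_tendsto_of_complete h1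
      exact ⟨a, fun _ => ha⟩
    · exact ⟨0, fun h => absurd h hτ⟩
  choose a ha using hlim
  have hunif : TendstoUniformlyOn A a atTop (ball 0 r₀) := by
    rw [Metric.tendstoUniformlyOn_iff]
    intro ε hε
    obtain ⟨n₀, hn₀⟩ := exists_pow_lt_of_lt_one (show (0 : ℝ) < ε / r by positivity) (show (1 / 2 : ℝ) < 1 by norm_num)
    filter_upwards [eventually_ge_atTop n₀] with n hn τ hτ
    have h1 := dist_le_of_le_geometric_of_tendsto (1 / 2) (r / 2) (by norm_num) (fun n => hdist n τ hτ) (ha τ hτ) n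
    rw [dist_comm]
    refine lt_of_le_of_lt h1 ?_
    have h2 : (1 / 2 : ℝ) ^ n ≤ (1 / 2) ^ n₀ := pow_le_pow_of_le_one (by norm_num) (by norm_num) hn
    have h3 : r / 2 * (1 / 2) ^ n / (1 - 1 / 2) = r * (1 / 2) ^ n := by ring
    rw [h3]
    calc r * (1 / 2) ^ n ≤ r * (1 / 2) ^ n₀ := mul_le_mul_of_nonneg_left h2 hr.le
      _ < r * (ε / r) := mul_lt_mul_of_pos_left hn₀ hr
      _ = ε := by field_simp
  have had : DifferentiableOn ℂ a (ball 0 r₀) :=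
    hunif.tendstoLocallyUniformlyOn.differentiableOn (Eventually.of_forall hAd) isOpen_ball
  have har : ∀ τ ∈ ball (0 : ℂ) r₀, ‖a τ‖ ≤ r := fun τ hτ =>
    le_of_tendsto (ha τ hτ).norm (Eventually.of_forall fun n => hAr n τ hτ)
  have hfix : ∀ τ ∈ ball (0 : ℂ) r₀, S (a τ) τ = a τ := by
    intro τ hτ
    have h1 : Tendsto (fun n => A (n + 1) τ) atTop (𝓝 (S (a τ) τ)) := by
      rw [tendsto_iff_norm_sub_tendsto_zero]
      have h2 : Tendsto (fun n => 1 / 2 * ‖A n τ - a τ‖) atTop (𝓝 0) := by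
        have h3 := (tendsto_iff_norm_sub_tendsto_zero.1 (ha τ hτ)).const_mul (1 / 2)
        simpa using h3
      refine squeeze_zero (fun _ => norm_nonneg _) (fun n => ?_) h2
      rw [hA1]
      exact hcon _ _ τ (hAr n τ hτ) (har τ hτ) hτ
    exact tendsto_nhds_unique h1 ((tendsto_add_atTop_iff_nat 1).2 (ha τ hτ))
  have hab : ∀ t : ℝ, |t| < r₀ → a t = b t := by
    intro t ht
    have hτ : (t : ℂ) ∈ ball (0 : ℂ) r₀ := by rw [mem_ball_zero_iff, Complex.norm_real, Real.norm_eq_abs]; exact ht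
    obtain ⟨hb1, hb2⟩ := H4 t ht
    have h1 : S (b t) t = b t := by rw [hS, hb2, map_zero, sub_zero]
    have h2 := hcon (a t) (b t) t (har t hτ) hb1 hτ
    rw [hfix t hτ, h1] at h2
    have h3 : ‖a t - b t‖ ≤ 0 := by linarith [norm_nonneg (a t - b t)]
    exact sub_eq_zero.1 (norm_le_zero_iff.1 h3)
  have hzero : ∀ τ ∈ ball (0 : ℂ) r₀, Φ (a τ) τ = 0 :=
    eq_zero_of_real hr₀ (H1 a had har) fun t ht => by rw [hab t ht]; exact (H4 t ht).2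
  exact ⟨a, had, fun τ hτ => ⟨har τ hτ, hzero τ hτ⟩, hab⟩


/-! ### the concrete equation -/

/-- the data which are holomorphic on all discs of radius `ρ` -/
def holSub (ρ : ℝ) : Submodule ℂ (Linf (ℂ × ℂ)) where
  carrier := {y | ∀ z₀, DifferentiableOn ℂ (fun z => y (z₀, z)) (ball z₀ ρ)}
  add_mem' := fun ha hb z₀ => (ha z₀).add (hb z₀)
  zero_mem' := fun z₀ => by
    show DifferentiableOn ℂ (fun _ => (0 : ℂ)) (ball z₀ ρ)
    exact differentiableOn_const _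
  smul_mem' := fun c _ ha z₀ => (ha z₀).const_smul c

theorem mem_holSub {ρ : ℝ} {y : Linf (ℂ × ℂ)} : y ∈ holSub ρ ↔ ∀ z₀, DifferentiableOn ℂ (fun z => y (z₀, z)) (ball z₀ ρ) := Iff.rfl

theorem isClosed_holSub (ρ : ℝ) : IsClosed (holSub ρ : Set (Linf (ℂ × ℂ))) := by
  rw [← closure_subset_iff_isClosed]
  intro y hy
  rw [mem_closure_iff_seq_limit] at hy
  obtain ⟨s, hs, hlim⟩ := hy
  intro z₀
  have h1 : TendstoUniformlyOn (fun n z => s n (z₀, z)) (fun z => y (z₀, z)) atTop (ball z₀ ρ) := by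
    rw [Metric.tendstoUniformlyOn_iff]
    intro ε hε
    filter_upwards [(Metric.tendsto_nhds.1 hlim) ε hε] with n hn z _
    rw [dist_comm, dist_eq_norm]
    rw [dist_eq_norm] at hn
    exact lt_of_le_of_lt (by rw [← sub_coord]; exact norm_coord_le _ _) hn
  exact h1.tendstoLocallyUniformlyOn.differentiableOn (Eventually.of_forall fun n => hs n z₀) isOpen_ball

/-- estimates for a bounded holomorphic function of two variables -/
theorem est_two {φ : ℂ → ℂ → ℂ} {r B r' : ℝ} (hr : 0 < r) (hr' : 0 < r') (hrr : r' ≤ r / 4)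
    (hφ : DifferentiableOn ℂ (fun y : ℂ × ℂ => φ y.1 y.2) (ball 0 r)) (hB : ∀ y ∈ ball (0 : ℂ × ℂ) r, ‖φ y.1 y.2‖ ≤ B) :
    ‖deriv (φ 0) 0‖ ≤ 2 * B / r ∧ (∀ τ ∈ ball (0 : ℂ) r, ‖φ τ 0 - φ 0 0‖ ≤ 2 * B / r * ‖τ‖) ∧
    ∀ τ ∈ ball (0 : ℂ) r, ∀ y y' : ℂ, ‖y‖ ≤ r' → ‖y'‖ ≤ r' →
      ‖φ τ y - φ τ y' - deriv (φ 0) 0 * (y - y')‖ ≤ (8 * B / r / r * ‖τ‖ + 16 * B / r / r * r') * ‖y - y'‖ := by
  have hmem : ∀ {a b : ℂ}, ‖a‖ < r → ‖b‖ < r → ((a, b) : ℂ × ℂ) ∈ ball (0 : ℂ × ℂ) r := by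
    intro a b ha hb
    rw [mem_ball_zero_iff, Prod.norm_def]
    exact max_lt ha hb
  have h00 : ((0, 0) : ℂ × ℂ) ∈ ball (0 : ℂ × ℂ) r := hmem (by simpa using hr) (by simpa using hr)
  have hB0 : 0 ≤ B := (norm_nonneg _).trans (hB _ h00)
  have hy : ∀ τ : ℂ, ‖τ‖ < r → DifferentiableOn ℂ (φ τ) (ball 0 r) := by
    intro τ hτ
    have h1 : DifferentiableOn ℂ (fun y : ℂ => ((τ, y) : ℂ × ℂ)) (ball 0 r) := by fun_prop
    exact hφ.comp h1 fun y hy => hmem hτ (mem_ball_zero_iff.1 hy)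
  have hyτ : ∀ y : ℂ, ‖y‖ < r → DifferentiableOn ℂ (fun τ => φ τ y) (ball 0 r) := by
    intro y hy'
    have h1 : DifferentiableOn ℂ (fun τ : ℂ => ((τ, y) : ℂ × ℂ)) (ball 0 r) := by fun_prop
    exact hφ.comp h1 fun τ hτ => hmem (mem_ball_zero_iff.1 hτ) hy'
  -- bound of the derivative on the half ball
  have hder : ∀ τ : ℂ, ‖τ‖ < r → ∀ s : ℂ, ‖s‖ ≤ r / 2 → ‖deriv (φ τ) s‖ ≤ 4 * B / r := by
    intro τ hτ s hs
    have hsub : ball s (r / 2) ⊆ ball (0 : ℂ) r := by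
      intro y hy'
      rw [mem_ball_zero_iff]
      rw [mem_ball, dist_eq_norm] at hy'
      calc ‖y‖ = ‖(y - s) + s‖ := by rw [sub_add_cancel]
        _ ≤ ‖y - s‖ + ‖s‖ := norm_add_le _ _
        _ < r := by linarith
    have h1 := (taylor_two (half_pos hr) ((hy τ hτ).mono hsub)
      fun y hy' => hB _ (hmem hτ (mem_ball_zero_iff.1 (hsub hy')))).1
    calc ‖deriv (φ τ) s‖ ≤ 2 * B / (r / 2) := h1
      _ = 4 * B / r := by field_simp; ring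
  refine ⟨?_, ?_, ?_⟩
  · have h1 := (taylor_two hr (hy 0 (by simpa using hr)) fun y hy' => hB _ (hmem (by simpa using hr) (mem_ball_zero_iff.1 hy'))).1
    exact h1
  · intro τ hτ
    have hmaps : MapsTo (fun τ => φ τ 0) (ball 0 r) (closedBall (φ 0 0) (2 * B)) := by
      intro τ' hτ'
      rw [mem_closedBall, dist_eq_norm]
      calc ‖φ τ' 0 - φ 0 0‖ ≤ ‖φ τ' 0‖ + ‖φ 0 0‖ := norm_sub_le _ _
        _ ≤ B + B := add_le_add (hB _ (hmem (mem_ball_zero_iff.1 hτ') (by simpa using hr))) (hB _ h00)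
        _ = 2 * B := by ring
    have h1 := Complex.dist_le_div_mul_dist_of_mapsTo_ball (hyτ 0 (by simpa using hr)) hmaps hτ
    rwa [dist_eq_norm, dist_zero_right] at h1
  · intro τ hτ y y' hyr hyr'
    have hlt : ∀ {s : ℂ}, ‖s‖ ≤ r' → ‖s‖ < r := fun hs => lt_of_le_of_lt (hs.trans hrr) (by linarith)
    -- the dependence on `τ`
    have hdiff : ∀ τ' : ℂ, ‖τ'‖ < r → ‖φ τ' y - φ τ' y'‖ ≤ 4 * B / r * ‖y - y'‖ := by
      intro τ' hτ'
      have hball : ∀ s ∈ closedBall (0 : ℂ) r', ‖s‖ ≤ r / 2 := fun s hs => by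
        rw [mem_closedBall_zero_iff] at hs
        linarith
      refine (convex_closedBall (0 : ℂ) r').norm_image_sub_le_of_norm_deriv_le (f := φ τ') (fun s hs => ?_)
        (fun s hs => hder τ' hτ' s (hball s hs)) (mem_closedBall_zero_iff.2 hyr') (mem_closedBall_zero_iff.2 hyr)
      exact (hy τ' hτ').differentiableAt (isOpen_ball.mem_nhds (mem_ball_zero_iff.2 (hlt (mem_closedBall_zero_iff.1 hs))))
    have h1 : ‖(φ τ y - φ τ y') - (φ 0 y - φ 0 y')‖ ≤ 8 * B / r / r * ‖τ‖ * ‖y - y'‖ := by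
      have hd : DifferentiableOn ℂ (fun τ => φ τ y - φ τ y') (ball 0 r) := (hyτ y (hlt hyr)).sub (hyτ y' (hlt hyr'))
      have hmaps : MapsTo (fun τ => φ τ y - φ τ y') (ball 0 r) (closedBall (φ 0 y - φ 0 y') (8 * B / r * ‖y - y'‖)) := by
        intro τ' hτ'
        rw [mem_closedBall, dist_eq_norm]
        calc ‖(φ τ' y - φ τ' y') - (φ 0 y - φ 0 y')‖ ≤ ‖φ τ' y - φ τ' y'‖ + ‖φ 0 y - φ 0 y'‖ := norm_sub_le _ _
          _ ≤ 4 * B / r * ‖y - y'‖ + 4 * B / r * ‖y - y'‖ :=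
              add_le_add (hdiff τ' (mem_ball_zero_iff.1 hτ')) (hdiff 0 (by simpa using hr))
          _ = 8 * B / r * ‖y - y'‖ := by ring
      have h2 := Complex.dist_le_div_mul_dist_of_mapsTo_ball hd hmaps hτ
      rw [dist_eq_norm, dist_zero_right] at h2
      calc ‖(φ τ y - φ τ y') - (φ 0 y - φ 0 y')‖ ≤ 8 * B / r * ‖y - y'‖ / r * ‖τ‖ := h2
        _ = 8 * B / r / r * ‖τ‖ * ‖y - y'‖ := by ring
    -- the dependence on `y`
    have h2 : ‖(φ 0 y - φ 0 y') - deriv (φ 0) 0 * (y - y')‖ ≤ 16 * B / r / r * r' * ‖y - y'‖ := by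
      have h0r : ‖(0 : ℂ)‖ < r := by simpa using hr
      have hd0 := hy 0 h0r
      have hdd : DifferentiableOn ℂ (deriv (φ 0)) (ball 0 (r / 2)) :=
        (hd0.deriv isOpen_ball).mono (ball_subset_ball (by linarith))
      have hmaps : MapsTo (deriv (φ 0)) (ball 0 (r / 2)) (closedBall (deriv (φ 0) 0) (8 * B / r)) := by
        intro s hs
        rw [mem_closedBall, dist_eq_norm]
        calc ‖deriv (φ 0) s - deriv (φ 0) 0‖ ≤ ‖deriv (φ 0) s‖ + ‖deriv (φ 0) 0‖ := norm_sub_le _ _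
          _ ≤ 4 * B / r + 4 * B / r :=
              add_le_add (hder 0 h0r s (mem_ball_zero_iff.1 hs).le) (hder 0 h0r 0 (by rw [norm_zero]; linarith))
          _ = 8 * B / r := by ring
      have hb : ∀ s ∈ closedBall (0 : ℂ) r', ‖deriv (fun y => φ 0 y - deriv (φ 0) 0 * y) s‖ ≤ 16 * B / r / r * r' := by
        intro s hs
        rw [mem_closedBall_zero_iff] at hs
        have hsb : s ∈ ball (0 : ℂ) (r / 2) := mem_ball_zero_iff.2 (by linarith)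
        have hsd : DifferentiableAt ℂ (φ 0) s := hd0.differentiableAt (isOpen_ball.mem_nhds (mem_ball_zero_iff.2 (hlt hs)))
        have h3 : deriv (fun y => φ 0 y - deriv (φ 0) 0 * y) s = deriv (φ 0) s - deriv (φ 0) 0 := by
          rw [deriv_fun_sub hsd (by fun_prop), deriv_const_mul_field]
          simp
        rw [h3]
        have h4 := Complex.dist_le_div_mul_dist_of_mapsTo_ball hdd hmaps hsb
        rw [dist_eq_norm, dist_zero_right] at h4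
        calc ‖deriv (φ 0) s - deriv (φ 0) 0‖ ≤ 8 * B / r / (r / 2) * ‖s‖ := h4
          _ = 16 * B / r / r * ‖s‖ := by field_simp; ring
          _ ≤ 16 * B / r / r * r' := mul_le_mul_of_nonneg_left hs (by positivity)
      have h5 := (convex_closedBall (0 : ℂ) r').norm_image_sub_le_of_norm_deriv_le (f := fun y => φ 0 y - deriv (φ 0) 0 * y)
        (fun s hs => ?_) hb (mem_closedBall_zero_iff.2 hyr') (mem_closedBall_zero_iff.2 hyr)
      · have h6 : (φ 0 y - φ 0 y') - deriv (φ 0) 0 * (y - y') = (φ 0 y - deriv (φ 0) 0 * y) - (φ 0 y' - deriv (φ 0) 0 * y') := by ring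
        rw [h6]
        exact h5
      · have hsd : DifferentiableAt ℂ (φ 0) s :=
          hd0.differentiableAt (isOpen_ball.mem_nhds (mem_ball_zero_iff.2 (hlt (mem_closedBall_zero_iff.1 hs))))
        exact hsd.sub (by fun_prop)
    have h3 : φ τ y - φ τ y' - deriv (φ 0) 0 * (y - y') =
        ((φ τ y - φ τ y') - (φ 0 y - φ 0 y')) + ((φ 0 y - φ 0 y') - deriv (φ 0) 0 * (y - y')) := by ring
    rw [h3]
    calc _ ≤ ‖(φ τ y - φ τ y') - (φ 0 y - φ 0 y')‖ + ‖(φ 0 y - φ 0 y') - deriv (φ 0) 0 * (y - y')‖ := norm_add_le _ _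
      _ ≤ 8 * B / r / r * ‖τ‖ * ‖y - y'‖ + 16 * B / r / r * r' * ‖y - y'‖ := add_le_add h1 h2
      _ = (8 * B / r / r * ‖τ‖ + 16 * B / r / r * r') * ‖y - y'‖ := by ring

/-- the data of the equation, extended by `0` -/
def dat (ρ : ℝ) (φ : ℂ → ℂ → ℂ → ℂ → ℂ) (τ : ℂ) (ξ : ℂ → ℂ) (p : ℂ × ℂ) : ℂ :=
  open Classical in if p.2 ∈ ball p.1 ρ then φ p.1 p.2 τ (ξ p.2) else 0

theorem dat_of_mem {ρ : ℝ} {φ : ℂ → ℂ → ℂ → ℂ → ℂ} {τ : ℂ} {ξ : ℂ → ℂ} {z₀ z : ℂ} (h : z ∈ ball z₀ ρ) :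
    dat ρ φ τ ξ (z₀, z) = φ z₀ z τ (ξ z) := by
  unfold dat
  exact if_pos h

theorem dat_of_notMem {ρ : ℝ} {φ : ℂ → ℂ → ℂ → ℂ → ℂ} {τ : ℂ} {ξ : ℂ → ℂ} {p : ℂ × ℂ} (h : p.2 ∉ ball p.1 ρ) :
    dat ρ φ τ ξ p = 0 := by
  unfold dat
  exact if_neg h

/-- **Extension of a real family to a holomorphic family.** -/
theorem abs_ext {ρ r B K η C₁ : ℝ} (hρ : 0 < ρ) (hr : 0 < r) (hη : 0 < η) (hB : 0 ≤ B) (hK : 0 ≤ K) (hC₁ : 0 < C₁) :
    ∃ r₀ : ℝ, 0 < r₀ ∧ ∀ (φ : ℂ → ℂ → ℂ → ℂ → ℂ) (x : ℝ → ℂ → ℂ),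
      (∀ z₀, ∀ z ∈ ball z₀ ρ, DifferentiableOn ℂ (fun y : ℂ × ℂ => φ z₀ z y.1 y.2) (ball 0 r) ∧
        ∀ y ∈ ball (0 : ℂ × ℂ) r, ‖φ z₀ z y.1 y.2‖ ≤ B) →
      (∀ t : ℝ, |t| < η → (∀ z, ‖x t z‖ ≤ K * |t|) ∧ ∀ z₀, DifferentiableOn ℂ (fun z => φ z₀ z t (x t z)) (ball z₀ ρ)) →
      (∀ (ξ : ℂ → ℂ) (δ : ℝ), (∃ M, ∀ z, ‖ξ z‖ ≤ M) →
        (∀ z₀, ∃ h : ℂ → ℂ, DifferentiableOn ℂ h (ball z₀ ρ) ∧ ∀ z ∈ ball z₀ ρ, ‖deriv (φ z₀ z 0) 0 * ξ z - h z‖ ≤ δ) →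
        ∀ z, ‖ξ z‖ ≤ C₁ * δ) →
      ∃ ξ : ℂ → ℂ → ℂ, (∀ z, DifferentiableOn ℂ (fun τ => ξ τ z) (ball 0 r₀)) ∧
        (∀ τ ∈ ball (0 : ℂ) r₀, ∀ z, ‖ξ τ z‖ ≤ r / 4) ∧ (∀ t : ℝ, |t| < r₀ → ∀ z, ξ t z = x t z) ∧
        ∀ τ ∈ ball (0 : ℂ) r₀, ∀ z₀, DifferentiableOn ℂ (fun z => φ z₀ z τ (ξ τ z)) (ball z₀ ρ) := by
  obtain ⟨c, hc⟩ : ∃ c : ℝ, c = C₁⁻¹ := ⟨_, rfl⟩
  have hc0 : 0 < c := by rw [hc]; exact inv_pos.2 hC₁
  obtain ⟨r', hr'⟩ : ∃ r' : ℝ, r' = min (r / 4) (c * r * r / (64 * (B + 1))) := ⟨_, rfl⟩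
  have hr'0 : 0 < r' := by rw [hr']; exact lt_min (by positivity) (by positivity)
  have hr'1 : r' ≤ r / 4 := by rw [hr']; exact min_le_left _ _
  have hr'2 : 16 * B / r / r * r' ≤ c / 4 := by
    have h1 : r' ≤ c * r * r / (64 * (B + 1)) := by rw [hr']; exact min_le_right _ _
    calc 16 * B / r / r * r' ≤ 16 * B / r / r * (c * r * r / (64 * (B + 1))) := mul_le_mul_of_nonneg_left h1 (by positivity)
      _ = c / 4 * (B / (B + 1)) := by field_simp; ring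
      _ ≤ c / 4 * 1 := mul_le_mul_of_nonneg_left ((div_le_one (by linarith)).2 (by linarith)) (by positivity)
      _ = c / 4 := mul_one _
  obtain ⟨r₀, hr₀⟩ : ∃ r₀ : ℝ, r₀ = min (min η (r / 4)) (min (c * r * r / (32 * (B + 1)))
    (min (c * r' * r / (4 * (B + 1))) (r' / (K + 1)))) := ⟨_, rfl⟩
  have hr₀0 : 0 < r₀ := by
    rw [hr₀]
    exact lt_min (lt_min hη (by positivity)) (lt_min (by positivity) (lt_min (by positivity) (by positivity)))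
  have hr₀1 : r₀ ≤ η := by rw [hr₀]; exact (min_le_left _ _).trans (min_le_left _ _)
  have hr₀2 : r₀ ≤ r / 4 := by rw [hr₀]; exact (min_le_left _ _).trans (min_le_right _ _)
  have hr₀3 : 8 * B / r / r * r₀ ≤ c / 4 := by
    have h1 : r₀ ≤ c * r * r / (32 * (B + 1)) := by rw [hr₀]; exact (min_le_right _ _).trans (min_le_left _ _)
    calc 8 * B / r / r * r₀ ≤ 8 * B / r / r * (c * r * r / (32 * (B + 1))) := mul_le_mul_of_nonneg_left h1 (by positivity)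
      _ = c / 4 * (B / (B + 1)) := by field_simp; ring
      _ ≤ c / 4 * 1 := mul_le_mul_of_nonneg_left ((div_le_one (by linarith)).2 (by linarith)) (by positivity)
      _ = c / 4 := mul_one _
  have hr₀4 : 2 * B / r * r₀ ≤ c * r' / 2 := by
    have h1 : r₀ ≤ c * r' * r / (4 * (B + 1)) := by
      rw [hr₀]; exact (min_le_right _ _).trans ((min_le_right _ _).trans (min_le_left _ _))
    calc 2 * B / r * r₀ ≤ 2 * B / r * (c * r' * r / (4 * (B + 1))) := mul_le_mul_of_nonneg_left h1 (by positivity)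
      _ = c * r' / 2 * (B / (B + 1)) := by field_simp; ring
      _ ≤ c * r' / 2 * 1 := mul_le_mul_of_nonneg_left ((div_le_one (by linarith)).2 (by linarith)) (by positivity)
      _ = c * r' / 2 := mul_one _
  have hr₀5 : K * r₀ ≤ r' := by
    have h1 : r₀ ≤ r' / (K + 1) := by
      rw [hr₀]; exact (min_le_right _ _).trans ((min_le_right _ _).trans (min_le_right _ _))
    calc K * r₀ ≤ K * (r' / (K + 1)) := mul_le_mul_of_nonneg_left h1 hK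
      _ = r' * (K / (K + 1)) := by ring
      _ ≤ r' * 1 := mul_le_mul_of_nonneg_left ((div_le_one (by linarith)).2 (by linarith)) hr'0.le
      _ = r' := mul_one _
  refine ⟨r₀, hr₀0, fun φ x hφ hx hL => ?_⟩
  have hest : ∀ z₀, ∀ z ∈ ball z₀ ρ, ‖deriv (φ z₀ z 0) 0‖ ≤ 2 * B / r ∧ (∀ τ ∈ ball (0 : ℂ) r, ‖φ z₀ z τ 0 - φ z₀ z 0 0‖ ≤ 2 * B / r * ‖τ‖) ∧
      ∀ τ ∈ ball (0 : ℂ) r, ∀ y y' : ℂ, ‖y‖ ≤ r' → ‖y'‖ ≤ r' →
        ‖φ z₀ z τ y - φ z₀ z τ y' - deriv (φ z₀ z 0) 0 * (y - y')‖ ≤ (8 * B / r / r * ‖τ‖ + 16 * B / r / r * r') * ‖y - y'‖ :=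
    fun z₀ z hz => est_two hr hr'0 hr'1 (hφ z₀ z hz).1 (hφ z₀ z hz).2
  have hbr : ∀ τ ∈ ball (0 : ℂ) r₀, τ ∈ ball (0 : ℂ) r := fun τ hτ => ball_subset_ball (by linarith) hτ
  -- the linearised operator
  have hTb : ∀ (ξ : Linf ℂ) (p : ℂ × ℂ), ‖dat ρ (fun z₀ z _ y => deriv (φ z₀ z 0) 0 * y) 0 (fun z => ξ z) p‖ ≤ 2 * B / r * ‖ξ‖ := by
    intro ξ p
    by_cases hp : p.2 ∈ ball p.1 ρ
    · have h1 : dat ρ (fun z₀ z _ y => deriv (φ z₀ z 0) 0 * y) 0 (fun z => ξ z) p = deriv (φ p.1 p.2 0) 0 * ξ p.2 :=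
        dat_of_mem (z₀ := p.1) (z := p.2) hp
      rw [h1, norm_mul]
      exact mul_le_mul (hest _ _ hp).1 (norm_coord_le _ _) (norm_nonneg _) (by positivity)
    · rw [dat_of_notMem hp, norm_zero]
      positivity
  obtain ⟨T₀, hT₀⟩ : ∃ T₀ : Linf ℂ →ₗ[ℂ] Linf (ℂ × ℂ), ∀ ξ p, T₀ ξ p = dat ρ (fun z₀ z _ y => deriv (φ z₀ z 0) 0 * y) 0 (fun z => ξ z) p := by
    refine ⟨{ toFun := fun ξ => mkLinf _ _ (hTb ξ)
              map_add' := fun ξ ξ' => ?_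
              map_smul' := fun a ξ => ?_ }, fun _ _ => rfl⟩
    · apply lp.ext
      funext p
      rw [add_coord, mkLinf_apply, mkLinf_apply, mkLinf_apply]
      by_cases hp : p.2 ∈ ball p.1 ρ
      · simp only [dat, if_pos hp]
        rw [add_coord, mul_add]
      · rw [dat_of_notMem hp, dat_of_notMem hp, dat_of_notMem hp, add_zero]
    · apply lp.ext
      funext p
      rw [RingHom.id_apply, smul_coord, mkLinf_apply, mkLinf_apply]
      by_cases hp : p.2 ∈ ball p.1 ρ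
      · simp only [dat, if_pos hp]
        rw [smul_coord]
        ring
      · rw [dat_of_notMem hp, dat_of_notMem hp, mul_zero]
  -- the quotient by the holomorphic data
  have hclosed : IsClosed (holSub ρ : Set (Linf (ℂ × ℂ))) := isClosed_holSub ρ
  obtain ⟨T, hT⟩ : ∃ T : Linf ℂ →ₗ[ℂ] (Linf (ℂ × ℂ) ⧸ holSub ρ), ∀ ξ, T ξ = Submodule.Quotient.mk (T₀ ξ) :=
    ⟨(holSub ρ).mkQ ∘ₗ T₀, fun _ => rfl⟩
  have hmk : ∀ y : Linf (ℂ × ℂ), ‖(Submodule.Quotient.mk y : Linf (ℂ × ℂ) ⧸ holSub ρ)‖ ≤ ‖y‖ := fun y =>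
    Submodule.Quotient.norm_mk_le (holSub ρ) y
  have hTlow : ∀ ξ : Linf ℂ, c * ‖ξ‖ ≤ ‖T ξ‖ := by
    intro ξ
    have h1 : ‖ξ‖ ≤ C₁ * ‖T ξ‖ := by
      refine le_of_forall_pos_le_add fun ε hε => ?_
      obtain ⟨m, hm1, hm2⟩ := Submodule.Quotient.norm_mk_lt (S := holSub ρ) (T ξ) (show 0 < ε / C₁ by positivity)
      have hmem : T₀ ξ - m ∈ holSub ρ := by
        rw [← Submodule.Quotient.eq, hm1, hT]
      have hbound : ∀ z, ‖ξ z‖ ≤ C₁ * ‖m‖ := by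
        refine hL (fun z => ξ z) ‖m‖ ⟨‖ξ‖, fun z => norm_coord_le _ _⟩ fun z₀ => ?_
        refine ⟨fun z => (T₀ ξ - m) (z₀, z), mem_holSub.1 hmem z₀, fun z hz => ?_⟩
        have h2 : deriv (φ z₀ z 0) 0 * ξ z - (T₀ ξ - m) (z₀, z) = m (z₀, z) := by
          rw [sub_coord, hT₀, dat_of_mem hz]
          ring
        rw [h2]
        exact norm_coord_le _ _
      calc ‖ξ‖ ≤ C₁ * ‖m‖ := norm_le_of_coord (by positivity) hbound
        _ ≤ C₁ * (‖T ξ‖ + ε / C₁) := mul_le_mul_of_nonneg_left hm2.le hC₁.le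
        _ = C₁ * ‖T ξ‖ + ε := by field_simp
    rw [hc, inv_mul_eq_div, div_le_iff₀ hC₁, mul_comm]
    exact h1
  -- the nonlinear operator
  have hmem2 : ∀ {a b : ℂ}, ‖a‖ < r → ‖b‖ < r → ((a, b) : ℂ × ℂ) ∈ ball (0 : ℂ × ℂ) r := by
    intro a b ha hb
    rw [mem_ball_zero_iff, Prod.norm_def]
    exact max_lt ha hb
  have hΦb : ∀ (ξ : Linf ℂ) (τ : ℂ), ‖ξ‖ ≤ r' → ‖τ‖ < r → ∀ p : ℂ × ℂ, ‖dat ρ φ τ (fun z => ξ z) p‖ ≤ B := by
    intro ξ τ hξ hτ p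
    by_cases hp : p.2 ∈ ball p.1 ρ
    · have h1 : dat ρ φ τ (fun z => ξ z) p = φ p.1 p.2 τ (ξ p.2) := dat_of_mem (z₀ := p.1) (z := p.2) hp
      rw [h1]
      exact (hφ _ _ hp).2 (τ, ξ p.2) (hmem2 hτ (lt_of_le_of_lt ((norm_coord_le _ _).trans hξ) (by linarith)))
    · rw [dat_of_notMem hp, norm_zero]
      exact hB
  obtain ⟨Φ₀, hΦ₀⟩ : ∃ Φ₀ : Linf ℂ → ℂ → Linf (ℂ × ℂ), ∀ ξ τ, ‖ξ‖ ≤ r' → ‖τ‖ < r → ∀ p, Φ₀ ξ τ p = dat ρ φ τ (fun z => ξ z) p := by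
    classical
    refine ⟨fun ξ τ => if h : ‖ξ‖ ≤ r' ∧ ‖τ‖ < r then mkLinf _ _ (hΦb ξ τ h.1 h.2) else 0, fun ξ τ h1 h2 p => ?_⟩
    simp only [dif_pos (show ‖ξ‖ ≤ r' ∧ ‖τ‖ < r from ⟨h1, h2⟩)]
    rfl
  have hτr : ∀ τ ∈ ball (0 : ℂ) r₀, ‖τ‖ < r := fun τ hτ => mem_ball_zero_iff.1 (hbr τ hτ)
  have hΦmem : ∀ (ξ : Linf ℂ) (τ : ℂ), ‖ξ‖ ≤ r' → ‖τ‖ < r →
      ((Submodule.Quotient.mk (Φ₀ ξ τ) : Linf (ℂ × ℂ) ⧸ holSub ρ) = 0 ↔ ∀ z₀, DifferentiableOn ℂ (fun z => φ z₀ z τ (ξ z)) (ball z₀ ρ)) := by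
    intro ξ τ h1 h2
    rw [Submodule.Quotient.mk_eq_zero, mem_holSub]
    refine forall_congr' fun z₀ => differentiableOn_congr fun z hz => ?_
    rw [hΦ₀ ξ τ h1 h2, dat_of_mem hz]
  have hxb : ∀ t : ℝ, |t| < r₀ → ∀ z, ‖x t z‖ ≤ r' := by
    intro t ht z
    calc ‖x t z‖ ≤ K * |t| := (hx t (ht.trans_le hr₀1)).1 z
      _ ≤ K * r₀ := mul_le_mul_of_nonneg_left ht.le hK
      _ ≤ r' := hr₀5
  obtain ⟨b, hb⟩ : ∃ b : ℝ → Linf ℂ, ∀ t : ℝ, |t| < r₀ → ∀ z, b t z = x t z := by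
    classical
    refine ⟨fun t => if h : |t| < r₀ then mkLinf _ _ (hxb t h) else 0, fun t h z => ?_⟩
    simp only [dif_pos h]
    rfl
  have hbn : ∀ t : ℝ, |t| < r₀ → ‖b t‖ ≤ r' := fun t ht => norm_le_of_coord hr'0.le fun z => by
    rw [hb t ht]
    exact hxb t ht z
  obtain ⟨a, had, ha1, ha2⟩ := exists_holomorphic_solution (T := T) (Φ := fun ξ τ => Submodule.Quotient.mk (Φ₀ ξ τ)) hc0 hr'0 hr₀0 hTlow
    (fun a ha har => by
      have h1 : DifferentiableOn ℂ (fun τ => Φ₀ (a τ) τ) (ball 0 r₀) := by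
        refine differentiableOn_Linf isOpen_ball (M := B) (fun p => ?_) fun τ hτ => ?_
        · by_cases hp : p.2 ∈ ball p.1 ρ
          · have h2 : DifferentiableOn ℂ (fun τ => φ p.1 p.2 τ (a τ p.2)) (ball 0 r₀) := by
              have h3 : DifferentiableOn ℂ (fun τ : ℂ => ((τ, a τ p.2) : ℂ × ℂ)) (ball 0 r₀) := by
                refine differentiableOn_id.prodMk ?_
                have h4 : DifferentiableOn ℂ (fun τ => lp.evalCLM ℂ (fun _ : ℂ => ℂ) ∞ p.2 (a τ)) (ball 0 r₀) :=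
                  (lp.evalCLM ℂ (fun _ : ℂ => ℂ) ∞ p.2).differentiable.comp_differentiableOn ha
                exact h4
              exact (hφ _ _ hp).1.comp h3 fun τ hτ =>
                hmem2 (hτr τ hτ) (lt_of_le_of_lt ((norm_coord_le _ _).trans (har τ hτ)) (by linarith))
            refine h2.congr fun τ hτ => ?_
            rw [hΦ₀ _ _ (har τ hτ) (hτr τ hτ)]
            exact dat_of_mem (z₀ := p.1) (z := p.2) hp
          · refine (differentiableOn_const (0 : ℂ)).congr fun τ hτ => ?_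
            rw [hΦ₀ _ _ (har τ hτ) (hτr τ hτ), dat_of_notMem hp]
        · refine norm_le_of_coord hB fun p => ?_
          rw [hΦ₀ _ _ (har τ hτ) (hτr τ hτ)]
          exact hΦb _ _ (har τ hτ) (hτr τ hτ) p
      exact ((holSub ρ).mkQL.differentiable).comp_differentiableOn h1)
    (fun ξ ξ' τ h1 h2 hτ => by
      have h3 : (Submodule.Quotient.mk (Φ₀ ξ τ) - Submodule.Quotient.mk (Φ₀ ξ' τ) - T (ξ - ξ') : Linf (ℂ × ℂ) ⧸ holSub ρ) =
          Submodule.Quotient.mk (Φ₀ ξ τ - Φ₀ ξ' τ - T₀ (ξ - ξ')) := by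
        rw [hT]
        rfl
      rw [h3]
      refine (hmk _).trans (norm_le_of_coord (by positivity) fun p => ?_)
      rw [sub_coord, sub_coord, hT₀, hΦ₀ ξ τ h1 (hτr τ hτ), hΦ₀ ξ' τ h2 (hτr τ hτ)]
      by_cases hp : p.2 ∈ ball p.1 ρ
      · simp only [dat, if_pos hp]
        rw [sub_coord]
        have h4 := (hest _ _ hp).2.2 τ (hbr τ hτ) (ξ p.2) (ξ' p.2) ((norm_coord_le _ _).trans h1) ((norm_coord_le _ _).trans h2)
        have h5 : 8 * B / r / r * ‖τ‖ ≤ c / 4 :=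
          (mul_le_mul_of_nonneg_left (mem_ball_zero_iff.1 hτ).le (by positivity)).trans hr₀3
        have h6 : ‖ξ p.2 - ξ' p.2‖ ≤ ‖ξ - ξ'‖ := by rw [← sub_coord]; exact norm_coord_le _ _
        calc _ ≤ (8 * B / r / r * ‖τ‖ + 16 * B / r / r * r') * ‖ξ p.2 - ξ' p.2‖ := h4
          _ ≤ (c / 4 + c / 4) * ‖ξ - ξ'‖ := mul_le_mul (add_le_add h5 hr'2) h6 (norm_nonneg _) (by positivity)
          _ = c / 2 * ‖ξ - ξ'‖ := by ring
      · rw [dat_of_notMem hp, dat_of_notMem hp, dat_of_notMem hp, sub_zero, sub_zero, norm_zero]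
        positivity)
    (fun τ hτ => by
      have h0n : ‖(0 : Linf ℂ)‖ ≤ r' := by rw [norm_zero]; exact hr'0.le
      have h0r : ‖(0 : ℂ)‖ < r := by simpa using hr
      have hx0 : ∀ z, x 0 z = 0 := by
        intro z
        have h1 := (hx 0 (by simpa using hη)).1 z
        simpa using h1
      have h1 : (Submodule.Quotient.mk (Φ₀ 0 0) : Linf (ℂ × ℂ) ⧸ holSub ρ) = 0 := by
        rw [hΦmem 0 0 h0n h0r]
        intro z₀
        have h2 := (hx 0 (by simpa using hη)).2 z₀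
        refine h2.congr fun z _ => ?_
        rw [hx0, Complex.ofReal_zero]
        rfl
      have h2 : (Submodule.Quotient.mk (Φ₀ 0 τ) : Linf (ℂ × ℂ) ⧸ holSub ρ) = Submodule.Quotient.mk (Φ₀ 0 τ - Φ₀ 0 0) := by
        rw [Submodule.Quotient.mk_sub, h1, sub_zero]
      simp only [h2]
      refine (hmk _).trans (norm_le_of_coord (by positivity) fun p => ?_)
      rw [sub_coord, hΦ₀ 0 τ h0n (hτr τ hτ), hΦ₀ 0 0 h0n h0r]
      by_cases hp : p.2 ∈ ball p.1 ρ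
      · simp only [dat, if_pos hp]
        have h3 := (hest _ _ hp).2.1 τ (hbr τ hτ)
        calc _ ≤ 2 * B / r * ‖τ‖ := h3
          _ ≤ 2 * B / r * r₀ := mul_le_mul_of_nonneg_left (mem_ball_zero_iff.1 hτ).le (by positivity)
          _ ≤ c * r' / 2 := hr₀4
      · rw [dat_of_notMem hp, dat_of_notMem hp, sub_zero, norm_zero]
        positivity)
    b
    (fun t ht => ⟨hbn t ht, by
      have htr : ‖(t : ℂ)‖ < r := by
        rw [Complex.norm_real, Real.norm_eq_abs]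
        linarith
      rw [hΦmem _ _ (hbn t ht) htr]
      intro z₀
      refine ((hx t (ht.trans_le hr₀1)).2 z₀).congr fun z _ => ?_
      rw [hb t ht]⟩)
  refine ⟨fun τ z => a τ z, fun z => ?_, fun τ hτ z => ?_, fun t ht z => ?_, fun τ hτ => ?_⟩
  · have h4 : DifferentiableOn ℂ (fun τ => lp.evalCLM ℂ (fun _ : ℂ => ℂ) ∞ z (a τ)) (ball 0 r₀) :=
      (lp.evalCLM ℂ (fun _ : ℂ => ℂ) ∞ z).differentiable.comp_differentiableOn had
    exact h4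
  · exact (norm_coord_le _ _).trans ((ha1 τ hτ).1.trans hr'1)
  · show a (t : ℂ) z = x t z
    rw [ha2 t ht, hb t ht]
  · exact (hΦmem _ _ (ha1 τ hτ).1 (hτr τ hτ)).1 (ha1 τ hτ).2

end Pool.Agent.TH
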