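import Pool.Agent.TH.Gv

/-!
# TH Chr: the curves and the changes of charts

* `der_beta`: near `z₀`, `β i (q i (F z)) - (b + z v) ∈ Λ` is continuous, so locally constant (`eventually_const_of_mem`); differentiate.
* `T_comp`: chain rule for `q k ∘ σ i = (q k ∘ σ j) ∘ (q j ∘ σ i)` near `q i x` (`x ∈ X` in the three domains; `σ i p ∈ U j` for `p` near `q i x`, because `x = c • σ i (q i x)`).
* `T_beta`: near `q i x`: `β j (q j (σ i p)) - β i p ∈ Λ` is locally constant.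
* `T_an`: `T i j (F z)` is holomorphic in `z` where `F z` is in both domains (`F z ∈ X`): the function `p ↦ fderiv (q j ∘ σ i) p` is analytic at `q i (F z)`.
* `T_curve`: the derivative of `q j (F z)` is `T i j (F z)` of the derivative of `q i (F z)`.
-/

set_option autoImplicit false

open Topology Filter Metric

namespace Pool.Agent.TH

open Pool.Agent.H36.BP (EN fs wd Sub)
open Pool.Agent.H14.PP (IsCone CurveAt Tan)
open Pool.Agent.H62.EF (MN pr)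
open Pool.Agent.H5.BD (BC evp)
open Pool.Agent.AD (Vd Chart Charts TorusMapV DiscreteSub)
open Pool.Agent.AD.BD (Atlas LC Good qc)

variable {N : ℕ} {X : Set (EN N)}

private theorem Chr_const {E : Type*} [TopologicalSpace E] {g : ℕ} {Λ : AddSubgroup (Fin g → ℂ)} (hΛ : DiscreteSub Λ)
    {h : E → (Fin g → ℂ)} {z₀ : E} (hc : ContinuousAt h z₀) (hm : ∀ᶠ z in 𝓝 z₀, h z ∈ Λ) : ∀ᶠ z in 𝓝 z₀, h z = h z₀ := by
  obtain ⟨δ, hδ, hd⟩ := hΛ
  have h1 : ∀ᶠ z in 𝓝 z₀, ‖h z - h z₀‖ < δ := by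
    have h2 := hc.eventually (ball_mem_nhds (h z₀) hδ)
    filter_upwards [h2] with z hz
    rw [← dist_eq_norm]
    exact hz
  filter_upwards [h1, hm] with z hz1 hz2
  exact sub_eq_zero.1 (hd _ (Λ.sub_mem hz2 hm.self_of_nhds) hz1)

/-- the point `σ (q x)` -/
private theorem Chr_base (χ : Chart 3 X) {x : EN N} (hx : x ∈ X) (hi : x ∈ χ.U) :
    χ.q x ∈ ball (0 : Vd 3) 2 ∧ ∀ χ' : Chart 3 X, x ∈ χ'.U → χ.σ (χ.q x) ∈ χ'.U ∧ χ'.q (χ.σ (χ.q x)) = χ'.q x := by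
  obtain ⟨hb, c, hc, h1⟩ := χ.surj x hx hi
  refine ⟨hb, fun χ' hj => ?_⟩
  have h2 : χ.σ (χ.q x) = c⁻¹ • x := by
    conv_rhs => rw [h1]
    rw [smul_smul, inv_mul_cancel₀ hc, one_smul]
  rw [h2]
  exact ⟨χ'.smul_U x hj _ (inv_ne_zero hc), χ'.q_smul x hj _ (inv_ne_zero hc)⟩

private theorem Chr_an (χ χ' : Chart 3 X) {p : Vd 3} (hp : p ∈ ball (0 : Vd 3) 2) (h : χ.σ p ∈ χ'.U) :
    AnalyticAt ℂ (fun y => χ'.q (χ.σ y)) p :=
  AnalyticAt.comp (g := χ'.q) (f := χ.σ) (χ'.q_an _ h) (χ.σ_an p hp)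

/-- near `q x` the point `σ p` is in the second chart -/
private theorem Chr_ev (χ χ' : Chart 3 X) {p : Vd 3} (hp : p ∈ ball (0 : Vd 3) 2) (h : χ.σ p ∈ χ'.U) :
    ∀ᶠ y in 𝓝 p, y ∈ ball (0 : Vd 3) 2 ∧ χ.σ y ∈ χ'.U := by
  have h1 : ∀ᶠ y in 𝓝 p, y ∈ ball (0 : Vd 3) 2 := isOpen_ball.mem_nhds hp
  have h2 : ∀ᶠ y in 𝓝 p, χ.σ y ∈ χ'.U := (χ.σ_an p hp).continuousAt.eventually (χ'.isOpen_U.mem_nhds h)
  exact h1.and h2

private theorem Chr_curve {F : ℂ → EN N} {z : ℂ} (hF : CurveAt X F z) {χ : Chart 3 X} (hi : F z ∈ χ.U) :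
    ∀ᶠ w in 𝓝 z, F w ∈ X ∧ F w ∈ χ.U := by
  have h2 : ∀ᶠ w in 𝓝 z, F w ∈ χ.U := hF.1.continuousAt.eventually (χ.isOpen_U.mem_nhds hi)
  exact hF.2.and h2

namespace Setting

variable (S : Setting X)

theorem good_ix {x : EN N} (hx : x ∈ X) : Good (S.A.χ (S.ix x)) x := by
  unfold ix
  exact S.A.good x hx x hx (by rw [dist_self]; exact S.A.δ_pos.le)

theorem q_an {F : ℂ → EN N} {z : ℂ} (hF : CurveAt X F z) {i : Fin S.A.n} (hi : F z ∈ (S.A.χ i).U) : AnalyticAt ℂ (fun w => S.q i (F w)) z :=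
  ((S.A.χ i).curve S.cone hF hi).1

theorem der_beta {v b : Vd 2} {F : ℂ → EN N} (hF : F ∈ S.G v b) {z : ℂ} {i : Fin S.A.n} (hi : F z ∈ (S.A.χ i).U) :
    fderiv ℂ (S.β i) (S.q i (F z)) (deriv (fun w => S.q i (F w)) z) = v := by
  obtain ⟨hd, hX, hu⟩ := hF
  have hC : CurveAt X F z := ⟨hd.analyticAt z, Eventually.of_forall hX⟩
  have hq := S.q_an hC hi
  have hb := (Chr_base (S.A.χ i) (hX z) hi).1
  have hβ : AnalyticAt ℂ (S.β i) (S.q i (F z)) := S.β_an i _ hb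
  have hcomp : AnalyticAt ℂ (fun w => S.β i (S.q i (F w))) z :=
    AnalyticAt.comp (g := S.β i) (f := fun w => S.q i (F w)) hβ hq
  have hlin : AnalyticAt ℂ (fun w : ℂ => b + w • v) z := by fun_prop
  have hm : ∀ᶠ w in 𝓝 z, S.β i (S.q i (F w)) - (b + w • v) ∈ S.Λ := by
    filter_upwards [Chr_curve hC hi] with w hw
    have h1 := S.β_eq i (F w) hw.1 hw.2
    have h2 := S.Λ.sub_mem (hu w) h1
    have e : S.u (F w) - (b + w • v) - (S.u (F w) - S.β i ((S.A.χ i).q (F w))) = S.β i (S.q i (F w)) - (b + w • v) := by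
      unfold q
      abel
    rwa [e] at h2
  have h3 := Pool.Agent.AD.deriv_eq_of_mem S.disc hcomp hlin hm
  have h4 : deriv (fun w : ℂ => b + w • v) z = v := by
    have h5 : HasDerivAt (fun w : ℂ => b + w • v) ((1 : ℂ) • v) z := ((hasDerivAt_id z).smul_const v).const_add b
    rw [h5.deriv, one_smul]
  have h6 : HasDerivAt (fun w => S.β i (S.q i (F w))) (fderiv ℂ (S.β i) (S.q i (F z)) (deriv (fun w => S.q i (F w)) z)) z :=
    hβ.differentiableAt.hasFDerivAt.comp_hasDerivAt z hq.differentiableAt.hasDerivAt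
  rw [← h6.deriv, h3, h4]

theorem T_comp {x : EN N} (hx : x ∈ X) {i j k : Fin S.A.n} (hi : x ∈ (S.A.χ i).U) (hj : x ∈ (S.A.χ j).U) (hk : x ∈ (S.A.χ k).U) (w : Vd 3) :
    S.T j k x (S.T i j x w) = S.T i k x w := by
  obtain ⟨hb, hB⟩ := Chr_base (S.A.χ i) hx hi
  obtain ⟨hbj, hBj⟩ := Chr_base (S.A.χ j) hx hj
  have hij := hB _ hj
  have hik := hB _ hk
  have hjk := hBj _ hk
  have h1 : HasFDerivAt (fun p => (S.A.χ j).q ((S.A.χ i).σ p)) (S.T i j x) ((S.A.χ i).q x) :=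
    (Chr_an _ _ hb hij.1).differentiableAt.hasFDerivAt
  have h2 : HasFDerivAt (fun p => (S.A.χ k).q ((S.A.χ j).σ p)) (S.T j k x) ((S.A.χ j).q ((S.A.χ i).σ ((S.A.χ i).q x))) := by
    rw [hij.2]
    exact (Chr_an _ _ hbj hjk.1).differentiableAt.hasFDerivAt
  have h3 : HasFDerivAt (fun p => (S.A.χ k).q ((S.A.χ j).σ ((S.A.χ j).q ((S.A.χ i).σ p)))) ((S.T j k x).comp (S.T i j x)) ((S.A.χ i).q x) :=
    HasFDerivAt.comp (g := fun p => (S.A.χ k).q ((S.A.χ j).σ p)) (f := fun p => (S.A.χ j).q ((S.A.χ i).σ p)) _ h2 h1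
  have h4 : HasFDerivAt (fun p => (S.A.χ k).q ((S.A.χ i).σ p)) ((S.T j k x).comp (S.T i j x)) ((S.A.χ i).q x) := by
    refine h3.congr_of_eventuallyEq ?_
    filter_upwards [Chr_ev _ _ hb hij.1, Chr_ev _ _ hb hik.1] with p hp hp'
    exact ((Chr_base (S.A.χ j) ((S.A.χ i).σ_mem p hp.1).1 hp.2).2 _ hp'.2).2.symm
  have h5 : S.T i k x = (S.T j k x).comp (S.T i j x) := h4.fderiv
  rw [h5]
  rfl

theorem T_self {x : EN N} (hx : x ∈ X) {i : Fin S.A.n} (hi : x ∈ (S.A.χ i).U) (w : Vd 3) : S.T i i x w = w := by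
  obtain ⟨hb, -⟩ := Chr_base (S.A.χ i) hx hi
  have h1 : HasFDerivAt (fun p => (S.A.χ i).q ((S.A.χ i).σ p)) (ContinuousLinearMap.id ℂ (Vd 3)) ((S.A.χ i).q x) := by
    refine (hasFDerivAt_id _).congr_of_eventuallyEq ?_
    filter_upwards [isOpen_ball.mem_nhds hb] with p hp
    exact ((S.A.χ i).σ_mem p hp).2.2
  have h2 : S.T i i x = ContinuousLinearMap.id ℂ (Vd 3) := h1.fderiv
  rw [h2]
  rfl

theorem T_beta {x : EN N} (hx : x ∈ X) {i j : Fin S.A.n} (hi : x ∈ (S.A.χ i).U) (hj : x ∈ (S.A.χ j).U) (w : Vd 3) :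
    fderiv ℂ (S.β j) (S.q j x) (S.T i j x w) = fderiv ℂ (S.β i) (S.q i x) w := by
  obtain ⟨hb, hB⟩ := Chr_base (S.A.χ i) hx hi
  obtain ⟨hbj, -⟩ := Chr_base (S.A.χ j) hx hj
  have hij := hB _ hj
  have h1 : HasFDerivAt (fun p => (S.A.χ j).q ((S.A.χ i).σ p)) (S.T i j x) ((S.A.χ i).q x) :=
    (Chr_an _ _ hb hij.1).differentiableAt.hasFDerivAt
  have h2 : HasFDerivAt (S.β j) (fderiv ℂ (S.β j) (S.q j x)) ((S.A.χ j).q ((S.A.χ i).σ ((S.A.χ i).q x))) := by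
    rw [hij.2]
    exact (S.β_an j _ hbj).differentiableAt.hasFDerivAt
  have h3 : HasFDerivAt (fun p => S.β j ((S.A.χ j).q ((S.A.χ i).σ p))) ((fderiv ℂ (S.β j) (S.q j x)).comp (S.T i j x)) ((S.A.χ i).q x) :=
    HasFDerivAt.comp (g := S.β j) (f := fun p => (S.A.χ j).q ((S.A.χ i).σ p)) _ h2 h1
  have h4 : HasFDerivAt (S.β i) (fderiv ℂ (S.β i) (S.q i x)) ((S.A.χ i).q x) :=
    (S.β_an i _ hb).differentiableAt.hasFDerivAt
  have hm : ∀ᶠ p in 𝓝 ((S.A.χ i).q x), S.β j ((S.A.χ j).q ((S.A.χ i).σ p)) - S.β i p ∈ S.Λ := by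
    filter_upwards [Chr_ev _ _ hb hij.1] with p hp
    obtain ⟨hX', hU', hq'⟩ := (S.A.χ i).σ_mem p hp.1
    have h5 := S.β_eq i _ hX' hU'
    have h6 := S.β_eq j _ hX' hp.2
    rw [hq'] at h5
    have h7 := S.Λ.sub_mem h5 h6
    rwa [sub_sub_sub_cancel_left] at h7
  have hc : ContinuousAt (fun p => S.β j ((S.A.χ j).q ((S.A.χ i).σ p)) - S.β i p) ((S.A.χ i).q x) :=
    h3.continuousAt.sub h4.continuousAt
  have h8 := Chr_const S.disc hc hm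
  have h9 : HasFDerivAt (fun p => S.β j ((S.A.χ j).q ((S.A.χ i).σ p)) - S.β i p) (0 : Vd 3 →L[ℂ] Vd 2) ((S.A.χ i).q x) :=
    (hasFDerivAt_const _ _).congr_of_eventuallyEq h8
  have h10 := (h3.sub h4).unique h9
  have h11 := congrArg (fun L : Vd 3 →L[ℂ] Vd 2 => L w) h10
  exact sub_eq_zero.1 h11

theorem T_an {F : ℂ → EN N} {z : ℂ} (hF : CurveAt X F z) {i j : Fin S.A.n} (hi : F z ∈ (S.A.χ i).U) (hj : F z ∈ (S.A.χ j).U) :
    AnalyticAt ℂ (fun w => S.T i j (F w)) z := by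
  obtain ⟨hb, hB⟩ := Chr_base (S.A.χ i) hF.2.self_of_nhds hi
  have h1 : AnalyticAt ℂ (fderiv ℂ (fun p => (S.A.χ j).q ((S.A.χ i).σ p))) ((S.A.χ i).q (F z)) :=
    (Chr_an _ _ hb (hB _ hj).1).fderiv
  exact AnalyticAt.comp (g := fderiv ℂ (fun p => (S.A.χ j).q ((S.A.χ i).σ p))) (f := fun w => (S.A.χ i).q (F w)) h1 (S.q_an hF hi)

theorem T_curve {F : ℂ → EN N} {z : ℂ} (hF : CurveAt X F z) {i j : Fin S.A.n} (hi : F z ∈ (S.A.χ i).U) (hj : F z ∈ (S.A.χ j).U) :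
    S.T i j (F z) (deriv (fun w => S.q i (F w)) z) = deriv (fun w => S.q j (F w)) z := by
  obtain ⟨hb, hB⟩ := Chr_base (S.A.χ i) hF.2.self_of_nhds hi
  have h1 : HasFDerivAt (fun p => (S.A.χ j).q ((S.A.χ i).σ p)) (S.T i j (F z)) (S.q i (F z)) :=
    (Chr_an _ _ hb (hB _ hj).1).differentiableAt.hasFDerivAt
  have h2 : HasDerivAt (fun w => S.q i (F w)) (deriv (fun w => S.q i (F w)) z) z := (S.q_an hF hi).differentiableAt.hasDerivAt
  have h3 : HasDerivAt (fun w => (S.A.χ j).q ((S.A.χ i).σ (S.q i (F w)))) (S.T i j (F z) (deriv (fun w => S.q i (F w)) z)) z :=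
    HasFDerivAt.comp_hasDerivAt (l := fun p => (S.A.χ j).q ((S.A.χ i).σ p)) (f := fun w => S.q i (F w)) z h1 h2
  have h4 : HasDerivAt (fun w => S.q j (F w)) (S.T i j (F z) (deriv (fun w => S.q i (F w)) z)) z := by
    refine h3.congr_of_eventuallyEq ?_
    filter_upwards [Chr_curve hF hi, Chr_curve hF hj] with w hw hw'
    exact ((Chr_base (S.A.χ i) hw.1 hw.2).2 _ hw'.2).2.symm
  exact h4.deriv.symm

theorem T_bound : ∃ C : ℝ, 1 ≤ C ∧ ∀ i j x, Good (S.A.χ i) x → Good (S.A.χ j) x → ‖S.T i j x‖ ≤ C :=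
  ⟨S.A.C, S.A.one_le, fun i j x hi hj => S.A.fd_le i j x hi hj⟩

end Setting

end Pool.Agent.TH
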