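import Pool.Agent.TH.Defs

/-!
# TH RDir: a real direction in the closure of `ℂ v + Λ`

`om v : ℂ² → ℂ` is linear with kernel `ℂ v`.

(1) For every `ε > 0` there is `l ∈ Λ` with `0 < ‖om v l‖ < ε`.  Otherwise the set `{om v l : l ∈ Λ, ‖om v l‖ ≤ B}` is finite for every `B` (an `ε`-separated bounded set).  For `z ∈ ℂ`
take `l ∈ Λ` with `‖z v - l‖ ≤ C` (`S.cpt`): `‖om v l‖ = ‖om v (l - z v)‖ ≤ 2 ‖v‖ C =: B`; choose for each of the finitely many values `h` one `l_h ∈ Λ`; then `l - l_h ∈ Λ` and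
`om v (l - l_h) = 0`, so `l - l_h = ω v` with `‖z - ω‖ ≤ C'`.  So the group `{ω : ω v ∈ Λ}` is cocompact in `ℂ`, so it contains two `ℝ`-independent elements (`z = C'' ` and `z = C'' i`
with `C''` large), contradiction to `hD.nonell`.

(2) Take `l n` with `0 < ‖om v (l n)‖ < 1 / (n + 1)`, `h n = om v (l n)`, and a convergent subsequence (or an ultrafilter limit) `h n / ‖h n‖ → θ`, `‖θ‖ = 1`.  Choose `e` with
`om v e = θ`.  For real `t`: `k n = ⌊t / ‖h n‖⌋`, `k n h n → t θ`, so `om v (k n l n - t e) → 0`; a vector `w` with `om v w` small is near `ℂ v`: `w = z v + (om v w) w₁` for a fixed `w₁` with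
`om v w₁ = 1`.
-/

set_option autoImplicit false

open Topology Filter Metric

namespace Pool.Agent.TH

open Pool.Agent.H36.BP (EN fs wd Sub)
open Pool.Agent.H14.PP (IsCone CurveAt Tan)
open Pool.Agent.H62.EF (MN pr)
open Pool.Agent.H5.BD (BC evp)
open Pool.Agent.AD (Vd Chart Charts TorusMapV DiscreteSub)
open Pool.Agent.AD.BD (Atlas LC Good qc)

variable {N : ℕ} {X : Set (EN N)}

private theorem RDir_om_sub (v a b : Vd 2) : om v (a - b) = om v a - om v b := by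
  simp only [om, Pi.sub_apply]
  ring

private theorem RDir_om_smul (v a : Vd 2) (c : ℂ) : om v (c • a) = c * om v a := by
  simp only [om, Pi.smul_apply, smul_eq_mul]
  ring

private theorem RDir_om_zsmul (v a : Vd 2) (k : ℤ) : om v (k • a) = (k : ℂ) * om v a := by
  simp only [om, Pi.smul_apply, zsmul_eq_mul]
  ring

private theorem RDir_om_self (v : Vd 2) (z : ℂ) : om v (z • v) = 0 := by
  simp only [om, Pi.smul_apply, smul_eq_mul]
  ring

private theorem RDir_om_norm (v w : Vd 2) : ‖om v w‖ ≤ 2 * ‖v‖ * ‖w‖ := by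
  have h0 : ‖v 0‖ ≤ ‖v‖ := norm_le_pi_norm v 0
  have h1 : ‖v 1‖ ≤ ‖v‖ := norm_le_pi_norm v 1
  have g0 : ‖w 0‖ ≤ ‖w‖ := norm_le_pi_norm w 0
  have g1 : ‖w 1‖ ≤ ‖w‖ := norm_le_pi_norm w 1
  have a1 : ‖v 0 * w 1‖ ≤ ‖v‖ * ‖w‖ := by
    rw [norm_mul]
    exact mul_le_mul h0 g1 (norm_nonneg _) (norm_nonneg _)
  have a2 : ‖v 1 * w 0‖ ≤ ‖v‖ * ‖w‖ := by
    rw [norm_mul]
    exact mul_le_mul h1 g0 (norm_nonneg _) (norm_nonneg _)
  have := norm_sub_le (v 0 * w 1) (v 1 * w 0)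
  unfold om
  linarith

/-- a vector with determinant one, and the decomposition -/
private theorem RDir_dual {v : Vd 2} (hv : v ≠ 0) :
    ∃ w₁ : Vd 2, om v w₁ = 1 ∧ ∀ w : Vd 2, ∃ z : ℂ, w = z • v + om v w • w₁ := by
  by_cases h0 : v 0 = 0
  · have h1 : v 1 ≠ 0 := by
      intro h1
      apply hv
      funext i
      fin_cases i
      · exact h0
      · exact h1
    refine ⟨![-(v 1)⁻¹, 0], ?_, fun w => ⟨w 1 / v 1, ?_⟩⟩
    · simp [om, h0, h1]
    · funext i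
      fin_cases i
      · simp [om, h0]
        field_simp
      · simp [om, h0]
        field_simp
  · refine ⟨![0, (v 0)⁻¹], ?_, fun w => ⟨w 0 / v 0, ?_⟩⟩
    · simp [om, h0]
    · funext i
      fin_cases i
      · simp [om]
        field_simp
      · simp [om]
        field_simp
        ring

/-- if the values of `om v` on the lattice are not small, there are multiples of `v` in the lattice near every direction -/
private theorem RDir_dir {Λ : AddSubgroup (Vd 2)} {v : Vd 2} (hv : v ≠ 0) {C : ℝ}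
    (hC : ∀ b : Vd 2, ∃ l ∈ Λ, ‖b - l‖ ≤ C) {ε : ℝ} (hε : 0 < ε)
    (hneg : ∀ l ∈ Λ, om v l = 0 ∨ ε ≤ ‖om v l‖) (ζ : ℂ) (R : ℝ) :
    ∃ x : ℝ, R ≤ x ∧ ∃ ω : ℂ, ω • v ∈ Λ ∧ ‖(x : ℂ) * ζ - ω‖ ≤ 2 * C / ‖v‖ := by
  have hvn : 0 < ‖v‖ := norm_pos_iff.mpr hv
  obtain ⟨w₁, -, hdec⟩ := RDir_dual hv
  choose l hl hlC using fun n : ℕ => hC (((n : ℂ) * ζ) • v)
  have hbd : ∀ n, om v (l n) ∈ closedBall (0 : ℂ) (2 * ‖v‖ * C) := by
    intro n
    rw [mem_closedBall_zero_iff]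
    have h1 : om v (l n) = - om v (((n : ℂ) * ζ) • v - l n) := by
      rw [RDir_om_sub, RDir_om_self]
      ring
    rw [h1, norm_neg]
    calc ‖om v (((n : ℂ) * ζ) • v - l n)‖ ≤ 2 * ‖v‖ * ‖((n : ℂ) * ζ) • v - l n‖ := RDir_om_norm _ _
      _ ≤ 2 * ‖v‖ * C := mul_le_mul_of_nonneg_left (hlC n) (by positivity)
  obtain ⟨a, -, φ, hφ, hlim⟩ := tendsto_subseq_of_bounded isBounded_closedBall hbd
  have hcau := hlim.cauchySeq
  rw [Metric.cauchySeq_iff'] at hcau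
  obtain ⟨M, hM⟩ := hcau ε hε
  obtain ⟨n, hn⟩ := exists_nat_ge (max (M : ℝ) (R + (φ M : ℝ)))
  have hnM : M ≤ n := by
    have : (M : ℝ) ≤ n := le_trans (le_max_left _ _) hn
    exact_mod_cast this
  have hnR : R + (φ M : ℝ) ≤ (φ n : ℝ) := by
    have h1 : R + (φ M : ℝ) ≤ n := le_trans (le_max_right _ _) hn
    have h2 : (n : ℝ) ≤ φ n := by exact_mod_cast hφ.le_apply
    linarith
  have hz : om v (l (φ n) - l (φ M)) = 0 := by
    rcases hneg _ (Λ.sub_mem (hl (φ n)) (hl (φ M))) with h | h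
    · exact h
    · exfalso
      have h2 := hM n hnM
      rw [dist_eq_norm] at h2
      simp only [Function.comp_apply] at h2
      rw [← RDir_om_sub] at h2
      linarith
  obtain ⟨ω, hω⟩ := hdec (l (φ n) - l (φ M))
  rw [hz, zero_smul, add_zero] at hω
  refine ⟨(φ n : ℝ) - φ M, by linarith, ω, ?_, ?_⟩
  · rw [← hω]
    exact Λ.sub_mem (hl (φ n)) (hl (φ M))
  · have h1 : ((((φ n : ℝ) - φ M : ℝ) : ℂ) * ζ - ω) • v
        = (((φ n : ℂ) * ζ) • v - l (φ n)) - (((φ M : ℂ) * ζ) • v - l (φ M)) := by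
      rw [sub_smul, ← hω]
      push_cast
      rw [sub_mul, sub_smul]
      abel
    have h2 : ‖((((φ n : ℝ) - φ M : ℝ) : ℂ) * ζ - ω) • v‖ ≤ 2 * C := by
      rw [h1]
      refine (norm_sub_le _ _).trans ?_
      have := hlC (φ n)
      have := hlC (φ M)
      linarith
    rw [norm_smul] at h2
    rwa [le_div_iff₀ hvn]

/-- the values of `om v` on the lattice accumulate at `0` -/
private theorem RDir_small {Λ : AddSubgroup (Vd 2)} {v : Vd 2} (hv : v ≠ 0) {C : ℝ}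
    (hC : ∀ b : Vd 2, ∃ l ∈ Λ, ‖b - l‖ ≤ C)
    (hne : ∀ ω₁ ω₂ : ℂ, LinearIndependent ℝ ![ω₁, ω₂] → ω₁ • v ∈ Λ → ω₂ • v ∉ Λ) {ε : ℝ}
    (hε : 0 < ε) : ∃ l ∈ Λ, 0 < ‖om v l‖ ∧ ‖om v l‖ < ε := by
  by_contra hcon
  push Not at hcon
  have hneg : ∀ l ∈ Λ, om v l = 0 ∨ ε ≤ ‖om v l‖ := by
    intro l hl
    by_cases h : om v l = 0
    · exact Or.inl h
    · exact Or.inr (hcon l hl (norm_pos_iff.mpr h))
  have hvn : 0 < ‖v‖ := norm_pos_iff.mpr hv
  have hC0 : 0 ≤ C := by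
    obtain ⟨l, -, h⟩ := hC 0
    exact le_trans (norm_nonneg _) h
  obtain ⟨x, hx, ω₁, h1, h1'⟩ := RDir_dir hv hC hε hneg 1 (2 * (2 * C / ‖v‖) + 1)
  obtain ⟨y, hy, ω₂, h2, h2'⟩ := RDir_dir hv hC hε hneg Complex.I (2 * (2 * C / ‖v‖) + 1)
  have hK : 0 ≤ 2 * C / ‖v‖ := by positivity
  generalize 2 * C / ‖v‖ = K at hx hy h1' h2' hK
  refine hne ω₁ ω₂ ?_ h1 h2
  have a1 : |x - ω₁.re| ≤ K := by
    have := (Complex.abs_re_le_norm ((x : ℂ) * 1 - ω₁)).trans h1'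
    simpa using this
  have a2 : |ω₁.im| ≤ K := by
    have := (Complex.abs_im_le_norm ((x : ℂ) * 1 - ω₁)).trans h1'
    simpa using this
  have a3 : |ω₂.re| ≤ K := by
    have := (Complex.abs_re_le_norm ((y : ℂ) * Complex.I - ω₂)).trans h2'
    simpa using this
  have a4 : |y - ω₂.im| ≤ K := by
    have := (Complex.abs_im_le_norm ((y : ℂ) * Complex.I - ω₂)).trans h2'
    simpa using this
  rw [abs_le] at a1 a2 a3 a4
  have hdet : 0 < ω₁.re * ω₂.im - ω₁.im * ω₂.re := by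
    have b1 : K + 1 ≤ ω₁.re := by linarith [a1.2]
    have b2 : K + 1 ≤ ω₂.im := by linarith [a4.2]
    have b3 : (K + 1) * (K + 1) ≤ ω₁.re * ω₂.im := mul_le_mul b1 b2 (by linarith) (by linarith)
    have b4 : |ω₁.im * ω₂.re| ≤ K * K := by
      rw [abs_mul]
      exact mul_le_mul (abs_le.mpr a2) (abs_le.mpr a3) (abs_nonneg _) hK
    have b5 := (abs_le.mp b4).2
    nlinarith
  rw [LinearIndependent.pair_iff]
  intro s t hst
  have c1 : s * ω₁.re + t * ω₂.re = 0 := by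
    have := congrArg Complex.re hst
    simpa using this
  have c2 : s * ω₁.im + t * ω₂.im = 0 := by
    have := congrArg Complex.im hst
    simpa using this
  have d1 : s * (ω₁.re * ω₂.im - ω₁.im * ω₂.re) = 0 := by linear_combination ω₂.im * c1 - ω₂.re * c2
  have d2 : t * (ω₁.re * ω₂.im - ω₁.im * ω₂.re) = 0 := by linear_combination ω₁.re * c2 - ω₁.im * c1
  constructor
  · rcases mul_eq_zero.mp d1 with h | h
    · exact h
    · exact absurd h hdet.ne'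
  · rcases mul_eq_zero.mp d2 with h | h
    · exact h
    · exact absurd h hdet.ne'

theorem Setting.exists_real (S : Setting X) {v : Vd 2} (hD : S.Dir v) : ∃ e : Vd 2, om v e ≠ 0 ∧ ∀ (t : ℝ) (ε : ℝ), 0 < ε → ∃ z : ℂ, ∃ l ∈ S.Λ, ‖z • v + l - (t : ℂ) • e‖ < ε := by
  obtain ⟨C, hC⟩ := S.cpt
  obtain ⟨w₁, hw₁, hdec⟩ := RDir_dual hD.ne
  have hsm : ∀ n : ℕ, ∃ l ∈ S.Λ, 0 < ‖om v l‖ ∧ ‖om v l‖ < 1 / ((n : ℝ) + 1) := fun n =>
    RDir_small hD.ne hC hD.nonell (by positivity)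
  choose l hl hl0 hl1 using hsm
  have hsph : ∀ n, om v (l n) / (‖om v (l n)‖ : ℂ) ∈ sphere (0 : ℂ) 1 := by
    intro n
    rw [mem_sphere_zero_iff_norm, norm_div, Complex.norm_real, norm_norm]
    exact div_self (hl0 n).ne'
  obtain ⟨θ, hθ, φ, hφ, hlim⟩ := (isCompact_sphere (0 : ℂ) 1).tendsto_subseq hsph
  rw [mem_sphere_zero_iff_norm] at hθ
  have hθ0 : θ ≠ 0 := by
    intro h
    rw [h, norm_zero] at hθ
    exact zero_ne_one hθ
  have hw1n : 0 < ‖w₁‖ := by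
    rw [norm_pos_iff]
    rintro rfl
    rw [show om v (0 : Vd 2) = 0 by simp [om]] at hw₁
    exact zero_ne_one hw₁
  refine ⟨θ • w₁, ?_, ?_⟩
  · rw [RDir_om_smul, hw₁, mul_one]
    exact hθ0
  · intro t ε hε
    -- a small number
    set δ : ℝ := ε / ‖w₁‖ / 2 with hδ
    have hδ0 : 0 < δ := by positivity
    have e1 : ∀ᶠ n in atTop, dist (om v (l (φ n)) / (‖om v (l (φ n))‖ : ℂ)) θ < δ / (|t| + 1) :=
      (Metric.tendsto_nhds.mp hlim) _ (by positivity)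
    have e2 : ∀ᶠ n : ℕ in atTop, 1 / ((n : ℝ) + 1) < δ := by
      have := tendsto_one_div_add_atTop_nhds_zero_nat (𝕜 := ℝ)
      exact this.eventually (gt_mem_nhds hδ0)
    obtain ⟨n, hn1, hn2⟩ := (e1.and e2).exists
    have hh : ‖om v (l (φ n))‖ < δ := by
      refine (hl1 (φ n)).trans_le (le_trans ?_ hn2.le)
      apply one_div_le_one_div_of_le (by positivity)
      have : (n : ℝ) ≤ φ n := by exact_mod_cast hφ.le_apply
      linarith
    have hh0 := hl0 (φ n)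
    rw [dist_eq_norm] at hn1
    generalize hL : l (φ n) = L at *
    have hLΛ : L ∈ S.Λ := by
      rw [← hL]
      exact hl (φ n)
    generalize hh' : om v L = h at *
    set k : ℤ := ⌊t / ‖h‖⌋ with hk
    have hk1 : |(k : ℝ) * ‖h‖ - t| ≤ ‖h‖ := by
      have f1 : (k : ℝ) ≤ t / ‖h‖ := Int.floor_le _
      have f2 : t / ‖h‖ < k + 1 := Int.lt_floor_add_one _
      rw [le_div_iff₀ hh0] at f1
      rw [div_lt_iff₀ hh0] at f2
      rw [abs_le]
      constructor <;> nlinarith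
    have hsmall : ‖(k : ℂ) * h - (t : ℂ) * θ‖ < ε / ‖w₁‖ := by
      have g1 : (k : ℂ) * h - (t : ℂ) * θ
          = (((k : ℝ) * ‖h‖ - t : ℝ) : ℂ) * (h / (‖h‖ : ℂ)) + (t : ℂ) * (h / (‖h‖ : ℂ) - θ) := by
        have : (‖h‖ : ℂ) ≠ 0 := by
          exact_mod_cast hh0.ne'
        push_cast
        field_simp
        ring
      have g2 : ‖h / (‖h‖ : ℂ)‖ = 1 := by
        rw [norm_div, Complex.norm_real, norm_norm]
        exact div_self hh0.ne'
      have g3 : ‖(t : ℂ) * (h / (‖h‖ : ℂ) - θ)‖ ≤ δ := by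
        rw [norm_mul, Complex.norm_real, Real.norm_eq_abs]
        have : |t| * ‖h / (‖h‖ : ℂ) - θ‖ ≤ |t| * (δ / (|t| + 1)) :=
          mul_le_mul_of_nonneg_left hn1.le (abs_nonneg _)
        refine this.trans ?_
        rw [mul_div_assoc', div_le_iff₀ (by positivity)]
        nlinarith [abs_nonneg t]
      have g4 : ‖(((k : ℝ) * ‖h‖ - t : ℝ) : ℂ) * (h / (‖h‖ : ℂ))‖ < δ := by
        rw [norm_mul, g2, mul_one, Complex.norm_real, Real.norm_eq_abs]
        exact hk1.trans_lt hh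
      rw [g1]
      have : ε / ‖w₁‖ = δ + δ := by
        rw [hδ]
        ring
      rw [this]
      exact (norm_add_le _ _).trans_lt (by linarith)
    obtain ⟨z, hz⟩ := hdec (k • L - (t : ℂ) • θ • w₁)
    refine ⟨-z, k • L, S.Λ.zsmul_mem hLΛ k, ?_⟩
    have hom : om v (k • L - (t : ℂ) • θ • w₁) = (k : ℂ) * h - (t : ℂ) * θ := by
      rw [RDir_om_sub, RDir_om_zsmul, RDir_om_smul, RDir_om_smul, hw₁, hh', mul_one]
    rw [hom] at hz
    have hfin : -z • v + k • L - (t : ℂ) • θ • w₁ = ((k : ℂ) * h - (t : ℂ) * θ) • w₁ := by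
      rw [add_sub_assoc, hz, neg_smul]
      abel
    rw [hfin, norm_smul]
    rwa [lt_div_iff₀ hw1n] at hsmall

end Pool.Agent.TH
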