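import Pool.Agent.TH.Sep
import Pool.Agent.TH.RDir

/-!
# TH Cnt: the number of the curves over a line

* `Gs_finite`: an injective sequence `f n = pr ∘ F n` in `Gs v b`; `𝒰 ≤ cofinite` an ultrafilter, `F n → H ∈ G v b` (`exists_limit_of` with constant `b`); `pd (F n) H ≤ ε₁` on `ball 0 R₁`
  eventually, so `f n = pr ∘ H` for `𝒰`-almost all `n`: two different `n`, contradiction.
* `limit_inj`: if `F n, G n ∈ G v (b n)` with `pr ∘ F n ≠ pr ∘ G n` and `F n → F`, `G n → G` along `𝒰` then `pr ∘ F ≠ pr ∘ G` (`sep`).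
* `card_le`: `Gs v b` has at most as many elements as `Gs v (b + t e)`: `z n v + l n → t e` (`exists_real`); for `f = pr ∘ F ∈ Gs v b` the translates `F (· + z n) ∈ G v (b + z n v + l n)`
  have a limit in `G v (b + t e)`; this is an injective map by `limit_inj`.  Apply it to `b` and to `b + t e`, `-t`.
-/

set_option autoImplicit false

open Topology Filter Metric

namespace Pool.Agent.TH

open Pool.Agent.H36.BP (EN fs wd Sub)
open Pool.Agent.H14.PP (IsCone CurveAt Tan)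
open Pool.Agent.H62.EF (MN pr)
open Pool.Agent.H5.BD (BC evp)
open Pool.Agent.AD (Vd Chart Charts TorusMapV DiscreteSub)
open Pool.Agent.AD.BD (Atlas LC Good qc)

variable {N : ℕ} {X : Set (EN N)}

namespace Setting

variable (S : Setting X)

theorem Gs_finite {v : Vd 2} (hD : S.Dir v) (b : Vd 2) : (S.Gs v b).Finite := by
  by_contra hinf
  have hinf' : (S.Gs v b).Infinite := hinf
  let f : ℕ ↪ S.Gs v b := hinf'.natEmbedding
  have hf : ∀ n, ∃ F ∈ S.G v b, ∀ z, (f n : ℂ → MN N) z = pr (F z) := fun n => (f n).2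
  choose F hFm hFe using hf
  let 𝒰 : Ultrafilter ℕ := hyperfilter ℕ
  obtain ⟨H, hH, hC⟩ := S.exists_limit_of hD.ne 𝒰 (fun _ => b) b tendsto_const_nhds F (Eventually.of_forall hFm)
  obtain ⟨ε₁, R₁, hε, hR, hsep⟩ := S.sep hD
  have h1 : ∀ᶠ n in (𝒰 : Filter ℕ), ∀ z, pr (F n z) = pr (H z) := by
    filter_upwards [hC.unif R₁ ε₁ hε] with n hn
    refine hsep b (F n) (hFm n) H hH 0 fun z hz => hn z ?_
    rw [mem_ball, dist_zero_right] at hz
    exact hz.le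
  have h2 : {n : ℕ | ∀ z, pr (F n z) = pr (H z)}.Subsingleton := by
    intro m hm n hn
    apply f.injective
    apply Subtype.ext
    funext z
    rw [hFe m z, hFe n z]
    exact (hm z).trans (hn z).symm
  exact Set.Finite.notMem_hyperfilter h2.finite h1

theorem limit_inj {v : Vd 2} (hD : S.Dir v) (𝒰 : Ultrafilter ℕ) {b : ℕ → Vd 2} {F G : ℕ → ℂ → EN N} {F₀ G₀ : ℂ → EN N} (hF : S.Conv 𝒰 F F₀) (hG : S.Conv 𝒰 G G₀)
    (hFb : ∀ᶠ n in (𝒰 : Filter ℕ), F n ∈ S.G v (b n) ∧ G n ∈ S.G v (b n) ∧ ∃ z, pr (F n z) ≠ pr (G n z)) : ∃ z, pr (F₀ z) ≠ pr (G₀ z) := by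
  by_contra hno
  push Not at hno
  obtain ⟨ε₁, R₁, hε, hR, hsep⟩ := S.sep hD
  have hε2 : 0 < ε₁ / 2 := by positivity
  have h1 : ∀ᶠ n in (𝒰 : Filter ℕ), False := by
    filter_upwards [hF.unif R₁ (ε₁ / 2) hε2, hG.unif R₁ (ε₁ / 2) hε2, hFb] with n h1 h2 h3
    obtain ⟨h3, h4, z, hz⟩ := h3
    apply hz
    refine hsep (b n) (F n) h3 (G n) h4 0 (fun w hw => ?_) z
    rw [mem_ball, dist_zero_right] at hw
    have h5 := h1 w hw.le
    have h6 := h2 w hw.le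
    unfold pd at h5 h6 ⊢
    have h7 : dist (pr (F n w)) (pr (G n w)) ≤ dist (pr (F n w)) (pr (F₀ w)) + dist (pr (F₀ w)) (pr (G n w)) := dist_triangle _ _ _
    rw [hno w, dist_comm (pr (G₀ w)) (pr (G n w))] at h7
    rw [hno w] at h5
    linarith
  exact h1.exists.elim fun _ h => h

private theorem card_le {v : Vd 2} (hD : S.Dir v) {e : Vd 2} (he : ∀ (t : ℝ) (ε : ℝ), 0 < ε → ∃ z : ℂ, ∃ l ∈ S.Λ, ‖z • v + l - (t : ℂ) • e‖ < ε) (b : Vd 2) (t : ℝ) :
    (S.Gs v b).ncard ≤ (S.Gs v (b + (t : ℂ) • e)).ncard := by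
  have h0 : ∀ n : ℕ, ∃ z : ℂ, ∃ l ∈ S.Λ, ‖z • v + l - (t : ℂ) • e‖ < 1 / ((n : ℝ) + 1) := fun n => he t _ Nat.one_div_pos_of_nat
  choose z l hl hz using h0
  let 𝒰 : Ultrafilter ℕ := hyperfilter ℕ
  have hle : (𝒰 : Filter ℕ) ≤ atTop := by
    rw [← Nat.cofinite_eq_atTop]
    exact hyperfilter_le_cofinite
  have hlim : Tendsto (fun n => b + z n • v + l n) (𝒰 : Filter ℕ) (𝓝 (b + (t : ℂ) • e)) := by
    have h1 : Tendsto (fun n => z n • v + l n - (t : ℂ) • e) (𝒰 : Filter ℕ) (𝓝 0) := by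
      refine squeeze_zero_norm (fun n => (hz n).le) ?_
      exact tendsto_one_div_add_atTop_nhds_zero_nat.mono_left hle
    have h2 : Tendsto (fun n => (b + (t : ℂ) • e) + (z n • v + l n - (t : ℂ) • e)) (𝒰 : Filter ℕ) (𝓝 ((b + (t : ℂ) • e) + 0)) := tendsto_const_nhds.add h1
    rw [add_zero] at h2
    refine h2.congr fun n => ?_
    abel
  have h1 : ∀ f : ℂ → MN N, f ∈ S.Gs v b → ∃ F H : ℂ → EN N, F ∈ S.G v b ∧ (∀ z, f z = pr (F z)) ∧ H ∈ S.G v (b + (t : ℂ) • e) ∧ S.Conv 𝒰 (fun n w => F (w + z n)) H := by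
    rintro f ⟨F, hF, hfF⟩
    obtain ⟨H, hH, hC⟩ := S.exists_limit_of hD.ne 𝒰 (fun n => b + z n • v + l n) (b + (t : ℂ) • e) hlim (fun n w => F (w + z n))
      (Eventually.of_forall fun n => by
        rw [S.G_lat v _ (hl n)]
        exact S.G_trans hF (z n))
    exact ⟨F, H, hF, hfF, hH, hC⟩
  choose! F H hF hfF hH hC using h1
  refine Set.ncard_le_ncard_of_injOn (fun f w => pr (H f w)) (fun f hf => ⟨H f, hH f hf, fun _ => rfl⟩) ?_ (S.Gs_finite hD _)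
  intro f hf g hg hfg
  by_contra hne
  have h2 : ∃ w, f w ≠ g w := by
    by_contra hno
    push Not at hno
    exact hne (funext hno)
  obtain ⟨w, hw⟩ := h2
  obtain ⟨y, hy⟩ := S.limit_inj hD 𝒰 (b := fun n => b + z n • v) (hC f hf) (hC g hg) (Eventually.of_forall fun n =>
    ⟨S.G_trans (hF f hf) (z n), S.G_trans (hF g hg) (z n), w - z n, by
      simp only [sub_add_cancel]
      rw [← hfF f hf w, ← hfF g hg w]
      exact hw⟩)
  exact hy (congrFun hfg y)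

theorem card_eq {v : Vd 2} (hD : S.Dir v) {e : Vd 2} (he : ∀ (t : ℝ) (ε : ℝ), 0 < ε → ∃ z : ℂ, ∃ l ∈ S.Λ, ‖z • v + l - (t : ℂ) • e‖ < ε) (b : Vd 2) (t : ℝ) :
    (S.Gs v (b + (t : ℂ) • e)).ncard = (S.Gs v b).ncard := by
  apply le_antisymm
  · have h1 := S.card_le hD he (b + (t : ℂ) • e) (-t)
    have h2 : b + (t : ℂ) • e + ((-t : ℝ) : ℂ) • e = b := by
      push_cast
      rw [neg_smul]
      abel
    rwa [h2] at h1
  · exact S.card_le hD he b t

end Setting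

end Pool.Agent.TH
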