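import Pool.Agent.AD.Defs

/-!
# TH Crit: the critical values of a holomorphic function are countable

Induction on `n`.  `n = 0`: the domain has one point.  Step `n + 1`: let `A k` (`k ≥ 1`) be the set of the `x ∈ U` with `iteratedFDeriv ℂ j f x = 0` for `1 ≤ j ≤ k` and
`iteratedFDeriv ℂ (k + 1) f x ≠ 0`, and `A∞` the set of the `x ∈ U` where all derivatives of order `≥ 1` vanish; the critical set is the union.  It is enough to show that `f '' A` is countable for each
of these countably many sets `A`, and for this that every `x ∈ A` has a neighbourhood `V` with `f '' (A ∩ V)` countable (Lindelöf: `TopologicalSpace.countable_cover_nhdsWithin`).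

* `A∞`: `f` is constant near `x` (power series).
* `A k`: there are vectors `m` with `iteratedFDeriv ℂ (k + 1) f x m ≠ 0`; so `g y = iteratedFDeriv ℂ k f y (m 1, ..., m k)` is analytic, `g = 0` on `A k`, and `fderiv ℂ g x (m 0) ≠ 0`.  Let `l` be a coordinate with
  `fderiv ℂ g x (Pi.single l 1) ≠ 0` and `Φ y = (g y, the other n coordinates of y)`, a local diffeomorphism at `x` (analytic inverse), `σ w = Φ⁻¹ (0, w)`, analytic near the projection of `x`.  For `y ∈ A k` near
  `x`, with projection `w`: `y = σ w` and `fderiv (f ∘ σ) w = fderiv f y ∘ fderiv σ w = 0`.  So `f '' (A k ∩ V)` is contained in the set of the critical values of `f ∘ σ` (a function of `n` variables).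
-/

set_option autoImplicit false

open Topology Filter Metric

namespace Pool.Agent.TH

open Pool.Agent.AD (Vd)

theorem countable_crit {n : ℕ} {f : Vd n → ℂ} {U : Set (Vd n)} (hU : IsOpen U) (hf : ∀ x ∈ U, AnalyticAt ℂ f x) :
    (f '' {x | x ∈ U ∧ fderiv ℂ f x = 0}).Countable := by
  sorry

end Pool.Agent.TH
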