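import Pool.Agent.TH.Chr
import Pool.Agent.TH.Crit

/-!
# TH CritX: the hits lie over countably many leaves

For each chart `i` the function `om v ∘ β i` is analytic on `ball 0 2`, its critical values are countable (`countable_crit`).  If `x ∈ X` is a hit, `i = ix x`, `p = q i x`, then `p` is a critical point
(`cov v i p = 0`, a linear functional on `Vd 3` which vanishes on `Pi.single l 1` is `0`), and `u x - β i p ∈ Λ`, so `y - β i p ∈ Λ` if `u x - y ∈ Λ`: `om v y` is a critical value plus an element of the countable set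
`om v '' Λ` (`Λ` is countable: `S.disc`, a discrete subset of `ℂ²`; or `S.Λ` is a discrete subgroup, Lindelöf).
-/

set_option autoImplicit false

open Topology Filter Metric

namespace Pool.Agent.TH

open Pool.Agent.H36.BP (EN fs wd Sub)
open Pool.Agent.H14.PP (IsCone CurveAt Tan)
open Pool.Agent.H62.EF (MN pr)
open Pool.Agent.H5.BD (BC evp)
open Pool.Agent.AD (Vd Chart Charts TorusMapV DiscreteSub)
open Pool.Agent.AD.BD (Atlas LC Good qc)

variable {N : ℕ} {X : Set (EN N)}

theorem Setting.exists_crit (S : Setting X) (v : Vd 2) : ∃ Q : Set ℂ, Q.Countable ∧ ∀ x ∈ X, S.Hit v x → ∀ y : Vd 2, S.u x - y ∈ S.Λ → om v y ∈ Q := by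
  sorry

end Pool.Agent.TH
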