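import Pool.Agent.AD.BD.Atl
import Pool.Agent.H19T.Defs
import Mathlib.LinearAlgebra.CrossProduct

/-!
# TH Defs: threefolds over two-dimensional complex tori, definitions

`X` is the cone (without `0`) of a smooth projective threefold, `u : X → ℂ² / Λ` a holomorphic map, `Ω` forms with values in `m K_X - H` without common zeros.
`Setting X` bundles these data with an atlas; in the charts `u` is given by `β i`.
-/

set_option autoImplicit false

open Topology Filter Metric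

namespace Pool.Agent.TH

open Pool.Agent.H36.BP (EN fs wd Sub)
open Pool.Agent.H14.PP (IsCone CurveAt Tan)
open Pool.Agent.H62.EF (MN pr)
open Pool.Agent.H5.BD (BC evp)
open Pool.Agent.AD (Vd Chart Charts TorusMapV DiscreteSub)
open Pool.Agent.AD.BD (Atlas LC Good qc)
open Pool.Agent.H19T (TForm TNoZero)

variable {N : ℕ}

/-- the determinant of two vectors -/
def om (v w : Vd 2) : ℂ := v 0 * w 1 - v 1 * w 0

/-- The setting: a smooth projective threefold with ample canonical bundle over a complex torus of dimension two, without entire curves in the fibres, with an atlas. -/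
structure Setting (X : Set (EN N)) where
  /-- the lattice -/
  Λ : AddSubgroup (Vd 2)
  /-- the map to the torus -/
  u : EN N → Vd 2
  /-- the weight of the forms -/
  m : ℕ
  /-- the number of the forms -/
  J : ℕ
  /-- the forms -/
  Ω : Fin J → TForm 3 3 X m
  /-- the atlas -/
  A : Atlas 3 X
  /-- the map to the torus in the charts -/
  β : Fin A.n → Vd 3 → Vd 2
  cone : IsCone X
  charts : Charts 3 X
  ne : X.Nonempty
  torus : TorusMapV X Λ u
  disc : DiscreteSub Λ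
  cpt : ∃ C : ℝ, ∀ b : Vd 2, ∃ l ∈ Λ, ‖b - l‖ ≤ C
  m_pos : 1 ≤ m
  noZero : TNoZero Ω
  β_an : ∀ i, ∀ p ∈ ball (0 : Vd 3) 2, AnalyticAt ℂ (β i) p
  β_eq : ∀ i, ∀ x ∈ X, x ∈ (A.χ i).U → u x - β i ((A.χ i).q x) ∈ Λ
  fibre : ∀ F : ℂ → EN N, Differentiable ℂ F → (∀ z, F z ∈ X) → (∀ z, u (F z) - u (F 0) ∈ Λ) → ∀ z, pr (F z) = pr (F 0)

namespace Setting

variable {X : Set (EN N)} (S : Setting X)

/-- the chosen chart at the point `x` -/
noncomputable def ix (x : EN N) : Fin S.A.n := S.A.idx (pr x)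

/-- the coordinates of `x` in the chart `i` -/
noncomputable def q (i : Fin S.A.n) (x : EN N) : Vd 3 := (S.A.χ i).q x

/-- the change of charts, from the chart `i` to the chart `j`, on tangent vectors at `x` -/
noncomputable def T (i j : Fin S.A.n) (x : EN N) : Vd 3 →L[ℂ] Vd 3 := fderiv ℂ (fun p => (S.A.χ j).q ((S.A.χ i).σ p)) ((S.A.χ i).q x)

/-- the entire curves over the line `b + ℂ v` -/
def G (v b : Vd 2) : Set (ℂ → EN N) := {F | Differentiable ℂ F ∧ (∀ z, F z ∈ X) ∧ ∀ z, S.u (F z) - (b + z • v) ∈ S.Λ}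

/-- the one-form `om v (d β)` in the chart `i` at the point `p` -/
noncomputable def cov (v : Vd 2) (i : Fin S.A.n) (p : Vd 3) : Vd 3 := fun l => om v (fderiv ℂ (S.β i) p (Pi.single l 1))

/-- the point `x` is a zero of the one-form `om v (d u)` -/
def Hit (v : Vd 2) (x : EN N) : Prop := S.cov v (S.ix x) (S.q (S.ix x) x) = 0

/-- the direction `v` is not elliptic, and the zeros of the one-form `om v (d u)` lie over finitely many points -/
structure Dir (v : Vd 2) : Prop where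
  ne : v ≠ 0
  nonell : ∀ ω₁ ω₂ : ℂ, LinearIndependent ℝ ![ω₁, ω₂] → ω₁ • v ∈ S.Λ → ω₂ • v ∉ S.Λ
  hits : ∃ T : Finset (Vd 2), ∀ x ∈ X, S.Hit v x → ∃ t ∈ T, S.u x - t ∈ S.Λ

/-- the constants of the local analysis for the curves of `G v b` -/
structure Dat (v : Vd 2) (c L r₀ c₁ K : ℝ) : Prop where
  lc : LC S.A c L r₀ c₁ K
  c_pos : 0 < c
  sub : ∀ b, S.G v b ⊆ BC X c L

/-- the length of the forms on the unit vectors of the chart `i` at the point `p` -/
noncomputable def kk (i : Fin S.A.n) (p : Vd 3) : ℝ :=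
  (∑ k, ‖(S.Ω k).toFun ((S.A.χ i).σ p) (fun l => fderiv ℂ (S.A.χ i).σ p (Pi.single l 1))‖) * ‖(S.A.χ i).σ p‖

/-- a vertical holomorphic vector field along `F`: `ξ z` is a vector in the chart `ix (F z)` -/
structure Field (F : ℂ → EN N) (ξ : ℂ → Vd 3) : Prop where
  hol : ∀ z₀, ∃ (r : ℝ) (h : ℂ → Vd 3), 0 < r ∧ DifferentiableOn ℂ h (ball z₀ r) ∧
    ∀ z ∈ ball z₀ r, Good (S.A.χ (S.ix (F z₀))) (F z) ∧ S.T (S.ix (F z)) (S.ix (F z₀)) (F z) (ξ z) = h z
  ver : ∀ z, fderiv ℂ (S.β (S.ix (F z))) (S.q (S.ix (F z)) (F z)) (ξ z) = 0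

/-- an approximate vertical holomorphic vector field along `F` on the set `U`, with error `ε`, on the scale `r` -/
structure AField (F : ℂ → EN N) (ξ : ℂ → Vd 3) (U : Set ℂ) (r ε : ℝ) : Prop where
  hol : ∀ z₀ ∈ U, ∃ h : ℂ → Vd 3, DifferentiableOn ℂ h (ball z₀ r) ∧
    ∀ z ∈ ball z₀ r ∩ U, ‖S.T (S.ix (F z)) (S.ix (F z₀)) (F z) (ξ z) - h z‖ ≤ ε
  ver : ∀ z ∈ U, ‖fderiv ℂ (S.β (S.ix (F z))) (S.q (S.ix (F z)) (F z)) (ξ z)‖ ≤ ε

/-- the difference of `G z` and `F z` in the chart at `F z` -/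
noncomputable def dsp (F G : ℂ → EN N) (z : ℂ) : Vd 3 := S.q (S.ix (F z)) (G z) - S.q (S.ix (F z)) (F z)

/-- the distance of the points `F z` and `G z` of the projective space -/
noncomputable def _root_.Pool.Agent.TH.pd (F G : ℂ → EN N) (z : ℂ) : ℝ := dist (pr (F z)) (pr (G z))

/-- the entire curves over the line `b + ℂ v`, as maps to the projective space -/
def Gs (v b : Vd 2) : Set (ℂ → MN N) := {f | ∃ F ∈ S.G v b, ∀ z, f z = pr (F z)}

/-- the holomorphic maps `Ψ : ℂ² → X` over the translation by `b` -/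
def FF (b : Vd 2) : Set (Vd 2 → MN N) :=
  {Ψ | ∀ w, ∃ φ : Vd 2 → EN N, AnalyticAt ℂ φ w ∧ ∀ᶠ y in 𝓝 w, φ y ∈ X ∧ Ψ y = pr (φ y) ∧ S.u (φ y) - (b + y) ∈ S.Λ}

/-- the finite family of all the sheets -/
structure Sheets (J : ℕ) (Ψ : Fin J → Vd 2 → MN N) : Prop where
  mem : ∀ j, Ψ j ∈ S.FF 0
  all : ∀ Φ ∈ S.FF 0, ∃ j, Φ = Ψ j
  inj : ∀ j k, Ψ j = Ψ k → j = k
  per : ∃ M : ℕ, 1 ≤ M ∧ ∀ j, ∀ l ∈ S.Λ, ∀ w, Ψ j (w + M • l) = Ψ j w
  disj : ∀ j k w w', Ψ j w = Ψ k w' → w - w' ∈ S.Λ ∧ ∀ y, Ψ j (w + y) = Ψ k (w' + y)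
  lip : ∃ L : ℝ, ∀ j w w', dist (Ψ j w) (Ψ j w') ≤ L * ‖w - w'‖
  curves : ∀ v, S.Dir v → ∀ b, ∀ F ∈ S.G v b, ∃ j, ∀ z, pr (F z) = Ψ j (b + z • v)

end Setting

end Pool.Agent.TH
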