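import Pool.Agent.TH.Fch
import Pool.Agent.TH.AbsExt
import Pool.Agent.TH.Osg

/-!
# TH Fam: the complex family through a curve

Let `r, B` be the constants of `exists_fch` for a small `τ`, `F ∈ G v b`, and for every `z` choose `l z`, `E z` (`FCh` at `F z`), `i z = ix (F z)`.  For `‖z - z₀‖ < ρ` (`ρ` small, `ρ ≤ r₀`) put
`φ z₀ z τ s = q (i z₀) (σ (i z) (E z (τ e, s))) (l z₀)` (write `D = ‖e‖ + 1`, `‖τ e‖ < r` if `‖τ‖ < r / D`; all the points are near `F z` and `F z₀`, so in the good parts of the charts).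

* `φ` is holomorphic and bounded.
* real family: for `|t| < η` let `G_t` be the curve of `path_lip`; `x t z = q (i z) (G_t z) (l z) - q (i z) (F z) (l z)`; `E z (t e, x t z) = q (i z) (G_t z)` by `FCh.inv` (`β (q (G_t z)) - β (q (F z)) = t e`
  because it is in `t e + Λ` and small), so `φ z₀ z t (x t z) = q (i z₀) (G_t z) (l z₀)` is holomorphic in `z`.  `x 0 = 0` (`G_0` may be taken `F`: `pd F G_0 ≤ 0`).
* lower bound (the hypothesis of `abs_ext` on `ξ`, `δ`): `ν z = ∂_s E z (0, 0)` is a vector in the chart `i z` with `dβ (ν z) = 0`, `ν z (l z) = 1`, `‖ν z‖ ≤ B'`; `deriv (φ z₀ z 0) 0` is the component `l z₀` of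
  `T (i z) (i z₀) (F z) (ν z)`; this vector is vertical at `F z`, so it is this component times `∂_s E z₀ ((z - z₀) v, q (i z₀) (F z) (l z₀) - q (i z₀) (F z₀) (l z₀))`, a holomorphic function of `z`.  So if
  `‖deriv (φ z₀ z 0) 0 * ξ z - h z‖ ≤ δ` then `Ξ z = ξ z • ν z` satisfies `AField F Ξ univ ρ (B' δ)`.  Let `s = sup ‖Ξ z‖`, `s > 0`, `‖Ξ z₁‖ ≥ s / 2`: `approx` for `Ξ / s` gives
  `B' δ / s > ε`.  So `‖ξ z‖ ≤ ‖Ξ z‖ ≤ s ≤ B' δ / ε`.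
* `abs_ext` gives `ξ`; `Φ τ z = pr (σ (i z) (E z (τ e, ξ τ z)))`.  Near `(z₀, τ₀)`: `g (z, τ) = φ z₀ z τ (ξ τ z)` is bounded and separately holomorphic, so analytic (`osgood`), and the point
  `σ (i z) (E z (τ e, ξ τ z))` is a multiple of `σ (i z₀) (E z₀ ((z - z₀) v + τ e, g (z, τ) - q (i z₀) (F z₀) (l z₀)))` by `FCh.inv` at `z₀`; this is the local lift.
-/

set_option autoImplicit false

open Topology Filter Metric

namespace Pool.Agent.TH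

open Pool.Agent.H36.BP (EN fs wd Sub)
open Pool.Agent.H14.PP (IsCone CurveAt Tan)
open Pool.Agent.H62.EF (MN pr)
open Pool.Agent.H5.BD (BC evp)
open Pool.Agent.AD (Vd Chart Charts TorusMapV DiscreteSub)
open Pool.Agent.AD.BD (Atlas LC Good qc)

variable {N : ℕ} {X : Set (EN N)}

/-- `Φ τ z`, `τ ∈ U`, is a holomorphic family of curves over the lines `b + τ e + ℂ v` -/
def Setting.IsFam (S : Setting X) (v e b : Vd 2) (U : Set ℂ) (Φ : ℂ → ℂ → MN N) : Prop :=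
  ∀ τ₀ ∈ U, ∀ z₀ : ℂ, ∃ φ : ℂ × ℂ → EN N, AnalyticAt ℂ φ (z₀, τ₀) ∧
    ∀ᶠ y in 𝓝 (z₀, τ₀), φ y ∈ X ∧ Φ y.2 y.1 = pr (φ y) ∧ S.u (φ y) - (b + y.1 • v + y.2 • e) ∈ S.Λ

private theorem Fam_base (χ : Chart 3 X) {x : EN N} (hx : x ∈ X) (hi : x ∈ χ.U) :
    χ.q x ∈ ball (0 : Vd 3) 2 ∧ pr (χ.σ (χ.q x)) = pr x ∧
      ∀ χ' : Chart 3 X, x ∈ χ'.U → χ.σ (χ.q x) ∈ χ'.U ∧ χ'.q (χ.σ (χ.q x)) = χ'.q x := by
  obtain ⟨hb, c, hc, h1⟩ := χ.surj x hx hi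
  have h2 : χ.σ (χ.q x) = c⁻¹ • x := by
    conv_rhs => rw [h1]
    rw [smul_smul, inv_mul_cancel₀ hc, one_smul]
  refine ⟨hb, ?_, fun χ' hj => ?_⟩
  · rw [h2, Pool.Agent.H62.EF.pr_smul _ (inv_ne_zero hc)]
  · rw [h2]
    exact ⟨χ'.smul_U x hj _ (inv_ne_zero hc), χ'.q_smul x hj _ (inv_ne_zero hc)⟩

private theorem Fam_uc (S : Setting X) {ε : ℝ} (hε : 0 < ε) : ∃ ς : ℝ, 0 < ς ∧ ∀ i : Fin S.A.n, ∀ p ∈ closedBall (0 : Vd 3) 1,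
    ∀ p' ∈ closedBall (0 : Vd 3) 1, ‖p - p'‖ < ς → dist (pr ((S.A.χ i).σ p)) (pr ((S.A.χ i).σ p')) < ε := by
  have h1 : ∀ i : Fin S.A.n, ∃ ς : ℝ, 0 < ς ∧ ∀ p ∈ closedBall (0 : Vd 3) 1, ∀ p' ∈ closedBall (0 : Vd 3) 1,
      ‖p - p'‖ < ς → dist (pr ((S.A.χ i).σ p)) (pr ((S.A.χ i).σ p')) < ε := by
    intro i
    have hc : ContinuousOn (fun p => pr ((S.A.χ i).σ p)) (closedBall (0 : Vd 3) 1) := by
      intro p hp
      have hp2 : p ∈ ball (0 : Vd 3) 2 := closedBall_subset_ball (by norm_num) hp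
      have h2 : ContinuousAt (fun p => pr ((S.A.χ i).σ p)) p :=
        ContinuousAt.comp (g := pr) (f := (S.A.χ i).σ) (Pool.Agent.H62.EF.continuousAt_pr (S.cone.ne_zero ((S.A.χ i).σ_mem p hp2).1))
          ((S.A.χ i).σ_an p hp2).continuousAt
      exact h2.continuousWithinAt
    have hu := (isCompact_closedBall (0 : Vd 3) 1).uniformContinuousOn_of_continuous hc
    rw [Metric.uniformContinuousOn_iff] at hu
    obtain ⟨ς, hς, h⟩ := hu ε hε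
    exact ⟨ς, hς, fun p hp p' hp' hd => h p hp p' hp' (by rw [dist_eq_norm]; exact hd)⟩
  choose ς hς h using h1
  have : Nonempty (Fin S.A.n) := ⟨S.A.idx (pr 0)⟩
  obtain ⟨i₀, hi₀⟩ := Finite.exists_min ς
  exact ⟨ς i₀, hς i₀, fun i p hp p' hp' hd => h i p hp p' hp' (hd.trans_le (hi₀ i))⟩

/-- the constants and the fibred charts along `F` -/
private structure FamD (S : Setting X) (v b : Vd 2) (F : ℂ → EN N) (r B ρ : ℝ) (l : ℂ → Fin 3) (E : ℂ → Vd 2 × ℂ → Vd 3) : Prop where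
  mem : F ∈ S.G v b
  fch : ∀ z, S.FCh (F z) r B (l z) (E z)
  r_pos : 0 < r
  one_le : 1 ≤ B
  ρ_pos : 0 < ρ
  Br : B * r ≤ 1 / 2
  lam : ∀ a ∈ S.Λ, ‖a‖ < 2 * r → a = 0
  good : ∀ z₀, ∀ z ∈ ball z₀ ρ, ∀ y ∈ ball (0 : Vd 2 × ℂ) r, Good (S.A.χ (S.ix (F z₀))) ((S.A.χ (S.ix (F z))).σ (E z y))
  nearF : ∀ z₀, ∀ z ∈ ball z₀ ρ, ‖S.q (S.ix (F z₀)) (F z) - S.q (S.ix (F z₀)) (F z₀)‖ < r / (4 * B)
  goodF : ∀ z₀, ∀ z ∈ ball z₀ ρ, Good (S.A.χ (S.ix (F z₀))) (F z)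
  vρ : ρ * ‖v‖ ≤ r / 4

namespace FamD

variable {S : Setting X} {v b : Vd 2} {F : ℂ → EN N} {r B ρ : ℝ} {l : ℂ → Fin 3} {E : ℂ → Vd 2 × ℂ → Vd 3}

private theorem E0 (D : FamD S v b F r B ρ l E) (z : ℂ) : E z 0 = S.q (S.ix (F z)) (F z) := by
  have h := (D.fch z).near 0 (mem_ball_self D.r_pos)
  rw [norm_zero, mul_zero] at h
  exact sub_eq_zero.1 (norm_le_zero_iff.1 h)

private theorem ballE (D : FamD S v b F r B ρ l E) (z : ℂ) {y : Vd 2 × ℂ} (hy : y ∈ ball (0 : Vd 2 × ℂ) r) : E z y ∈ ball (0 : Vd 3) 2 := by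
  have h := (D.fch z).near y hy
  have h1 : ‖S.q (S.ix (F z)) (F z)‖ ≤ 1 / 2 := (D.goodF z z (mem_ball_self D.ρ_pos)).2.2
  rw [mem_ball_zero_iff] at hy ⊢
  have hB : 0 < B := lt_of_lt_of_le one_pos D.one_le
  have h2 : B * ‖y‖ < 1 / 2 := (mul_lt_mul_of_pos_left hy hB).trans_le D.Br
  calc ‖E z y‖ = ‖(E z y - S.q (S.ix (F z)) (F z)) + S.q (S.ix (F z)) (F z)‖ := by rw [sub_add_cancel]
    _ ≤ ‖E z y - S.q (S.ix (F z)) (F z)‖ + ‖S.q (S.ix (F z)) (F z)‖ := norm_add_le _ _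
    _ < 2 := by linarith

/-- the inversion -/
private theorem inv (D : FamD S v b F r B ρ l E) (z₀ : ℂ) {x : EN N} (hx : x ∈ X) (hU : x ∈ (S.A.χ (S.ix (F z₀))).U)
    (hd : ‖S.q (S.ix (F z₀)) x - S.q (S.ix (F z₀)) (F z₀)‖ < r / B) {w : Vd 2} (hw : ‖w‖ < r) (hu : S.u x - (b + z₀ • v + w) ∈ S.Λ) :
    (w, S.q (S.ix (F z₀)) x (l z₀) - S.q (S.ix (F z₀)) (F z₀) (l z₀)) ∈ ball (0 : Vd 2 × ℂ) r ∧
      E z₀ (w, S.q (S.ix (F z₀)) x (l z₀) - S.q (S.ix (F z₀)) (F z₀) (l z₀)) = S.q (S.ix (F z₀)) x := by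
  obtain ⟨h1, h2⟩ := (D.fch z₀).inv _ hd
  have hF := D.goodF z₀ z₀ (mem_ball_self D.ρ_pos)
  have h3 := S.β_eq (S.ix (F z₀)) x hx hU
  have h4 := S.β_eq (S.ix (F z₀)) (F z₀) hF.1 hF.2.1
  have h5 := D.mem.2.2 z₀
  have h6 : S.β (S.ix (F z₀)) (S.q (S.ix (F z₀)) x) - S.β (S.ix (F z₀)) (S.q (S.ix (F z₀)) (F z₀)) = w := by
    rw [← sub_eq_zero]
    apply D.lam
    · have h7 : S.β (S.ix (F z₀)) (S.q (S.ix (F z₀)) x) - S.β (S.ix (F z₀)) (S.q (S.ix (F z₀)) (F z₀)) - w =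
          (S.u x - (b + z₀ • v + w)) - (S.u x - S.β (S.ix (F z₀)) ((S.A.χ (S.ix (F z₀))).q x)) - ((S.u (F z₀) - (b + z₀ • v)) -
            (S.u (F z₀) - S.β (S.ix (F z₀)) ((S.A.χ (S.ix (F z₀))).q (F z₀)))) := by
        unfold Setting.q
        abel
      rw [h7]
      exact S.Λ.sub_mem (S.Λ.sub_mem hu h3) (S.Λ.sub_mem h5 h4)
    · rw [mem_ball_zero_iff] at h1
      have h8 := (norm_fst_le _).trans_lt h1
      calc _ ≤ ‖S.β (S.ix (F z₀)) (S.q (S.ix (F z₀)) x) - S.β (S.ix (F z₀)) (S.q (S.ix (F z₀)) (F z₀))‖ + ‖w‖ := norm_sub_le _ _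
        _ < r + r := add_lt_add h8 hw
        _ = 2 * r := by ring
  rw [h6] at h1 h2
  exact ⟨h1, h2⟩

private theorem vlt (D : FamD S v b F r B ρ l E) {z₀ z : ℂ} (hz : z ∈ ball z₀ ρ) : ‖(z - z₀) • v‖ ≤ r / 4 := by
  rw [norm_smul]
  rw [mem_ball, dist_eq_norm] at hz
  exact (mul_le_mul_of_nonneg_right hz.le (norm_nonneg _)).trans D.vρ

private theorem rB (D : FamD S v b F r B ρ l E) : r / (4 * B) ≤ r / 4 ∧ r / (4 * B) ≤ r / B ∧ 0 < r / (4 * B) := by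
  have hB : 0 < B := lt_of_lt_of_le one_pos D.one_le
  have hr := D.r_pos
  have h1 := D.one_le
  refine ⟨div_le_div_of_nonneg_left hr.le (by norm_num) (by linarith), div_le_div_of_nonneg_left hr.le hB (by linarith), by positivity⟩

/-- the curve `F` in the fibred chart -/
private theorem yE (D : FamD S v b F r B ρ l E) {z₀ z : ℂ} (hz : z ∈ ball z₀ ρ) :
    ((z - z₀) • v, S.q (S.ix (F z₀)) (F z) (l z₀) - S.q (S.ix (F z₀)) (F z₀) (l z₀)) ∈ ball (0 : Vd 2 × ℂ) (r / 2) ∧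
      E z₀ ((z - z₀) • v, S.q (S.ix (F z₀)) (F z) (l z₀) - S.q (S.ix (F z₀)) (F z₀) (l z₀)) = S.q (S.ix (F z₀)) (F z) := by
  have hr := D.r_pos
  have h1 := D.nearF z₀ z hz
  have h2 := D.goodF z₀ z hz
  have h3 := D.rB
  have h4 := D.vlt hz
  obtain ⟨-, h5⟩ := D.inv z₀ h2.1 h2.2.1 (h1.trans_le h3.2.1) (w := (z - z₀) • v) (by linarith) (by
    have h6 : b + z₀ • v + (z - z₀) • v = b + z • v := by
      rw [sub_smul]
      abel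
    rw [h6]
    exact D.mem.2.2 z)
  refine ⟨?_, h5⟩
  rw [mem_ball_zero_iff, Prod.norm_def, max_lt_iff]
  refine ⟨by linarith, ?_⟩
  have h6 := norm_le_pi_norm (S.q (S.ix (F z₀)) (F z) - S.q (S.ix (F z₀)) (F z₀)) (l z₀)
  rw [Pi.sub_apply] at h6
  linarith

end FamD

namespace FamD

variable {S : Setting X} {v b : Vd 2} {F : ℂ → EN N} {r B ρ : ℝ} {l : ℂ → Fin 3} {E : ℂ → Vd 2 × ℂ → Vd 3}

private theorem ev {y : Vd 2 × ℂ} {r : ℝ} (hy : y ∈ ball (0 : Vd 2 × ℂ) r) : ∀ᶠ s : ℂ in 𝓝 0, ((y.1, y.2 + s) : Vd 2 × ℂ) ∈ ball (0 : Vd 2 × ℂ) r := by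
  have hc : ContinuousAt (fun s : ℂ => ((y.1, y.2 + s) : Vd 2 × ℂ)) 0 := by fun_prop
  apply hc.eventually_mem
  rw [add_zero]
  exact isOpen_ball.mem_nhds hy

private theorem hasDer (D : FamD S v b F r B ρ l E) (z : ℂ) {y : Vd 2 × ℂ} (hy : y ∈ ball (0 : Vd 2 × ℂ) r) :
    HasDerivAt (fun s : ℂ => E z (y.1, y.2 + s)) (fderiv ℂ (E z) y (0, 1)) 0 := by
  have h1 : HasFDerivAt (E z) (fderiv ℂ (E z) y) (y.1, y.2 + (0 : ℂ)) := by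
    rw [add_zero]
    exact ((D.fch z).an y hy).differentiableAt.hasFDerivAt
  have h2 : HasDerivAt (fun s : ℂ => ((y.1, y.2 + s) : Vd 2 × ℂ)) ((0 : Vd 2), (1 : ℂ)) 0 :=
    (hasDerivAt_const (0 : ℂ) y.1).prodMk ((hasDerivAt_id (0 : ℂ)).const_add y.2)
  exact h1.comp_hasDerivAt 0 h2

private theorem der_co (D : FamD S v b F r B ρ l E) (z : ℂ) {y : Vd 2 × ℂ} (hy : y ∈ ball (0 : Vd 2 × ℂ) r) :
    fderiv ℂ (E z) y (0, 1) (l z) = 1 := by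
  have h1 := hasDerivAt_pi.1 (D.hasDer z hy) (l z)
  have h2 : HasDerivAt (fun s : ℂ => E z (y.1, y.2 + s) (l z)) 1 0 := by
    have h3 : HasDerivAt (fun s : ℂ => S.q (S.ix (F z)) (F z) (l z) + (y.2 + s)) 1 0 :=
      ((hasDerivAt_id (0 : ℂ)).const_add y.2).const_add _
    refine h3.congr_of_eventuallyEq ?_
    filter_upwards [ev hy] with s hs
    exact (D.fch z).co _ hs
  exact h1.unique h2

private theorem der_beta (D : FamD S v b F r B ρ l E) (z : ℂ) {y : Vd 2 × ℂ} (hy : y ∈ ball (0 : Vd 2 × ℂ) r) :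
    fderiv ℂ (S.β (S.ix (F z))) (E z y) (fderiv ℂ (E z) y (0, 1)) = 0 := by
  have h1 : HasFDerivAt (S.β (S.ix (F z))) (fderiv ℂ (S.β (S.ix (F z))) (E z y)) (E z (y.1, y.2 + (0 : ℂ))) := by
    rw [add_zero]
    exact (S.β_an _ _ (D.ballE z hy)).differentiableAt.hasFDerivAt
  have h2 := h1.comp_hasDerivAt 0 (D.hasDer z hy)
  have h3 : HasDerivAt (fun s : ℂ => S.β (S.ix (F z)) (E z (y.1, y.2 + s))) 0 0 := by
    refine (hasDerivAt_const (0 : ℂ) (S.β (S.ix (F z)) (S.q (S.ix (F z)) (F z)) + y.1)).congr_of_eventuallyEq ?_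
    filter_upwards [ev hy] with s hs
    exact (D.fch z).beta _ hs
  exact h2.unique h3

private theorem der_norm (D : FamD S v b F r B ρ l E) (z : ℂ) {y : Vd 2 × ℂ} (hy : y ∈ ball (0 : Vd 2 × ℂ) (r / 2)) :
    ‖fderiv ℂ (E z) y (0, 1)‖ ≤ 4 * B := by
  have hr := D.r_pos
  have hB : 0 < B := lt_of_lt_of_le one_pos D.one_le
  have hy' : y ∈ ball (0 : Vd 2 × ℂ) r := ball_subset_ball (by linarith) hy
  have hin : ∀ s ∈ ball (0 : ℂ) (r / 2), ((y.1, y.2 + s) : Vd 2 × ℂ) ∈ ball (0 : Vd 2 × ℂ) r := by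
    intro s hs
    rw [mem_ball_zero_iff] at hs hy ⊢
    rw [Prod.norm_def, max_lt_iff]
    refine ⟨(norm_fst_le y).trans_lt (by linarith), ?_⟩
    calc ‖y.2 + s‖ ≤ ‖y.2‖ + ‖s‖ := norm_add_le _ _
      _ < r := by linarith [norm_snd_le y]
  have h1 : HasDerivAt (fun s : ℂ => E z (y.1, y.2 + s) - S.q (S.ix (F z)) (F z)) (fderiv ℂ (E z) y (0, 1)) 0 :=
    (D.hasDer z hy').sub_const _
  rw [← h1.deriv]
  have hd : DifferentiableOn ℂ (fun s : ℂ => E z (y.1, y.2 + s) - S.q (S.ix (F z)) (F z)) (ball 0 (r / 2)) := by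
    intro s hs
    have h2 : DifferentiableAt ℂ (fun s : ℂ => ((y.1, y.2 + s) : Vd 2 × ℂ)) s := by fun_prop
    have h3 : DifferentiableAt ℂ (E z) ((y.1, y.2 + s) : Vd 2 × ℂ) := ((D.fch z).an _ (hin s hs)).differentiableAt
    exact ((h3.comp s h2).sub_const _).differentiableWithinAt
  have h4 := Complex.norm_deriv_le_of_forall_mem_sphere_norm_le (c := (0 : ℂ)) (R := r / 4) (C := B * r) (by positivity)
    (hd.diffContOnCl_ball (closedBall_subset_ball (by linarith))) (fun s hs => by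
      have hs' : s ∈ ball (0 : ℂ) (r / 2) := by
        rw [mem_sphere_zero_iff_norm] at hs
        rw [mem_ball_zero_iff, hs]
        linarith
      have h5 := (D.fch z).near _ (hin s hs')
      have h6 := hin s hs'
      rw [mem_ball_zero_iff] at h6
      exact h5.trans (mul_le_mul_of_nonneg_left h6.le hB.le))
  refine h4.trans (le_of_eq ?_)
  field_simp

private theorem an_trans {S : Setting X} {i j : Fin S.A.n} {p : Vd 3} (hp : p ∈ ball (0 : Vd 3) 2) (h : (S.A.χ i).σ p ∈ (S.A.χ j).U) :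
    AnalyticAt ℂ (fun y => (S.A.χ j).q ((S.A.χ i).σ y)) p :=
  AnalyticAt.comp (g := (S.A.χ j).q) (f := (S.A.χ i).σ) ((S.A.χ j).q_an _ h) ((S.A.χ i).σ_an p hp)

/-- the datum of the equation is holomorphic -/
private theorem diffφ (D : FamD S v b F r B ρ l E) {e : Vd 2} {r' : ℝ} (hr' : r' * (‖e‖ + 1) ≤ r) {z₀ z : ℂ} (hz : z ∈ ball z₀ ρ) :
    (∀ y ∈ ball (0 : ℂ × ℂ) r', ((y.1 • e, y.2) : Vd 2 × ℂ) ∈ ball (0 : Vd 2 × ℂ) r) ∧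
    DifferentiableOn ℂ (fun y : ℂ × ℂ => S.q (S.ix (F z₀)) ((S.A.χ (S.ix (F z))).σ (E z (y.1 • e, y.2))) (l z₀)) (ball 0 r') ∧
      ∀ y ∈ ball (0 : ℂ × ℂ) r', ‖S.q (S.ix (F z₀)) ((S.A.χ (S.ix (F z))).σ (E z (y.1 • e, y.2))) (l z₀)‖ ≤ 1 / 2 := by
  have hin : ∀ y ∈ ball (0 : ℂ × ℂ) r', ((y.1 • e, y.2) : Vd 2 × ℂ) ∈ ball (0 : Vd 2 × ℂ) r := by
    intro y hy
    rw [mem_ball_zero_iff] at hy ⊢
    have h0 : 0 < r' := (norm_nonneg _).trans_lt hy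
    have h1 := (norm_fst_le y).trans_lt hy
    have h2 := (norm_snd_le y).trans_lt hy
    have he := norm_nonneg e
    rw [Prod.norm_def, max_lt_iff]
    constructor
    · show ‖y.1 • e‖ < r
      rw [norm_smul]
      calc ‖y.1‖ * ‖e‖ ≤ r' * ‖e‖ := mul_le_mul_of_nonneg_right h1.le he
        _ < r' * (‖e‖ + 1) := mul_lt_mul_of_pos_left (by linarith) h0
        _ ≤ r := hr'
    · show ‖y.2‖ < r
      calc ‖y.2‖ < r' := h2
        _ = r' * 1 := (mul_one _).symm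
        _ ≤ r' * (‖e‖ + 1) := mul_le_mul_of_nonneg_left (by linarith) h0.le
        _ ≤ r := hr'
  refine ⟨hin, ?_, fun y hy => ?_⟩
  · intro y hy
    have h1 := D.good z₀ z hz _ (hin y hy)
    have h2 : AnalyticAt ℂ (fun p => (S.A.χ (S.ix (F z₀))).q ((S.A.χ (S.ix (F z))).σ p)) (E z (y.1 • e, y.2)) := an_trans (D.ballE z (hin y hy)) h1.2.1
    have h3 : DifferentiableAt ℂ (E z) ((y.1 • e, y.2) : Vd 2 × ℂ) := ((D.fch z).an _ (hin y hy)).differentiableAt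
    have h4 : DifferentiableAt ℂ (fun y : ℂ × ℂ => ((y.1 • e, y.2) : Vd 2 × ℂ)) y := by fun_prop
    have h5 : DifferentiableAt ℂ (fun y : ℂ × ℂ => (S.A.χ (S.ix (F z₀))).q ((S.A.χ (S.ix (F z))).σ (E z (y.1 • e, y.2)))) y :=
      DifferentiableAt.comp (g := fun p => (S.A.χ (S.ix (F z₀))).q ((S.A.χ (S.ix (F z))).σ p)) (f := fun y : ℂ × ℂ => E z (y.1 • e, y.2)) y
        h2.differentiableAt (DifferentiableAt.comp (g := E z) (f := fun y : ℂ × ℂ => ((y.1 • e, y.2) : Vd 2 × ℂ)) y h3 h4)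
    exact (differentiableAt_pi.1 h5 (l z₀)).differentiableWithinAt
  · exact (norm_le_pi_norm _ _).trans (D.good z₀ z hz _ (hin y hy)).2.2

private theorem derφ (D : FamD S v b F r B ρ l E) (e : Vd 2) {z₀ z : ℂ} (hz : z ∈ ball z₀ ρ) :
    deriv (fun s : ℂ => S.q (S.ix (F z₀)) ((S.A.χ (S.ix (F z))).σ (E z ((0 : ℂ) • e, s))) (l z₀)) 0 =
      S.T (S.ix (F z)) (S.ix (F z₀)) (F z) (fderiv ℂ (E z) 0 (0, 1)) (l z₀) := by
  have hF := D.goodF z z (mem_ball_self D.ρ_pos)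
  have hF₀ := D.goodF z₀ z hz
  obtain ⟨hb, -, h1⟩ := Fam_base (S.A.χ (S.ix (F z))) hF.1 hF.2.1
  have h2 : HasFDerivAt (fun p => (S.A.χ (S.ix (F z₀))).q ((S.A.χ (S.ix (F z))).σ p)) (S.T (S.ix (F z)) (S.ix (F z₀)) (F z)) (E z ((0 : Vd 2 × ℂ).1, (0 : Vd 2 × ℂ).2 + (0 : ℂ))) := by
    rw [add_zero]
    show HasFDerivAt _ _ (E z 0)
    rw [D.E0]
    exact (an_trans hb (h1 _ hF₀.2.1).1).differentiableAt.hasFDerivAt
  have h3 := h2.comp_hasDerivAt 0 (D.hasDer z (mem_ball_self D.r_pos))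
  have h4 := hasDerivAt_pi.1 h3 (l z₀)
  rw [← h4.deriv]
  congr 1
  funext s
  simp only [zero_smul, Function.comp_apply, Prod.fst_zero, Prod.snd_zero, zero_add]
  rfl

/-- a vertical vector is a multiple of the derivative of the fibred chart -/
private theorem split (D : FamD S v b F r B ρ l E) {z₀ z : ℂ} (hz : z ∈ ball z₀ ρ) :
    S.T (S.ix (F z)) (S.ix (F z₀)) (F z) (fderiv ℂ (E z) 0 (0, 1)) =
      (S.T (S.ix (F z)) (S.ix (F z₀)) (F z) (fderiv ℂ (E z) 0 (0, 1)) (l z₀)) •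
        fderiv ℂ (E z₀) ((z - z₀) • v, S.q (S.ix (F z₀)) (F z) (l z₀) - S.q (S.ix (F z₀)) (F z₀) (l z₀)) (0, 1) := by
  have hr := D.r_pos
  have hF := D.goodF z z (mem_ball_self D.ρ_pos)
  have hF₀ := D.goodF z₀ z hz
  obtain ⟨hy, hE⟩ := D.yE hz
  have hver : fderiv ℂ (S.β (S.ix (F z₀))) (S.q (S.ix (F z₀)) (F z)) (S.T (S.ix (F z)) (S.ix (F z₀)) (F z) (fderiv ℂ (E z) 0 (0, 1))) = 0 := by
    rw [S.T_beta hF.1 hF.2.1 hF₀.2.1, ← D.E0]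
    exact D.der_beta z (mem_ball_self D.r_pos)
  obtain ⟨w, hw⟩ : ∃ w, w = S.T (S.ix (F z)) (S.ix (F z₀)) (F z) (fderiv ℂ (E z) 0 (0, 1)) := ⟨_, rfl⟩
  rw [← hw] at hver ⊢
  obtain ⟨p₁, hp₁⟩ : ∃ p₁, p₁ = S.q (S.ix (F z₀)) (F z) := ⟨_, rfl⟩
  obtain ⟨p₀, hp₀⟩ : ∃ p₀, p₀ = S.q (S.ix (F z₀)) (F z₀) := ⟨_, rfl⟩
  have hnear := (D.nearF z₀ z hz).trans_le D.rB.2.1
  rw [← hp₁] at hver hnear hE hy ⊢
  rw [← hp₀] at hnear hE hy ⊢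
  have hb : p₁ ∈ ball (0 : Vd 3) 2 := by
    rw [← hE]
    exact D.ballE z₀ (ball_subset_ball (by linarith) hy)
  have hβ : HasFDerivAt (S.β (S.ix (F z₀))) (fderiv ℂ (S.β (S.ix (F z₀))) p₁) p₁ := (S.β_an _ _ hb).differentiableAt.hasFDerivAt
  have hθ : HasFDerivAt (fun p : Vd 3 => ((S.β (S.ix (F z₀)) p - S.β (S.ix (F z₀)) p₀, p (l z₀) - p₀ (l z₀)) : Vd 2 × ℂ))
      ((fderiv ℂ (S.β (S.ix (F z₀))) p₁).prod (ContinuousLinearMap.proj (l z₀))) p₁ :=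
    (hβ.sub_const _).prodMk ((ContinuousLinearMap.proj (R := ℂ) (φ := fun _ : Fin 3 => ℂ) (l z₀)).hasFDerivAt.sub_const _)
  have hβw : S.β (S.ix (F z₀)) p₁ - S.β (S.ix (F z₀)) p₀ = (z - z₀) • v := by
    have h1 := (D.fch z₀).beta _ (ball_subset_ball (show r / 2 ≤ r by linarith) hy)
    rw [hE, ← hp₀] at h1
    rw [h1]
    exact add_sub_cancel_left _ _
  have hEd : HasFDerivAt (E z₀) (fderiv ℂ (E z₀) ((z - z₀) • v, p₁ (l z₀) - p₀ (l z₀)))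
      ((fun p : Vd 3 => ((S.β (S.ix (F z₀)) p - S.β (S.ix (F z₀)) p₀, p (l z₀) - p₀ (l z₀)) : Vd 2 × ℂ)) p₁) := by
    show HasFDerivAt _ _ (S.β (S.ix (F z₀)) p₁ - S.β (S.ix (F z₀)) p₀, p₁ (l z₀) - p₀ (l z₀))
    rw [hβw]
    exact ((D.fch z₀).an _ (ball_subset_ball (by linarith) hy)).differentiableAt.hasFDerivAt
  have h1 := hEd.comp p₁ hθ
  have h2 : HasFDerivAt (E z₀ ∘ fun p : Vd 3 => ((S.β (S.ix (F z₀)) p - S.β (S.ix (F z₀)) p₀, p (l z₀) - p₀ (l z₀)) : Vd 2 × ℂ))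
      (ContinuousLinearMap.id ℂ (Vd 3)) p₁ := by
    refine (hasFDerivAt_id p₁).congr_of_eventuallyEq ?_
    have hc : ContinuousAt (fun p : Vd 3 => ‖p - p₀‖) p₁ := by fun_prop
    filter_upwards [hc.eventually (Iio_mem_nhds hnear)] with p hp
    rw [hp₀] at hp ⊢
    exact ((D.fch z₀).inv p hp).2
  have h3 := congrArg (fun M : Vd 3 →L[ℂ] Vd 3 => M w) (h1.unique h2)
  have h4 : fderiv ℂ (E z₀) ((z - z₀) • v, p₁ (l z₀) - p₀ (l z₀)) (fderiv ℂ (S.β (S.ix (F z₀))) p₁ w, w (l z₀)) = w := h3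
  rw [hver] at h4
  have h5 : ((0 : Vd 2), w (l z₀)) = w (l z₀) • ((0 : Vd 2), (1 : ℂ)) := by
    rw [Prod.smul_mk, smul_zero, smul_eq_mul, mul_one]
  rw [h5, map_smul] at h4
  exact h4.symm

/-- the approximate vertical field -/
private theorem field (D : FamD S v b F r B ρ l E) (e : Vd 2) {ξ : ℂ → ℂ} {δ : ℝ} (hδ : 0 ≤ δ)
    (h : ∀ z₀, ∃ h : ℂ → ℂ, DifferentiableOn ℂ h (ball z₀ ρ) ∧ ∀ z ∈ ball z₀ ρ,
      ‖deriv (fun s : ℂ => S.q (S.ix (F z₀)) ((S.A.χ (S.ix (F z))).σ (E z ((0 : ℂ) • e, s))) (l z₀)) 0 * ξ z - h z‖ ≤ δ) (U : Set ℂ) :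
    S.AField F (fun z => ξ z • fderiv ℂ (E z) 0 (0, 1)) U ρ (4 * B * δ) := by
  have hr := D.r_pos
  have hB : 0 < B := lt_of_lt_of_le one_pos D.one_le
  refine ⟨fun z₀ _ => ?_, fun z _ => ?_⟩
  · obtain ⟨g, hg, hg'⟩ := h z₀
    refine ⟨fun z => g z • fderiv ℂ (E z₀) ((z - z₀) • v, S.q (S.ix (F z₀)) (F z) (l z₀) - S.q (S.ix (F z₀)) (F z₀) (l z₀)) (0, 1), ?_, fun z hz => ?_⟩
    · intro z hz
      have hC : CurveAt X F z := ⟨D.mem.1.analyticAt z, Eventually.of_forall D.mem.2.1⟩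
      have h1 : DifferentiableAt ℂ (fun w => S.q (S.ix (F z₀)) (F w)) z := (S.q_an hC (D.goodF z₀ z hz).2.1).differentiableAt
      have h2 : DifferentiableAt ℂ (fun w => S.q (S.ix (F z₀)) (F w) (l z₀)) z := differentiableAt_pi.1 h1 (l z₀)
      have h3 : DifferentiableAt ℂ (fun w : ℂ => (((w - z₀) • v, S.q (S.ix (F z₀)) (F w) (l z₀) - S.q (S.ix (F z₀)) (F z₀) (l z₀)) : Vd 2 × ℂ)) z :=
        DifferentiableAt.prodMk (by fun_prop) (h2.sub_const _)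
      have h4 : DifferentiableAt ℂ (fderiv ℂ (E z₀)) ((z - z₀) • v, S.q (S.ix (F z₀)) (F z) (l z₀) - S.q (S.ix (F z₀)) (F z₀) (l z₀)) :=
        ((D.fch z₀).an _ (ball_subset_ball (by linarith) (D.yE hz).1)).fderiv.differentiableAt
      have h5 : DifferentiableAt ℂ (fun w : ℂ => fderiv ℂ (E z₀) ((w - z₀) • v, S.q (S.ix (F z₀)) (F w) (l z₀) - S.q (S.ix (F z₀)) (F z₀) (l z₀))) z :=
        DifferentiableAt.comp (g := fderiv ℂ (E z₀))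
          (f := fun w : ℂ => (((w - z₀) • v, S.q (S.ix (F z₀)) (F w) (l z₀) - S.q (S.ix (F z₀)) (F z₀) (l z₀)) : Vd 2 × ℂ)) z h4 h3
      have h6 : DifferentiableAt ℂ g z := hg.differentiableAt (isOpen_ball.mem_nhds hz)
      exact (h6.smul (h5.clm_apply (differentiableAt_const _))).differentiableWithinAt
    · have hz := hz.1
      have h1 := hg' z hz
      rw [D.derφ e hz] at h1
      have h2 := D.der_norm z₀ (D.yE hz).1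
      rw [map_smul, D.split hz, smul_smul, ← sub_smul, norm_smul]
      have h3 : ξ z * S.T (S.ix (F z)) (S.ix (F z₀)) (F z) (fderiv ℂ (E z) 0 (0, 1)) (l z₀) - g z =
          S.T (S.ix (F z)) (S.ix (F z₀)) (F z) (fderiv ℂ (E z) 0 (0, 1)) (l z₀) * ξ z - g z := by ring
      rw [h3]
      calc _ ≤ δ * (4 * B) := mul_le_mul h1 h2 (norm_nonneg _) hδ
        _ = 4 * B * δ := by ring
  · rw [map_smul, ← D.E0, D.der_beta z (mem_ball_self hr), smul_zero, norm_zero]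
    positivity

/-- the lower bound -/
private theorem lower (D : FamD S v b F r B ρ l E) (e : Vd 2) {κ ρ' ε : ℝ} (hκ : 0 < κ) (hε : 0 < ε)
    (happ : ∀ (ξ : ℂ → Vd 3) (z₁ : ℂ), S.AField F ξ (ball z₁ ρ') ρ ε → (∀ z ∈ ball z₁ ρ', ‖ξ z‖ ≤ Real.exp (κ * ‖z - z₁‖ ^ 2)) → ‖ξ z₁‖ ≤ 1 / 4)
    {ξ : ℂ → ℂ} {δ : ℝ} (hM : ∃ M, ∀ z, ‖ξ z‖ ≤ M)
    (h : ∀ z₀, ∃ h : ℂ → ℂ, DifferentiableOn ℂ h (ball z₀ ρ) ∧ ∀ z ∈ ball z₀ ρ,
      ‖deriv (fun s : ℂ => S.q (S.ix (F z₀)) ((S.A.χ (S.ix (F z))).σ (E z ((0 : ℂ) • e, s))) (l z₀)) 0 * ξ z - h z‖ ≤ δ) (z : ℂ) :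
    ‖ξ z‖ ≤ 4 * B / ε * δ := by
  have hr := D.r_pos
  have hB : 0 < B := lt_of_lt_of_le one_pos D.one_le
  have hδ : 0 ≤ δ := by
    obtain ⟨g, -, hg⟩ := h 0
    exact (norm_nonneg _).trans (hg 0 (mem_ball_self D.ρ_pos))
  obtain ⟨M, hM⟩ := hM
  have h0 : (0 : Vd 2 × ℂ) ∈ ball (0 : Vd 2 × ℂ) (r / 2) := mem_ball_self (by positivity)
  have hle : ∀ w, ‖ξ w‖ ≤ ‖ξ w • fderiv ℂ (E w) 0 (0, 1)‖ := by
    intro w
    have h1 := norm_le_pi_norm (ξ w • fderiv ℂ (E w) 0 (0, 1)) (l w)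
    rw [Pi.smul_apply, D.der_co w (mem_ball_self hr), smul_eq_mul, mul_one] at h1
    exact h1
  by_contra hcon
  rw [not_le] at hcon
  have hbd : BddAbove (Set.range fun w => ‖ξ w • fderiv ℂ (E w) 0 (0, 1)‖) := by
    refine ⟨M * (4 * B), ?_⟩
    rintro _ ⟨w, rfl⟩
    show ‖ξ w • fderiv ℂ (E w) 0 (0, 1)‖ ≤ _
    rw [norm_smul]
    exact mul_le_mul (hM w) (D.der_norm w h0) (norm_nonneg _) ((norm_nonneg _).trans (hM w))
  obtain ⟨s, hs⟩ : ∃ s, s = sSup (Set.range fun w => ‖ξ w • fderiv ℂ (E w) 0 (0, 1)‖) := ⟨_, rfl⟩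
  have hsle : ∀ w, ‖ξ w • fderiv ℂ (E w) 0 (0, 1)‖ ≤ s := by
    intro w
    rw [hs]
    exact le_csSup hbd ⟨w, rfl⟩
  have hsz : 4 * B / ε * δ < s := hcon.trans_le ((hle z).trans (hsle z))
  have hs0 : 0 < s := lt_of_le_of_lt (by positivity) hsz
  obtain ⟨_, ⟨z₁, rfl⟩, hz₁⟩ := exists_lt_of_lt_csSup (s := Set.range fun w => ‖ξ w • fderiv ℂ (E w) 0 (0, 1)‖) ⟨_, ⟨0, rfl⟩⟩ (b := s / 2)
    (by rw [← hs]; linarith)
  have hinv : ‖((s⁻¹ : ℝ) : ℂ)‖ = s⁻¹ := by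
    rw [Complex.norm_real, Real.norm_of_nonneg (inv_nonneg.2 hs0.le)]
  have hfield := D.field e (ξ := fun w => ((s⁻¹ : ℝ) : ℂ) * ξ w) (δ := s⁻¹ * δ) (by positivity) (fun z₀ => by
    obtain ⟨g, hg, hg'⟩ := h z₀
    refine ⟨fun w => ((s⁻¹ : ℝ) : ℂ) * g w, hg.const_mul _, fun w hw => ?_⟩
    have h1 := hg' w hw
    have h2 : ∀ a : ℂ, a * (((s⁻¹ : ℝ) : ℂ) * ξ w) - ((s⁻¹ : ℝ) : ℂ) * g w = ((s⁻¹ : ℝ) : ℂ) * (a * ξ w - g w) := fun a => by ring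
    rw [h2, norm_mul, hinv]
    exact mul_le_mul_of_nonneg_left h1 (inv_nonneg.2 hs0.le)) (ball z₁ ρ')
  have hε' : 4 * B * (s⁻¹ * δ) ≤ ε := by
    have h1 : 4 * B * (s⁻¹ * δ) = 4 * B / ε * δ * (ε / s) := by field_simp
    rw [h1]
    calc 4 * B / ε * δ * (ε / s) ≤ s * (ε / s) := mul_le_mul_of_nonneg_right hsz.le (by positivity)
      _ = ε := by field_simp
  have hfield' : S.AField F (fun w => (((s⁻¹ : ℝ) : ℂ) * ξ w) • fderiv ℂ (E w) 0 (0, 1)) (ball z₁ ρ') ρ ε := by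
    refine ⟨fun z₀ hz₀ => ?_, fun w hw => (hfield.ver w hw).trans hε'⟩
    obtain ⟨g, hg, hg'⟩ := hfield.hol z₀ hz₀
    exact ⟨g, hg, fun w hw => (hg' w hw).trans hε'⟩
  have h2 := happ _ z₁ hfield' (fun w _ => by
    rw [mul_smul, norm_smul, hinv]
    calc s⁻¹ * ‖ξ w • fderiv ℂ (E w) 0 (0, 1)‖ ≤ s⁻¹ * s := mul_le_mul_of_nonneg_left (hsle w) (inv_nonneg.2 hs0.le)
      _ = 1 := inv_mul_cancel₀ hs0.ne'
      _ ≤ Real.exp (κ * ‖w - z₁‖ ^ 2) := Real.one_le_exp (by positivity))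
  rw [mul_smul, norm_smul, hinv] at h2
  have h3 : s⁻¹ * (s / 2) < s⁻¹ * ‖ξ z₁ • fderiv ℂ (E z₁) 0 (0, 1)‖ := mul_lt_mul_of_pos_left hz₁ (inv_pos.2 hs0)
  have h4 : s⁻¹ * (s / 2) = 1 / 2 := by field_simp
  linarith

end FamD

namespace FamD

variable {S : Setting X} {v b : Vd 2} {F : ℂ → EN N} {r B ρ : ℝ} {l : ℂ → Fin 3} {E : ℂ → Vd 2 × ℂ → Vd 3}

/-- the value of `u` at the points of the fibred charts -/
private theorem ux (D : FamD S v b F r B ρ l E) (z : ℂ) {y : Vd 2 × ℂ} (hy : y ∈ ball (0 : Vd 2 × ℂ) r) :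
    S.u ((S.A.χ (S.ix (F z))).σ (E z y)) - (b + z • v + y.1) ∈ S.Λ := by
  obtain ⟨h1, h2, h3⟩ := (S.A.χ (S.ix (F z))).σ_mem _ (D.ballE z hy)
  have h4 := S.β_eq (S.ix (F z)) _ h1 h2
  rw [h3, (D.fch z).beta _ hy] at h4
  have hF := D.goodF z z (mem_ball_self D.ρ_pos)
  have h5 := S.β_eq (S.ix (F z)) (F z) hF.1 hF.2.1
  have h6 := D.mem.2.2 z
  have h7 : S.u ((S.A.χ (S.ix (F z))).σ (E z y)) - (b + z • v + y.1) =
      (S.u ((S.A.χ (S.ix (F z))).σ (E z y)) - (S.β (S.ix (F z)) (S.q (S.ix (F z)) (F z)) + y.1)) -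
        (S.u (F z) - S.β (S.ix (F z)) ((S.A.χ (S.ix (F z))).q (F z))) + (S.u (F z) - (b + z • v)) := by
    unfold Setting.q
    abel
  rw [h7]
  exact S.Λ.add_mem (S.Λ.sub_mem h4 h5) h6

private theorem key (D : FamD S v b F r B ρ l E) {e : Vd 2} {τ z₀ z : ℂ} (hz : z ∈ ball z₀ ρ) (hτe : ‖τ • e‖ ≤ r / 2) {x : EN N}
    (hG : Good (S.A.χ (S.ix (F z₀))) x) (hu : S.u x - (b + z • v + τ • e) ∈ S.Λ)
    (h1 : ‖S.q (S.ix (F z₀)) x - S.q (S.ix (F z₀)) (F z)‖ < r / (4 * B)) :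
    (((z - z₀) • v + τ • e, S.q (S.ix (F z₀)) x (l z₀) - S.q (S.ix (F z₀)) (F z₀) (l z₀)) : Vd 2 × ℂ) ∈ ball (0 : Vd 2 × ℂ) r ∧
      E z₀ ((z - z₀) • v + τ • e, S.q (S.ix (F z₀)) x (l z₀) - S.q (S.ix (F z₀)) (F z₀) (l z₀)) = S.q (S.ix (F z₀)) x := by
  have hr := D.r_pos
  have hB : 0 < B := lt_of_lt_of_le one_pos D.one_le
  have h2 := D.nearF z₀ z hz
  have h3 : r / (4 * B) + r / (4 * B) ≤ r / B := by
    have h4 : r / (4 * B) + r / (4 * B) = r / B / 2 := by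
      field_simp
      ring
    rw [h4]
    have h5 : 0 < r / B := by positivity
    linarith
  have h4 : ‖S.q (S.ix (F z₀)) x - S.q (S.ix (F z₀)) (F z₀)‖ < r / B := by
    calc _ = ‖(S.q (S.ix (F z₀)) x - S.q (S.ix (F z₀)) (F z)) + (S.q (S.ix (F z₀)) (F z) - S.q (S.ix (F z₀)) (F z₀))‖ := by rw [sub_add_sub_cancel]
      _ ≤ _ := norm_add_le _ _
      _ < r / (4 * B) + r / (4 * B) := add_lt_add h1 h2
      _ ≤ r / B := h3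
  have h5 : ‖(z - z₀) • v + τ • e‖ < r := by
    calc _ ≤ ‖(z - z₀) • v‖ + ‖τ • e‖ := norm_add_le _ _
      _ ≤ r / 4 + r / 2 := add_le_add (D.vlt hz) hτe
      _ < r := by linarith
  refine D.inv z₀ hG.1 hG.2.1 h4 h5 ?_
  have h6 : b + z₀ • v + ((z - z₀) • v + τ • e) = b + z • v + τ • e := by
    rw [sub_smul]
    abel
  rw [h6]
  exact hu

/-- the local lift -/
private theorem lift (D : FamD S v b F r B ρ l E) {e : Vd 2} {τ₀ z₀ : ℂ} {g : ℂ × ℂ → ℂ} (hg : AnalyticAt ℂ g (z₀, τ₀)) {P : ℂ × ℂ → EN N}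
    (hP : ∀ᶠ y in 𝓝 (z₀, τ₀), P y ∈ X ∧ P y ∈ (S.A.χ (S.ix (F z₀))).U ∧ S.u (P y) - (b + y.1 • v + y.2 • e) ∈ S.Λ ∧
      (((y.1 - z₀) • v + y.2 • e, g y) : Vd 2 × ℂ) ∈ ball (0 : Vd 2 × ℂ) r ∧ E z₀ ((y.1 - z₀) • v + y.2 • e, g y) = S.q (S.ix (F z₀)) (P y)) :
    ∃ φ : ℂ × ℂ → EN N, AnalyticAt ℂ φ (z₀, τ₀) ∧
      ∀ᶠ y in 𝓝 (z₀, τ₀), φ y ∈ X ∧ pr (P y) = pr (φ y) ∧ S.u (φ y) - (b + y.1 • v + y.2 • e) ∈ S.Λ := by
  refine ⟨fun y => (S.A.χ (S.ix (F z₀))).σ (E z₀ ((y.1 - z₀) • v + y.2 • e, g y)), ?_, ?_⟩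
  · have h1 : AnalyticAt ℂ (fun y : ℂ × ℂ => (((y.1 - z₀) • v + y.2 • e, g y) : Vd 2 × ℂ)) (z₀, τ₀) := by
      refine AnalyticAt.prod ?_ hg
      exact ((analyticAt_fst.sub analyticAt_const).smul analyticAt_const).add (analyticAt_snd.smul analyticAt_const)
    have h2 := hP.self_of_nhds.2.2.2.1
    have h4 : AnalyticAt ℂ (E z₀) ((z₀ - z₀) • v + τ₀ • e, g (z₀, τ₀)) := (D.fch z₀).an _ h2
    have h5 : AnalyticAt ℂ (S.A.χ (S.ix (F z₀))).σ (E z₀ ((z₀ - z₀) • v + τ₀ • e, g (z₀, τ₀))) :=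
      (S.A.χ (S.ix (F z₀))).σ_an _ (D.ballE z₀ h2)
    have h6 : AnalyticAt ℂ (fun y : ℂ × ℂ => E z₀ ((y.1 - z₀) • v + y.2 • e, g y)) (z₀, τ₀) :=
      AnalyticAt.comp (g := E z₀) (f := fun y : ℂ × ℂ => (((y.1 - z₀) • v + y.2 • e, g y) : Vd 2 × ℂ)) h4 h1
    exact AnalyticAt.comp (g := (S.A.χ (S.ix (F z₀))).σ) (f := fun y : ℂ × ℂ => E z₀ ((y.1 - z₀) • v + y.2 • e, g y)) h5 h6
  · filter_upwards [hP] with y hy
    obtain ⟨hX, hU, h3, -, hE⟩ := hy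
    obtain ⟨hb, hpr, -⟩ := Fam_base (S.A.χ (S.ix (F z₀))) hX hU
    obtain ⟨m1, m2, m3⟩ := (S.A.χ (S.ix (F z₀))).σ_mem _ hb
    have hE' : E z₀ ((y.1 - z₀) • v + y.2 • e, g y) = (S.A.χ (S.ix (F z₀))).q (P y) := hE
    rw [hE']
    refine ⟨m1, hpr.symm, ?_⟩
    have h1 := S.β_eq (S.ix (F z₀)) _ m1 m2
    rw [m3] at h1
    have h2 := S.β_eq (S.ix (F z₀)) (P y) hX hU
    have h4 := S.Λ.add_mem (S.Λ.sub_mem h1 h2) h3
    have h5 : S.u ((S.A.χ (S.ix (F z₀))).σ ((S.A.χ (S.ix (F z₀))).q (P y))) - (b + y.1 • v + y.2 • e) =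
        (S.u ((S.A.χ (S.ix (F z₀))).σ ((S.A.χ (S.ix (F z₀))).q (P y))) - S.β (S.ix (F z₀)) ((S.A.χ (S.ix (F z₀))).q (P y))) -
          (S.u (P y) - S.β (S.ix (F z₀)) ((S.A.χ (S.ix (F z₀))).q (P y))) + (S.u (P y) - (b + y.1 • v + y.2 • e)) := by abel
    rw [h5]
    exact h4

private theorem gan (D : FamD S v b F r B ρ l E) {e : Vd 2} {r' r₂ : ℝ} (hr' : r' * (‖e‖ + 1) ≤ r)
    {ξ : ℂ → ℂ → ℂ} (hξd : ∀ z, DifferentiableOn ℂ (fun τ => ξ τ z) (ball 0 r₂)) (hm2 : ∀ τ ∈ ball (0 : ℂ) r₂, ∀ z, ((τ, ξ τ z) : ℂ × ℂ) ∈ ball (0 : ℂ × ℂ) r')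
    {τ₀ z₀ : ℂ} (hτ₀ : τ₀ ∈ ball (0 : ℂ) r₂) {f : ℂ × ℂ → ℂ} (hf : ∀ z τ, f (z, τ) = S.q (S.ix (F z₀)) ((S.A.χ (S.ix (F z))).σ (E z (τ • e, ξ τ z))) (l z₀))
    (hφ : ∀ τ ∈ ball (0 : ℂ) r₂, DifferentiableOn ℂ (fun z => f (z, τ)) (ball z₀ ρ))
    (hn : ∀ τ ∈ ball (0 : ℂ) r₂, ∀ z ∈ ball z₀ ρ, ‖f (z, τ)‖ ≤ 1 / 2) : AnalyticAt ℂ f (z₀, τ₀) := by
  obtain ⟨r₃, hr₃, hr₃ρ, hr₃s⟩ : ∃ r₃ : ℝ, 0 < r₃ ∧ r₃ ≤ ρ ∧ ball τ₀ r₃ ⊆ ball (0 : ℂ) r₂ := by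
    obtain ⟨r₃, hr₃, h1⟩ := Metric.isOpen_iff.1 isOpen_ball τ₀ hτ₀
    exact ⟨min ρ r₃, lt_min D.ρ_pos hr₃, min_le_left _ _, (ball_subset_ball (min_le_right _ _)).trans h1⟩
  refine osgood (M := 1 / 2) hr₃ (fun z hz τ hτ => hn τ (hr₃s hτ) z (ball_subset_ball hr₃ρ hz))
    (fun τ hτ => (hφ τ (hr₃s hτ)).mono (ball_subset_ball hr₃ρ)) (fun z hz => ?_)
  have h1 := (D.diffφ hr' (ball_subset_ball hr₃ρ hz)).2.1
  have h2 : DifferentiableOn ℂ (fun τ => ((τ, ξ τ z) : ℂ × ℂ)) (ball τ₀ r₃) := differentiableOn_id.prodMk ((hξd z).mono hr₃s)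
  have h3 := h1.comp h2 (fun τ hτ => hm2 τ (hr₃s hτ) z)
  refine h3.congr fun τ _ => ?_
  rw [hf]
  rfl

private theorem inE (D : FamD S v b F r B ρ l E) {e : Vd 2} {r' : ℝ} (hr' : r' * (‖e‖ + 1) ≤ r)
    {τ : ℂ} (z x : ℂ) (hm2 : ((τ, x) : ℂ × ℂ) ∈ ball (0 : ℂ × ℂ) r') : ((τ • e, x) : Vd 2 × ℂ) ∈ ball (0 : Vd 2 × ℂ) r := by
  have h := (D.diffφ hr' (mem_ball_self D.ρ_pos : z ∈ ball z ρ)).1
  exact h (τ, x) hm2

private theorem in2 {r' r₂ : ℝ} (hr₂ : r₂ ≤ r') {τ x : ℂ} (hτ : τ ∈ ball (0 : ℂ) r₂) (hx : ‖x‖ < r') : ((τ, x) : ℂ × ℂ) ∈ ball (0 : ℂ × ℂ) r' := by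
  rw [mem_ball_zero_iff] at hτ ⊢
  rw [Prod.norm_def, max_lt_iff]
  exact ⟨hτ.trans_le hr₂, hx⟩

private theorem isFam (D : FamD S v b F r B ρ l E) {e : Vd 2} {r' r₂ : ℝ} (hr' : r' * (‖e‖ + 1) ≤ r) (hr₂ : r₂ ≤ r') (hτe : ∀ τ ∈ ball (0 : ℂ) r₂, ‖τ • e‖ ≤ r / 2)
    {ξ : ℂ → ℂ → ℂ} (hξd : ∀ z, DifferentiableOn ℂ (fun τ => ξ τ z) (ball 0 r₂)) (hξn : ∀ τ ∈ ball (0 : ℂ) r₂, ∀ z, ‖ξ τ z‖ < r')
    {P : ℂ → ℂ → EN N} (hP : ∀ τ z, P τ z = (S.A.χ (S.ix (F z))).σ (E z (τ • e, ξ τ z)))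
    (hφ : ∀ τ ∈ ball (0 : ℂ) r₂, ∀ z₀, DifferentiableOn ℂ (fun z => S.q (S.ix (F z₀)) (P τ z) (l z₀)) (ball z₀ ρ))
    (hcl : ∀ τ ∈ ball (0 : ℂ) r₂, ∀ z₀, ∀ z ∈ ball z₀ ρ, ‖S.q (S.ix (F z₀)) (P τ z) - S.q (S.ix (F z₀)) (F z)‖ < r / (4 * B)) :
    S.IsFam v e b (ball 0 r₂) (fun τ z => pr (P τ z)) := by
  intro τ₀ hτ₀ z₀
  have hr := D.r_pos
  have hm2 : ∀ τ ∈ ball (0 : ℂ) r₂, ∀ z, ((τ, ξ τ z) : ℂ × ℂ) ∈ ball (0 : ℂ × ℂ) r' := fun τ hτ z => in2 hr₂ hτ (hξn τ hτ z)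
  have hPg : ∀ z ∈ ball z₀ ρ, ∀ τ ∈ ball (0 : ℂ) r₂, Good (S.A.χ (S.ix (F z₀))) (P τ z) := by
    intro z hz τ hτ
    rw [hP]
    exact D.good z₀ z hz (τ • e, ξ τ z) (D.inE hr' z (ξ τ z) (hm2 τ hτ z))
  have hPu : ∀ z, ∀ τ ∈ ball (0 : ℂ) r₂, S.u (P τ z) - (b + z • v + τ • e) ∈ S.Λ := by
    intro z τ hτ
    rw [hP]
    exact D.ux z (y := (τ • e, ξ τ z)) (D.inE hr' z (ξ τ z) (hm2 τ hτ z))
  obtain ⟨f, hf⟩ : ∃ f : ℂ × ℂ → ℂ, ∀ y, f y = S.q (S.ix (F z₀)) (P y.2 y.1) (l z₀) := ⟨_, fun _ => rfl⟩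
  have hga : AnalyticAt ℂ f (z₀, τ₀) := by
    refine D.gan hr' hξd hm2 hτ₀ (fun z τ => ?_) (fun τ hτ => ?_) (fun τ hτ z hz => ?_)
    · rw [hf, hP]
    · have h1 : (fun z => f (z, τ)) = fun z => S.q (S.ix (F z₀)) (P τ z) (l z₀) := by
        funext z
        rw [hf]
      rw [h1]
      exact hφ τ hτ z₀
    · rw [hf]
      exact (norm_le_pi_norm _ _).trans (hPg z hz τ hτ).2.2
  have hz₀ : z₀ ∈ ball z₀ ρ := mem_ball_self D.ρ_pos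
  have hev : ∀ᶠ y : ℂ × ℂ in 𝓝 (z₀, τ₀), y.1 ∈ ball z₀ ρ ∧ y.2 ∈ ball (0 : ℂ) r₂ :=
    ((continuous_fst.tendsto (z₀, τ₀)).eventually (isOpen_ball.mem_nhds hz₀)).and
      ((continuous_snd.tendsto (z₀, τ₀)).eventually (isOpen_ball.mem_nhds hτ₀))
  obtain ⟨Q, hQ⟩ : ∃ Q : ℂ × ℂ → EN N, ∀ y, Q y = P y.2 y.1 := ⟨_, fun _ => rfl⟩
  have hgs : AnalyticAt ℂ (fun y => f y - S.q (S.ix (F z₀)) (F z₀) (l z₀)) (z₀, τ₀) := hga.sub analyticAt_const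
  obtain ⟨φ, h1, h2⟩ := D.lift (e := e) (P := Q) hgs (by
    filter_upwards [hev] with y hy
    have hG := hPg y.1 hy.1 y.2 hy.2
    have hk := D.key hy.1 (hτe y.2 hy.2) hG (hPu y.1 y.2 hy.2) (hcl y.2 hy.2 z₀ y.1 hy.1)
    rw [hQ, hf]
    exact ⟨hG.1, hG.2.1, hPu y.1 y.2 hy.2, hk.1, hk.2⟩)
  refine ⟨φ, h1, ?_⟩
  filter_upwards [h2] with y hy
  rw [hQ] at hy
  exact hy

end FamD

theorem Setting.exists_fam (S : Setting X) {v : Vd 2} (hD : S.Dir v) {e : Vd 2} (he0 : om v e ≠ 0)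
    (he : ∀ (t : ℝ) (ε : ℝ), 0 < ε → ∃ z : ℂ, ∃ l ∈ S.Λ, ‖z • v + l - (t : ℂ) • e‖ < ε) : ∃ r₀ : ℝ, 0 < r₀ ∧ ∀ b, ∀ F ∈ S.G v b,
      ∃ Φ : ℂ → ℂ → MN N, S.IsFam v e b (ball 0 r₀) Φ ∧ ∀ z, Φ 0 z = pr (F z) := by
  obtain ⟨c, L, r₁, c₁, K₁, hd⟩ := S.exists_dat hD.ne
  obtain ⟨δΛ, hδΛ, hΛ⟩ := S.disc
  have hδ := S.A.δ_pos
  obtain ⟨C, hC⟩ : ∃ C, C = S.A.C := ⟨_, rfl⟩
  have hC1 : 1 ≤ C := by rw [hC]; exact S.A.one_le
  have hC0 : 0 < C := lt_of_lt_of_le one_pos hC1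
  have hL : 0 < L := hd.lc.L_pos
  have hr₁ : 0 < r₁ := hd.lc.r₀_pos
  obtain ⟨ς, hς, huc⟩ := Fam_uc S (ε := S.A.δ / 4) (by positivity)
  obtain ⟨r, B, hr, hB, hBr, hfch⟩ := S.exists_fch hD (τ := min (min (1 / 2) (δΛ / 2)) (ς / 2)) (by positivity)
  have hB0 : 0 < B := lt_of_lt_of_le one_pos hB
  have hrB : r ≤ B * r := by nlinarith
  have hBr1 : B * r ≤ 1 / 2 := hBr.trans ((min_le_left _ _).trans (min_le_left _ _))
  have hBr2 : B * r ≤ δΛ / 2 := hBr.trans ((min_le_left _ _).trans (min_le_right _ _))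
  have hBr3 : B * r ≤ ς / 2 := hBr.trans (min_le_right _ _)
  have hv := norm_nonneg v
  have hen := norm_nonneg e
  obtain ⟨ρ, hρ, hρ1, hρ2, hρ3, hρ4⟩ : ∃ ρ : ℝ, 0 < ρ ∧ ρ ≤ r₁ ∧ 2 * L * ρ ≤ S.A.δ / 4 ∧ C * (2 * L * ρ) < r / (4 * B) ∧ ρ * ‖v‖ ≤ r / 4 := by
    refine ⟨min (min r₁ (S.A.δ / (8 * L))) (min (r / (16 * B * C * L)) (r / (4 * (‖v‖ + 1)))), by positivity,
      (min_le_left _ _).trans (min_le_left _ _), ?_, ?_, ?_⟩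
    · calc _ ≤ 2 * L * (S.A.δ / (8 * L)) := mul_le_mul_of_nonneg_left ((min_le_left _ _).trans (min_le_right _ _)) (by positivity)
        _ = S.A.δ / 4 := by field_simp; norm_num
    · calc _ ≤ C * (2 * L * (r / (16 * B * C * L))) :=
            mul_le_mul_of_nonneg_left (mul_le_mul_of_nonneg_left ((min_le_right _ _).trans (min_le_left _ _)) (by positivity)) (by positivity)
        _ = r / (8 * B) := by field_simp; norm_num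
        _ < r / (4 * B) := div_lt_div_of_pos_left hr (by positivity) (by linarith)
    · calc _ ≤ r / (4 * (‖v‖ + 1)) * ‖v‖ := mul_le_mul_of_nonneg_right ((min_le_right _ _).trans (min_le_right _ _)) hv
        _ ≤ r / (4 * (‖v‖ + 1)) * (‖v‖ + 1) := mul_le_mul_of_nonneg_left (by linarith) (by positivity)
        _ = r / 4 := by field_simp
  obtain ⟨κ, ρ', ε, hκ, hρ', hε, happ⟩ := S.approx hD hd hρ hρ1
  obtain ⟨ηp, Kp, hηp, hKp, hpath⟩ := S.path_lip hD he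
  obtain ⟨r', hr'0, hr'⟩ : ∃ r' : ℝ, 0 < r' ∧ r' * (‖e‖ + 1) = r := ⟨r / (‖e‖ + 1), by positivity, by field_simp⟩
  obtain ⟨η, hη, hη1, hη2, hη3, hη4⟩ : ∃ η : ℝ, 0 < η ∧ η ≤ ηp ∧ Kp * η ≤ S.A.δ / 4 ∧ C * (Kp * η) < r / B ∧ η * ‖e‖ ≤ r / 4 := by
    refine ⟨min (min ηp (S.A.δ / (4 * Kp))) (min (r / (2 * B * C * Kp)) (r / (4 * (‖e‖ + 1)))), by positivity,
      (min_le_left _ _).trans (min_le_left _ _), ?_, ?_, ?_⟩
    · calc _ ≤ Kp * (S.A.δ / (4 * Kp)) := mul_le_mul_of_nonneg_left ((min_le_left _ _).trans (min_le_right _ _)) (by positivity)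
        _ = S.A.δ / 4 := by field_simp
    · calc _ ≤ C * (Kp * (r / (2 * B * C * Kp))) :=
            mul_le_mul_of_nonneg_left (mul_le_mul_of_nonneg_left ((min_le_right _ _).trans (min_le_left _ _)) (by positivity)) (by positivity)
        _ = r / (2 * B) := by field_simp
        _ < r / B := div_lt_div_of_pos_left hr hB0 (by linarith)
    · calc _ ≤ r / (4 * (‖e‖ + 1)) * ‖e‖ := mul_le_mul_of_nonneg_right ((min_le_right _ _).trans (min_le_right _ _)) hen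
        _ ≤ r / (4 * (‖e‖ + 1)) * (‖e‖ + 1) := mul_le_mul_of_nonneg_left (by linarith) (by positivity)
        _ = r / 4 := by field_simp
  obtain ⟨r₃, hr₃, habs⟩ := abs_ext (ρ := ρ) (r := r') (B := 1 / 2) (K := C * Kp) (η := η) (C₁ := 4 * B / ε) hρ hr'0 hη (by norm_num) (by positivity) (by positivity)
  obtain ⟨ς₂, hς₂, huc₂⟩ := Fam_uc S (ε := r / (4 * B * C)) (by positivity)
  obtain ⟨r₂, hr₂, h21, h22, h23, h24, h25⟩ : ∃ r₂ : ℝ, 0 < r₂ ∧ r₂ ≤ r₃ ∧ r₂ ≤ r' ∧ r₂ * ‖e‖ ≤ r / 2 ∧ B * (r₂ * ‖e‖) < ς₂ ∧ B * (r' / 4 / r₃ * r₂) < ς₂ := by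
    refine ⟨min (min r₃ r') (min (r / (2 * (‖e‖ + 1))) (min (ς₂ / (2 * B * (‖e‖ + 1))) (ς₂ * r₃ / (B * r')))), by positivity,
      (min_le_left _ _).trans (min_le_left _ _), (min_le_left _ _).trans (min_le_right _ _), ?_, ?_, ?_⟩
    · calc _ ≤ r / (2 * (‖e‖ + 1)) * ‖e‖ := mul_le_mul_of_nonneg_right ((min_le_right _ _).trans (min_le_left _ _)) hen
        _ ≤ r / (2 * (‖e‖ + 1)) * (‖e‖ + 1) := mul_le_mul_of_nonneg_left (by linarith) (by positivity)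
        _ = r / 2 := by field_simp
    · calc _ ≤ B * (ς₂ / (2 * B * (‖e‖ + 1)) * ‖e‖) :=
            mul_le_mul_of_nonneg_left (mul_le_mul_of_nonneg_right ((min_le_right _ _).trans ((min_le_right _ _).trans (min_le_left _ _))) hen) hB0.le
        _ ≤ B * (ς₂ / (2 * B * (‖e‖ + 1)) * (‖e‖ + 1)) :=
            mul_le_mul_of_nonneg_left (mul_le_mul_of_nonneg_left (by linarith) (by positivity)) hB0.le
        _ = ς₂ / 2 := by field_simp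
        _ < ς₂ := by linarith
    · calc _ ≤ B * (r' / 4 / r₃ * (ς₂ * r₃ / (B * r'))) :=
            mul_le_mul_of_nonneg_left (mul_le_mul_of_nonneg_left ((min_le_right _ _).trans ((min_le_right _ _).trans (min_le_right _ _))) (by positivity)) hB0.le
        _ = ς₂ / 4 := by field_simp
        _ < ς₂ := by linarith
  refine ⟨r₂, hr₂, fun b F hF => ?_⟩
  choose l E hfch using fun z => hfch b F hF z
  have hFX := hF.2.1
  have hFB := hd.sub _ hF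
  -- the charts along `F`
  have hlip : ∀ z₀, ∀ z ∈ ball z₀ ρ, dist (pr (F z₀)) (pr (F z)) ≤ 2 * L * ρ := by
    intro z₀ z hz
    refine (hd.lc.lip F hFB z₀ z).trans (mul_le_mul_of_nonneg_left ?_ (by positivity))
    rw [norm_sub_rev, ← dist_eq_norm]
    exact (mem_ball.1 hz).le
  have hgoodF : ∀ z₀, ∀ z ∈ ball z₀ ρ, Good (S.A.χ (S.ix (F z₀))) (F z) := fun z₀ z hz =>
    S.A.good (F z₀) (hFX z₀) (F z) (hFX z) ((hlip z₀ z hz).trans (by linarith))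
  have hGF : ∀ z, Good (S.A.χ (S.ix (F z))) (F z) := fun z => hgoodF z z (mem_ball_self hρ)
  have hE1 : ∀ z, ∀ y ∈ ball (0 : Vd 2 × ℂ) r, E z y ∈ closedBall (0 : Vd 3) 1 := by
    intro z y hy
    have h1 := (hfch z).near y hy
    rw [mem_ball_zero_iff] at hy
    rw [mem_closedBall_zero_iff]
    have h2 : B * ‖y‖ ≤ B * r := mul_le_mul_of_nonneg_left hy.le hB0.le
    have h3 : ‖S.q (S.ix (F z)) (F z)‖ ≤ 1 / 2 := (hGF z).2.2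
    calc ‖E z y‖ = ‖(E z y - S.q (S.ix (F z)) (F z)) + S.q (S.ix (F z)) (F z)‖ := by rw [sub_add_cancel]
      _ ≤ ‖E z y - S.q (S.ix (F z)) (F z)‖ + ‖S.q (S.ix (F z)) (F z)‖ := norm_add_le _ _
      _ ≤ 1 := by linarith
  have hq1 : ∀ z, S.q (S.ix (F z)) (F z) ∈ closedBall (0 : Vd 3) 1 := by
    intro z
    rw [mem_closedBall_zero_iff]
    have h3 : ‖S.q (S.ix (F z)) (F z)‖ ≤ 1 / 2 := (hGF z).2.2
    linarith
  have hprF : ∀ z, pr ((S.A.χ (S.ix (F z))).σ (S.q (S.ix (F z)) (F z))) = pr (F z) := fun z =>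
    (Fam_base (S.A.χ (S.ix (F z))) (hFX z) (hGF z).2.1).2.1
  have hXE : ∀ z, ∀ y ∈ ball (0 : Vd 2 × ℂ) r, (S.A.χ (S.ix (F z))).σ (E z y) ∈ X := fun z y hy =>
    ((S.A.χ (S.ix (F z))).σ_mem _ (closedBall_subset_ball (by norm_num) (hE1 z y hy))).1
  have D : FamD S v b F r B ρ l E :=
    { mem := hF
      fch := hfch
      r_pos := hr
      one_le := hB
      ρ_pos := hρ
      Br := hBr1
      lam := fun a ha h => hΛ a ha (h.trans_le (by linarith))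
      goodF := hgoodF
      vρ := hρ4
      nearF := fun z₀ z hz => by
        have h1 := S.A.le_dist (S.ix (F z₀)) (F z) (F z₀) (hgoodF z₀ z hz) (hGF z₀)
        rw [← hC, dist_comm] at h1
        exact (h1.trans (mul_le_mul_of_nonneg_left (hlip z₀ z hz) hC0.le)).trans_lt hρ3
      good := fun z₀ z hz y hy => by
        refine S.A.good (F z₀) (hFX z₀) _ (hXE z y hy) ?_
        have h1 := (hfch z).near y hy
        have h2 := huc (S.ix (F z)) _ (hq1 z) _ (hE1 z y hy) (by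
          rw [norm_sub_rev]
          rw [mem_ball_zero_iff] at hy
          exact (h1.trans (mul_le_mul_of_nonneg_left hy.le hB0.le)).trans_lt (by linarith))
        rw [hprF] at h2
        calc _ ≤ dist (pr (F z₀)) (pr (F z)) + dist (pr (F z)) (pr ((S.A.χ (S.ix (F z))).σ (E z y))) := dist_triangle _ _ _
          _ ≤ S.A.δ := by linarith [hlip z₀ z hz] }
  -- the real family
  have hG : ∀ t : ℝ, ∃ G : ℂ → EN N, |t| < η → G ∈ S.G v (b + (t : ℂ) • e) ∧ ∀ z, pd F G z ≤ Kp * |t| := by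
    intro t
    by_cases ht : |t| < η
    · obtain ⟨G, h1, h2⟩ := hpath b F hF t (ht.trans_le hη1)
      exact ⟨G, fun _ => ⟨h1, h2⟩⟩
    · exact ⟨F, fun h => absurd h ht⟩
  choose G hG using hG
  have hKt : ∀ t : ℝ, |t| < η → Kp * |t| ≤ S.A.δ / 4 ∧ C * (Kp * |t|) < r / B := by
    intro t ht
    have h1 : Kp * |t| ≤ Kp * η := mul_le_mul_of_nonneg_left ht.le hKp.le
    exact ⟨h1.trans hη2, (mul_le_mul_of_nonneg_left h1 hC0.le).trans_lt hη3⟩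
  have hGg : ∀ t : ℝ, |t| < η → ∀ z₀, ∀ z ∈ ball z₀ ρ, Good (S.A.χ (S.ix (F z₀))) (G t z) := by
    intro t ht z₀ z hz
    refine S.A.good (F z₀) (hFX z₀) _ ((hG t ht).1.2.1 z) ?_
    have h1 : dist (pr (F z)) (pr (G t z)) ≤ Kp * |t| := (hG t ht).2 z
    calc _ ≤ dist (pr (F z₀)) (pr (F z)) + dist (pr (F z)) (pr (G t z)) := dist_triangle _ _ _
      _ ≤ S.A.δ := by linarith [hlip z₀ z hz, (hKt t ht).1]
  obtain ⟨x, hx⟩ : ∃ x : ℝ → ℂ → ℂ, ∀ t z, x t z = S.q (S.ix (F z)) (G t z) (l z) - S.q (S.ix (F z)) (F z) (l z) := ⟨_, fun _ _ => rfl⟩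
  have hqn : ∀ t : ℝ, |t| < η → ∀ z, ‖S.q (S.ix (F z)) (G t z) - S.q (S.ix (F z)) (F z)‖ ≤ C * (Kp * |t|) := by
    intro t ht z
    have h1 := S.A.le_dist (S.ix (F z)) (G t z) (F z) (hGg t ht z z (mem_ball_self hρ)) (hGF z)
    rw [← hC, dist_comm] at h1
    exact h1.trans (mul_le_mul_of_nonneg_left ((hG t ht).2 z) hC0.le)
  have hxn : ∀ t : ℝ, |t| < η → ∀ z, ‖x t z‖ ≤ C * Kp * |t| := by
    intro t ht z
    rw [hx, mul_assoc]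
    exact (norm_le_pi_norm (S.q (S.ix (F z)) (G t z) - S.q (S.ix (F z)) (F z)) (l z)).trans (hqn t ht z)
  have hEx : ∀ t : ℝ, |t| < η → ∀ z, E z ((t : ℂ) • e, x t z) = S.q (S.ix (F z)) (G t z) := by
    intro t ht z
    rw [hx]
    have h0 := hGg t ht z z (mem_ball_self hρ)
    refine (D.inv z h0.1 h0.2.1 ((hqn t ht z).trans_lt (hKt t ht).2) ?_ ?_).2
    · rw [norm_smul, Complex.norm_real, Real.norm_eq_abs]
      calc |t| * ‖e‖ ≤ η * ‖e‖ := mul_le_mul_of_nonneg_right ht.le hen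
        _ < r := by linarith
    · have h1 := (hG t ht).1.2.2 z
      have h2 : b + z • v + (t : ℂ) • e = b + (t : ℂ) • e + z • v := by abel
      rw [h2]
      exact h1
  obtain ⟨ξ, hξ1, hξ2, hξ3, hξ4⟩ := habs (fun z₀ z τ s => S.q (S.ix (F z₀)) ((S.A.χ (S.ix (F z))).σ (E z (τ • e, s))) (l z₀)) x
    (fun z₀ z hz => (D.diffφ hr'.le hz).2)
    (fun t ht => ⟨hxn t ht, fun z₀ => by
      have h1 : DifferentiableOn ℂ (fun z => S.q (S.ix (F z₀)) (G t z) (l z₀)) (ball z₀ ρ) := by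
        intro z hz
        have hCv : CurveAt X (G t) z := ⟨(hG t ht).1.1.analyticAt z, Eventually.of_forall (hG t ht).1.2.1⟩
        have h2 : DifferentiableAt ℂ (fun w => S.q (S.ix (F z₀)) (G t w)) z := (S.q_an hCv (hGg t ht z₀ z hz).2.1).differentiableAt
        exact (differentiableAt_pi.1 h2 (l z₀)).differentiableWithinAt
      refine h1.congr fun z hz => ?_
      show S.q (S.ix (F z₀)) ((S.A.χ (S.ix (F z))).σ (E z ((t : ℂ) • e, x t z))) (l z₀) = S.q (S.ix (F z₀)) (G t z) (l z₀)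
      rw [hEx t ht z]
      have h0 := hGg t ht z z (mem_ball_self hρ)
      have h2 := ((Fam_base (S.A.χ (S.ix (F z))) h0.1 h0.2.1).2.2 (S.A.χ (S.ix (F z₀))) (hGg t ht z₀ z hz).2.1).2
      exact congrFun h2 (l z₀)⟩)
    (fun ξ δ hM h z => D.lower e hκ hε (happ b F hF) hM h z)
  have hξ0 : ∀ z, ξ 0 z = 0 := by
    intro z
    have h1 := hξ3 0 (by rw [abs_zero]; exact hr₃) z
    rw [Complex.ofReal_zero] at h1
    have h2 := hxn 0 (by rw [abs_zero]; exact hη) z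
    rw [abs_zero, mul_zero] at h2
    rw [h1]
    exact norm_le_zero_iff.1 h2
  have hξs : ∀ τ ∈ ball (0 : ℂ) r₂, ∀ z, ‖ξ τ z‖ ≤ r' / 4 / r₃ * r₂ := by
    intro τ hτ z
    have hτ3 : τ ∈ ball (0 : ℂ) r₃ := ball_subset_ball h21 hτ
    have h1 := Complex.dist_le_div_mul_dist_of_mapsTo_ball (f := fun τ => ξ τ z) (R₂ := r' / 4) (hξ1 z) (fun τ hτ => by
      rw [hξ0, mem_closedBall_zero_iff]
      exact hξ2 τ hτ z) hτ3
    rw [hξ0, dist_zero_right, dist_zero_right] at h1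
    rw [mem_ball_zero_iff] at hτ
    exact h1.trans (mul_le_mul_of_nonneg_left hτ.le (by positivity))
  have hτe : ∀ τ ∈ ball (0 : ℂ) r₂, ‖τ • e‖ ≤ r₂ * ‖e‖ := by
    intro τ hτ
    rw [norm_smul]
    rw [mem_ball_zero_iff] at hτ
    exact mul_le_mul_of_nonneg_right hτ.le hen
  have hξ2' : ∀ τ ∈ ball (0 : ℂ) r₂, ∀ z, ‖ξ τ z‖ < r' := fun τ hτ z =>
    (hξ2 τ (ball_subset_ball h21 hτ) z).trans_lt (by linarith)
  have hmem : ∀ τ ∈ ball (0 : ℂ) r₂, ∀ z, ((τ • e, ξ τ z) : Vd 2 × ℂ) ∈ ball (0 : Vd 2 × ℂ) r := by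
    intro τ hτ z
    refine (D.diffφ hr'.le (mem_ball_self hρ : z ∈ ball z ρ)).1 (τ, ξ τ z) ?_
    rw [mem_ball_zero_iff] at hτ ⊢
    rw [Prod.norm_def, max_lt_iff]
    exact ⟨hτ.trans_le h22, hξ2' τ (mem_ball_zero_iff.2 hτ) z⟩
  obtain ⟨P, hP⟩ : ∃ P : ℂ → ℂ → EN N, ∀ τ z, P τ z = (S.A.χ (S.ix (F z))).σ (E z (τ • e, ξ τ z)) := ⟨_, fun _ _ => rfl⟩
  refine ⟨fun τ z => pr (P τ z), D.isFam (ξ := ξ) hr'.le h22 (fun τ hτ => (hτe τ hτ).trans h23) (fun z => (hξ1 z).mono (ball_subset_ball h21)) hξ2' hP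
    (fun τ hτ z₀ => (hξ4 τ (ball_subset_ball h21 hτ) z₀).congr fun z _ => by rw [hP]) ?_, fun z => ?_⟩
  · intro τ hτ z₀ z hz
    rw [hP]
    have h1 := (hfch z).near _ (hmem τ hτ z)
    have h2 : B * ‖((τ • e, ξ τ z) : Vd 2 × ℂ)‖ < ς₂ := by
      rw [Prod.norm_def]
      rcases le_total ‖τ • e‖ ‖ξ τ z‖ with h | h
      · rw [max_eq_right h]
        exact (mul_le_mul_of_nonneg_left (hξs τ hτ z) hB0.le).trans_lt h25
      · rw [max_eq_left h]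
        exact (mul_le_mul_of_nonneg_left (hτe τ hτ) hB0.le).trans_lt h24
    have h3 := huc₂ (S.ix (F z)) _ (hq1 z) _ (hE1 z _ (hmem τ hτ z)) (by
      rw [norm_sub_rev]
      exact h1.trans_lt h2)
    rw [hprF] at h3
    have h4 := S.A.le_dist (S.ix (F z₀)) _ (F z) (D.good z₀ z hz _ (hmem τ hτ z)) (hgoodF z₀ z hz)
    rw [← hC, dist_comm] at h4
    calc _ ≤ _ := h4
      _ < C * (r / (4 * B * C)) := mul_lt_mul_of_pos_left h3 hC0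
      _ = r / (4 * B) := by field_simp
  · show pr (P 0 z) = pr (F z)
    rw [hP, hξ0, zero_smul]
    have h1 : E z (0, 0) = S.q (S.ix (F z)) (F z) := D.E0 z
    rw [h1, hprF]

end Pool.Agent.TH
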