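import Pool.Agent.TH.LipT

/-!
# TH Fch: fibred charts along the curves

At a point `x = F z`, `F ∈ G v b`, with `i = ix x`, `p₀ = q i x`: `dβ` is onto (`dβ ((q i ∘ F)') = v`, and `no_hit` gives `s` with `om v (dβ s) ≠ 0`), so for some `l` the map
`Θ p = (β i p, p l)` has an invertible derivative at `p₀`; `E` is its local inverse, translated: `E (w, s) = Θ⁻¹ (Θ p₀ + (w, s))`.  Uniformity: the set `{pr (F z)}` (all `b`, `F`, `z`) is
compact (`exists_limit`); for each chart `i` and each point `p₁` of `closedBall 0 (1/2)` where `dβ` is onto there are `l`, `r`, `B` which work for all `p₀` near `p₁` (the inverse function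
theorem at `p₁` gives `Θ⁻¹`, analytic on a ball of radius `2 r` around `Θ p₁`; translate); so if the statement is false there are `F n`, `z n` (`= 0` after a translation) which violate it with
`r = 1/n`, `B = n`, `ix (F n 0) = j` constant along the ultrafilter, `q j (F n 0) → q j (H 0)`, contradiction to the local statement at `q j (H 0)`.  (For given `τ` decrease `r` at the end:
the conditions are inherited by smaller `r`.)
-/

set_option autoImplicit false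

open Topology Filter Metric

namespace Pool.Agent.TH

open Pool.Agent.H36.BP (EN fs wd Sub)
open Pool.Agent.H14.PP (IsCone CurveAt Tan)
open Pool.Agent.H62.EF (MN pr)
open Pool.Agent.H5.BD (BC evp)
open Pool.Agent.AD (Vd Chart Charts TorusMapV DiscreteSub)
open Pool.Agent.AD.BD (Atlas LC Good qc)

variable {N : ℕ} {X : Set (EN N)}

/-- a fibred chart at the point `x` -/
structure Setting.FCh (S : Setting X) (x : EN N) (r B : ℝ) (l : Fin 3) (E : Vd 2 × ℂ → Vd 3) : Prop where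
  an : ∀ y ∈ ball (0 : Vd 2 × ℂ) r, AnalyticAt ℂ E y
  near : ∀ y ∈ ball (0 : Vd 2 × ℂ) r, ‖E y - S.q (S.ix x) x‖ ≤ B * ‖y‖
  beta : ∀ y ∈ ball (0 : Vd 2 × ℂ) r, S.β (S.ix x) (E y) = S.β (S.ix x) (S.q (S.ix x) x) + y.1
  co : ∀ y ∈ ball (0 : Vd 2 × ℂ) r, E y l = S.q (S.ix x) x l + y.2
  inv : ∀ p, ‖p - S.q (S.ix x) x‖ < r / B → (S.β (S.ix x) p - S.β (S.ix x) (S.q (S.ix x) x), p l - S.q (S.ix x) x l) ∈ ball (0 : Vd 2 × ℂ) r ∧
    E (S.β (S.ix x) p - S.β (S.ix x) (S.q (S.ix x) x), p l - S.q (S.ix x) x l) = p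

/-- a fibred chart of the map `β` at the point `p₀` -/
structure FchL (β : (Fin 3 → ℂ) → (Fin 2 → ℂ)) (p₀ : Fin 3 → ℂ) (r B : ℝ) (l : Fin 3) (E : (Fin 2 → ℂ) × ℂ → (Fin 3 → ℂ)) : Prop where
  an : ∀ y ∈ ball (0 : (Fin 2 → ℂ) × ℂ) r, AnalyticAt ℂ E y
  near : ∀ y ∈ ball (0 : (Fin 2 → ℂ) × ℂ) r, ‖E y - p₀‖ ≤ B * ‖y‖
  beta : ∀ y ∈ ball (0 : (Fin 2 → ℂ) × ℂ) r, β (E y) = β p₀ + y.1
  co : ∀ y ∈ ball (0 : (Fin 2 → ℂ) × ℂ) r, E y l = p₀ l + y.2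
  inv : ∀ p, ‖p - p₀‖ < r / B → (β p - β p₀, p l - p₀ l) ∈ ball (0 : (Fin 2 → ℂ) × ℂ) r ∧ E (β p - β p₀, p l - p₀ l) = p

theorem FchL.mono {β : (Fin 3 → ℂ) → (Fin 2 → ℂ)} {p₀ : Fin 3 → ℂ} {r B B' : ℝ} {l : Fin 3} {E : (Fin 2 → ℂ) × ℂ → (Fin 3 → ℂ)} (h : FchL β p₀ r B l E)
    (hB : 0 < B) (hr : 0 ≤ r) (hBB : B ≤ B') : FchL β p₀ r B' l E :=
  ⟨h.an, fun y hy => (h.near y hy).trans (mul_le_mul_of_nonneg_right hBB (norm_nonneg y)), h.beta, h.co,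
    fun p hp => h.inv p (hp.trans_le (div_le_div_of_nonneg_left hr hB hBB))⟩

theorem fch_coord {L : (Fin 3 → ℂ) →L[ℂ] (Fin 2 → ℂ)} (hs : Function.Surjective L) :
    ∃ l : Fin 3, ∀ w, L w = 0 → w l = 0 → w = 0 := by
  have h1 : Module.finrank ℂ (LinearMap.range L.toLinearMap) = 2 := by
    rw [LinearMap.range_eq_top.2 hs, finrank_top]
    simp
  have h2 : Module.finrank ℂ (LinearMap.ker L.toLinearMap) = 1 := by
    have h3 := LinearMap.finrank_range_add_finrank_ker L.toLinearMap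
    have h4 : Module.finrank ℂ (Fin 3 → ℂ) = 3 := by simp
    omega
  obtain ⟨⟨k, hk⟩, hk0, hkc⟩ := finrank_eq_one_iff'.1 h2
  have hk1 : k ≠ 0 := fun h => hk0 (Subtype.ext h)
  obtain ⟨l, hl⟩ := Function.ne_iff.1 hk1
  refine ⟨l, fun w hw hwl => ?_⟩
  obtain ⟨c, hc⟩ := hkc ⟨w, hw⟩
  have hc' : c • k = w := congrArg Subtype.val hc
  rw [← hc'] at hwl ⊢
  have h5 : c * k l = 0 := hwl
  rcases mul_eq_zero.1 h5 with h | h
  · rw [h, zero_smul]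
  · exact absurd h hl

theorem fch_local {β : (Fin 3 → ℂ) → (Fin 2 → ℂ)} {p₁ : Fin 3 → ℂ} (hβ : AnalyticAt ℂ β p₁) (hs : Function.Surjective (fderiv ℂ β p₁)) :
    ∃ (l : Fin 3) (r B : ℝ), 0 < r ∧ 1 ≤ B ∧ ∀ᶠ p₀ in 𝓝 p₁, ∀ r', 0 < r' → r' ≤ r → ∃ E, FchL β p₀ r' B l E := by
  obtain ⟨l, hl⟩ := fch_coord hs
  set Θ : (Fin 3 → ℂ) → (Fin 2 → ℂ) × ℂ := fun p => (β p, p l) with hΘ
  set D : (Fin 3 → ℂ) →L[ℂ] (Fin 2 → ℂ) × ℂ := (fderiv ℂ β p₁).prod (ContinuousLinearMap.proj l) with hD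
  have hinj : Function.Injective D.toLinearMap := by
    rw [← LinearMap.ker_eq_bot, LinearMap.ker_eq_bot']
    intro w hw
    have h1 : (fderiv ℂ β p₁ w, w l) = (0 : (Fin 2 → ℂ) × ℂ) := hw
    exact hl w (congrArg Prod.fst h1) (congrArg Prod.snd h1)
  have hdim : Module.finrank ℂ (Fin 3 → ℂ) = Module.finrank ℂ ((Fin 2 → ℂ) × ℂ) := by simp
  set e : (Fin 3 → ℂ) ≃L[ℂ] (Fin 2 → ℂ) × ℂ := (D.toLinearMap.linearEquivOfInjective hinj hdim).toContinuousLinearEquiv with he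
  have heD : (e : (Fin 3 → ℂ) →L[ℂ] (Fin 2 → ℂ) × ℂ) = D := by
    ext1 w
    rfl
  have hΘan : AnalyticAt ℂ Θ p₁ := hβ.prod ((ContinuousLinearMap.proj (R := ℂ) (φ := fun _ : Fin 3 => ℂ) l).analyticAt p₁)
  have hΘd : HasFDerivAt Θ D p₁ := hβ.differentiableAt.hasFDerivAt.prodMk (ContinuousLinearMap.proj (R := ℂ) (φ := fun _ : Fin 3 => ℂ) l).hasFDerivAt
  have hst : HasStrictFDerivAt Θ (e : (Fin 3 → ℂ) →L[ℂ] (Fin 2 → ℂ) × ℂ) p₁ := by
    have h1 := hΘan.hasStrictFDerivAt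
    rw [hΘd.fderiv] at h1
    rw [heD]
    exact h1
  set f := hst.toOpenPartialHomeomorph Θ with hf
  have hfc : ∀ p, f p = Θ p := fun p => congrFun (hst.toOpenPartialHomeomorph_coe) p
  have hsrc : p₁ ∈ f.source := hst.mem_toOpenPartialHomeomorph_source
  have hgan : AnalyticAt ℂ f.symm (Θ p₁) := by
    have h1 := f.analyticAt_symm' (i := e) hsrc (by rw [hst.toOpenPartialHomeomorph_coe]; exact hΘan)
      (by rw [hst.toOpenPartialHomeomorph_coe, hΘd.fderiv, heD])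
    rwa [hfc] at h1
  have htgt : Θ p₁ ∈ f.target := by
    have h1 := f.map_source hsrc
    rwa [hfc] at h1
  obtain ⟨K₁, s₁, hs₁, hK₁⟩ := hst.exists_lipschitzOnWith
  obtain ⟨K₂, s₂, hs₂, hK₂⟩ := hgan.hasStrictFDerivAt.exists_lipschitzOnWith
  obtain ⟨δ, hδ, hδs⟩ := Metric.mem_nhds_iff.1 (inter_mem (f.open_source.mem_nhds hsrc) hs₁)
  obtain ⟨ρ, hρ, hρs⟩ := Metric.mem_nhds_iff.1 (inter_mem (inter_mem (f.open_target.mem_nhds htgt) hs₂) hgan.eventually_analyticAt)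
  set B : ℝ := max 1 (max (K₁ : ℝ) (K₂ : ℝ)) with hB
  have hB1 : 1 ≤ B := le_max_left _ _
  have hBK₁ : (K₁ : ℝ) ≤ B := (le_max_left _ _).trans (le_max_right _ _)
  have hBK₂ : (K₂ : ℝ) ≤ B := (le_max_right _ _).trans (le_max_right _ _)
  refine ⟨l, min (ρ / 2) (δ / 2), B, lt_min (half_pos hρ) (half_pos hδ), hB1, ?_⟩
  filter_upwards [Metric.ball_mem_nhds p₁ (half_pos hδ), hΘan.continuousAt (Metric.ball_mem_nhds (Θ p₁) (half_pos hρ))] with p₀ hp₀ hΘp₀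
  intro r' hr' hr'r
  have hr1 : r' ≤ ρ / 2 := hr'r.trans (min_le_left _ _)
  have hr2 : r' ≤ δ / 2 := hr'r.trans (min_le_right _ _)
  have hp₀δ : p₀ ∈ ball p₁ δ := Metric.ball_subset_ball (by linarith) hp₀
  have hmem : ∀ y ∈ ball (0 : (Fin 2 → ℂ) × ℂ) r', Θ p₀ + y ∈ ball (Θ p₁) ρ := by
    intro y hy
    rw [mem_ball_zero_iff] at hy
    have h1 : dist (Θ p₀) (Θ p₁) < ρ / 2 := hΘp₀
    rw [mem_ball, dist_eq_norm]
    rw [dist_eq_norm] at h1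
    calc ‖Θ p₀ + y - Θ p₁‖ = ‖(Θ p₀ - Θ p₁) + y‖ := by congr 1; abel
      _ ≤ ‖Θ p₀ - Θ p₁‖ + ‖y‖ := norm_add_le _ _
      _ < ρ := by linarith
  have hgf : ∀ p ∈ ball p₁ δ, f.symm (Θ p) = p := by
    intro p hp
    have h1 := f.left_inv (hδs hp).1
    rwa [hfc] at h1
  have hfg : ∀ y ∈ ball (Θ p₁) ρ, Θ (f.symm y) = y := by
    intro y hy
    have h1 := f.right_inv (hρs hy).1.1
    rwa [hfc] at h1
  have hΘ0 : Θ p₀ ∈ ball (Θ p₁) ρ := by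
    have h1 := hmem 0 (mem_ball_self hr')
    rwa [add_zero] at h1
  refine ⟨fun y => f.symm (Θ p₀ + y), ?_, ?_, ?_, ?_, ?_⟩
  · intro y hy
    have h1 : AnalyticAt ℂ f.symm (Θ p₀ + y) := (hρs (hmem y hy)).2
    exact h1.comp (f := fun y => Θ p₀ + y) (analyticAt_const.add analyticAt_id)
  · intro y hy
    have h1 := hK₂.dist_le_mul _ (hρs (hmem y hy)).1.2 _ (hρs hΘ0).1.2
    rw [hgf p₀ hp₀δ, dist_eq_norm, dist_eq_norm, add_sub_cancel_left] at h1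
    exact h1.trans (mul_le_mul_of_nonneg_right hBK₂ (norm_nonneg y))
  · intro y hy
    have h1 := hfg _ (hmem y hy)
    exact congrArg Prod.fst h1
  · intro y hy
    have h1 := hfg _ (hmem y hy)
    exact congrArg Prod.snd h1
  · intro p hp
    have h0 : ‖p - p₀‖ < r' := hp.trans_le (div_le_self hr'.le hB1)
    have hpδ : p ∈ ball p₁ δ := by
      have h1 : dist p₀ p₁ < δ / 2 := hp₀
      rw [mem_ball]
      calc dist p p₁ ≤ dist p p₀ + dist p₀ p₁ := dist_triangle _ _ _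
        _ < δ := by rw [dist_eq_norm p p₀]; linarith
    have h2 := hK₁.dist_le_mul _ (hδs hpδ).2 _ (hδs hp₀δ).2
    rw [dist_eq_norm, dist_eq_norm] at h2
    have h3 : (β p - β p₀, p l - p₀ l) = Θ p - Θ p₀ := rfl
    rw [h3]
    refine ⟨?_, ?_⟩
    · rw [mem_ball_zero_iff]
      rw [lt_div_iff₀ (by linarith)] at hp
      calc ‖Θ p - Θ p₀‖ ≤ K₁ * ‖p - p₀‖ := h2
        _ ≤ B * ‖p - p₀‖ := mul_le_mul_of_nonneg_right hBK₁ (norm_nonneg _)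
        _ < r' := by rw [mul_comm]; exact hp
    · show f.symm (Θ p₀ + (Θ p - Θ p₀)) = p
      rw [add_sub_cancel, hgf p hpδ]

theorem fch_surj {L : Vd 3 →L[ℂ] Vd 2} {v : Vd 2} {w₁ w₂ : Vd 3} (h1 : L w₁ = v) (h2 : om v (L w₂) ≠ 0) : Function.Surjective L := by
  intro y
  refine ⟨(om y (L w₂) / om v (L w₂)) • w₁ + (om v y / om v (L w₂)) • w₂, ?_⟩
  rw [map_add, map_smul, map_smul, h1]
  funext t
  have h3 : v 0 * L w₂ 1 - v 1 * L w₂ 0 ≠ 0 := h2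
  fin_cases t
  · simp only [om, Fin.zero_eta, Pi.add_apply, Pi.smul_apply, smul_eq_mul]
    rw [div_mul_eq_mul_div, div_mul_eq_mul_div, ← add_div, div_eq_iff h3]
    ring
  · simp only [om, Fin.mk_one, Pi.add_apply, Pi.smul_apply, smul_eq_mul]
    rw [div_mul_eq_mul_div, div_mul_eq_mul_div, ← add_div, div_eq_iff h3]
    ring

theorem Setting.fch_key (S : Setting X) {v : Vd 2} (hD : S.Dir v) : ∃ r B : ℝ, 0 < r ∧ 1 ≤ B ∧ ∀ b, ∀ F ∈ S.G v b, ∀ z, ∃ l : Fin 3, ∀ r', 0 < r' → r' ≤ r →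
    ∃ E, FchL (S.β (S.ix (F z))) (S.q (S.ix (F z)) (F z)) r' B l E := by
  by_contra hcon
  have hc : ∀ n : ℕ, ∃ b, ∃ F ∈ S.G v b, ∃ z, ∀ l : Fin 3, ∃ r', 0 < r' ∧ r' ≤ 1 / ((n : ℝ) + 1) ∧
      ∀ E, ¬ FchL (S.β (S.ix (F z))) (S.q (S.ix (F z)) (F z)) r' ((n : ℝ) + 1) l E := by
    intro n
    by_contra hn
    refine hcon ⟨1 / ((n : ℝ) + 1), (n : ℝ) + 1, by positivity, by linarith [(Nat.cast_nonneg n : (0 : ℝ) ≤ n)], fun b F hF z => ?_⟩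
    by_contra hl
    refine hn ⟨b, F, hF, z, fun l => ?_⟩
    by_contra hr
    refine hl ⟨l, fun r' hr' hr'' => ?_⟩
    by_contra hE
    exact hr ⟨r', hr', hr'', fun E hE' => hE ⟨E, hE'⟩⟩
  choose b F hF z hz using hc
  set F' : ℕ → ℂ → EN N := fun n w => F n (w + z n) with hF'd
  have hF' : ∀ n, F' n ∈ S.G v (b n + z n • v) := fun n => S.G_trans (hF n) (z n)
  obtain ⟨b₀, -, H, -, -, hH, hconv⟩ := S.exists_limit hD.ne (hyperfilter ℕ) (fun n => b n + z n • v) F' (Eventually.of_forall hF')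
  obtain ⟨j, hj⟩ : ∃ j, ∀ᶠ n in ((hyperfilter ℕ : Ultrafilter ℕ) : Filter ℕ), S.ix (F' n 0) = j :=
    Ultrafilter.eventually_exists_iff.1 (Eventually.of_forall fun n => ⟨_, rfl⟩)
  have hHX : H 0 ∈ X := hH.2.1 0
  have hgood : Good (S.A.χ j) (H 0) := by
    obtain ⟨n, hn1, hn2⟩ := (hj.and (hconv.unif 0 S.A.δ S.A.δ_pos)).exists
    have h1 := S.A.good (F' n 0) ((hF' n).2.1 0) (H 0) hHX (hn2 0 (by simp))
    rw [← hn1]
    exact h1
  obtain ⟨ρ, hρ, -, -, htl⟩ := hconv.chart 0 j hgood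
  have htend := htl.tendsto_at (mem_ball_self hρ)
  have hp₁ : S.q j (H 0) ∈ ball (0 : Vd 3) 2 := by
    rw [mem_ball_zero_iff]
    exact lt_of_le_of_lt hgood.2.2 (by norm_num)
  have hsurj : Function.Surjective (fderiv ℂ (S.β j) (S.q j (H 0))) := by
    obtain ⟨w₂, hw₂⟩ : ∃ w, om v (fderiv ℂ (S.β j) (S.q j (H 0)) w) ≠ 0 := by
      by_contra hno
      refine S.no_hit hD hH 0 ?_
      show S.cov v (S.ix (H 0)) (S.q (S.ix (H 0)) (H 0)) = 0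
      funext t
      show om v (fderiv ℂ (S.β (S.ix (H 0))) (S.q (S.ix (H 0)) (H 0)) (Pi.single t 1)) = 0
      rw [← S.T_beta hHX (S.good_ix hHX).2.1 hgood.2.1]
      by_contra hne
      exact hno ⟨_, hne⟩
    exact fch_surj (S.der_beta hH hgood.2.1) hw₂
  obtain ⟨l, r, B, hr, hB, hev⟩ := fch_local (S.β_an j _ hp₁) hsurj
  have hlarge : ∀ᶠ n : ℕ in atTop, 1 / ((n : ℝ) + 1) ≤ r ∧ B ≤ (n : ℝ) + 1 := by
    have h1 := tendsto_one_div_add_atTop_nhds_zero_nat (𝕜 := ℝ)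
    have h2 : Tendsto (fun n : ℕ => (n : ℝ) + 1) atTop atTop := tendsto_atTop_add_const_right _ _ tendsto_natCast_atTop_atTop
    exact (h1.eventually (Iic_mem_nhds hr)).and (h2.eventually_ge_atTop B)
  obtain ⟨n, ⟨hn1, hn2⟩, hn3, hn4⟩ := ((hj.and (htend.eventually hev)).and (Nat.hyperfilter_le_atTop hlarge)).exists
  obtain ⟨r', hr', hr'', hE⟩ := hz n l
  obtain ⟨E, hE'⟩ := hn2 r' hr' (hr''.trans hn3)
  rw [← hn1] at hE'
  have hE2 := hE'.mono (by linarith) hr'.le hn4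
  simp only [hF'd, zero_add] at hE2
  exact hE E hE2

theorem Setting.exists_fch (S : Setting X) {v : Vd 2} (hD : S.Dir v) {τ : ℝ} (hτ : 0 < τ) : ∃ r B : ℝ, 0 < r ∧ 1 ≤ B ∧ B * r ≤ τ ∧ ∀ b, ∀ F ∈ S.G v b, ∀ z,
    ∃ (l : Fin 3) (E : Vd 2 × ℂ → Vd 3), S.FCh (F z) r B l E := by
  obtain ⟨r, B, hr, hB, h⟩ := S.fch_key hD
  have hB0 : 0 < B := by linarith
  refine ⟨min r (τ / B), B, lt_min hr (div_pos hτ hB0), hB, ?_, fun b F hF z => ?_⟩
  · calc B * min r (τ / B) ≤ B * (τ / B) := mul_le_mul_of_nonneg_left (min_le_right _ _) hB0.le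
      _ = τ := mul_div_cancel₀ τ hB0.ne'
  · obtain ⟨l, hl⟩ := h b F hF z
    obtain ⟨E, hE⟩ := hl _ (lt_min hr (div_pos hτ hB0)) (min_le_left _ _)
    exact ⟨l, E, hE.an, hE.near, hE.beta, hE.co, hE.inv⟩

end Pool.Agent.TH
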