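import Pool.Agent.TH.Gv

/-!
# TH Kill: an entire function of order one which vanishes at all the hits of one curve

Let `T` be the finite set of `hD.hits`.  For `t ∈ T` let `Z t = {z : b + z v - t ∈ Λ}`; if `S.Hit v (F z)` then `u (F z) - t ∈ Λ` for some `t ∈ T`, so `z ∈ Z t`.  If
`Z t` contains `z₁`, then `Z t ⊆ z₁ + Γ`, `Γ = {z : z v ∈ Λ}`, a discrete subgroup of `ℂ` (`S.disc`, `v ≠ 0`) without two `ℝ`-independent elements (`hD.nonell`), so
`Γ = {0}` or `Γ = ℤ ω` (take `ω` of minimal length; Mathlib may have discrete subgroups of `ℝ`: `Γ ⊆ ℝ ω₀` for any `ω₀ ∈ Γ`).  Take the factor `z - z₁`, or `sin (π (z - z₁) / ω)`,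
or `1` if `Z t` is empty; `E` = the product.  `|z - z₁| ≤ exp (C (1 + |z|))`, `|sin w| ≤ exp |w|`.  `E` is not identically zero (countably many zeros, or: a product of entire functions
which are not identically zero).
-/

set_option autoImplicit false

open Topology Filter Metric

namespace Pool.Agent.TH

open Pool.Agent.H36.BP (EN fs wd Sub)
open Pool.Agent.H14.PP (IsCone CurveAt Tan)
open Pool.Agent.H62.EF (MN pr)
open Pool.Agent.H5.BD (BC evp)
open Pool.Agent.AD (Vd Chart Charts TorusMapV DiscreteSub)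
open Pool.Agent.AD.BD (Atlas LC Good qc)

variable {N : ℕ} {X : Set (EN N)}

theorem kill_norm_sin_le (w : ℂ) : ‖Complex.sin w‖ ≤ Real.exp ‖w‖ := by
  rw [Complex.sin]
  have h1 : ‖Complex.exp (-w * Complex.I)‖ ≤ Real.exp ‖w‖ := by
    refine (Complex.norm_exp_le_exp_norm _).trans ?_
    simp
  have h2 : ‖Complex.exp (w * Complex.I)‖ ≤ Real.exp ‖w‖ := by
    refine (Complex.norm_exp_le_exp_norm _).trans ?_
    simp
  rw [norm_div, norm_mul, Complex.norm_I, mul_one, Complex.norm_two]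
  have h3 := norm_sub_le (Complex.exp (-w * Complex.I)) (Complex.exp (w * Complex.I))
  linarith

/-- a discrete subgroup of the plane without two independent elements is cyclic -/
theorem kill_cyc (Γ : AddSubgroup ℂ) (δ : ℝ) (hδ : 0 < δ) (hd : ∀ z ∈ Γ, ‖z‖ < δ → z = 0)
    (hn : ∀ ω₁ ω₂ : ℂ, LinearIndependent ℝ ![ω₁, ω₂] → ω₁ ∈ Γ → ω₂ ∉ Γ) :
    ∃ ω : ℂ, ∀ z ∈ Γ, ∃ k : ℤ, z = k * ω := by
  by_cases h0 : ∀ z ∈ Γ, z = 0
  · exact ⟨0, fun z hz => ⟨0, by simpa using h0 z hz⟩⟩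
  · push Not at h0
    obtain ⟨w, hw, hw0⟩ := h0
    let H : AddSubgroup ℝ := Γ.comap (AddMonoidHom.mk' (fun t : ℝ => (t : ℂ) * w) (fun a b => by push_cast; ring))
    have hH : ∀ t : ℝ, t ∈ H ↔ (t : ℂ) * w ∈ Γ := fun t => Iff.rfl
    have hwn : 0 < ‖w‖ := norm_pos_iff.mpr hw0
    obtain ⟨c, hc⟩ := AddSubgroup.cyclic_of_isolated_zero (H := H) (a := δ / ‖w‖) (by positivity) (by
      rw [Set.disjoint_left]
      rintro t ht ⟨ht1, ht2⟩
      have h1 := hd _ ((hH t).mp ht) (by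
        rw [norm_mul, Complex.norm_real, Real.norm_eq_abs, abs_of_pos ht1]
        exact (lt_div_iff₀ hwn).mp ht2)
      rcases mul_eq_zero.mp h1 with h | h
      · have : t = 0 := by exact_mod_cast h
        linarith
      · exact hw0 h)
    refine ⟨(c : ℂ) * w, fun z hz => ?_⟩
    have h1 : ¬ LinearIndependent ℝ ![w, z] := fun h => hn w z h hw hz
    rw [LinearIndependent.pair_iff' hw0] at h1
    push Not at h1
    obtain ⟨t, ht⟩ := h1
    have h2 : t ∈ H := by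
      rw [hH]
      have : (t : ℂ) * w = z := by rw [← ht]; simp
      rw [this]; exact hz
    rw [hc, AddSubgroup.mem_closure_singleton] at h2
    obtain ⟨k, hk⟩ := h2
    refine ⟨k, ?_⟩
    rw [← ht, ← hk]
    simp only [zsmul_eq_mul, Complex.real_smul]
    push_cast
    ring

/-- one factor -/
theorem kill_factor (Z : Set ℂ) (ω : ℂ) (hZ : ∀ z ∈ Z, ∀ w ∈ Z, ∃ k : ℤ, z - w = k * ω) :
    ∃ (E : ℂ → ℂ) (C : ℝ), Differentiable ℂ E ∧ (∀ z ∈ Z, E z = 0) ∧ {z | E z = 0}.Countable ∧ 0 ≤ C ∧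
      ∀ z, ‖E z‖ ≤ Real.exp (C * (1 + ‖z‖)) := by
  by_cases hZe : Z = ∅
  · refine ⟨fun _ => 1, 0, differentiable_const _, by simp [hZe], by simp, le_refl _, fun z => by simp⟩
  obtain ⟨z₁, hz₁⟩ := Set.nonempty_iff_ne_empty.mpr hZe
  by_cases hω : ω = 0
  · refine ⟨fun z => z - z₁, 1 + ‖z₁‖, differentiable_id.sub_const _, ?_, ?_, by positivity, ?_⟩
    · intro z hz
      obtain ⟨k, hk⟩ := hZ z hz z₁ hz₁
      simpa [hω] using hk
    · have : {z : ℂ | z - z₁ = 0} = {z₁} := by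
        ext z; simp [sub_eq_zero]
      rw [this]; exact Set.countable_singleton _
    · intro z
      have h1 := norm_sub_le z z₁
      have h2 := Real.add_one_le_exp ((1 + ‖z₁‖) * (1 + ‖z‖))
      nlinarith [norm_nonneg z, norm_nonneg z₁, mul_nonneg (norm_nonneg z) (norm_nonneg z₁)]
  · refine ⟨fun z => Complex.sin (Real.pi * (z - z₁) / ω), Real.pi / ‖ω‖ * (1 + ‖z₁‖), ?_, ?_, ?_, by positivity, ?_⟩
    · exact Complex.differentiable_sin.comp (((differentiable_id.sub_const _).const_mul _).div_const _)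
    · intro z hz
      obtain ⟨k, hk⟩ := hZ z hz z₁ hz₁
      have : (Real.pi : ℂ) * (z - z₁) / ω = k * Real.pi := by
        rw [hk]; field_simp
      simp only [this]
      exact Complex.sin_int_mul_pi k
    · have hsub : {z : ℂ | Complex.sin (Real.pi * (z - z₁) / ω) = 0} ⊆ Set.range (fun k : ℤ => z₁ + k * ω) := by
        intro z hz
        rw [Set.mem_ofPred_eq, Complex.sin_eq_zero_iff] at hz
        obtain ⟨k, hk⟩ := hz
        refine ⟨k, ?_⟩
        have hpi : (Real.pi : ℂ) ≠ 0 := by exact_mod_cast Real.pi_ne_zero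
        have h1 : (Real.pi : ℂ) * (z - z₁) = k * Real.pi * ω := by
          rw [← hk]; field_simp
        have h2 : z - z₁ = k * ω := by
          have : (Real.pi : ℂ) * (z - z₁) = Real.pi * (k * ω) := by rw [h1]; ring
          exact mul_left_cancel₀ hpi this
        simp only
        rw [← h2]; ring
      exact (Set.countable_range _).mono hsub
    · intro z
      refine (kill_norm_sin_le _).trans (Real.exp_le_exp.mpr ?_)
      rw [norm_div, norm_mul, Complex.norm_real, Real.norm_eq_abs, abs_of_pos Real.pi_pos]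
      have h1 := norm_sub_le z z₁
      have h2 : ‖z - z₁‖ ≤ (1 + ‖z₁‖) * (1 + ‖z‖) := by
        nlinarith [norm_nonneg z, norm_nonneg z₁, mul_nonneg (norm_nonneg z) (norm_nonneg z₁)]
      have h3 : 0 ≤ Real.pi / ‖ω‖ := by positivity
      calc Real.pi * ‖z - z₁‖ / ‖ω‖ = Real.pi / ‖ω‖ * ‖z - z₁‖ := by ring
        _ ≤ Real.pi / ‖ω‖ * ((1 + ‖z₁‖) * (1 + ‖z‖)) := mul_le_mul_of_nonneg_left h2 h3
        _ = _ := by ring

/-- the product of finitely many factors -/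
theorem kill_prod {ι : Type*} (T : Finset ι) (Z : ι → Set ℂ)
    (h : ∀ t ∈ T, ∃ (E : ℂ → ℂ) (C : ℝ), Differentiable ℂ E ∧ (∀ z ∈ Z t, E z = 0) ∧ {z | E z = 0}.Countable ∧ 0 ≤ C ∧
      ∀ z, ‖E z‖ ≤ Real.exp (C * (1 + ‖z‖))) :
    ∃ (E : ℂ → ℂ) (C : ℝ), Differentiable ℂ E ∧ (∀ t ∈ T, ∀ z ∈ Z t, E z = 0) ∧ {z | E z = 0}.Countable ∧ 0 ≤ C ∧
      ∀ z, ‖E z‖ ≤ Real.exp (C * (1 + ‖z‖)) := by
  classical
  induction T using Finset.induction_on with
  | empty => exact ⟨fun _ => 1, 0, differentiable_const _, by simp, by simp, le_refl _, fun z => by simp⟩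
  | insert a T ha ih =>
    obtain ⟨E₁, C₁, d₁, z₁, c₁, p₁, b₁⟩ := ih (fun t ht => h t (Finset.mem_insert_of_mem ht))
    obtain ⟨E₂, C₂, d₂, z₂, c₂, p₂, b₂⟩ := h a (Finset.mem_insert_self _ _)
    refine ⟨fun z => E₁ z * E₂ z, C₁ + C₂, d₁.mul d₂, ?_, ?_, by positivity, ?_⟩
    · intro t ht z hz
      rcases Finset.mem_insert.mp ht with rfl | ht
      · simp [z₂ z hz]
      · simp [z₁ t ht z hz]
    · refine (c₁.union c₂).mono ?_
      intro z hz
      exact mul_eq_zero.mp hz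
    · intro z
      rw [norm_mul, add_mul, Real.exp_add]
      exact mul_le_mul (b₁ z) (b₂ z) (norm_nonneg _) (Real.exp_pos _).le

theorem Setting.exists_kill (S : Setting X) {v : Vd 2} (hD : S.Dir v) {b : Vd 2} {F : ℂ → EN N} (hF : F ∈ S.G v b) :
    ∃ (E : ℂ → ℂ) (C : ℝ), Differentiable ℂ E ∧ (∀ z, S.Hit v (F z) → E z = 0) ∧ (∃ z, E z ≠ 0) ∧ 0 ≤ C ∧ ∀ z, ‖E z‖ ≤ Real.exp (C * (1 + ‖z‖)) := by
  obtain ⟨T, hT⟩ := hD.hits
  obtain ⟨δ, hδ, hd⟩ := S.disc
  have hv : 0 < ‖v‖ := norm_pos_iff.mpr hD.ne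
  let Γ : AddSubgroup ℂ := S.Λ.comap (AddMonoidHom.mk' (fun z : ℂ => z • v) (fun a b => add_smul a b v))
  have hΓ : ∀ z : ℂ, z ∈ Γ ↔ z • v ∈ S.Λ := fun z => Iff.rfl
  obtain ⟨ω, hω⟩ := kill_cyc Γ (δ / ‖v‖) (by positivity) (by
    intro z hz hlt
    have h1 := hd _ ((hΓ z).mp hz) (by
      rw [norm_smul]
      exact (lt_div_iff₀ hv).mp hlt)
    rcases smul_eq_zero.mp h1 with h | h
    · exact h
    · exact absurd h hD.ne) (fun ω₁ ω₂ h h1 h2 => hD.nonell ω₁ ω₂ h ((hΓ ω₁).mp h1) ((hΓ ω₂).mp h2))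
  obtain ⟨E, C, h1, h2, h3, h4, h5⟩ := kill_prod T (fun t => {z : ℂ | b + z • v - t ∈ S.Λ}) (fun t _ => by
    refine kill_factor _ ω (fun z hz w hw => hω _ ?_)
    rw [hΓ, sub_smul]
    have h := S.Λ.sub_mem hz hw
    have he : (b + z • v - t) - (b + w • v - t) = z • v - w • v := by abel
    rwa [he] at h)
  refine ⟨E, C, h1, fun z hz => ?_, ?_, h4, h5⟩
  · obtain ⟨t, ht, hu⟩ := hT (F z) (hF.2.1 z) hz
    refine h2 t ht z ?_
    have h := S.Λ.sub_mem hu (hF.2.2 z)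
    have he : (S.u (F z) - t) - (S.u (F z) - (b + z • v)) = b + z • v - t := by abel
    rwa [he] at h
  · by_contra hc
    push Not at hc
    exact not_countable_complex (h3.mono (fun z _ => hc z))

end Pool.Agent.TH
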