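import Pool.Agent.TH.Quo
import Pool.Agent.H36.BP.MaxP
import Pool.Agent.H36.BP.SubB

/-!
# TH Liou: Liouville's theorem for vertical fields

`max_gauss`: `P z exp (-κ'' ‖z‖²)` with `κ' < κ'' < κ₁` tends to `0` at infinity, so if `P` is not identically `0` it has a maximum, at a point where `P > 0`; there it has
`Sub _ z₀ (κ₁ - κ'') ` (`Sub.mul`, and `Sub.exp_sq` with `t z = z`), contradiction to `Sub.not_isLocalMax`.

`liouville`: take `κ` with `2 m κ < κ₁`.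
-/

set_option autoImplicit false

open Topology Filter Metric

namespace Pool.Agent.TH

open Pool.Agent.H36.BP (EN fs wd Sub)
open Pool.Agent.H14.PP (IsCone CurveAt Tan)
open Pool.Agent.H62.EF (MN pr)
open Pool.Agent.H5.BD (BC evp)
open Pool.Agent.AD (Vd Chart Charts TorusMapV DiscreteSub)
open Pool.Agent.AD.BD (Atlas LC Good qc)

variable {N : ℕ} {X : Set (EN N)}

theorem max_gauss {P : ℂ → ℝ} {κ₁ κ' C : ℝ} (h0 : ∀ z, 0 ≤ P z) (hc : Continuous P) (hs : ∀ z, 0 < P z → Sub P z κ₁) (hκ : κ' < κ₁)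
    (hg : ∀ z, P z ≤ C * Real.exp (κ' * ‖z‖ ^ 2 + C * ‖z‖)) : ∀ z, P z = 0 := by
  intro z₁
  by_contra hne
  have hpos : 0 < P z₁ := lt_of_le_of_ne (h0 z₁) (Ne.symm hne)
  set κ'' : ℝ := (κ' + κ₁) / 2 with hκ''
  have h1 : κ' < κ'' := by rw [hκ'']; linarith
  have h2 : κ'' < κ₁ := by rw [hκ'']; linarith
  -- the weighted function
  have hQc : Continuous (fun z : ℂ => P z * Real.exp (-κ'' * ‖z‖ ^ 2)) :=
    hc.mul (Real.continuous_exp.comp (continuous_const.mul (continuous_norm.pow 2)))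
  have hQ1 : 0 < P z₁ * Real.exp (-κ'' * ‖z₁‖ ^ 2) := mul_pos hpos (Real.exp_pos _)
  -- decay
  have hlim : Tendsto (fun r : ℝ => C * Real.exp (r * (C + -(κ'' - κ') * r))) atTop (𝓝 (C * 0)) := by
    refine Tendsto.const_mul C (Real.tendsto_exp_atBot.comp ?_)
    refine Tendsto.atTop_mul_atBot₀ tendsto_id ?_
    refine tendsto_atBot_add_const_left _ _ ?_
    exact tendsto_id.const_mul_atTop_of_neg (by linarith)
  rw [mul_zero] at hlim
  have hlim' := hlim.comp (tendsto_norm_cocompact_atTop (E := ℂ))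
  have hev : ∀ᶠ z in cocompact ℂ, P z * Real.exp (-κ'' * ‖z‖ ^ 2) ≤ P z₁ * Real.exp (-κ'' * ‖z₁‖ ^ 2) := by
    filter_upwards [hlim'.eventually (gt_mem_nhds hQ1)] with z hz
    refine le_trans ?_ hz.le
    refine (mul_le_mul_of_nonneg_right (hg z) (Real.exp_pos _).le).trans (le_of_eq ?_)
    simp only [Function.comp_apply]
    rw [mul_assoc, ← Real.exp_add]
    congr 2
    ring
  obtain ⟨z₀, hz₀⟩ := hQc.exists_forall_ge' z₁ hev
  have hQ0 : 0 < P z₀ * Real.exp (-κ'' * ‖z₀‖ ^ 2) := lt_of_lt_of_le hQ1 (hz₀ z₁)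
  have hP0 : 0 < P z₀ := pos_of_mul_pos_left hQ0 (Real.exp_pos _).le
  have hS := (hs z₀ hP0).mul (Pool.Agent.H36.BP.Sub.exp_sq (t := fun z => z) (z₀ := z₀) analyticAt_id (-κ''))
  refine Pool.Agent.H36.BP.Sub.not_isLocalMax hS ?_ (Eventually.of_forall fun z => hz₀ z)
  have hd : deriv (fun z : ℂ => z) z₀ = 1 := deriv_id z₀
  rw [hd, norm_one]
  linarith

theorem Setting.liouville (S : Setting X) {v : Vd 2} (hD : S.Dir v) : ∃ κ : ℝ, 0 < κ ∧ ∀ b, ∀ F ∈ S.G v b, ∀ ξ : ℂ → Vd 3, S.Field F ξ →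
    (∃ C : ℝ, ∀ z, ‖ξ z‖ ≤ C * Real.exp (κ * ‖z‖ ^ 2)) → ∀ z, ξ z = 0 := by
  obtain ⟨κ₁, hκ₁, hP⟩ := S.exists_P hD
  have hm : (0 : ℝ) ≤ (S.m : ℝ) := Nat.cast_nonneg _
  have hm1 : (0 : ℝ) < 2 * (S.m : ℝ) + 1 := by positivity
  refine ⟨κ₁ / (2 * (S.m : ℝ) + 1), by positivity, ?_⟩
  rintro b F hF ξ hξ ⟨C, hC⟩
  obtain ⟨P, C', h0, hc, hs, hg, hz⟩ := hP b F hF ξ hξ (κ₁ / (2 * (S.m : ℝ) + 1)) C (by positivity) hC
  refine hz (max_gauss h0 hc hs ?_ hg)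
  rw [mul_div_assoc', div_lt_iff₀ hm1]
  nlinarith

end Pool.Agent.TH
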