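import Pool.Agent.TH.Path

/-!
# TH LipT: the motion is Lipschitz; there are no hits

* `lip_pair`: `F ∈ G v b`, `G ∈ G v b'`, `pd F G ≤ ε₁` everywhere, `l ∈ Λ`: then `pd F G z ≤ K ‖b' - b - l‖`.  Let `s = sup ‖dsp z‖` (finite, `dsp_pd`), `s > 0`; take `z₁` with
  `‖dsp z₁‖ ≥ s / 2`; if `‖b' - b - l‖ ≤ ε₂ ‖dsp z₁‖` then `pair_max` with `a = 0` gives `dsp z₁ = 0`; so `s ≤ 2 ‖b' - b - l‖ / ε₂`.
* `path_lip`: `path` and `lip_pair`.
* `no_hit`: fix `z`, `i = ix (F z)`; for `t = 1 / (n + 1)` let `G n` be the curve of `path_lip`: `(q i (G n z) - q i (F z)) / t` is bounded, let `s` be a limit; `β i (q i (G n z)) - β i (q i (F z)) = t e`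
  (mod `Λ`, both sides small), so `dβ s = e`, and `om v e ≠ 0`: `cov ≠ 0`.
-/

set_option autoImplicit false

open Topology Filter Metric

namespace Pool.Agent.TH

open Pool.Agent.H36.BP (EN fs wd Sub)
open Pool.Agent.H14.PP (IsCone CurveAt Tan)
open Pool.Agent.H62.EF (MN pr)
open Pool.Agent.H5.BD (BC evp)
open Pool.Agent.AD (Vd Chart Charts TorusMapV DiscreteSub)
open Pool.Agent.AD.BD (Atlas LC Good qc)

variable {N : ℕ} {X : Set (EN N)}

namespace Setting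

variable (S : Setting X)

theorem lip_pair {v : Vd 2} (hD : S.Dir v) : ∃ ε₁ K : ℝ, 0 < ε₁ ∧ 0 < K ∧ ∀ b b', ∀ F ∈ S.G v b, ∀ G ∈ S.G v b', ∀ l ∈ S.Λ, (∀ z, pd F G z ≤ ε₁) →
    ∀ z, pd F G z ≤ K * ‖b' - b - l‖ := by
  obtain ⟨κ, ρ, ε₁, ε₂, hκ, -, hε₁, hε₂, hmax⟩ := S.pair_max hD
  obtain ⟨C, δ, hC, hδ, hdsp⟩ := S.dsp_pd
  refine ⟨min ε₁ δ, 2 * C / ε₂, lt_min hε₁ hδ, by positivity, ?_⟩
  intro b b' F hF G hG l hl hpd z
  have h1 : ∀ z, pd F G z ≤ ε₁ := fun z => (hpd z).trans (min_le_left _ _)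
  have h2 : ∀ z, pd F G z ≤ δ := fun z => (hpd z).trans (min_le_right _ _)
  have h3 := fun z => hdsp F G hF.2.1 hG.2.1 z (h2 z)
  have hbdd : BddAbove (Set.range fun z => ‖S.dsp F G z‖) := by
    refine ⟨C * ε₁, ?_⟩
    rintro _ ⟨z, rfl⟩
    exact (h3 z).1.trans (mul_le_mul_of_nonneg_left (h1 z) (by linarith))
  set s : ℝ := ⨆ z, ‖S.dsp F G z‖ with hs
  have hle : ∀ z, ‖S.dsp F G z‖ ≤ s := fun z => le_ciSup hbdd z
  have hs0 : 0 ≤ s := (norm_nonneg _).trans (hle 0)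
  have hw : 0 ≤ ‖b' - b - l‖ := norm_nonneg _
  have hsle : s ≤ 2 * ‖b' - b - l‖ / ε₂ := by
    by_contra hcon
    have h4 : 2 * ‖b' - b - l‖ / ε₂ < s := not_le.1 hcon
    have hspos : 0 < s := lt_of_le_of_lt (by positivity) h4
    obtain ⟨z₁, hz₁⟩ := exists_lt_of_lt_ciSup (show s / 2 < ⨆ z, ‖S.dsp F G z‖ by rw [← hs]; linarith)
    have h5 : S.dsp F G z₁ = 0 := by
      refine hmax b b' F hF G hG z₁ 0 l hl (fun z _ => h1 z) (fun z _ => ?_) (fun z _ => ?_)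
      · rw [zero_mul, Complex.exp_zero, norm_one, mul_one]
        have h6 : 1 ≤ Real.exp (κ * ‖z - z₁‖ ^ 2) := Real.one_le_exp (by positivity)
        have h7 := hle z
        have h8 : 0 ≤ ‖S.dsp F G z₁‖ := norm_nonneg _
        nlinarith
      · rw [zero_mul, Complex.exp_zero, norm_one, mul_one]
        rw [div_lt_iff₀ hε₂] at h4
        nlinarith
    rw [h5, norm_zero] at hz₁
    linarith
  calc pd F G z ≤ C * ‖S.dsp F G z‖ := (h3 z).2
    _ ≤ C * (2 * ‖b' - b - l‖ / ε₂) := mul_le_mul_of_nonneg_left ((hle z).trans hsle) (by linarith)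
    _ = _ := by ring

theorem path_lip {v : Vd 2} (hD : S.Dir v) {e : Vd 2} (he : ∀ (t : ℝ) (ε : ℝ), 0 < ε → ∃ z : ℂ, ∃ l ∈ S.Λ, ‖z • v + l - (t : ℂ) • e‖ < ε) :
    ∃ η K : ℝ, 0 < η ∧ 0 < K ∧ ∀ b, ∀ F ∈ S.G v b, ∀ t : ℝ, |t| < η → ∃ G ∈ S.G v (b + (t : ℂ) • e), ∀ z, pd F G z ≤ K * |t| := by
  obtain ⟨ε₁, K, hε₁, hK, hlip⟩ := S.lip_pair hD
  obtain ⟨η, hη, hpath⟩ := S.path hD he hε₁
  refine ⟨η, K * (‖e‖ + 1), hη, by positivity, ?_⟩
  intro b F hF t ht
  obtain ⟨G, hG, hpd⟩ := hpath b F hF t ht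
  refine ⟨G, hG, fun z => ?_⟩
  have h1 := hlip b _ F hF G hG 0 S.Λ.zero_mem hpd z
  have h2 : b + (t : ℂ) • e - b - 0 = (t : ℂ) • e := by
    rw [sub_zero, add_sub_cancel_left]
  rw [h2, norm_smul, Complex.norm_real, Real.norm_eq_abs] at h1
  refine h1.trans ?_
  have h3 : 0 ≤ |t| := abs_nonneg t
  have h4 : 0 ≤ K * |t| := by positivity
  nlinarith

theorem no_hit {v : Vd 2} (hD : S.Dir v) {b : Vd 2} {F : ℂ → EN N} (hF : F ∈ S.G v b) (z : ℂ) : ¬ S.Hit v (F z) := by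
  intro hhit
  obtain ⟨e, he0, he⟩ := S.exists_real hD
  obtain ⟨η, K, hη, hK, hpath⟩ := S.path_lip hD he
  obtain ⟨C, δ, hC, hδ, hdsp⟩ := S.dsp_pd
  set t : ℕ → ℝ := fun n => η / ((n : ℝ) + 2) with ht
  have htpos : ∀ n, 0 < t n := fun n => by
    rw [ht]
    positivity
  have htlt : ∀ n, |t n| < η := fun n => by
    rw [abs_of_pos (htpos n), ht]
    have h0 : (0 : ℝ) ≤ n := Nat.cast_nonneg n
    show η / ((n : ℝ) + 2) < η
    rw [div_lt_iff₀ (by linarith)]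
    nlinarith
  have htt : Tendsto t atTop (𝓝 0) := by
    rw [ht]
    exact tendsto_const_nhds.div_atTop (tendsto_atTop_add_const_right _ _ tendsto_natCast_atTop_atTop)
  choose G hG hGpd using fun n => hpath b F hF (t n) (htlt n)
  set i : Fin S.A.n := S.ix (F z) with hi
  set p : Vd 3 := S.q i (F z) with hp
  have hgF : Good (S.A.χ i) (F z) := S.A.good (F z) (hF.2.1 z) (F z) (hF.2.1 z) (by rw [dist_self]; exact S.A.δ_pos.le)
  have hpb : p ∈ ball (0 : Vd 3) 2 := by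
    rw [mem_ball_zero_iff]
    exact lt_of_le_of_lt hgF.2.2 (by norm_num)
  set d : ℕ → Vd 3 := fun n => S.dsp F (G n) z with hd
  have hpdn : ∀ n, pd F (G n) z ≤ K * t n := fun n => by
    have := hGpd n z
    rwa [abs_of_pos (htpos n)] at this
  have hKt : Tendsto (fun n => K * t n) atTop (𝓝 0) := by
    have := htt.const_mul K
    rwa [mul_zero] at this
  have hgood : ∀ᶠ n in atTop, Good (S.A.χ i) (G n z) := by
    filter_upwards [hKt.eventually_le_const S.A.δ_pos] with n hn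
    exact S.A.good (F z) (hF.2.1 z) (G n z) ((hG n).2.1 z) ((hpdn n).trans hn)
  have hdle : ∀ᶠ n in atTop, ‖d n‖ ≤ C * K * t n := by
    filter_upwards [hKt.eventually_le_const hδ] with n hn
    have h1 := (hdsp F (G n) hF.2.1 (hG n).2.1 z ((hpdn n).trans hn)).1
    calc ‖d n‖ ≤ C * pd F (G n) z := h1
      _ ≤ C * (K * t n) := mul_le_mul_of_nonneg_left (hpdn n) (by linarith)
      _ = _ := by ring
  have hd0 : Tendsto d atTop (𝓝 0) := by
    refine squeeze_zero_norm' hdle ?_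
    have := htt.const_mul (C * K)
    rwa [mul_zero] at this
  have hpd : ∀ n, p + d n = S.q i (G n z) := fun n => by
    rw [hd, hp]
    show S.q i (F z) + (S.q (S.ix (F z)) (G n z) - S.q (S.ix (F z)) (F z)) = _
    rw [← hi]
    abel
  have hβ := S.β_an i p hpb
  obtain ⟨δ₂, hδ₂, hdisc⟩ := S.disc
  -- the difference of the values
  have hlam : ∀ᶠ n in atTop, S.β i (p + d n) - S.β i p - (t n : ℂ) • e ∈ S.Λ := by
    filter_upwards [hgood] with n hn
    have h1 := S.β_eq i (G n z) hn.1 hn.2.1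
    have h2 := S.β_eq i (F z) hgF.1 hgF.2.1
    have h3 := hF.2.2 z
    have h4 := (hG n).2.2 z
    have h5 := S.Λ.add_mem (S.Λ.sub_mem h2 h1) (S.Λ.sub_mem h4 h3)
    rw [hpd n]
    have h6 : S.u (F z) - S.β i ((S.A.χ i).q (F z)) - (S.u (G n z) - S.β i ((S.A.χ i).q (G n z))) +
        (S.u (G n z) - (b + (t n : ℂ) • e + z • v) - (S.u (F z) - (b + z • v))) =
        S.β i (S.q i (G n z)) - S.β i p - (t n : ℂ) • e := by
      show S.u (F z) - S.β i (S.q i (F z)) - (S.u (G n z) - S.β i (S.q i (G n z))) +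
        (S.u (G n z) - (b + (t n : ℂ) • e + z • v) - (S.u (F z) - (b + z • v))) =
        S.β i (S.q i (G n z)) - S.β i (S.q i (F z)) - (t n : ℂ) • e
      abel
    rwa [h6] at h5
  have hlim : Tendsto (fun n => S.β i (p + d n) - S.β i p - (t n : ℂ) • e) atTop (𝓝 0) := by
    have h1 : Tendsto (fun n => p + d n) atTop (𝓝 p) := by
      have := hd0.const_add p
      rwa [add_zero] at this
    have h2 : Tendsto (fun n => S.β i (p + d n)) atTop (𝓝 (S.β i p)) := hβ.continuousAt.tendsto.comp h1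
    have h3 : Tendsto (fun n => (t n : ℂ) • e) atTop (𝓝 ((0 : ℂ) • e)) := by
      refine Tendsto.smul_const ?_ e
      have h4 := (Complex.continuous_ofReal.tendsto (0 : ℝ)).comp htt
      rw [Complex.ofReal_zero] at h4
      exact h4
    have h5 := (h2.sub_const (S.β i p)).sub h3
    rwa [sub_self, zero_smul, sub_zero] at h5
  have hzero : ∀ᶠ n in atTop, S.β i (p + d n) - S.β i p = (t n : ℂ) • e := by
    have h1 : ∀ᶠ n in atTop, ‖S.β i (p + d n) - S.β i p - (t n : ℂ) • e‖ < δ₂ := by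
      have h2 := hlim.norm
      rw [norm_zero] at h2
      exact h2.eventually_lt_const hδ₂
    filter_upwards [h1, hlam] with n h2 h3
    exact sub_eq_zero.1 (hdisc _ h3 h2)
  -- the limit of the difference quotients
  set 𝒰 : Ultrafilter ℕ := Ultrafilter.of atTop with h𝒰
  have hle𝒰 : (𝒰 : Filter ℕ) ≤ atTop := Ultrafilter.of_le atTop
  have hc0 : ∀ n, ((t n : ℝ) : ℂ) ≠ 0 := fun n => by exact_mod_cast (htpos n).ne'
  have hbnd : ∀ᶠ n in (𝒰 : Filter ℕ), ((t n : ℂ))⁻¹ • d n ∈ closedBall (0 : Vd 3) (C * K) := by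
    refine hle𝒰 ?_
    filter_upwards [hdle] with n hn
    rw [mem_closedBall_zero_iff, norm_smul, norm_inv, Complex.norm_real, Real.norm_of_nonneg (htpos n).le,
      inv_mul_le_iff₀ (htpos n)]
    linarith
  obtain ⟨s₀, -, hs₀⟩ := (isCompact_closedBall (0 : Vd 3) (C * K)).ultrafilter_le_nhds (𝒰.map fun n => ((t n : ℂ))⁻¹ • d n)
    (by rw [Ultrafilter.coe_map, le_principal_iff]; exact hbnd)
  have hs₀' : Tendsto (fun n => ((t n : ℂ))⁻¹ • d n) 𝒰 (𝓝 s₀) := hs₀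
  have hfd : HasFDerivAt (S.β i) (fderiv ℂ (S.β i) p) p := hβ.differentiableAt.hasFDerivAt
  have h7 := (hasFDerivWithinAt_univ.2 hfd).lim (l := (𝒰 : Filter ℕ)) (c := fun n => ((t n : ℂ))⁻¹) (d := d) (v := s₀)
    (hd0.mono_left hle𝒰) (Eventually.of_forall fun n => Set.mem_univ _) hs₀'
  have h8 : Tendsto (fun n => ((t n : ℂ))⁻¹ • (S.β i (p + d n) - S.β i p)) 𝒰 (𝓝 e) := by
    refine (tendsto_congr' (hle𝒰 ?_)).2 tendsto_const_nhds
    filter_upwards [hzero] with n hn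
    rw [hn, smul_smul, inv_mul_cancel₀ (hc0 n), one_smul]
  have h9 : fderiv ℂ (S.β i) p s₀ = e := tendsto_nhds_unique h7 h8
  -- the conclusion
  have hcov : ∀ l, om v (fderiv ℂ (S.β i) p (Pi.single l 1)) = 0 := fun l => congrFun hhit l
  have hsum : s₀ = s₀ 0 • Pi.single 0 1 + s₀ 1 • Pi.single 1 1 + s₀ 2 • Pi.single 2 1 := by
    funext l
    fin_cases l <;> simp
  have h10 := hcov 0
  have h11 := hcov 1
  have h12 := hcov 2
  apply he0
  rw [← h9, hsum, map_add, map_add, map_smul, map_smul, map_smul]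
  unfold om at h10 h11 h12 ⊢
  simp only [Pi.add_apply, Pi.smul_apply, smul_eq_mul]
  linear_combination s₀ 0 * h10 + s₀ 1 * h11 + s₀ 2 * h12

end Setting

end Pool.Agent.TH
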