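import Pool.Agent.TH.NoXD

/-!
# TH NoXE: the identity theorem, existence of a contact, limits of the length

* `FF_ident`: two maps which agree near a point are equal.
* `exists_jet`: if all the jets of the difference vanish at `w` the two maps are equal.
* `cc_ne`: the determinant does not vanish if the jet of order `m` does not vanish.
* `nn_limit`: the length of the contact along an ultrafilter.
-/

set_option autoImplicit false

open Topology Filter Metric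

namespace Pool.Agent.TH

open Pool.Agent.H36.BP (EN fs wd Sub)
open Pool.Agent.H14.PP (IsCone CurveAt Tan)
open Pool.Agent.H62.EF (MN pr)
open Pool.Agent.H5.BD (BC evp)
open Pool.Agent.AD (Vd Chart Charts TorusMapV DiscreteSub)
open Pool.Agent.AD.BD (Atlas LC Good qc)

variable {N : ℕ} {X : Set (EN N)}

/-- a function of one variable with vanishing derivatives at `0` -/
private theorem NoXE_zero {E : Type*} [NormedAddCommGroup E] [NormedSpace ℂ E] [CompleteSpace E] {f : ℂ → E} {r : ℝ} (hr : 0 < r) (hf : AnalyticOnNhd ℂ f (ball 0 r))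
    (h : ∀ j, iteratedDeriv j f 0 = 0) : ∀ t ∈ ball (0 : ℂ) r, f t = 0 := by
  have h0 : (0 : ℂ) ∈ ball (0 : ℂ) r := mem_ball_self hr
  have h1 : analyticOrderAt f 0 = ⊤ := by
    rw [ENat.eq_top_iff_forall_ge]
    intro n
    exact (natCast_le_analyticOrderAt_iff_iteratedDeriv_eq_zero (hf 0 h0)).2 fun i _ => h i
  have h2 : ∀ᶠ z in 𝓝 (0 : ℂ), f z = 0 := analyticOrderAt_eq_top.1 h1
  exact fun t ht => hf.eqOn_zero_of_preconnected_of_eventuallyEq_zero (convex_ball (0 : ℂ) r).isPreconnected h0 h2 ht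

/-- limits of jets -/
private theorem NoXE_lim {E : Type*} [NormedAddCommGroup E] [NormedSpace ℂ E] [CompleteSpace E] {𝒰 : Ultrafilter ℕ} {f : ℕ → ℂ → E} {g : ℂ → E} {r : ℝ} (hr : 0 < r)
    (hf : TendstoLocallyUniformlyOn f g 𝒰 (ball 0 r)) (hd : ∀ᶠ n in (𝒰 : Filter ℕ), DifferentiableOn ℂ (f n) (ball 0 r)) (j : ℕ) :
    Tendsto (fun n => iteratedDeriv j (f n) 0) 𝒰 (𝓝 (iteratedDeriv j g 0)) := by
  have h0 : (0 : ℂ) ∈ ball (0 : ℂ) r := mem_ball_self hr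
  have key : TendstoLocallyUniformlyOn (fun n => iteratedDeriv j (f n)) (iteratedDeriv j g) 𝒰 (ball 0 r) ∧
      ∀ᶠ n in (𝒰 : Filter ℕ), DifferentiableOn ℂ (iteratedDeriv j (f n)) (ball 0 r) := by
    induction j with
    | zero => simpa using ⟨hf, hd⟩
    | succ j ih =>
      refine ⟨?_, ?_⟩
      · have h1 := ih.1.deriv ih.2 isOpen_ball
        have h2 : (deriv ∘ fun n => iteratedDeriv j (f n)) = fun n => iteratedDeriv (j + 1) (f n) := by
          funext n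
          rw [iteratedDeriv_succ]
          rfl
        rw [h2] at h1
        rw [iteratedDeriv_succ]
        exact h1
      · filter_upwards [ih.2] with n hn
        rw [iteratedDeriv_succ]
        exact hn.deriv isOpen_ball
  exact key.1.tendsto_at h0

/-- limits of directional jets -/
private theorem NoXE_jet {E : Type*} [NormedAddCommGroup E] [NormedSpace ℂ E] [CompleteSpace E] {𝒰 : Ultrafilter ℕ} {f : ℕ → Vd 2 → E} {g : Vd 2 → E} {r : ℝ} (hr : 0 < r)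
    (hf : TendstoUniformlyOn f g 𝒰 (ball 0 r)) (hd : ∀ᶠ n in (𝒰 : Filter ℕ), ∀ y ∈ ball 0 r, AnalyticAt ℂ (f n) y) {y : ℕ → Vd 2} {y₀ : Vd 2} (hy : ∀ n, ‖y n‖ = 1)
    (hy₀ : Tendsto y 𝒰 (𝓝 y₀)) (j : ℕ) :
    Tendsto (fun n => iteratedDeriv j (fun t : ℂ => f n (t • y n)) 0) 𝒰 (𝓝 (iteratedDeriv j (fun t : ℂ => g (t • y₀)) 0)) := by
  have hy₀1 : ‖y₀‖ = 1 := tendsto_nhds_unique hy₀.norm (by simp [hy])
  have hgc : ContinuousOn g (ball 0 r) := by
    refine hf.continuousOn (Eventually.frequently ?_)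
    filter_upwards [hd] with n hn y hy
    exact (hn y hy).continuousAt.continuousWithinAt
  refine NoXE_lim (r := r / 2) (by positivity) ?_ ?_ j
  · refine TendstoUniformlyOn.tendstoLocallyUniformlyOn ?_
    rw [Metric.tendstoUniformlyOn_iff]
    intro ε hε
    -- uniform continuity of `g` on the compact ball
    have huc : UniformContinuousOn g (closedBall 0 (r / 2)) :=
      (isCompact_closedBall (0 : Vd 2) (r / 2)).uniformContinuousOn_of_continuous (hgc.mono (closedBall_subset_ball (by linarith)))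
    obtain ⟨δ, hδ, huc'⟩ := Metric.uniformContinuousOn_iff.1 huc (ε / 2) (by positivity)
    have h1 : ∀ᶠ n in (𝒰 : Filter ℕ), dist (y n) y₀ < δ / r := by
      have h2 := hy₀.eventually (Metric.ball_mem_nhds y₀ (ε := δ / r) (by positivity))
      filter_upwards [h2] with n hn
      exact hn
    filter_upwards [h1, Metric.tendstoUniformlyOn_iff.1 hf (ε / 2) (by positivity)] with n hn1 hn2 t ht
    rw [mem_ball_zero_iff] at ht
    have hty : ‖t • y n‖ < r / 2 := by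
      rw [norm_smul, hy, mul_one]
      exact ht
    have hty₀ : ‖t • y₀‖ < r / 2 := by
      rw [norm_smul, hy₀1, mul_one]
      exact ht
    have h3 := hn2 (t • y n) (by rw [mem_ball_zero_iff]; linarith)
    have h4 := huc' (t • y₀) (by rw [mem_closedBall_zero_iff]; exact hty₀.le) (t • y n) (by rw [mem_closedBall_zero_iff]; exact hty.le) (by
      rw [dist_eq_norm, ← smul_sub, norm_smul, ← dist_eq_norm, dist_comm]
      calc ‖t‖ * dist (y n) y₀ ≤ r / 2 * dist (y n) y₀ := by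
            apply mul_le_mul_of_nonneg_right ht.le dist_nonneg
        _ < δ := by
          have h5 : r * dist (y n) y₀ < δ := by
            calc r * dist (y n) y₀ < r * (δ / r) := by
                  apply mul_lt_mul_of_pos_left hn1 hr
              _ = δ := by field_simp
          have h6 : 0 ≤ dist (y n) y₀ := dist_nonneg
          nlinarith)
    calc dist (g (t • y₀)) (f n (t • y n)) ≤ dist (g (t • y₀)) (g (t • y n)) + dist (g (t • y n)) (f n (t • y n)) := dist_triangle _ _ _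
      _ < ε / 2 + ε / 2 := add_lt_add h4 h3
      _ = ε := by ring
  · filter_upwards [hd] with n hn t ht
    rw [mem_ball_zero_iff] at ht
    have hty : ‖t • y n‖ < r := by
      rw [norm_smul, hy, mul_one]
      linarith
    have h1 : DifferentiableAt ℂ (f n) (t • y n) := (hn _ (by rw [mem_ball_zero_iff]; exact hty)).differentiableAt
    have h2 : DifferentiableAt ℂ (fun t : ℂ => t • y n) t := by fun_prop
    exact (DifferentiableAt.comp t (g := f n) (f := fun t : ℂ => t • y n) h1 h2).differentiableWithinAt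

private theorem NoXE_single (a : Fin 2) : ‖(Pi.single a 1 : Vd 2)‖ = 1 := by
  refine le_antisymm ((pi_norm_le_iff_of_nonneg zero_le_one).2 fun c => ?_) ?_
  · rcases eq_or_ne c a with rfl | h
    · simp
    · simp [h]
  · have h1 := norm_le_pi_norm (Pi.single a 1 : Vd 2) a
    simpa using h1

namespace Setting

variable {S : Setting X}

theorem FF_cont {b : Vd 2} {Ψ : Vd 2 → MN N} (h : Ψ ∈ S.FF b) : Continuous Ψ := by
  obtain ⟨L, hL, hl⟩ := S.FF_lip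
  have h1 : LipschitzWith ⟨L, hL.le⟩ Ψ := LipschitzWith.of_dist_le_mul fun w w' => by
    rw [dist_eq_norm w w']
    exact hl b Ψ h w w'
  exact h1.continuous

/-- near a point where the two maps agree, the difference in the chart -/
theorem del_an {b : Vd 2} {Ψ Ψ' : Vd 2 → MN N} (h : Ψ ∈ S.FF b) (h' : Ψ' ∈ S.FF b) {w : Vd 2} (hw : Ψ w = Ψ' w) {i : Fin S.A.n} (hi : S.InM i (Ψ w)) :
    ∃ r : ℝ, 0 < r ∧ ∀ z ∈ ball w r, AnalyticAt ℂ (fun z => S.qm i (Ψ' z) - S.qm i (Ψ z)) z ∧ (S.qm i (Ψ' z) - S.qm i (Ψ z) = 0 → Ψ z = Ψ' z) := by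
  have hi' : S.InM i (Ψ' w) := hw ▸ hi
  have h1 : ∀ᶠ z in 𝓝 w, AnalyticAt ℂ (fun z => S.qm i (Ψ' z) - S.qm i (Ψ z)) z ∧ (S.qm i (Ψ' z) - S.qm i (Ψ z) = 0 → Ψ z = Ψ' z) := by
    filter_upwards [((FF_inM h' hi').1.sub (FF_inM h hi).1).eventually_analyticAt, (FF_inM h hi).2, (FF_inM h' hi').2] with z hz1 hz2 hz3
    exact ⟨hz1, fun h0 => qm_inj hz2 hz3 (sub_eq_zero.1 h0).symm⟩
  obtain ⟨r, hr, hb⟩ := Metric.eventually_nhds_iff_ball.1 h1
  exact ⟨r, hr, hb⟩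

/-- the identity theorem -/
theorem FF_ident {b : Vd 2} {Ψ Ψ' : Vd 2 → MN N} (h : Ψ ∈ S.FF b) (h' : Ψ' ∈ S.FF b) {w : Vd 2} (hw : ∀ᶠ z in 𝓝 w, Ψ z = Ψ' z) : Ψ = Ψ' := by
  set W : Set (Vd 2) := {z | ∀ᶠ x in 𝓝 z, Ψ x = Ψ' x} with hW
  have hopen : IsOpen W := by
    rw [isOpen_iff_mem_nhds]
    intro z hz
    exact hz.eventually_nhds
  have hclosed : IsClosed W := by
    rw [← closure_subset_iff_isClosed]
    intro z hz
    have heq : Ψ z = Ψ' z := by
      have h1 : IsClosed {x | Ψ x = Ψ' x} := isClosed_eq (FF_cont h) (FF_cont h')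
      have h2 : W ⊆ {x | Ψ x = Ψ' x} := fun x hx => hx.self_of_nhds
      exact closure_minimal h2 h1 hz
    obtain ⟨i, hi⟩ := exists_goodM h z
    obtain ⟨r, hr, hb⟩ := del_an h h' heq hi.inM
    obtain ⟨x, hxW, hxz⟩ := Metric.mem_closure_iff.1 hz r hr
    have hxb : x ∈ ball z r := by
      rw [mem_ball, dist_comm]
      exact hxz
    have h3 : AnalyticOnNhd ℂ (fun z => S.qm i (Ψ' z) - S.qm i (Ψ z)) (ball z r) := fun y hy => (hb y hy).1
    have h4 : (fun z => S.qm i (Ψ' z) - S.qm i (Ψ z)) =ᶠ[𝓝 x] 0 := by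
      have hxW' : ∀ᶠ y in 𝓝 x, Ψ y = Ψ' y := hxW
      filter_upwards [hxW'] with y hy
      simp [hy]
    have h5 := h3.eqOn_zero_of_preconnected_of_eventuallyEq_zero (convex_ball z r).isPreconnected hxb h4
    show ∀ᶠ y in 𝓝 z, Ψ y = Ψ' y
    filter_upwards [ball_mem_nhds z hr] with y hy
    exact (hb y hy).2 (h5 hy)
  have huniv : W = Set.univ := IsClopen.eq_univ ⟨hclosed, hopen⟩ ⟨w, hw⟩
  funext z
  have h1 : z ∈ W := by
    rw [huniv]
    trivial
  have h2 : ∀ᶠ x in 𝓝 z, Ψ x = Ψ' x := h1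
  exact h2.self_of_nhds

/-- different maps have a contact of finite order -/
theorem exists_jet {b : Vd 2} {Ψ Ψ' : Vd 2 → MN N} (h : Ψ ∈ S.FF b) (h' : Ψ' ∈ S.FF b) {w : Vd 2} (hw : Ψ w = Ψ' w) (hne : Ψ ≠ Ψ') :
    ∃ i y m, S.GoodM i (Ψ w) ∧ ‖y‖ = 1 ∧ S.jet i Ψ Ψ' y m w ≠ 0 := by
  by_contra hcon
  push Not at hcon
  apply hne
  obtain ⟨i, hi⟩ := exists_goodM h w
  obtain ⟨r, hr, hb⟩ := del_an h h' hw hi.inM
  refine FF_ident h h' (w := w) ?_
  filter_upwards [ball_mem_nhds w hr] with z hz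
  apply (hb z hz).2
  rcases eq_or_ne z w with rfl | hzw
  · rw [hw, sub_self]
  · have hn : 0 < ‖z - w‖ := norm_pos_iff.2 (sub_ne_zero.2 hzw)
    have hnC : ((‖z - w‖ : ℝ) : ℂ) ≠ 0 := by exact_mod_cast hn.ne'
    set y : Vd 2 := ((‖z - w‖ : ℝ) : ℂ)⁻¹ • (z - w) with hy
    have hy1 : ‖y‖ = 1 := by
      rw [hy, norm_smul, norm_inv, Complex.norm_real, norm_norm, inv_mul_cancel₀ hn.ne']
    have hzb : ‖z - w‖ < r := by
      rw [← dist_eq_norm]
      exact hz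
    have han : AnalyticOnNhd ℂ (fun t : ℂ => S.qm i (Ψ' (w + t • y)) - S.qm i (Ψ (w + t • y))) (ball 0 r) := by
      intro t ht
      rw [mem_ball_zero_iff] at ht
      refine AnalyticAt.fun_comp (g := fun z => S.qm i (Ψ' z) - S.qm i (Ψ z)) (f := fun t : ℂ => w + t • y) (hb _ ?_).1 (by fun_prop)
      rw [mem_ball, dist_eq_norm, add_sub_cancel_left, norm_smul, hy1, mul_one]
      exact ht
    have h1 := NoXE_zero hr han (fun j => hcon i y j hi hy1) ((‖z - w‖ : ℝ) : ℂ) (by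
      rw [mem_ball_zero_iff, Complex.norm_real, norm_norm]
      exact hzb)
    have h2 : w + ((‖z - w‖ : ℝ) : ℂ) • y = z := by
      rw [hy, smul_smul, mul_inv_cancel₀ hnC, one_smul]
      abel
    simp only [h2] at h1
    exact h1

/-- the determinant does not vanish -/
theorem cc_ne {b : Vd 2} {Ψ Ψ' : Vd 2 → MN N} (h : Ψ ∈ S.FF b) (h' : Ψ' ∈ S.FF b) {w : Vd 2} (hw : Ψ w = Ψ' w) {i : Fin S.A.n} (hi : S.GoodM i (Ψ w)) {y : Vd 2} {m : ℕ}
    (hj : ∀ j < m, S.jet i Ψ Ψ' y j w = 0) (hm : S.jet i Ψ Ψ' y m w ≠ 0) : S.cc i Ψ Ψ' y m w ≠ 0 := by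
  have hi' : S.GoodM i (Ψ' w) := hw ▸ hi
  obtain ⟨a1, e1⟩ := S.FF_an h hi
  obtain ⟨a1', e1'⟩ := S.FF_an h' hi'
  rw [← hw] at e1'
  have hb : S.qm i (Ψ w) ∈ ball (0 : Vd 3) 2 := (qm_trans hi.inM hi.inM).1
  have hβ := S.β_an i _ hb
  set A := fderiv ℂ (S.β i) (S.qm i (Ψ w)) with hA
  have hAP : A (S.jet i Ψ Ψ' y m w) = 0 := by
    refine NoXC.contact (β := S.β i) (A := A) (p := fun t : ℂ => S.qm i (Ψ (w + t • y))) (p' := fun t : ℂ => S.qm i (Ψ' (w + t • y))) (line_an a1 y) (line_an a1' y)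
      (by simp [hw]) ?_ ?_ hj
    · have := hβ.hasStrictFDerivAt
      simpa using this
    · filter_upwards [(line_tendsto w y).eventually e1, (line_tendsto w y).eventually e1'] with t ht ht'
      rw [ht, ht']
  have hder : ∀ v, A (fderiv ℂ (fun z => S.qm i (Ψ z)) w v) = v := by
    intro v
    have h1 : HasFDerivAt (fun z => S.β i (S.qm i (Ψ z))) (A.comp (fderiv ℂ (fun z => S.qm i (Ψ z)) w)) w :=
      HasFDerivAt.comp (g := S.β i) (f := fun z => S.qm i (Ψ z)) w hβ.differentiableAt.hasFDerivAt a1.differentiableAt.hasFDerivAt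
    have h2 : HasFDerivAt (fun z => S.β i (S.qm i (Ψ z))) (ContinuousLinearMap.id ℂ (Vd 2)) w := by
      have h3 : HasFDerivAt (fun z : Vd 2 => S.β i (S.qm i (Ψ w)) + (z - w)) (ContinuousLinearMap.id ℂ (Vd 2)) w := ((hasFDerivAt_id w).sub_const w).const_add _
      exact h3.congr_of_eventuallyEq e1
    exact congrArg (fun L : Vd 2 →L[ℂ] Vd 2 => L v) (h1.unique h2)
  have hli : LinearIndependent ℂ (S.tri i Ψ Ψ' y m w) := by
    rw [Fintype.linearIndependent_iff]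
    intro g hg
    rw [Fin.sum_univ_three] at hg
    have hg' : g 0 • S.jet i Ψ Ψ' y m w + g 1 • fderiv ℂ (fun z => S.qm i (Ψ z)) w (Pi.single 0 1) + g 2 • fderiv ℂ (fun z => S.qm i (Ψ z)) w (Pi.single 1 1) = 0 := hg
    have h1 := congrArg A hg'
    rw [map_add, map_add, map_smul, map_smul, map_smul, hAP, hder, hder, map_zero, smul_zero, zero_add] at h1
    have h2 : g 1 = 0 := by
      have := congrFun h1 0
      simpa using this
    have h3 : g 2 = 0 := by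
      have := congrFun h1 1
      simpa using this
    rw [h2, h3, zero_smul, zero_smul, add_zero, add_zero, smul_eq_zero] at hg'
    have h4 : g 0 = 0 := by
      rcases hg' with h5 | h5
      · exact h5
      · exact absurd h5 hm
    intro a
    fin_cases a
    · exact h4
    · exact h2
    · exact h3
  have h1 : IsUnit (Matrix.of (S.tri i Ψ Ψ' y m w)) := by
    rw [← Matrix.linearIndependent_rows_iff_isUnit]
    exact hli
  exact ((Matrix.isUnit_iff_isUnit_det _).1 h1).ne_zero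

/-- the limit of the elements of the lattice is in the lattice -/
theorem lat_limit (S : Setting X) {𝒰 : Ultrafilter ℕ} {l : ℕ → Vd 2} {c : Vd 2} (hl : ∀ n, l n ∈ S.Λ) (hc : Tendsto l 𝒰 (𝓝 c)) : c ∈ S.Λ := by
  obtain ⟨δ, hδ, hd⟩ := S.disc
  have h1 : ∀ᶠ n in (𝒰 : Filter ℕ), ‖l n - c‖ < δ / 2 := by
    filter_upwards [hc.eventually (ball_mem_nhds c (half_pos hδ))] with n hn
    rw [← dist_eq_norm]
    exact hn
  obtain ⟨n₀, hn₀⟩ := h1.exists
  have h2 : ∀ᶠ n in (𝒰 : Filter ℕ), l n = l n₀ := by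
    filter_upwards [h1] with n hn
    refine sub_eq_zero.1 (hd _ (S.Λ.sub_mem (hl n) (hl n₀)) ?_)
    have h3 : l n - l n₀ = (l n - c) - (l n₀ - c) := by abel
    rw [h3]
    calc ‖(l n - c) - (l n₀ - c)‖ ≤ ‖l n - c‖ + ‖l n₀ - c‖ := norm_sub_le _ _
      _ < δ := by linarith
  have h3 : Tendsto (fun _ : ℕ => l n₀) 𝒰 (𝓝 c) := hc.congr' h2
  rw [← tendsto_nhds_unique tendsto_const_nhds h3]
  exact hl n₀

/-- the good part of a chart is closed -/
theorem goodM_limit {𝒰 : Ultrafilter ℕ} {P : ℕ → MN N} {Q : MN N} {i : Fin S.A.n} (hP : ∀ᶠ n in (𝒰 : Filter ℕ), S.GoodM i (P n)) (hQ : Tendsto P 𝒰 (𝓝 Q)) : S.GoodM i Q := by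
  have h1 : ∀ᶠ n in (𝒰 : Filter ℕ), S.qm i (P n) ∈ closedBall (0 : Vd 3) (1 / 2) ∧ pr ((S.A.χ i).σ (S.qm i (P n))) = P n := by
    filter_upwards [hP] with n hn
    obtain ⟨x, hx, hxP, hg⟩ := hn
    rw [← hxP, S.qm_pr hx hg.2.1]
    obtain ⟨-, c, hc, h2⟩ := (S.A.χ i).surj x hx hg.2.1
    refine ⟨by rw [mem_closedBall_zero_iff]; exact hg.2.2, ?_⟩
    conv_rhs => rw [h2, Pool.Agent.H62.EF.pr_smul _ hc]
    rfl
  have h2 : ((𝒰.map fun n => S.qm i (P n) : Ultrafilter (Vd 3)) : Filter (Vd 3)) ≤ 𝓟 (closedBall (0 : Vd 3) (1 / 2)) := by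
    rw [Ultrafilter.coe_map, le_principal_iff, mem_map]
    filter_upwards [h1] with n hn
    exact hn.1
  obtain ⟨q, hq, hq2⟩ := (isCompact_closedBall (0 : Vd 3) (1 / 2)).ultrafilter_le_nhds _ h2
  have hq3 : Tendsto (fun n => S.qm i (P n)) 𝒰 (𝓝 q) := hq2
  rw [mem_closedBall_zero_iff] at hq
  have hqb : q ∈ ball (0 : Vd 3) 2 := by
    rw [mem_ball_zero_iff]
    linarith
  obtain ⟨hX, hU, hq4⟩ := (S.A.χ i).σ_mem q hqb
  have hne : (S.A.χ i).σ q ≠ 0 := fun h0 => S.cone.zero_notMem (h0 ▸ hX)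
  have h3 : Tendsto (fun n => pr ((S.A.χ i).σ (S.qm i (P n)))) 𝒰 (𝓝 (pr ((S.A.χ i).σ q))) :=
    (Pool.Agent.H62.EF.continuousAt_pr hne).tendsto.comp (((S.A.χ i).σ_an q hqb).continuousAt.tendsto.comp hq3)
  have h4 : Tendsto P 𝒰 (𝓝 (pr ((S.A.χ i).σ q))) := by
    refine h3.congr' ?_
    filter_upwards [h1] with n hn
    exact hn.2
  refine ⟨(S.A.χ i).σ q, hX, tendsto_nhds_unique h4 hQ, hX, hU, ?_⟩
  rw [hq4]
  exact hq

/-- limits of the length of the contact -/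
theorem nn_limit (S : Setting X) (𝒰 : Ultrafilter ℕ) {b w y : ℕ → Vd 2} {Ψ Ψ' : ℕ → Vd 2 → MN N} {i : ℕ → Fin S.A.n} (h : ∀ n, Ψ n ∈ S.FF (b n)) (h' : ∀ n, Ψ' n ∈ S.FF (b n))
    (hw : ∀ n, Ψ n (w n) = Ψ' n (w n)) (hi : ∀ n, S.GoodM (i n) (Ψ n (w n))) (hy : ∀ n, ‖y n‖ = 1) (m : ℕ) :
    ∃ b₀ Φ Φ' i₀ y₀, Φ ∈ S.FF b₀ ∧ Φ' ∈ S.FF b₀ ∧ Φ 0 = Φ' 0 ∧ S.GoodM i₀ (Φ 0) ∧ ‖y₀‖ = 1 ∧
      Tendsto (fun n => S.nn (i n) (Ψ n) (Ψ' n) (y n) m (w n)) 𝒰 (𝓝 (S.nn i₀ Φ Φ' y₀ m 0)) := by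
  -- the chart
  obtain ⟨i₀, hi₀⟩ := Ultrafilter.eq_pure_of_finite (𝒰.map i)
  have hi₁ : ∀ᶠ n in (𝒰 : Filter ℕ), i n = i₀ := by
    have h1 : ({i₀} : Set (Fin S.A.n)) ∈ 𝒰.map i := by
      rw [hi₀]
      exact Set.mem_singleton i₀
    exact h1
  -- the direction
  obtain ⟨y₀, hy₀, hy₁⟩ : ∃ y₀ : Vd 2, ‖y₀‖ = 1 ∧ Tendsto y 𝒰 (𝓝 y₀) := by
    have h2 : ((𝒰.map y : Ultrafilter (Vd 2)) : Filter (Vd 2)) ≤ 𝓟 (closedBall (0 : Vd 2) 1) := by
      rw [Ultrafilter.coe_map, le_principal_iff, mem_map]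
      refine Eventually.of_forall fun n => ?_
      show y n ∈ closedBall (0 : Vd 2) 1
      rw [mem_closedBall_zero_iff, hy]
    obtain ⟨q, -, hq2⟩ := (isCompact_closedBall (0 : Vd 2) 1).ultrafilter_le_nhds _ h2
    have hq3 : Tendsto y 𝒰 (𝓝 q) := hq2
    exact ⟨q, tendsto_nhds_unique hq3.norm (by simp [hy]), hq3⟩
  obtain ⟨b₀, l, Φ, hl, hb, hΦ, hd, hlim⟩ := S.FF_limit 𝒰 (fun n => b n + w n) (fun n z => Ψ n (w n + z)) (fun n => S.FF_trans (h n) (w n))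
  obtain ⟨b₀', l', Φ', hl', hb', hΦ', hd', hlim'⟩ := S.FF_limit 𝒰 (fun n => b n + w n) (fun n z => Ψ' n (w n + z)) (fun n => S.FF_trans (h' n) (w n))
  -- the same base point
  have hΛ : b₀ - b₀' ∈ S.Λ := by
    refine S.lat_limit (𝒰 := 𝒰) (l := fun n => l' n - l n) (fun n => S.Λ.sub_mem (hl' n) (hl n)) ?_
    refine (hb.sub hb').congr fun n => ?_
    abel
  have hΦ'' : Φ' ∈ S.FF b₀ := by
    have h1 := S.FF_lat b₀' hΛ
    rw [add_sub_cancel] at h1
    rw [h1]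
    exact hΦ'
  have hpt : ∀ {Υ : ℕ → Vd 2 → MN N} {Θ : Vd 2 → MN N}, (∀ R ε : ℝ, 0 < ε → ∀ᶠ n in (𝒰 : Filter ℕ), ∀ z, ‖z‖ ≤ R → dist (Υ n (w n + z)) (Θ z) ≤ ε) →
      Tendsto (fun n => Υ n (w n)) 𝒰 (𝓝 (Θ 0)) := by
    intro Υ Θ hΥ
    rw [Metric.tendsto_nhds]
    intro ε hε
    filter_upwards [hΥ 0 (ε / 2) (by positivity)] with n hn
    have h1 := hn 0 (by simp)
    rw [add_zero] at h1
    linarith
  have hp := hpt hd
  have hp' := hpt hd'
  have h00 : Φ 0 = Φ' 0 := tendsto_nhds_unique hp (hp'.congr fun n => (hw n).symm)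
  have hgood : S.GoodM i₀ (Φ 0) := by
    refine goodM_limit ?_ hp
    filter_upwards [hi₁] with n hn
    rw [← hn]
    exact hi n
  refine ⟨b₀, Φ, Φ', i₀, y₀, hΦ, hΦ'', h00, hgood, hy₀, ?_⟩
  obtain ⟨r, hr, han, hun⟩ := hlim 0 i₀ hgood
  obtain ⟨r', hr', han', hun'⟩ := hlim' 0 i₀ (h00 ▸ hgood)
  set ρ := min r r' with hρ
  have hρ0 : 0 < ρ := lt_min hr hr'
  have hsub : ball (0 : Vd 2) ρ ⊆ ball (0 : Vd 2) r := ball_subset_ball (min_le_left _ _)
  have hsub' : ball (0 : Vd 2) ρ ⊆ ball (0 : Vd 2) r' := ball_subset_ball (min_le_right _ _)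
  -- the three vectors
  have hjet : Tendsto (fun n => S.jet i₀ (Ψ n) (Ψ' n) (y n) m (w n)) 𝒰 (𝓝 (S.jet i₀ Φ Φ' y₀ m 0)) := by
    have h1 := NoXE_jet (f := fun n z => S.qm i₀ (Ψ' n (w n + z)) - S.qm i₀ (Ψ n (w n + z))) (g := fun z => S.qm i₀ (Φ' z) - S.qm i₀ (Φ z)) hρ0
      ((hun'.mono hsub').sub (hun.mono hsub)) (by
        filter_upwards [han, han'] with n hn hn' z hz
        exact (hn' z (hsub' hz)).sub (hn z (hsub hz))) hy hy₁ m
    unfold jet
    simp only [zero_add]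
    exact h1
  have hder : ∀ v : Vd 2, ‖v‖ = 1 → Tendsto (fun n => fderiv ℂ (fun z => S.qm i₀ (Ψ n z)) (w n) v) 𝒰 (𝓝 (fderiv ℂ (fun z => S.qm i₀ (Φ z)) 0 v)) := by
    intro v hv
    have h1 := NoXE_jet (f := fun n z => S.qm i₀ (Ψ n (w n + z))) (g := fun z => S.qm i₀ (Φ z)) hρ0 (hun.mono hsub) (by
        filter_upwards [han] with n hn z hz
        exact hn z (hsub hz)) (y := fun _ => v) (y₀ := v) (fun _ => hv) tendsto_const_nhds 1
    simp only [iteratedDeriv_one] at h1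
    have h2 : deriv (fun t : ℂ => S.qm i₀ (Φ (t • v))) 0 = fderiv ℂ (fun z => S.qm i₀ (Φ z)) 0 v := by
      have h3 := NoXC.deriv_dir (f := fun z => S.qm i₀ (Φ z)) (w := (0 : Vd 2)) (y := v) (t := 0) (by
        rw [zero_smul, add_zero]
        exact (S.FF_an hΦ hgood).1.differentiableAt)
      simp only [zero_add, zero_smul] at h3
      exact h3
    rw [h2] at h1
    refine h1.congr' ?_
    filter_upwards [han] with n hn
    have h3 := hn 0 (mem_ball_self hr)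
    have h5 : DifferentiableAt ℂ (fun z => S.qm i₀ (Ψ n z)) (w n) := by
      have h6 : (fun z => S.qm i₀ (Ψ n z)) = (fun z => S.qm i₀ (Ψ n (w n + z))) ∘ fun z => z - w n := by
        funext z
        simp
      rw [h6]
      refine DifferentiableAt.comp (w n) ?_ (by fun_prop)
      rw [sub_self]
      exact h3.differentiableAt
    have h4 := NoXC.deriv_dir (f := fun z => S.qm i₀ (Ψ n z)) (w := w n) (y := v) (t := 0) (by
      rw [zero_smul, add_zero]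
      exact h5)
    rw [zero_smul, add_zero] at h4
    exact h4
  have htri : ∀ a c, Tendsto (fun n => S.tri i₀ (Ψ n) (Ψ' n) (y n) m (w n) a c) 𝒰 (𝓝 (S.tri i₀ Φ Φ' y₀ m 0 a c)) := by
    intro a c
    fin_cases a
    · exact (tendsto_pi_nhds.1 hjet) c
    · exact (tendsto_pi_nhds.1 (hder (Pi.single 0 1) (NoXE_single 0))) c
    · exact (tendsto_pi_nhds.1 (hder (Pi.single 1 1) (NoXE_single 1))) c
  have hcc : Tendsto (fun n => S.cc i₀ (Ψ n) (Ψ' n) (y n) m (w n)) 𝒰 (𝓝 (S.cc i₀ Φ Φ' y₀ m 0)) := by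
    unfold cc
    simp only [Matrix.det_fin_three, Matrix.of_apply]
    exact (((((((htri 0 0).mul (htri 1 1)).mul (htri 2 2)).sub (((htri 0 0).mul (htri 1 2)).mul (htri 2 1))).sub
      (((htri 0 1).mul (htri 1 0)).mul (htri 2 2))).add (((htri 0 1).mul (htri 1 2)).mul (htri 2 0))).add
      (((htri 0 2).mul (htri 1 0)).mul (htri 2 1))).sub (((htri 0 2).mul (htri 1 1)).mul (htri 2 0))
  have hqm : Tendsto (fun n => S.qm i₀ (Ψ n (w n))) 𝒰 (𝓝 (S.qm i₀ (Φ 0))) := by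
    have h1 := hun.tendsto_at (mem_ball_self hr)
    simpa using h1
  have hkk : Tendsto (fun n => S.kk i₀ (S.qm i₀ (Ψ n (w n)))) 𝒰 (𝓝 (S.kk i₀ (S.qm i₀ (Φ 0)))) :=
    (S.kk_cont i₀ (qm_trans hgood.inM hgood.inM).1).tendsto.comp hqm
  have hfin : Tendsto (fun n => S.nn i₀ (Ψ n) (Ψ' n) (y n) m (w n)) 𝒰 (𝓝 (S.nn i₀ Φ Φ' y₀ m 0)) := by
    unfold nn
    exact hkk.mul (hcc.norm.pow _)
  refine hfin.congr' ?_
  filter_upwards [hi₁] with n hn
  rw [hn]

end Setting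

end Pool.Agent.TH
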