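import Pool.Agent.TH.FFa
import Pool.Agent.TH.KK
import Pool.Agent.H36.BP.MaxP
import Pool.Agent.TH.NoXE

/-!
# TH NoX: two maps of `ℂ²` do not cross  (block E, helper14; split it as you like)

Suppose `Ψ, Ψ' ∈ FF b`, `Ψ w = Ψ' w`, `Ψ ≠ Ψ'`.  After a translation `w = 0`.  Let `𝒦` be the set of all these pairs (all `b`) with `Ψ 0 = Ψ' 0`; it is closed under translations by points of
`{w : Ψ w = Ψ' w}`.

1. CONTACT.  For `(Ψ, Ψ') ∈ 𝒦`, `i` with `GoodM i (Ψ 0)`, `y ∈ ℂ²`: `δ t = qm i (Ψ' (t y)) - qm i (Ψ (t y))` is analytic at `0`, `δ 0 = 0`.  The order of vanishing does not depend on `i` (the change of charts is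
   a local diffeomorphism).  Some order is finite (otherwise `Ψ = Ψ'` near `0`, so everywhere).  Let `m₀ ≥ 1` be the minimal order over all pairs and all `y`.  So for all pairs and `y`: `δ t = t^m₀ (P + O(t))`,
   `P = P_i(Ψ, Ψ', y) = δ^{(m₀)}(0) / m₀!`, in another chart `P_j = T i j P_i`.  `dβ P = 0` (Taylor in `β (qm (Ψ' (t y))) = β (qm (Ψ (t y)))`).
2. LENGTH.  `𝒩(Ψ, Ψ', y) = kk i (p) * ‖det (P, ∂₀, ∂₁)‖ ^ m`, `p = qm i (Ψ 0)`, `∂_l` = derivative of `t ↦ qm i (Ψ (t e_l))` at `0`; it does not depend on `i` (`kk_trans`, `det (M a, M b, M c) = det M det (a, b, c)`).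
   `dβ ∂_l = e_l`, so `det ≠ 0` iff `P ≠ 0`.
3. MAXIMUM.  `𝒩` has a maximum on `𝒦 × {‖y‖ = 1}`, and it is positive: take a maximizing sequence, `FF_limit` (for both; the same `l n`), limits `Φ, Φ'` over the same `b₀`, `Φ 0 = Φ' 0`, `y n → y`; the functions of `t` converge
   uniformly near `0` (chart `i` good at `Φ 0`), so `P` and `∂_l` converge, `𝒩 → 𝒩(Φ, Φ', y) > 0`; `P ≠ 0`, so `Φ ≠ Φ'`: the pair is in `𝒦`.
4. THE ZERO SET IS A SMOOTH CURVE.  At the maximum `(Ψ, Ψ', y)`: `P ≠ 0`, choose `l` with `P l ≠ 0`; `ker dβ = ℂ P`, so `(dβ, dp_l)` is invertible at `p` and for `w` near `0`: `Ψ w = Ψ' w` iff `h w = 0`, where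
   `h w = (qm i (Ψ' w) - qm i (Ψ w)) l`, analytic near `0` in `ℂ²`.  Let `y'` be independent of `y`.  `g (s, t) = h (s y' + t y)`: `∂_t^j g (0, 0) = 0` for `j < m₀`, `∂_t^m₀ g (0, 0) ≠ 0`.  By Hurwitz there is for small
   `s` a zero `t(s)` of `g (s, ·)` near `0`.  At this point `w_s = s y' + t(s) y` the translated pair is in `𝒦`, so `∂_t^j g (s, t(s)) = 0` for all `j < m₀`; the equation `∂_t^{m₀-1} g (s, t) = 0` has a unique solution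
   near `0`, analytic in `s` (implicit function theorem): so `t(s)` is analytic, `γ s = s y' + t(s) y`, `γ' 0 ≠ 0`, `Ψ (γ s) = Ψ' (γ s)`.
5. CONTRADICTION.  `s ↦ 𝒩` of the pair translated by `γ s`, direction `y`, is `kk i (p s) * ‖c s‖ ^ m` with `p s = qm i (Ψ (γ s))`, `c s = det (∂_t^m₀ (...) / m₀!, ∂₀, ∂₁)` analytic, `c 0 ≠ 0`; `p' 0 ≠ 0` because
   `β i (p s) = β i (p 0) + γ s`.  `kk_sub` and `Sub.not_isLocalMax`: it has no local maximum at `0`.  (`‖p 0‖ ≤ 1/2`: `GoodM i (Ψ 0)`; 2. gives that the value with another chart is the same.)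
-/

set_option autoImplicit false

open Topology Filter Metric

namespace Pool.Agent.TH

open Pool.Agent.H36.BP (EN fs wd Sub)
open Pool.Agent.H14.PP (IsCone CurveAt Tan)
open Pool.Agent.H62.EF (MN pr)
open Pool.Agent.H5.BD (BC evp)
open Pool.Agent.AD (Vd Chart Charts TorusMapV DiscreteSub)
open Pool.Agent.AD.BD (Atlas LC Good qc)

variable {N : ℕ} {X : Set (EN N)}

theorem Setting.no_cross (S : Setting X) {b : Vd 2} {Ψ Ψ' : Vd 2 → MN N} (h : Ψ ∈ S.FF b) (h' : Ψ' ∈ S.FF b) {w : Vd 2} (hw : Ψ w = Ψ' w) : Ψ = Ψ' := by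
  classical
  by_contra hne
  -- the minimal order of contact
  have hex : ∃ m : ℕ, ∃ (b : Vd 2) (Ψ Ψ' : Vd 2 → MN N) (w : Vd 2) (i : Fin S.A.n) (y : Vd 2),
      Ψ ∈ S.FF b ∧ Ψ' ∈ S.FF b ∧ Ψ w = Ψ' w ∧ S.GoodM i (Ψ w) ∧ ‖y‖ = 1 ∧ S.jet i Ψ Ψ' y m w ≠ 0 := by
    obtain ⟨i, y, m, hi, hy, hm⟩ := Setting.exists_jet h h' hw hne
    exact ⟨m, b, Ψ, Ψ', w, i, y, h, h', hw, hi, hy, hm⟩
  set m := Nat.find hex with hmdef
  have hlow : ∀ (b : Vd 2) (Ψ Ψ' : Vd 2 → MN N) (w : Vd 2) (i : Fin S.A.n) (y : Vd 2), Ψ ∈ S.FF b → Ψ' ∈ S.FF b → Ψ w = Ψ' w → S.GoodM i (Ψ w) → ‖y‖ = 1 →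
      ∀ j < m, S.jet i Ψ Ψ' y j w = 0 := by
    intro b Ψ Ψ' w i y h h' hw hi hy j hj
    by_contra hcon
    exact Nat.find_min hex hj ⟨b, Ψ, Ψ', w, i, y, h, h', hw, hi, hy, hcon⟩
  obtain ⟨b₁, Ψ₁, Ψ₁', w₁, i₁, y₁, h₁, h₁', hw₁, hi₁, hy₁, hj₁⟩ := Nat.find_spec hex
  have hm1 : 1 ≤ m := by
    rcases Nat.eq_zero_or_pos m with h0 | h0
    · exfalso
      apply hj₁
      rw [← hmdef, h0]
      unfold Setting.jet
      rw [iteratedDeriv_zero, zero_smul, add_zero, hw₁, sub_self]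
    · exact h0
  -- the values of the length
  set V : Set ℝ := {r | ∃ (b : Vd 2) (Ψ Ψ' : Vd 2 → MN N) (w : Vd 2) (i : Fin S.A.n) (y : Vd 2),
    Ψ ∈ S.FF b ∧ Ψ' ∈ S.FF b ∧ Ψ w = Ψ' w ∧ S.GoodM i (Ψ w) ∧ ‖y‖ = 1 ∧ S.nn i Ψ Ψ' y m w = r} with hV
  have hpos : 0 < S.nn i₁ Ψ₁ Ψ₁' y₁ m w₁ := by
    have h1 : S.cc i₁ Ψ₁ Ψ₁' y₁ m w₁ ≠ 0 := Setting.cc_ne h₁ h₁' hw₁ hi₁ (hlow b₁ Ψ₁ Ψ₁' w₁ i₁ y₁ h₁ h₁' hw₁ hi₁ hy₁) hj₁
    have h2 := S.kk_pos i₁ (Setting.qm_trans hi₁.inM hi₁.inM).1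
    unfold Setting.nn
    have h3 : 0 < ‖S.cc i₁ Ψ₁ Ψ₁' y₁ m w₁‖ := norm_pos_iff.2 h1
    positivity
  have hmem₁ : S.nn i₁ Ψ₁ Ψ₁' y₁ m w₁ ∈ V := ⟨b₁, Ψ₁, Ψ₁', w₁, i₁, y₁, h₁, h₁', hw₁, hi₁, hy₁, rfl⟩
  -- limits of values
  have hlimit : ∀ u : ℕ → ℝ, (∀ n, u n ∈ V) → ∃ (b : Vd 2) (Ψ Ψ' : Vd 2 → MN N) (w : Vd 2) (i : Fin S.A.n) (y : Vd 2),
      Ψ ∈ S.FF b ∧ Ψ' ∈ S.FF b ∧ Ψ w = Ψ' w ∧ S.GoodM i (Ψ w) ∧ ‖y‖ = 1 ∧ Tendsto u (hyperfilter ℕ : Filter ℕ) (𝓝 (S.nn i Ψ Ψ' y m w)) := by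
    intro u hu
    choose b Ψ Ψ' w i y a1 a2 a3 a4 a5 a6 using hu
    obtain ⟨b₀, Φ, Φ', i₀, y₀, e1, e2, e3, e4, e5, e6⟩ := S.nn_limit (hyperfilter ℕ) a1 a2 a3 a4 a5 m
    refine ⟨b₀, Φ, Φ', 0, i₀, y₀, e1, e2, e3, e4, e5, e6.congr fun n => a6 n⟩
  have hbdd : BddAbove V := by
    by_contra hcon
    rw [not_bddAbove_iff] at hcon
    choose u hu hu' using fun n : ℕ => hcon n
    obtain ⟨b₀, Φ, Φ', w₀, i₀, y₀, -, -, -, -, -, e6⟩ := hlimit u hu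
    have h1 : Tendsto u (hyperfilter ℕ : Filter ℕ) atTop := by
      refine tendsto_atTop_mono (fun n => (hu' n).le) ?_
      exact tendsto_natCast_atTop_atTop.mono_left (Nat.hyperfilter_le_atTop)
    exact not_tendsto_nhds_of_tendsto_atTop h1 _ e6
  obtain ⟨u, -, hu2, hu3⟩ := exists_seq_tendsto_sSup ⟨_, hmem₁⟩ hbdd
  obtain ⟨b₀, Φ, Φ', w₀, i₀, y₀, e1, e2, e3, e4, e5, e6⟩ := hlimit u hu3
  have hsup : S.nn i₀ Φ Φ' y₀ m w₀ = sSup V := tendsto_nhds_unique e6 (hu2.mono_left Nat.hyperfilter_le_atTop)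
  have hge : ∀ r ∈ V, r ≤ S.nn i₀ Φ Φ' y₀ m w₀ := fun r hr => by
    rw [hsup]
    exact le_csSup hbdd hr
  have hpos₀ : 0 < S.nn i₀ Φ Φ' y₀ m w₀ := hpos.trans_le (hge _ hmem₁)
  have hc : S.cc i₀ Φ Φ' y₀ m w₀ ≠ 0 := by
    intro h0
    unfold Setting.nn at hpos₀
    rw [h0, norm_zero, zero_pow (Nat.one_le_iff_ne_zero.1 S.m_pos), mul_zero] at hpos₀
    exact lt_irrefl _ hpos₀
  -- charts at the neighbouring points
  have hnear := (Setting.FF_inM e1 e4.inM).2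
  have hchart : ∀ᶠ z in 𝓝 w₀, Φ z = Φ' z → (∀ j < m, S.jet i₀ Φ Φ' y₀ j z = 0) ∧ S.nn i₀ Φ Φ' y₀ m z ≤ S.nn i₀ Φ Φ' y₀ m w₀ := by
    filter_upwards [hnear] with z hz hzeq
    obtain ⟨k, hk⟩ := Setting.exists_goodM e1 z
    have h1 := hlow b₀ Φ Φ' z k y₀ e1 e2 hzeq hk e5
    obtain ⟨h2, -, h3⟩ := Setting.nn_trans e1 e2 hzeq hk.inM hz h1
    refine ⟨h2, ?_⟩
    rw [← h3]
    exact hge _ ⟨b₀, Φ, Φ', z, k, y₀, e1, e2, hzeq, hk, e5, rfl⟩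
  refine Setting.no_max e1 e2 e3 e4 hm1 ?_ hc ?_
  · filter_upwards [hchart] with z hz hzeq
    exact (hz hzeq).1
  · filter_upwards [hchart] with z hz hzeq
    exact (hz hzeq).2

end Pool.Agent.TH
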