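import Pool.Agent.H62.BU.Inv

/-!
# TH NoXB: the zero curve of a function of two variables

`exists_zero_curve`: if `g (0, ·)` has a zero of order exactly `m ≥ 1` at `0` and at every zero `(s, t)` of `g` near `0` the function `g (s, ·)` has a zero of order at least `m`, then the zero set of `g`
near `0` contains (and is) the graph of an analytic function `τ`.
-/

set_option autoImplicit false

open Topology Filter Metric

namespace Pool.Agent.TH.NoXB

/-- the derivative in the second variable -/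
noncomputable def dt (g : ℂ × ℂ → ℂ) (x : ℂ × ℂ) : ℂ := fderiv ℂ g x (0, 1)

theorem analyticAt_dt {g : ℂ × ℂ → ℂ} {x : ℂ × ℂ} (hg : AnalyticAt ℂ g x) : AnalyticAt ℂ (dt g) x :=
  ((ContinuousLinearMap.apply ℂ ℂ ((0, 1) : ℂ × ℂ)).analyticAt (fderiv ℂ g x)).comp hg.fderiv

theorem analyticAt_iter {g : ℂ × ℂ → ℂ} {x : ℂ × ℂ} (hg : AnalyticAt ℂ g x) (j : ℕ) : AnalyticAt ℂ (dt^[j] g) x := by
  induction j with
  | zero => simpa using hg
  | succ j ih =>
    rw [Function.iterate_succ_apply']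
    exact analyticAt_dt ih

theorem deriv_snd {g : ℂ × ℂ → ℂ} {x : ℂ × ℂ} (hg : AnalyticAt ℂ g x) : deriv (fun t => g (x.1, t)) x.2 = dt g x := by
  have h1 : HasDerivAt (fun t : ℂ => ((x.1, t) : ℂ × ℂ)) (0, 1) x.2 := (hasDerivAt_const x.2 x.1).prodMk (hasDerivAt_id x.2)
  have h2 : HasFDerivAt g (fderiv ℂ g x) ((fun t : ℂ => ((x.1, t) : ℂ × ℂ)) x.2) := hg.differentiableAt.hasFDerivAt
  exact (h2.comp_hasDerivAt x.2 h1).deriv

theorem iteratedDeriv_snd {g : ℂ × ℂ → ℂ} {x₀ : ℂ × ℂ} (hg : AnalyticAt ℂ g x₀) (j : ℕ) :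
    ∀ᶠ x in 𝓝 x₀, iteratedDeriv j (fun t => g (x.1, t)) x.2 = (dt^[j] g) x := by
  induction j generalizing g with
  | zero => simp
  | succ j ih =>
    filter_upwards [ih (analyticAt_dt hg), hg.eventually_analyticAt.eventually_nhds] with x hx hx2
    rw [iteratedDeriv_succ', Function.iterate_succ_apply, ← hx]
    refine Filter.EventuallyEq.iteratedDeriv_eq j ?_
    have h3 : Tendsto (fun t : ℂ => ((x.1, t) : ℂ × ℂ)) (𝓝 x.2) (𝓝 x) := by
      have : Continuous fun t : ℂ => ((x.1, t) : ℂ × ℂ) := by fun_prop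
      exact this.tendsto x.2
    filter_upwards [h3.eventually hx2] with t ht
    exact deriv_snd ht

theorem exists_zero_curve {g : ℂ × ℂ → ℂ} (hg : AnalyticAt ℂ g 0) {m : ℕ} (hm : 1 ≤ m)
    (h0 : ∀ j < m, iteratedDeriv j (fun t => g (0, t)) 0 = 0) (h1 : iteratedDeriv m (fun t => g (0, t)) 0 ≠ 0)
    (h2 : ∀ᶠ x : ℂ × ℂ in 𝓝 0, g x = 0 → ∀ j < m, iteratedDeriv j (fun t => g (x.1, t)) x.2 = 0) :
    ∃ τ : ℂ → ℂ, AnalyticAt ℂ τ 0 ∧ τ 0 = 0 ∧ ∀ᶠ s in 𝓝 (0 : ℂ), g (s, τ s) = 0 := by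
  set k : ℂ × ℂ → ℂ := dt^[m - 1] g with hk
  have hkan : AnalyticAt ℂ k 0 := analyticAt_iter hg (m - 1)
  have hk0 : k 0 = 0 := by
    rw [hk, ← (iteratedDeriv_snd hg (m - 1)).self_of_nhds]
    exact h0 (m - 1) (by omega)
  have hkt : dt k 0 ≠ 0 := by
    have : dt k = dt^[m] g := by
      rw [hk, ← Function.iterate_succ_apply' dt (m - 1) g]
      congr 1
      rw [Nat.succ_eq_add_one, Nat.sub_add_cancel hm]
    rw [this, ← (iteratedDeriv_snd hg m).self_of_nhds]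
    exact h1
  have hg0 : g 0 = 0 := by
    have := h0 0 (by omega)
    rw [iteratedDeriv_zero] at this
    exact this
  -- the inverse
  set Θ : ℂ × ℂ → ℂ × ℂ := fun x => (x.1, k x) with hΘ
  have hΘan : AnalyticAt ℂ Θ 0 := analyticAt_fst.prod hkan
  have hΘ0 : Θ 0 = 0 := by
    simp [hΘ, hk0]
  have hΘd : ∀ v, fderiv ℂ Θ 0 v = 0 → v = 0 := by
    intro v hv
    have h3 : HasFDerivAt Θ ((ContinuousLinearMap.fst ℂ ℂ ℂ).prod (fderiv ℂ k 0)) 0 :=
      hasFDerivAt_fst.prodMk hkan.differentiableAt.hasFDerivAt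
    rw [h3.fderiv] at hv
    have h4 : v.1 = 0 := congrArg Prod.fst hv
    have h5 : fderiv ℂ k 0 v = 0 := congrArg Prod.snd hv
    have h6 : v = v.2 • ((0, 1) : ℂ × ℂ) := by
      ext
      · simp [h4]
      · simp
    rw [h6, map_smul, smul_eq_mul, mul_eq_zero] at h5
    rcases h5 with h5 | h5
    · rw [h6, h5, zero_smul]
    · exact absurd h5 hkt
  obtain ⟨ψ, hψ, hψ1, hψ2, hψ3⟩ := Pool.Agent.H62.BU.local_inverse hΘan hΘd
  rw [hΘ0] at hψ hψ2 hψ3
  have hins : AnalyticAt ℂ (fun s : ℂ => ((s, 0) : ℂ × ℂ)) 0 := analyticAt_id.prod analyticAt_const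
  refine ⟨fun s => (ψ (s, 0)).2, ?_, ?_, ?_⟩
  · have h3 : AnalyticAt ℂ (fun s : ℂ => ψ (s, 0)) 0 := AnalyticAt.fun_comp (g := ψ) (f := fun s : ℂ => ((s, 0) : ℂ × ℂ)) hψ hins
    exact analyticAt_snd.comp h3
  · show (ψ (0, 0)).2 = 0
    have : ψ (0, 0) = 0 := hψ3
    rw [this]
    rfl
  -- the radius
  have hev : ∀ᶠ x : ℂ × ℂ in 𝓝 0, AnalyticAt ℂ g x ∧ (g x = 0 → ∀ j < m, iteratedDeriv j (fun t => g (x.1, t)) x.2 = 0) ∧ ψ (Θ x) = x ∧
      iteratedDeriv (m - 1) (fun t => g (x.1, t)) x.2 = k x :=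
    hg.eventually_analyticAt.and (h2.and (hψ1.and (iteratedDeriv_snd hg (m - 1))))
  obtain ⟨ρ', hρ', hball⟩ := Metric.eventually_nhds_iff_ball.1 hev
  have hgt : AnalyticAt ℂ (fun t : ℂ => g (0, t)) 0 := by
    have h3 : AnalyticAt ℂ (fun t : ℂ => ((0, t) : ℂ × ℂ)) 0 := analyticAt_const.prod analyticAt_id
    exact AnalyticAt.fun_comp (g := g) (f := fun t : ℂ => ((0, t) : ℂ × ℂ)) hg h3
  have hne : ∀ᶠ t in 𝓝[≠] (0 : ℂ), g (0, t) ≠ 0 := by
    rcases hgt.eventually_eq_zero_or_eventually_ne_zero with h3 | h3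
    · exfalso
      apply h1
      have h4 : (fun t : ℂ => g (0, t)) =ᶠ[𝓝 0] fun _ => 0 := h3
      rw [h4.iteratedDeriv_eq m]
      simp
    · exact h3
  obtain ⟨ρ₁, hρ₁, hne'⟩ := Metric.eventually_nhds_iff_ball.1 (eventually_nhdsWithin_iff.1 hne)
  set ρ : ℝ := min ρ' ρ₁ / 2 with hρdef
  have hρ : 0 < ρ := by positivity
  have hρρ' : ρ < ρ' := by
    have := min_le_left ρ' ρ₁
    have : min ρ' ρ₁ / 2 < ρ' := by
      have h3 : 0 < min ρ' ρ₁ := lt_min hρ' hρ₁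
      linarith
    exact this
  have hρρ₁ : ρ < ρ₁ := by
    have := min_le_right ρ' ρ₁
    have : min ρ' ρ₁ / 2 < ρ₁ := by
      have h3 : 0 < min ρ' ρ₁ := lt_min hρ' hρ₁
      linarith
    exact this
  have hcl : closedBall (0 : ℂ × ℂ) ρ ⊆ ball (0 : ℂ × ℂ) ρ' := closedBall_subset_ball hρρ'
  have hmemK : ∀ s t : ℂ, ‖s‖ ≤ ρ → ‖t‖ ≤ ρ → ((s, t) : ℂ × ℂ) ∈ closedBall (0 : ℂ × ℂ) ρ := by
    intro s t hs ht
    rw [mem_closedBall_zero_iff, Prod.norm_mk]
    exact max_le hs ht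
  -- the minimum on the circle
  have hcont0 : ContinuousOn (fun t : ℂ => ‖g (0, t)‖) (sphere (0 : ℂ) ρ) := by
    intro t ht
    rw [mem_sphere_zero_iff_norm] at ht
    have h3 := (hball _ (hcl (hmemK 0 t (by simpa using hρ.le) ht.le))).1
    have h4 : ContinuousAt (fun t : ℂ => ((0, t) : ℂ × ℂ)) t := by fun_prop
    have h5 : ContinuousAt (fun t : ℂ => g (0, t)) t := ContinuousAt.comp (g := g) (f := fun t : ℂ => ((0, t) : ℂ × ℂ)) h3.continuousAt h4
    exact h5.norm.continuousWithinAt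
  obtain ⟨t₁, ht₁, hmin⟩ := (isCompact_sphere (0 : ℂ) ρ).exists_isMinOn (NormedSpace.sphere_nonempty.2 hρ.le) hcont0
  set c : ℝ := ‖g (0, t₁)‖ with hc
  have hcpos : 0 < c := by
    rw [hc, norm_pos_iff]
    rw [mem_sphere_zero_iff_norm] at ht₁
    refine hne' t₁ ?_ ?_
    · rw [mem_ball_zero_iff, ht₁]
      exact hρρ₁
    · intro h3
      have h4 : t₁ = 0 := h3
      rw [h4, norm_zero] at ht₁
      exact hρ.ne ht₁
  -- uniform continuity
  have huc : UniformContinuousOn g (closedBall (0 : ℂ × ℂ) ρ) := by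
    refine (isCompact_closedBall (0 : ℂ × ℂ) ρ).uniformContinuousOn_of_continuous ?_
    intro x hx
    exact (hball x (hcl hx)).1.continuousAt.continuousWithinAt
  obtain ⟨δ, hδ, huc'⟩ := Metric.uniformContinuousOn_iff.1 huc (c / 3) (by positivity)
  have hclose : ∀ s : ℂ, ‖s‖ < min δ ρ → ∀ t : ℂ, ‖t‖ ≤ ρ → ‖g (s, t) - g (0, t)‖ < c / 3 := by
    intro s hs t ht
    have h3 := huc' (s, t) (hmemK s t (hs.le.trans (min_le_right _ _)) ht) (0, t) (hmemK 0 t (by simpa using hρ.le) ht) (by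
      rw [Prod.dist_eq]
      simp only [dist_self, dist_zero_right]
      exact max_lt (hs.trans_le (min_le_left _ _)) hδ)
    rwa [dist_eq_norm] at h3
  have hfin : ∀ᶠ s in 𝓝 (0 : ℂ), ‖s‖ < min δ ρ := by
    have := Metric.ball_mem_nhds (0 : ℂ) (lt_min hδ hρ)
    filter_upwards [this] with s hs
    rwa [mem_ball_zero_iff] at hs
  filter_upwards [hfin] with s hs
  have hsρ : ‖s‖ ≤ ρ := hs.le.trans (min_le_right _ _)
  -- a zero of `g (s, ·)`
  have hzero : ∃ t : ℂ, ‖t‖ ≤ ρ ∧ g (s, t) = 0 := by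
    by_contra hcon
    push Not at hcon
    have hd : DiffContOnCl ℂ (fun t : ℂ => (g (s, t))⁻¹) (ball (0 : ℂ) ρ) := by
      have hda : ∀ t : ℂ, ‖t‖ ≤ ρ → DifferentiableAt ℂ (fun t : ℂ => (g (s, t))⁻¹) t := by
        intro t ht
        have h3 := (hball _ (hcl (hmemK s t hsρ ht))).1
        have h4 : DifferentiableAt ℂ (fun t : ℂ => ((s, t) : ℂ × ℂ)) t := by fun_prop
        have h5 : DifferentiableAt ℂ (fun t : ℂ => g (s, t)) t := DifferentiableAt.comp (g := g) (f := fun t : ℂ => ((s, t) : ℂ × ℂ)) t h3.differentiableAt h4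
        exact h5.inv (hcon t ht)
      refine DifferentiableOn.diffContOnCl ?_
      intro t ht
      rw [closure_ball (0 : ℂ) hρ.ne', mem_closedBall_zero_iff] at ht
      exact (hda t ht).differentiableWithinAt
    have hb := Complex.norm_le_of_forall_mem_frontier_norm_le isBounded_ball hd (C := 3 / (2 * c)) (by
      intro t ht
      rw [frontier_ball (0 : ℂ) hρ.ne', mem_sphere_zero_iff_norm] at ht
      have h3 := hclose s hs t ht.le
      have h4 : c ≤ ‖g (0, t)‖ := hmin (by rw [mem_sphere_zero_iff_norm]; exact ht)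
      have h5 : 2 * c / 3 ≤ ‖g (s, t)‖ := by
        have h6 := norm_sub_norm_le (g (0, t)) (g (s, t))
        rw [norm_sub_rev] at h6
        linarith
      rw [norm_inv]
      calc ‖g (s, t)‖⁻¹ ≤ (2 * c / 3)⁻¹ := inv_anti₀ (by positivity) h5
        _ = 3 / (2 * c) := by
          rw [inv_div]) (z := 0) (subset_closure (mem_ball_self hρ))
    have h3 := hclose s hs 0 (by simpa using hρ.le)
    have h4 : ((0, 0) : ℂ × ℂ) = 0 := rfl
    rw [h4, hg0, sub_zero] at h3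
    have h5 : 0 < ‖g (s, 0)‖ := norm_pos_iff.2 (hcon 0 (by simpa using hρ.le))
    simp only [norm_inv] at hb
    have h6 : (c / 3)⁻¹ < ‖g (s, 0)‖⁻¹ := (inv_lt_inv₀ (by positivity) h5).2 h3
    have h7 : (c / 3)⁻¹ = 3 / c := by rw [inv_div]
    have h8 : 3 / (2 * c) ≤ 3 / c := by
      apply div_le_div_of_nonneg_left (by norm_num) hcpos
      linarith
    rw [h7] at h6
    linarith
  obtain ⟨t, ht, hgt0⟩ := hzero
  have h3 := hball _ (hcl (hmemK s t hsρ ht))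
  have h4 : k (s, t) = 0 := by
    rw [← h3.2.2.2]
    exact h3.2.1 hgt0 (m - 1) (by omega)
  have h5 : ψ (Θ (s, t)) = (s, t) := h3.2.2.1
  have h6 : Θ (s, t) = (s, 0) := by
    simp [hΘ, h4]
  rw [h6] at h5
  rw [h5]
  exact hgt0

end Pool.Agent.TH.NoXB
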