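import Pool.Agent.TH.Chr

/-!
# TH Order: the one-form along the curves

Write `θ F z₀ z = S.cov v i (S.q i (F z))`, `i = S.ix (F z₀)`, a holomorphic function of `z ∈ ball z₀ r₀` (`LC.good`), bounded by a constant `B` uniformly.

* `cov_trans`: `cov v i (q i x) l = ∑_k (T i j x)_{k l} cov v j (q j x) k` (from `T_beta`), so `cov = 0` does not depend on the chart.
* `hit_iso`: for `F ∈ G v b` the points `z` with `Hit v (F z)` are in `{z : b + z v - t ∈ Λ, t ∈ T}`, a closed discrete set (finite in every ball); so `θ` is not identically zero.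
* `exists_lower`: for every `s > 0`, `s ≤ r₀ / 2`, there is `c₂ > 0` with: for all `b`, `F ∈ G v b`, `z₀` there is `s' ∈ [s / 2, s]` with `c₂ ≤ ‖θ F z₀ z‖` for `‖z - z₀‖ = s'`.
  By contradiction and `exists_limit` (after `G_trans` `z₀ = 0`): the limit `H` has a circle without zeros of `θ` (finitely many zeros in the disc); uniform convergence on the circle.
  Care: `ix (F n 0)` is eventually constant `= j` along the ultrafilter, `Good (χ j) (H 0)`, but `j` need not be `ix (H 0)`: work in the chart `j`.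
* `exists_order`: the order of vanishing of `θ F z₀` at `z₀` is `≤ N₀`: Schwarz lemma on `ball z₀ (r₀ / 2)` (`‖θ z‖ ≤ B (‖z - z₀‖ / (r₀ / 2)) ^ k`) against `exists_lower` with `s = r₀ / 4`.
-/

set_option autoImplicit false

open Topology Filter Metric

namespace Pool.Agent.TH

open Pool.Agent.H36.BP (EN fs wd Sub)
open Pool.Agent.H14.PP (IsCone CurveAt Tan)
open Pool.Agent.H62.EF (MN pr)
open Pool.Agent.H5.BD (BC evp)
open Pool.Agent.AD (Vd Chart Charts TorusMapV DiscreteSub)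
open Pool.Agent.AD.BD (Atlas LC Good qc)

variable {N : ℕ} {X : Set (EN N)}

/-- linearity of the form -/
private theorem Order_om_sum (v : Vd 2) (f : Vd 3 →L[ℂ] Vd 2) (w : Vd 3) : om v (f w) = ∑ k, w k * om v (f (Pi.single k 1)) := by
  have h1 : w = ∑ k, w k • (Pi.single k (1 : ℂ) : Vd 3) := by
    ext j
    simp [Finset.sum_apply, Pi.single_apply]
  have h2 : f w = ∑ k, w k • f (Pi.single k 1) := by
    conv_lhs => rw [h1]
    simp
  rw [h2]
  unfold om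
  simp only [Finset.sum_apply, Pi.smul_apply, smul_eq_mul, Finset.mul_sum, ← Finset.sum_sub_distrib]
  refine Finset.sum_congr rfl fun k _ => ?_
  ring

/-- a sequence of indices is constant along an ultrafilter -/
private theorem Order_const {n : ℕ} (𝒰 : Ultrafilter ℕ) (i : ℕ → Fin n) : ∃ j, ∀ᶠ k in (𝒰 : Filter ℕ), i k = j := by
  obtain ⟨j, hj⟩ := Ultrafilter.eq_pure_of_finite (𝒰.map i)
  refine ⟨j, ?_⟩
  have h1 : ({j} : Set (Fin n)) ∈ 𝒰.map i := by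
    rw [hj]
    exact Set.mem_singleton j
  exact h1

/-- the good part of a chart is closed -/
private theorem Order_good_limit (hX : IsCone X) {χ : Chart 3 X} {𝒰 : Ultrafilter ℕ} {x : ℕ → EN N} {y : EN N} (hy : y ∈ X)
    (hx : ∀ᶠ n in (𝒰 : Filter ℕ), Good χ (x n)) (h : Tendsto (fun n => pr (x n)) 𝒰 (𝓝 (pr y))) : Good χ y := by
  have h1 : ∀ᶠ n in (𝒰 : Filter ℕ), χ.q (x n) ∈ closedBall (0 : Vd 3) (1 / 2) ∧ pr (χ.σ (χ.q (x n))) = pr (x n) := by
    filter_upwards [hx] with n hn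
    obtain ⟨-, c, hc, h2⟩ := χ.surj (x n) hn.1 hn.2.1
    refine ⟨by rw [mem_closedBall_zero_iff]; exact hn.2.2, ?_⟩
    conv_rhs => rw [h2, Pool.Agent.H62.EF.pr_smul _ hc]
  have h2 : ((𝒰.map fun n => χ.q (x n) : Ultrafilter (Vd 3)) : Filter (Vd 3)) ≤ 𝓟 (closedBall (0 : Vd 3) (1 / 2)) := by
    rw [Ultrafilter.coe_map, le_principal_iff, mem_map]
    filter_upwards [h1] with n hn
    exact hn.1
  obtain ⟨q, hq, hq2⟩ := (isCompact_closedBall (0 : Vd 3) (1 / 2)).ultrafilter_le_nhds _ h2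
  have hq3 : Tendsto (fun n => χ.q (x n)) 𝒰 (𝓝 q) := hq2
  rw [mem_closedBall_zero_iff] at hq
  have hqb : q ∈ ball (0 : Vd 3) 2 := by
    rw [mem_ball_zero_iff]
    linarith
  obtain ⟨hσX, hU, hq4⟩ := χ.σ_mem q hqb
  have hne : χ.σ q ≠ 0 := fun h0 => hX.zero_notMem (h0 ▸ hσX)
  have hy0 : y ≠ 0 := fun h0 => hX.zero_notMem (h0 ▸ hy)
  have h3 : Tendsto (fun n => pr (χ.σ (χ.q (x n)))) 𝒰 (𝓝 (pr (χ.σ q))) :=
    (Pool.Agent.H62.EF.continuousAt_pr hne).tendsto.comp ((χ.σ_an q hqb).continuousAt.tendsto.comp hq3)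
  have h4 : Tendsto (fun n => pr (x n)) 𝒰 (𝓝 (pr (χ.σ q))) := by
    refine h3.congr' ?_
    filter_upwards [h1] with n hn
    exact hn.2
  obtain ⟨c, hc, h5⟩ := (Pool.Agent.H62.EF.pr_eq_iff hy0 hne).1 (tendsto_nhds_unique h h4)
  refine ⟨hy, h5 ▸ χ.smul_U _ hU c hc, ?_⟩
  rw [h5, χ.q_smul _ hU c hc, hq4]
  exact hq

/-- an entire curve is nowhere constant on the zeros of a nontrivial holomorphic function: finitely many zeros in a compact set -/
private theorem Order_finite {f : ℂ → Prop} {K : Set ℂ} (hK : IsCompact K) (h : ∀ z ∈ K, ∀ᶠ w in 𝓝[≠] z, ¬ f w) : {z ∈ K | f z}.Finite := by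
  by_contra hinf
  obtain ⟨a, ha, hacc⟩ := Set.Infinite.exists_accPt_of_subset_isCompact hinf hK (Set.sep_subset _ _)
  rw [accPt_iff_frequently_nhdsNE] at hacc
  exact hacc ((h a ha).mono fun w hw hw2 => hw hw2.2)

/-- a radius which avoids a finite set -/
private theorem Order_radius {Z : Set ℂ} (hZ : Z.Finite) {a b : ℝ} (hab : a < b) : ∃ s ∈ Set.Icc a b, ∀ z ∈ Z, ‖z‖ ≠ s := by
  have h1 : ((fun z : ℂ => ‖z‖) '' Z).Finite := hZ.image _
  obtain ⟨s, hs, hs2⟩ := (Set.Icc_infinite hab).exists_notMem_finite h1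
  exact ⟨s, hs, fun z hz h => hs2 ⟨z, hz, h⟩⟩

namespace Setting

variable (S : Setting X)

theorem cov_trans (v : Vd 2) {x : EN N} (hx : x ∈ X) {i j : Fin S.A.n} (hi : x ∈ (S.A.χ i).U) (hj : x ∈ (S.A.χ j).U) (l : Fin 3) :
    S.cov v i (S.q i x) l = ∑ k, S.T i j x (Pi.single l 1) k * S.cov v j (S.q j x) k := by
  unfold cov
  rw [← S.T_beta hx hi hj (Pi.single l 1), Order_om_sum]

theorem hit_of_cov {v : Vd 2} {x : EN N} (hx : x ∈ X) {i : Fin S.A.n} (hi : x ∈ (S.A.χ i).U) : S.cov v i (S.q i x) = 0 ↔ S.Hit v x := by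
  have hj := (S.good_ix hx).2.1
  unfold Hit
  constructor
  · intro h
    funext l
    rw [S.cov_trans v hx hj hi l, h]
    simp
  · intro h
    funext l
    rw [S.cov_trans v hx hi hj l, h]
    simp

/-- the hits are isolated -/
theorem hit_iso {v : Vd 2} (hD : S.Dir v) {b : Vd 2} {F : ℂ → EN N} (hF : F ∈ S.G v b) (z₀ : ℂ) : ∀ᶠ z in 𝓝[≠] z₀, ¬ S.Hit v (F z) := by
  obtain ⟨T, hT⟩ := hD.hits
  obtain ⟨δ, hδ, hd⟩ := S.disc
  have hv : 0 < ‖v‖ := norm_pos_iff.2 hD.ne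
  have h1 : ∀ t ∈ T, ∀ᶠ z in 𝓝[≠] z₀, b + z • v - t ∉ S.Λ := by
    intro t _
    set r : ℝ := δ / (2 * ‖v‖) with hr
    have hr0 : 0 < r := by positivity
    have huniq : ∀ z ∈ ball z₀ r, ∀ w ∈ ball z₀ r, b + z • v - t ∈ S.Λ → b + w • v - t ∈ S.Λ → z = w := by
      intro z hz w hw h2 h3
      have h4 : (z - w) • v ∈ S.Λ := by
        have := S.Λ.sub_mem h2 h3
        have h5 : (b + z • v - t) - (b + w • v - t) = (z - w) • v := by
          rw [sub_smul]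
          abel
        rwa [h5] at this
      have h5 : ‖z - w‖ < 2 * r := by
        rw [← dist_eq_norm]
        have := dist_triangle_right z w z₀
        rw [mem_ball] at hz hw
        linarith
      have h6 : (z - w) • v = 0 := by
        refine hd _ h4 ?_
        rw [norm_smul]
        calc ‖z - w‖ * ‖v‖ < 2 * r * ‖v‖ := mul_lt_mul_of_pos_right h5 hv
          _ = δ := by rw [hr]; field_simp
      rcases smul_eq_zero.1 h6 with h7 | h7
      · exact sub_eq_zero.1 h7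
      · exact absurd h7 hD.ne
    by_cases hex : ∃ w ∈ ball z₀ r, w ≠ z₀ ∧ b + w • v - t ∈ S.Λ
    · obtain ⟨w, hw, hwz, hwΛ⟩ := hex
      have h2 : ∀ᶠ z in 𝓝[≠] z₀, z ∈ ball z₀ r ∧ z ≠ w := by
        refine mem_nhdsWithin_of_mem_nhds (inter_mem (ball_mem_nhds z₀ hr0) ?_)
        exact isOpen_ne.mem_nhds hwz.symm
      filter_upwards [h2] with z hz hzΛ
      exact hz.2 (huniq z hz.1 w hw hzΛ hwΛ)
    · have h2 : ∀ᶠ z in 𝓝[≠] z₀, z ∈ ball z₀ r := mem_nhdsWithin_of_mem_nhds (ball_mem_nhds z₀ hr0)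
      have h3 : ∀ᶠ z in 𝓝[≠] z₀, z ≠ z₀ := self_mem_nhdsWithin
      filter_upwards [h2, h3] with z hz hz2 hzΛ
      exact hex ⟨z, hz, hz2, hzΛ⟩
  have h2 : ∀ᶠ z in 𝓝[≠] z₀, ∀ t ∈ T, b + z • v - t ∉ S.Λ := (Filter.eventually_all_finset T).2 h1
  filter_upwards [h2] with z hz hhit
  obtain ⟨t, ht, htΛ⟩ := hT (F z) (hF.2.1 z) hhit
  refine hz t ht ?_
  have h3 := S.Λ.sub_mem htΛ (hF.2.2 z)
  have h4 : (S.u (F z) - t) - (S.u (F z) - (b + z • v)) = b + z • v - t := by abel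
  rwa [h4] at h3

/-- the form is holomorphic in the chart -/
theorem Order_cov_an (v : Vd 2) (i : Fin S.A.n) {p : Vd 3} (hp : p ∈ ball (0 : Vd 3) 2) : AnalyticAt ℂ (S.cov v i) p := by
  unfold cov
  rw [analyticAt_pi_iff]
  intro l
  have h1 : AnalyticAt ℂ (fun y => fderiv ℂ (S.β i) y (Pi.single l 1)) p :=
    AnalyticAt.comp (g := fun B : Vd 3 →L[ℂ] Vd 2 => B (Pi.single l 1)) (f := fderiv ℂ (S.β i))
      ((ContinuousLinearMap.apply ℂ (Vd 2) (Pi.single l 1 : Vd 3)).analyticAt _) (S.β_an i p hp).fderiv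
  have h2 := analyticAt_pi_iff.1 h1
  unfold om
  exact (analyticAt_const.mul (h2 1)).sub (analyticAt_const.mul (h2 0))

/-- the form is bounded -/
theorem Order_cov_bdd (v : Vd 2) : ∃ B : ℝ, 0 < B ∧ ∀ i p, ‖p‖ ≤ 1 / 2 → ‖S.cov v i p‖ ≤ B := by
  have h1 : ∀ i, ∃ B : ℝ, ∀ p ∈ closedBall (0 : Vd 3) (1 / 2), ‖S.cov v i p‖ ≤ B := fun i =>
    (isCompact_closedBall (0 : Vd 3) (1 / 2)).exists_bound_of_continuousOn fun p hp =>
      (S.Order_cov_an v i (by rw [mem_closedBall_zero_iff] at hp; rw [mem_ball_zero_iff]; linarith)).continuousAt.continuousWithinAt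
  choose B hB using h1
  refine ⟨1 + ∑ i, |B i|, by positivity, fun i p hp => (hB i p (by rwa [mem_closedBall_zero_iff])).trans ?_⟩
  have h2 : |B i| ≤ ∑ i, |B i| := Finset.single_le_sum (f := fun i => |B i|) (fun i _ => abs_nonneg _) (Finset.mem_univ i)
  linarith [le_abs_self (B i)]

theorem exists_lower {v : Vd 2} (hD : S.Dir v) {c L r₀ c₁ K : ℝ} (h : S.Dat v c L r₀ c₁ K) {s : ℝ} (hs : 0 < s) (hs' : s ≤ r₀ / 2) :
    ∃ c₂ : ℝ, 0 < c₂ ∧ ∀ b, ∀ F ∈ S.G v b, ∀ z₀, ∃ s' ∈ Set.Icc (s / 2) s, ∀ z, ‖z - z₀‖ = s' → c₂ ≤ ‖S.cov v (S.ix (F z₀)) (S.q (S.ix (F z₀)) (F z))‖ := by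
  by_contra hcon
  push Not at hcon
  have hn : ∀ n : ℕ, ∃ b, ∃ F ∈ S.G v b, ∃ z₀, ∀ s' ∈ Set.Icc (s / 2) s, ∃ z, ‖z - z₀‖ = s' ∧
      ‖S.cov v (S.ix (F z₀)) (S.q (S.ix (F z₀)) (F z))‖ < 1 / ((n : ℝ) + 1) := fun n => hcon _ (by positivity)
  choose b F hF z₀ hz using hn
  set G : ℕ → ℂ → EN N := fun n z => F n (z + z₀ n) with hG
  have hGm : ∀ n, G n ∈ S.G v (b n + z₀ n • v) := fun n => S.G_trans (hF n) (z₀ n)
  have hr₀ := h.lc.r₀_pos
  obtain ⟨b₀, l, H, -, -, hH, hconv⟩ := S.exists_limit hD.ne (hyperfilter ℕ) _ G (Eventually.of_forall hGm)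
  obtain ⟨j, hj⟩ := Order_const (hyperfilter ℕ) fun n => S.ix (G n 0)
  -- the points of the disc are in the chart `j`
  have hgG : ∀ᶠ n in (hyperfilter ℕ : Filter ℕ), ∀ z ∈ ball (0 : ℂ) r₀, Good (S.A.χ j) (G n z) := by
    filter_upwards [hj] with n hn z hzb
    rw [← hn]
    exact h.lc.good (G n) (h.sub _ (hGm n)) (G n 0) ((hGm n).2.1 0) 0 (by rw [dist_self]; have := S.A.δ_pos; positivity) z hzb
  have hpt : ∀ z, Tendsto (fun n => pr (G n z)) (hyperfilter ℕ) (𝓝 (pr (H z))) := by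
    intro z
    rw [Metric.tendsto_nhds]
    intro ε hε
    filter_upwards [hconv.unif ‖z‖ (ε / 2) (half_pos hε)] with n hn
    have := hn z le_rfl
    unfold pd at this
    linarith
  have hgH : ∀ z ∈ ball (0 : ℂ) r₀, Good (S.A.χ j) (H z) := fun z hzb =>
    Order_good_limit S.cone (hH.2.1 z) (hgG.mono fun n hn => hn z hzb) (hpt z)
  -- the radius
  have hsub : closedBall (0 : ℂ) s ⊆ ball (0 : ℂ) r₀ := closedBall_subset_ball (by linarith)
  obtain ⟨s', hs1, hs2⟩ := Order_radius (Order_finite (isCompact_closedBall (0 : ℂ) s) fun z _ => S.hit_iso hD hH z) (half_lt_self hs)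
  choose w hw1 hw2 using fun n => hz n s' hs1
  have hwb : ∀ n, w n - z₀ n ∈ sphere (0 : ℂ) s' := fun n => by rw [mem_sphere_zero_iff_norm]; exact hw1 n
  have h2 : (((hyperfilter ℕ).map fun n => w n - z₀ n : Ultrafilter ℂ) : Filter ℂ) ≤ 𝓟 (sphere (0 : ℂ) s') := by
    rw [Ultrafilter.coe_map, le_principal_iff, mem_map]
    exact Eventually.of_forall hwb
  obtain ⟨a, ha, ha2⟩ := (isCompact_sphere (0 : ℂ) s').ultrafilter_le_nhds _ h2
  have ha3 : Tendsto (fun n => w n - z₀ n) (hyperfilter ℕ) (𝓝 a) := ha2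
  rw [mem_sphere_zero_iff_norm] at ha
  have hacb : a ∈ closedBall (0 : ℂ) s := by
    rw [mem_closedBall_zero_iff, ha]
    exact hs1.2
  have hab : a ∈ ball (0 : ℂ) r₀ := hsub hacb
  have hga := hgH a hab
  have hnohit : ¬ S.Hit v (H a) := fun hh => hs2 a ⟨hacb, hh⟩ ha
  obtain ⟨r, hr, -, hrH, hr2⟩ := hconv.chart a j hga
  have hqa : S.q j (H a) ∈ ball (0 : Vd 3) 2 := by
    rw [mem_ball_zero_iff]
    have := hga.2.2
    show ‖(S.A.χ j).q (H a)‖ < 2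
    linarith
  have hcont : ContinuousAt (fun z => S.q j (H z)) a := (S.q_an ⟨hH.1.analyticAt a, Eventually.of_forall hH.2.1⟩ hga.2.1).continuousAt
  have h3 : Tendsto (fun n => S.q j (G n (w n - z₀ n))) (hyperfilter ℕ) (𝓝 (S.q j (H a))) := by
    refine tendsto_comp_of_locally_uniform_limit (F := fun n z => S.q j (G n z)) (f := fun z => S.q j (H z)) hcont ha3 fun u hu => ?_
    obtain ⟨t, ht, ht2⟩ := hr2 u hu a (mem_ball_self hr)
    exact ⟨t, by rwa [isOpen_ball.nhdsWithin_eq (mem_ball_self hr)] at ht, ht2⟩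
  have h4 : Tendsto (fun n => ‖S.cov v j (S.q j (G n (w n - z₀ n)))‖) (hyperfilter ℕ) (𝓝 ‖S.cov v j (S.q j (H a))‖) :=
    ((S.Order_cov_an v j hqa).continuousAt.tendsto.comp h3).norm
  have h5 : Tendsto (fun n => ‖S.cov v j (S.q j (G n (w n - z₀ n)))‖) (hyperfilter ℕ) (𝓝 0) := by
    refine squeeze_zero' (g := fun n : ℕ => 1 / ((n : ℝ) + 1)) (Eventually.of_forall fun n => norm_nonneg _) ?_ ?_
    · filter_upwards [hj] with n hn
      have h6 := (hw2 n).le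
      have h7 : G n (w n - z₀ n) = F n (w n) := by simp [hG]
      have h8 : G n 0 = F n (z₀ n) := by simp [hG]
      rw [h7, ← hn, h8]
      exact h6
    · exact tendsto_one_div_add_atTop_nhds_zero_nat.mono_left (Nat.hyperfilter_le_atTop)
  have h6 := tendsto_nhds_unique h4 h5
  exact hnohit ((S.hit_of_cov (hH.2.1 a) hga.2.1).1 (norm_eq_zero.1 h6))

theorem exists_order {v : Vd 2} (hD : S.Dir v) : ∃ N₀ : ℕ, ∀ b, ∀ F ∈ S.G v b, ∀ z₀, ∃ (k : ℕ) (g : ℂ → Vd 3), k ≤ N₀ ∧ AnalyticAt ℂ g z₀ ∧ g z₀ ≠ 0 ∧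
    ∀ᶠ z in 𝓝 z₀, S.cov v (S.ix (F z₀)) (S.q (S.ix (F z₀)) (F z)) = (z - z₀) ^ k • g z := by
  obtain ⟨c, L, r₀, c₁, K, h⟩ := S.exists_dat hD.ne
  have hr₀ := h.lc.r₀_pos
  obtain ⟨c₂, hc₂, hlow⟩ := S.exists_lower hD h (s := r₀ / 4) (by positivity) (by linarith)
  obtain ⟨B, hB, hBb⟩ := S.Order_cov_bdd v
  obtain ⟨N₀, hN₀⟩ := exists_pow_lt_of_lt_one (show 0 < c₂ / B by positivity) (show (1 / 2 : ℝ) < 1 by norm_num)
  refine ⟨N₀, fun b F hF z₀ => ?_⟩
  set i := S.ix (F z₀) with hi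
  set θ : ℂ → Vd 3 := fun z => S.cov v i (S.q i (F z)) with hθ
  have hgood : ∀ z ∈ ball z₀ r₀, Good (S.A.χ i) (F z) := fun z hzb =>
    h.lc.good F (h.sub b hF) (F z₀) (hF.2.1 z₀) z₀ (by rw [dist_self]; have := S.A.δ_pos; positivity) z hzb
  have hqb : ∀ z ∈ ball z₀ r₀, S.q i (F z) ∈ ball (0 : Vd 3) 2 := by
    intro z hzb
    rw [mem_ball_zero_iff]
    have := (hgood z hzb).2.2
    show ‖(S.A.χ i).q (F z)‖ < 2
    linarith
  have hθan : ∀ z ∈ ball z₀ r₀, AnalyticAt ℂ θ z := fun z hzb =>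
    AnalyticAt.comp (g := S.cov v i) (f := fun z => S.q i (F z)) (S.Order_cov_an v i (hqb z hzb)) (S.q_an ⟨hF.1.analyticAt z, Eventually.of_forall hF.2.1⟩ (hgood z hzb).2.1)
  have hθB : ∀ z ∈ ball z₀ r₀, ‖θ z‖ ≤ B := fun z hzb => hBb i _ (hgood z hzb).2.2
  have hz₀ : z₀ ∈ ball z₀ r₀ := mem_ball_self hr₀
  have hne : ¬ ∀ᶠ z in 𝓝 z₀, θ z = 0 := by
    intro h0
    have h1 : ∀ᶠ z in 𝓝[≠] z₀, False := by
      filter_upwards [mem_nhdsWithin_of_mem_nhds h0, S.hit_iso hD hF z₀, mem_nhdsWithin_of_mem_nhds (ball_mem_nhds z₀ hr₀)] with z h1 h2 h3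
      exact h2 ((S.hit_of_cov (hF.2.1 z) (hgood z h3).2.1).1 h1)
    exact h1.exists.choose_spec
  obtain ⟨k, g, hg, hg0, hgθ⟩ := (hθan z₀ hz₀).exists_eventuallyEq_pow_smul_nonzero_iff.2 hne
  refine ⟨k, g, ?_, hg, hg0, hgθ⟩
  by_contra hk
  push Not at hk
  -- the quotient
  classical
  set f : ℂ → Vd 3 := Function.update (fun z => ((z - z₀) ^ k)⁻¹ • θ z) z₀ (g z₀) with hf
  have hfne : ∀ z, z ≠ z₀ → f z = ((z - z₀) ^ k)⁻¹ • θ z := fun z hz => by rw [hf, Function.update_of_ne hz]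
  have hfg : ∀ᶠ z in 𝓝 z₀, f z = g z := by
    filter_upwards [hgθ] with z hz
    rcases eq_or_ne z z₀ with rfl | hzz
    · rw [hf, Function.update_self]
    · rw [hfne z hzz, hz, smul_smul, inv_mul_cancel₀ (pow_ne_zero k (sub_ne_zero.2 hzz)), one_smul]
  have hfd : ∀ z ∈ ball z₀ r₀, DifferentiableAt ℂ f z := by
    intro z hzb
    rcases eq_or_ne z z₀ with rfl | hzz
    · exact hg.differentiableAt.congr_of_eventuallyEq hfg
    · have h0 : DifferentiableAt ℂ (fun z : ℂ => (z - z₀) ^ k) z := by fun_prop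
      have h1 : DifferentiableAt ℂ (fun z => ((z - z₀) ^ k)⁻¹ • θ z) z :=
        (h0.inv (pow_ne_zero k (sub_ne_zero.2 hzz))).smul (hθan z hzb).differentiableAt
      refine h1.congr_of_eventuallyEq ?_
      filter_upwards [isOpen_ne.mem_nhds hzz] with y hy
      exact hfne y hy
  set ρ : ℝ := r₀ / 2 with hρ
  have hρ0 : 0 < ρ := by positivity
  have hsub : closedBall z₀ ρ ⊆ ball z₀ r₀ := closedBall_subset_ball (by rw [hρ]; linarith)
  have hmax : ∀ z ∈ closedBall z₀ ρ, ‖f z‖ ≤ B / ρ ^ k := by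
    intro z hzb
    have h1 : DiffContOnCl ℂ f (ball z₀ ρ) := by
      refine DifferentiableOn.diffContOnCl fun y hy => ?_
      rw [closure_ball z₀ hρ0.ne'] at hy
      exact (hfd y (hsub hy)).differentiableWithinAt
    refine Complex.norm_le_of_forall_mem_frontier_norm_le isBounded_ball h1 (fun y hy => ?_) (by rwa [closure_ball z₀ hρ0.ne'])
    rw [frontier_ball z₀ hρ0.ne', mem_sphere, dist_eq_norm] at hy
    have hyz : y ≠ z₀ := by
      rintro rfl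
      rw [sub_self, norm_zero] at hy
      exact hρ0.ne hy
    rw [hfne y hyz, norm_smul, norm_inv, norm_pow, hy, inv_mul_eq_div]
    refine div_le_div_of_nonneg_right (hθB y (hsub ?_)) (by positivity)
    rw [mem_closedBall, dist_eq_norm, hy]
  obtain ⟨s', hs1, hs2⟩ := hlow b F hF z₀
  have hs0 : 0 < s' := lt_of_lt_of_le (by positivity) hs1.1
  set z : ℂ := z₀ + (s' : ℂ) with hz
  have hzn : ‖z - z₀‖ = s' := by
    rw [hz, add_sub_cancel_left, Complex.norm_real, Real.norm_of_nonneg hs0.le]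
  have hzz : z ≠ z₀ := by
    intro h0
    rw [h0, sub_self, norm_zero] at hzn
    exact hs0.ne hzn
  have h1 : c₂ ≤ ‖θ z‖ := hs2 z hzn
  have hzc : z ∈ closedBall z₀ ρ := by
    rw [mem_closedBall, dist_eq_norm, hzn, hρ]
    have := hs1.2
    linarith
  have h2 := hmax z hzc
  rw [hfne z hzz, norm_smul, norm_inv, norm_pow, hzn, inv_mul_eq_div, div_le_div_iff₀ (by positivity) (by positivity)] at h2
  have h3 : s' ^ k ≤ (ρ * (1 / 2)) ^ k := pow_le_pow_left₀ hs0.le (by rw [hρ]; have := hs1.2; linarith) k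
  have h4 : c₂ * ρ ^ k ≤ B * (ρ ^ k * (1 / 2) ^ k) := by
    calc c₂ * ρ ^ k ≤ ‖θ z‖ * ρ ^ k := mul_le_mul_of_nonneg_right h1 (by positivity)
      _ ≤ B * s' ^ k := h2
      _ ≤ B * (ρ * (1 / 2)) ^ k := mul_le_mul_of_nonneg_left h3 hB.le
      _ = B * (ρ ^ k * (1 / 2) ^ k) := by rw [mul_pow]
  have h5 : c₂ ≤ B * (1 / 2) ^ k := by
    have hρk : 0 < ρ ^ k := by positivity
    refine le_of_mul_le_mul_right ?_ hρk
    calc c₂ * ρ ^ k ≤ B * (ρ ^ k * (1 / 2) ^ k) := h4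
      _ = B * (1 / 2) ^ k * ρ ^ k := by ring
  have h6 : (1 / 2 : ℝ) ^ k ≤ (1 / 2) ^ N₀ := pow_le_pow_of_le_one (by norm_num) (by norm_num) hk.le
  have h7 : B * (1 / 2) ^ N₀ < c₂ := by
    rw [lt_div_iff₀ hB] at hN₀
    linarith
  have h8 : B * (1 / 2 : ℝ) ^ k ≤ B * (1 / 2) ^ N₀ := mul_le_mul_of_nonneg_left h6 hB.le
  linarith

end Setting

end Pool.Agent.TH
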