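import Pool.Agent.TH.Cnt

/-!
# TH Path: the curves move in the real direction `e`

Let `ε₁, R₁` be the constants of `sep`, `ε ≤ ε₁ / 4`.

* `gap`: there is `η > 0`: for `F ∈ G v b`, `G ∈ G v (b + t e)`, `|t| < η`, `z₀`: if `pd F G ≤ 2 ε` on `ball z₀ R₁` then `pd F G ≤ ε / 2` on `ball z₀ (R₁ + 1)`.  Otherwise `t n → 0`,
  `F n`, `G n`, `z₀ = 0` after a translation, limits `F, G ∈ G v b₀`, `pd F G ≤ 2 ε < ε₁` on `ball 0 R₁`, so `pr F = pr G` and `pd (F n) (G n) → 0` uniformly on bounded sets.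
* `spread`: then `pd F G ≤ ε / 2` everywhere (induction: on `ball z₀ (R₁ + k)`).
* `nearby`: for given `b` and `F ∈ G v b` there is `δ > 0`: for `|t| < δ` there is `G ∈ G v (b + t e)` with `pd F G ≤ ε / 2` on `ball 0 R₁`.  Otherwise `t n → 0` without such `G`; the
  `k` elements of `Gs v (b + t n e)` (`card_eq`, `Gs_finite`) have limits in `Gs v b`, different ones (`limit_inj`), so all the `k` elements, also `F`: contradiction.
* `path`: let `F ∈ G v b`, `|t₁| < η`.  The set of the `s ∈ [0, 1]` such that there is `G ∈ G v (b + s t₁ e)` with `pd F G ≤ ε / 2` everywhere contains `0`, is closed (`exists_limit_of`), and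
  open: `nearby` at `G`, `pd F G' ≤ ε` on `ball 0 R₁`, then `spread` (`gap`) for `F, G'`.  (`IsClosed.Icc_subset_of_forall_exists_gt` or `isPreconnected_Icc`.)
-/

set_option autoImplicit false

open Topology Filter Metric

namespace Pool.Agent.TH

open Pool.Agent.H36.BP (EN fs wd Sub)
open Pool.Agent.H14.PP (IsCone CurveAt Tan)
open Pool.Agent.H62.EF (MN pr)
open Pool.Agent.H5.BD (BC evp)
open Pool.Agent.AD (Vd Chart Charts TorusMapV DiscreteSub)
open Pool.Agent.AD.BD (Atlas LC Good qc)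

variable {N : ℕ} {X : Set (EN N)}

private theorem pd_tri (F G H : ℂ → EN N) (z : ℂ) : pd F H z ≤ pd F G z + pd G H z := dist_triangle _ _ _

private theorem pd_symm (F G : ℂ → EN N) (z : ℂ) : pd F G z = pd G F z := dist_comm _ _

private theorem path_tend {t : ℕ → ℝ} (ht : ∀ n : ℕ, |t n| < 1 / ((n : ℝ) + 1)) (e : Vd 2) :
    Tendsto (fun n => ((t n : ℝ) : ℂ) • e) ((hyperfilter ℕ : Ultrafilter ℕ) : Filter ℕ) (𝓝 0) := by
  have h1 : Tendsto t atTop (𝓝 0) :=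
    squeeze_zero_norm (fun n => le_of_lt (by simpa [Real.norm_eq_abs] using ht n)) tendsto_one_div_add_atTop_nhds_zero_nat
  have h2 : Tendsto (fun n => ((t n : ℝ) : ℂ) • e) atTop (𝓝 0) := by
    have h3 : Tendsto (fun n => ((t n : ℝ) : ℂ)) atTop (𝓝 ((0 : ℝ) : ℂ)) := (Complex.continuous_ofReal.tendsto 0).comp h1
    have h4 := h3.smul_const e
    simpa using h4
  exact h2.mono_left (by rw [← Nat.cofinite_eq_atTop]; exact hyperfilter_le_cofinite)

private theorem path_gap (S : Setting X) {v : Vd 2} (hD : S.Dir v) (e : Vd 2) {ε₁ R₁ : ℝ}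
    (hsep : ∀ b, ∀ F ∈ S.G v b, ∀ G ∈ S.G v b, ∀ z₀, (∀ z ∈ ball z₀ R₁, pd F G z ≤ ε₁) → ∀ z, pr (F z) = pr (G z))
    {ε : ℝ} (hε : 0 < ε) (hε₁ : 4 * ε ≤ ε₁) :
    ∃ η : ℝ, 0 < η ∧ ∀ b, ∀ F ∈ S.G v b, ∀ t : ℝ, |t| < η → ∀ G ∈ S.G v (b + (t : ℂ) • e), ∀ z₀ : ℂ,
      (∀ z ∈ ball z₀ R₁, pd F G z ≤ 2 * ε) → ∀ z ∈ ball z₀ (R₁ + 1), pd F G z ≤ ε / 2 := by
  by_contra hcon
  push Not at hcon
  have h1 : ∀ n : ℕ, ∃ (b : Vd 2) (F : ℂ → EN N) (t : ℝ) (G : ℂ → EN N) (z₀ z : ℂ), F ∈ S.G v b ∧ |t| < 1 / ((n : ℝ) + 1) ∧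
      G ∈ S.G v (b + (t : ℂ) • e) ∧ (∀ z ∈ ball z₀ R₁, pd F G z ≤ 2 * ε) ∧ z ∈ ball z₀ (R₁ + 1) ∧ ε / 2 < pd F G z := by
    intro n
    obtain ⟨b, F, hF, t, ht, G, hG, z₀, h2, z, hz, h3⟩ := hcon (1 / ((n : ℝ) + 1)) (by positivity)
    exact ⟨b, F, t, G, z₀, z, hF, ht, hG, h2, hz, h3⟩
  choose b F t G z₀ z hF ht hG h2 hz h3 using h1
  have hF' : ∀ n, (fun w => F n (w + z₀ n)) ∈ S.G v (b n + z₀ n • v) := fun n => S.G_trans (hF n) (z₀ n)
  have hG' : ∀ n, (fun w => G n (w + z₀ n)) ∈ S.G v (b n + (t n : ℂ) • e + z₀ n • v) := fun n => S.G_trans (hG n) (z₀ n)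
  obtain ⟨b₀, l, H, hl, hb, hH, hC⟩ := S.exists_limit hD.ne (hyperfilter ℕ) (fun n => b n + z₀ n • v) (fun n w => F n (w + z₀ n)) (Eventually.of_forall hF')
  have hbt : Tendsto (fun n => b n + z₀ n • v - l n + ((t n : ℝ) : ℂ) • e) ((hyperfilter ℕ : Ultrafilter ℕ) : Filter ℕ) (𝓝 b₀) := by
    have := hb.add (path_tend ht e)
    simpa using this
  have hG'' : ∀ n, (fun w => G n (w + z₀ n)) ∈ S.G v (b n + z₀ n • v - l n + ((t n : ℝ) : ℂ) • e) := by
    intro n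
    have h4 := S.G_lat v (b n + (t n : ℂ) • e + z₀ n • v) (S.Λ.neg_mem (hl n))
    have h5 : b n + z₀ n • v - l n + ((t n : ℝ) : ℂ) • e = b n + (t n : ℂ) • e + z₀ n • v + -l n := by abel
    rw [h5, h4]
    exact hG' n
  obtain ⟨H', hH', hC'⟩ := S.exists_limit_of hD.ne (hyperfilter ℕ) _ b₀ hbt (fun n w => G n (w + z₀ n)) (Eventually.of_forall hG'')
  have hclose : ∀ w ∈ ball (0 : ℂ) R₁, pd H H' w ≤ ε₁ := by
    intro w hw
    have h4 := hC.unif R₁ ε hε
    have h5 := hC'.unif R₁ ε hε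
    obtain ⟨n, h6, h7⟩ := (h4.and h5).exists
    have hw' : ‖w‖ ≤ R₁ := le_of_lt (by simpa using hw)
    have h8 := h6 w hw'
    have h9 := h7 w hw'
    have h10 : pd (fun w => F n (w + z₀ n)) (fun w => G n (w + z₀ n)) w ≤ 2 * ε := by
      have : w + z₀ n ∈ ball (z₀ n) R₁ := by
        rw [mem_ball, dist_eq_norm]
        simpa using hw
      exact h2 n _ this
    have h11 := pd_tri H (fun w => F n (w + z₀ n)) H' w
    have h12 := pd_tri (fun w => F n (w + z₀ n)) (fun w => G n (w + z₀ n)) H' w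
    have h13 := pd_symm H (fun w => F n (w + z₀ n)) w
    linarith
  have heq := hsep b₀ H hH H' hH' 0 hclose
  have h4 := hC.unif (R₁ + 1) (ε / 4) (by positivity)
  have h5 := hC'.unif (R₁ + 1) (ε / 4) (by positivity)
  obtain ⟨n, h6, h7⟩ := (h4.and h5).exists
  have h8 : ‖z n - z₀ n‖ ≤ R₁ + 1 := by
    have := hz n
    rw [mem_ball, dist_eq_norm] at this
    exact this.le
  have h9 := h6 _ h8
  have h10 := h7 _ h8
  have h11 : pd H H' (z n - z₀ n) = 0 := by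
    rw [pd, heq, dist_self]
  have h12 := pd_tri (fun w => F n (w + z₀ n)) H (fun w => G n (w + z₀ n)) (z n - z₀ n)
  have h13 := pd_tri H H' (fun w => G n (w + z₀ n)) (z n - z₀ n)
  have h16 := pd_symm H' (fun w => G n (w + z₀ n)) (z n - z₀ n)
  have h14 : pd (fun w => F n (w + z₀ n)) (fun w => G n (w + z₀ n)) (z n - z₀ n) = pd (F n) (G n) (z n) := by
    simp only [pd, sub_add_cancel]
  have h15 := h3 n
  rw [← h14] at h15
  linarith

private theorem path_spread {ε R₁ : ℝ} (hε : 0 < ε) (F G : ℂ → EN N) (z₀ : ℂ)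
    (hgap : ∀ z₀ : ℂ, (∀ z ∈ ball z₀ R₁, pd F G z ≤ 2 * ε) → ∀ z ∈ ball z₀ (R₁ + 1), pd F G z ≤ ε / 2)
    (h₀ : ∀ z ∈ ball z₀ R₁, pd F G z ≤ 2 * ε) (hR₁ : 0 < R₁) : ∀ z, pd F G z ≤ ε / 2 := by
  have key : ∀ k : ℕ, ∀ z₁ : ℂ, ‖z₁ - z₀‖ ≤ k → ∀ z ∈ ball z₁ (R₁ + 1), pd F G z ≤ ε / 2 := by
    intro k
    induction k with
    | zero =>
      intro z₁ hz₁
      have : z₁ = z₀ := by
        have h1 : ‖z₁ - z₀‖ ≤ 0 := by simpa using hz₁
        exact sub_eq_zero.1 (norm_le_zero_iff.1 h1)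
      subst this
      exact hgap z₁ h₀
    | succ k ih =>
      intro z₁ hz₁
      apply hgap
      have hk : (0 : ℝ) < (k : ℝ) + 1 := by positivity
      have hz₁' : ‖z₁ - z₀‖ ≤ (k : ℝ) + 1 := by simpa using hz₁
      set z₂ : ℂ := z₀ + (((k : ℝ) / ((k : ℝ) + 1) : ℝ) : ℂ) * (z₁ - z₀) with hz₂
      have h1 : ‖z₂ - z₀‖ ≤ k := by
        have : z₂ - z₀ = (((k : ℝ) / ((k : ℝ) + 1) : ℝ) : ℂ) * (z₁ - z₀) := by rw [hz₂]; ring
        rw [this, norm_mul, Complex.norm_real, Real.norm_of_nonneg (by positivity)]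
        calc (k : ℝ) / ((k : ℝ) + 1) * ‖z₁ - z₀‖ ≤ (k : ℝ) / ((k : ℝ) + 1) * ((k : ℝ) + 1) := by gcongr
          _ = k := by field_simp
      have h2 : ‖z₁ - z₂‖ ≤ 1 := by
        have : z₁ - z₂ = ((1 / ((k : ℝ) + 1) : ℝ) : ℂ) * (z₁ - z₀) := by
          rw [hz₂]
          have h3 : ((1 / ((k : ℝ) + 1) : ℝ) : ℂ) = 1 - (((k : ℝ) / ((k : ℝ) + 1) : ℝ) : ℂ) := by
            have : (1 / ((k : ℝ) + 1) : ℝ) = 1 - (k : ℝ) / ((k : ℝ) + 1) := by field_simp; ring
            rw [this]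
            push_cast
            ring
          rw [h3]
          ring
        rw [this, norm_mul, Complex.norm_real, Real.norm_of_nonneg (by positivity)]
        calc 1 / ((k : ℝ) + 1) * ‖z₁ - z₀‖ ≤ 1 / ((k : ℝ) + 1) * ((k : ℝ) + 1) := by gcongr
          _ = 1 := by field_simp
      intro z hz
      have h3 : z ∈ ball z₂ (R₁ + 1) := by
        rw [mem_ball, dist_eq_norm] at hz ⊢
        calc ‖z - z₂‖ = ‖(z - z₁) + (z₁ - z₂)‖ := by congr 1; ring
          _ ≤ ‖z - z₁‖ + ‖z₁ - z₂‖ := norm_add_le _ _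
          _ < R₁ + 1 := by linarith
      have h4 := ih z₂ h1 z h3
      linarith
  intro z
  obtain ⟨k, hk⟩ := exists_nat_ge ‖z - z₀‖
  exact key k z hk z (mem_ball_self (by linarith))

private theorem path_nearby (S : Setting X) {v : Vd 2} (hD : S.Dir v) {e : Vd 2}
    (he : ∀ (t : ℝ) (ε : ℝ), 0 < ε → ∃ z : ℂ, ∃ l ∈ S.Λ, ‖z • v + l - (t : ℂ) • e‖ < ε)
    {ε R : ℝ} (hε : 0 < ε) (b : Vd 2) (F : ℂ → EN N) (hF : F ∈ S.G v b) :
    ∃ δ : ℝ, 0 < δ ∧ ∀ t : ℝ, |t| < δ → ∃ G ∈ S.G v (b + (t : ℂ) • e), ∀ z ∈ ball (0 : ℂ) R, pd F G z ≤ ε := by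
  by_contra hcon
  push Not at hcon
  have h1 : ∀ n : ℕ, ∃ t : ℝ, |t| < 1 / ((n : ℝ) + 1) ∧ ∀ G ∈ S.G v (b + (t : ℂ) • e), ∃ z ∈ ball (0 : ℂ) R, ε < pd F G z := by
    intro n
    exact hcon (1 / ((n : ℝ) + 1)) (by positivity)
  choose t ht h2 using h1
  have hfin := S.Gs_finite hD b
  have hcard : ∀ n, (S.Gs v (b + (t n : ℂ) • e)).ncard = (S.Gs v b).ncard := fun n => S.card_eq hD he b (t n)
  -- bijections
  have hbij : ∀ n, ∃ Φ : S.Gs v b → S.Gs v (b + (t n : ℂ) • e), Function.Injective Φ := by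
    intro n
    have hfin' := S.Gs_finite hD (b + (t n : ℂ) • e)
    have := hfin.to_subtype
    have := hfin'.to_subtype
    have h3 : Nat.card (S.Gs v b) = Nat.card (S.Gs v (b + (t n : ℂ) • e)) := by
      rw [Nat.card_coe_set_eq, Nat.card_coe_set_eq, hcard n]
    obtain ⟨f⟩ := Finite.card_eq.1 h3
    exact ⟨f, f.injective⟩
  choose Φ hΦ using hbij
  have h4 : ∀ n, ∀ f : S.Gs v b, ∃ G ∈ S.G v (b + (t n : ℂ) • e), ∀ z, (Φ n f : ℂ → MN N) z = pr (G z) := fun n f => (Φ n f).2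
  choose K hK hKe using h4
  have hbt : Tendsto (fun n => b + ((t n : ℝ) : ℂ) • e) ((hyperfilter ℕ : Ultrafilter ℕ) : Filter ℕ) (𝓝 b) := by
    have := (tendsto_const_nhds (x := b)).add (path_tend ht e)
    simpa using this
  have h5 : ∀ f : S.Gs v b, ∃ H : ℂ → EN N, H ∈ S.G v b ∧ S.Conv (hyperfilter ℕ) (fun n => K n f) H := fun f =>
    S.exists_limit_of hD.ne (hyperfilter ℕ) _ b hbt (fun n => K n f) (Eventually.of_forall fun n => hK n f)
  choose H hH hHc using h5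
  let Ψ : S.Gs v b → S.Gs v b := fun f => ⟨fun z => pr (H f z), H f, hH f, fun z => rfl⟩
  have hΨ : Function.Injective Ψ := by
    intro f g hfg
    by_contra hne
    obtain ⟨z, hz⟩ := S.limit_inj hD (hyperfilter ℕ) (b := fun n => b + ((t n : ℝ) : ℂ) • e) (hHc f) (hHc g) (Eventually.of_forall fun n => by
      refine ⟨hK n f, hK n g, ?_⟩
      by_contra hall
      push Not at hall
      apply hne
      apply hΦ n
      apply Subtype.ext
      funext z
      rw [hKe, hKe, hall])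
    apply hz
    have := congrArg (fun φ : S.Gs v b => (φ : ℂ → MN N) z) hfg
    exact this
  have := hfin.to_subtype
  have hsurj : Function.Surjective Ψ := Finite.surjective_of_injective hΨ
  obtain ⟨f, hf⟩ := hsurj ⟨fun z => pr (F z), F, hF, fun z => rfl⟩
  have hfe : ∀ z, pr (H f z) = pr (F z) := fun z => congrArg (fun φ : S.Gs v b => (φ : ℂ → MN N) z) hf
  obtain ⟨n, hn⟩ := ((hHc f).unif R ε hε).exists
  obtain ⟨z, hz, hzε⟩ := h2 n (K n f) (hK n f)
  have h6 := hn z (le_of_lt (by simpa using hz))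
  have h7 : pd F (K n f) z = pd (K n f) (H f) z := by
    rw [pd_symm, pd, pd, hfe]
  rw [h7] at hzε
  linarith

theorem Setting.path (S : Setting X) {v : Vd 2} (hD : S.Dir v) {e : Vd 2} (he : ∀ (t : ℝ) (ε : ℝ), 0 < ε → ∃ z : ℂ, ∃ l ∈ S.Λ, ‖z • v + l - (t : ℂ) • e‖ < ε)
    {ε : ℝ} (hε : 0 < ε) : ∃ η : ℝ, 0 < η ∧ ∀ b, ∀ F ∈ S.G v b, ∀ t : ℝ, |t| < η → ∃ G ∈ S.G v (b + (t : ℂ) • e), ∀ z, pd F G z ≤ ε := by
  obtain ⟨ε₁, R₁, hε₁, hR₁, hsep⟩ := S.sep hD
  set ε' : ℝ := min ε (ε₁ / 4) with hε'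
  have hε'0 : 0 < ε' := lt_min hε (by positivity)
  have hε'1 : 4 * ε' ≤ ε₁ := by
    have := min_le_right ε (ε₁ / 4)
    linarith
  have hε'2 : ε' ≤ ε := min_le_left _ _
  obtain ⟨η, hη, hgap⟩ := path_gap S hD e hsep hε'0 hε'1
  refine ⟨η, hη, ?_⟩
  intro b F hF t₁ ht₁
  set A : Set ℝ := {s | ∃ G ∈ S.G v (b + ((s * t₁ : ℝ) : ℂ) • e), ∀ z, pd F G z ≤ ε' / 2} with hA
  have hsub : Set.Icc (0 : ℝ) 1 ⊆ A := by
    apply IsClosed.Icc_subset_of_forall_exists_gt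
    · -- closed
      apply IsClosed.inter _ isClosed_Icc
      rw [← isSeqClosed_iff_isClosed]
      intro s s₀ hs hlim
      choose G hG hGd using hs
      have hbt : Tendsto (fun n => b + ((s n * t₁ : ℝ) : ℂ) • e) ((hyperfilter ℕ : Ultrafilter ℕ) : Filter ℕ) (𝓝 (b + ((s₀ * t₁ : ℝ) : ℂ) • e)) := by
        have h1 : Tendsto (fun n => b + ((s n * t₁ : ℝ) : ℂ) • e) atTop (𝓝 (b + ((s₀ * t₁ : ℝ) : ℂ) • e)) := by
          have h2 : Continuous (fun s : ℝ => b + ((s * t₁ : ℝ) : ℂ) • e) := by fun_prop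
          exact (h2.tendsto s₀).comp hlim
        exact h1.mono_left (by rw [← Nat.cofinite_eq_atTop]; exact hyperfilter_le_cofinite)
      obtain ⟨H, hH, hC⟩ := S.exists_limit_of hD.ne (hyperfilter ℕ) _ _ hbt G (Eventually.of_forall hG)
      refine ⟨H, hH, ?_⟩
      intro z
      apply le_of_forall_pos_le_add
      intro c hc
      obtain ⟨n, hn⟩ := (hC.unif ‖z‖ c hc).exists
      have h1 := hn z le_rfl
      have h2 := hGd n z
      have h3 := pd_tri F (G n) H z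
      linarith
    · refine ⟨F, ?_, ?_⟩
      · simpa using hF
      · intro z
        rw [pd, dist_self]
        positivity
    · rintro s ⟨⟨G, hG, hGd⟩, hs0, hs1⟩ y hy
      obtain ⟨δ, hδ, hnear⟩ := path_nearby S hD he (R := R₁) (half_pos hε'0) _ G hG
      have hy' : s < y := hy
      -- a small step
      obtain ⟨d, hd0, hd1, hd2, hd3⟩ : ∃ d : ℝ, 0 < d ∧ d ≤ y - s ∧ d ≤ 1 - s ∧ |d * t₁| < δ := by
        refine ⟨min (min (y - s) (1 - s)) (δ / (|t₁| + 1)), ?_, ?_, ?_, ?_⟩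
        · apply lt_min (lt_min (by linarith) (by linarith))
          positivity
        · exact (min_le_left _ _).trans (min_le_left _ _)
        · exact (min_le_left _ _).trans (min_le_right _ _)
        · have hpos : 0 < min (min (y - s) (1 - s)) (δ / (|t₁| + 1)) := by
            apply lt_min (lt_min (by linarith) (by linarith))
            positivity
          rw [abs_mul, abs_of_pos hpos]
          calc min (min (y - s) (1 - s)) (δ / (|t₁| + 1)) * |t₁| ≤ δ / (|t₁| + 1) * |t₁| := by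
                gcongr
                exact min_le_right _ _
            _ < δ := by
                rw [div_mul_eq_mul_div, div_lt_iff₀ (by positivity)]
                nlinarith [abs_nonneg t₁]
      obtain ⟨G', hG', hG'd⟩ := hnear (d * t₁) hd3
      have hbe : b + ((s * t₁ : ℝ) : ℂ) • e + ((d * t₁ : ℝ) : ℂ) • e = b + (((s + d) * t₁ : ℝ) : ℂ) • e := by
        rw [add_assoc, ← add_smul]
        congr 2
        push_cast
        ring
      rw [hbe] at hG'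
      refine ⟨s + d, ⟨G', hG', ?_⟩, ?_, ?_⟩
      · have hlt : |(s + d) * t₁| < η := by
          rw [abs_mul, abs_of_nonneg (by linarith)]
          calc (s + d) * |t₁| ≤ 1 * |t₁| := by
                gcongr
                linarith
            _ < η := by linarith
        apply path_spread hε'0 F G' 0 (hgap b F hF _ hlt G' hG') _ hR₁
        intro z hz
        have h1 := hGd z
        have h2 := hG'd z hz
        have h3 := pd_tri F G G' z
        linarith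
      · linarith
      · linarith
  obtain ⟨G, hG, hGd⟩ := hsub (Set.right_mem_Icc.2 zero_le_one)
  refine ⟨G, ?_, ?_⟩
  · simpa using hG
  · intro z
    have := hGd z
    linarith

end Pool.Agent.TH
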