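import Pool.Agent.TH.Kill
import Pool.Agent.TH.Order
import Pool.Agent.TH.KK

/-!
# TH Quo: the function of a vertical field

`F ∈ G v b`, `ξ` a vertical field along `F`, `E` the function of `exists_kill`, `N₀` of `exists_order`.  For a centre `z₀` put `i = ix (F z₀)`, `t z = (q i ∘ F)' z`,
`h z = T (ix (F z)) i (F z) (ξ z)` (holomorphic near every point of `ball z₀ r₀`: `Field.hol`, `T_comp`, `T_an`), `θ z = cov v i (q i (F z))`.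

`cross`: `dβ (h) = 0`, `dβ (t) = v`, so `h ⬝ θ = 0`, `t ⬝ θ = 0` (`θ ⬝ w = om v (dβ w)`), so `h ×₃ t` is a multiple of `θ` if `θ ≠ 0` (if `h`, `t` are dependent then
`h ×₃ t = 0`; otherwise the annihilator of `h`, `t` is a line).

`exists_g`: there is `g` holomorphic on `ball z₀ r₀` with `E z ^ N₀ • (h z ×₃ t z) = g z • θ z`: unique where `θ ≠ 0`; near a hit `z₁`: `θ = (z - z₁)^k • θ₁`, `θ₁ z₁ ≠ 0`, `k ≤ N₀`
and `E z₁ = 0`, so `E ^ N₀ = (z - z₁)^k • e`, and `h ×₃ t` is a holomorphic multiple of `θ₁` (divide a component: `(h ×₃ t) l / θ₁ l` with `θ₁ z₁ l ≠ 0`; the identity holds off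
`z₁`, so by continuity at `z₁`).  Define `g` pointwise by choice and check that it is holomorphic near every point.

Transformation: in another chart `j`: `h' = M h`, `t' = M t`, `θ = Mᵀ θ'` with `M = T i j (F z)`, and `(M h) ×₃ (M t) = det M • M⁻ᵀ (h ×₃ t)`, so `g' = det M • g`.

`P z` is defined with the centre `z`: `P z = kk i (q i (F z)) * ‖g z‖ ^ m`, `i = ix (F z)`.  By `kk_trans`, near `z₀`: `P z = kk i₀ (q i₀ (F z)) * ‖g_{z₀} z‖ ^ m` (note `kk i = |det T i j|^m kk j`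
and `g_j = det T i j g_i`: so the product is invariant).  So `P` is continuous, and `kk_sub` with `‖(q i F)'‖ ≥ c₁` (`LC.der_ge`) gives `Sub P z (κ₀ c₁²)` if `P z > 0`.

Growth: by the maximum principle for `g_{z₀}` on the disc of radius `s' ∈ [s/2, s]` of `exists_lower`: `‖g_{z₀} z₀‖ ≤ sup_{circle} ‖E‖^N₀ ‖h ×₃ t‖ / c₂`, `‖h‖ ≤ C ‖ξ‖` (`T_bound`); with
`s ≤ 1`: `P z₀ ≤ C' exp (m κ (‖z₀‖ + 1)^2 + C' (1 + ‖z₀‖)) ≤ C'' exp (2 m κ ‖z₀‖^2 + C'' ‖z₀‖)`.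

If `P = 0` everywhere: `g = 0`, `h ×₃ t = 0` off the zeros of `E`, so everywhere (isolated zeros, continuity); `h z₀ = ξ z₀` (`T_self`) is a multiple `λ t`, and `dβ h = λ v = 0`: `ξ z₀ = 0`.
-/

set_option autoImplicit false

open Topology Filter Metric

namespace Pool.Agent.TH

open Pool.Agent.H36.BP (EN fs wd Sub)
open Pool.Agent.H14.PP (IsCone CurveAt Tan)
open Pool.Agent.H62.EF (MN pr)
open Pool.Agent.H5.BD (BC evp)
open Pool.Agent.AD (Vd Chart Charts TorusMapV DiscreteSub)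
open Pool.Agent.AD.BD (Atlas LC Good qc)

variable {N : ℕ} {X : Set (EN N)}

theorem Quo_cross_par {h t θ : Fin 3 → ℂ} (hh : ∑ l, h l * θ l = 0) (ht : ∑ l, t l * θ l = 0) (k l : Fin 3) :
    crossProduct h t k * θ l = crossProduct h t l * θ k := by
  simp only [Fin.sum_univ_three] at hh ht
  rw [cross_apply]
  fin_cases k <;> fin_cases l <;> simp
  · linear_combination t 2 * hh - h 2 * ht
  · linear_combination -t 1 * hh + h 1 * ht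
  · linear_combination -(t 2) * hh + h 2 * ht
  · linear_combination t 0 * hh - h 0 * ht
  · linear_combination t 1 * hh - h 1 * ht
  · linear_combination -(t 0) * hh + h 0 * ht

theorem Quo_cross_key (M : (Fin 3 → ℂ) →ₗ[ℂ] (Fin 3 → ℂ)) (hM : LinearMap.det M ≠ 0) {h t θ θ' : Fin 3 → ℂ} {e a : ℂ}
    (hθ : ∀ l, θ l = ∑ k, M (Pi.single l 1) k * θ' k) (he : e • crossProduct h t = a • θ) :
    e • crossProduct (M h) (M t) = (LinearMap.det M * a) • θ' := by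
  obtain ⟨m, hm⟩ : ∃ m : Matrix (Fin 3) (Fin 3) ℂ, m = LinearMap.toMatrix' M := ⟨_, rfl⟩
  have hmkl : ∀ k l, M (Pi.single l 1) k = m k l := fun k l => by
    rw [hm, LinearMap.toMatrix'_apply]
  have hMx : ∀ x, M x = m.mulVec x := fun x => by rw [hm, LinearMap.toMatrix'_mulVec]
  have hdet : LinearMap.det M = m.det := by rw [hm, LinearMap.det_toMatrix']
  have hM' : m.det ≠ 0 := by rwa [← hdet]
  have hv : Matrix.vecMul (e • crossProduct (M h) (M t) - (LinearMap.det M * a) • θ') m = 0 := by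
    ext l
    have hel : e * crossProduct h t l = a * θ l := by
      have := congrFun he l
      simpa using this
    have hθl : θ l = m 0 l * θ' 0 + m 1 l * θ' 1 + m 2 l * θ' 2 := by
      rw [hθ l, Fin.sum_univ_three, hmkl, hmkl, hmkl]
    rw [hθl] at hel
    have hkey : crossProduct (M h) (M t) 0 * m 0 l + crossProduct (M h) (M t) 1 * m 1 l + crossProduct (M h) (M t) 2 * m 2 l =
        m.det * crossProduct h t l := by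
      rw [hMx, hMx, Matrix.det_fin_three]
      simp only [cross_apply, Matrix.mulVec, dotProduct, Fin.sum_univ_three]
      fin_cases l <;> simp <;> ring
    simp only [Matrix.vecMul, dotProduct, Fin.sum_univ_three, Pi.sub_apply, Pi.smul_apply, smul_eq_mul, Pi.zero_apply]
    rw [hdet]
    linear_combination e * hkey + m.det * hel
  have := Matrix.eq_zero_of_vecMul_eq_zero hM' hv
  exact sub_eq_zero.mp this

theorem Quo_cross_norm (h t : Fin 3 → ℂ) : ‖crossProduct h t‖ ≤ 2 * (‖h‖ * ‖t‖) := by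
  have hh : ∀ l, ‖h l‖ ≤ ‖h‖ := norm_le_pi_norm h
  have ht : ∀ l, ‖t l‖ ≤ ‖t‖ := norm_le_pi_norm t
  have hm : ∀ k l, ‖h k * t l‖ ≤ ‖h‖ * ‖t‖ := fun k l => by
    rw [norm_mul]
    exact mul_le_mul (hh k) (ht l) (norm_nonneg _) (norm_nonneg _)
  have hs : ∀ k l k' l', ‖h k * t l - h k' * t l'‖ ≤ 2 * (‖h‖ * ‖t‖) := fun k l k' l' =>
    (norm_sub_le _ _).trans (by linarith [hm k l, hm k' l'])
  rw [pi_norm_le_iff_of_nonneg (by positivity)]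
  intro i
  rw [cross_apply]
  fin_cases i
  · exact hs 1 2 2 1
  · exact hs 2 0 0 2
  · exact hs 0 1 1 0

theorem Quo_cross_zero {h t : Fin 3 → ℂ} (hc : crossProduct h t = 0) (ht : t ≠ 0) : ∃ a : ℂ, h = a • t := by
  obtain ⟨l, hl⟩ := Function.ne_iff.mp ht
  simp only [Pi.zero_apply] at hl
  refine ⟨h l / t l, ?_⟩
  have h0 := congrFun hc 0
  have h1 := congrFun hc 1
  have h2 := congrFun hc 2
  rw [cross_apply] at h0 h1 h2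
  simp at h0 h1 h2
  ext k
  rw [Pi.smul_apply, smul_eq_mul, div_mul_eq_mul_div, eq_div_iff hl]
  fin_cases l <;> fin_cases k <;> simp
  · linear_combination -h2
  · linear_combination h1
  · linear_combination h2
  · linear_combination -h0
  · linear_combination -h1
  · linear_combination h0

section basics

theorem Quo_clm {f : ℂ → Vd 3 →L[ℂ] Vd 3} {g : ℂ → Vd 3} {z : ℂ} (hf : AnalyticAt ℂ f z) (hg : AnalyticAt ℂ g z) : AnalyticAt ℂ (fun w => f w (g w)) z :=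
  AnalyticAt.comp ((ContinuousLinearMap.id ℂ (Vd 3 →L[ℂ] Vd 3)).analyticAt_bilinear _) (hf.prod hg)

theorem Quo_clm2 {f : ℂ → Vd 3 →L[ℂ] Vd 2} {g : ℂ → Vd 3} {z : ℂ} (hf : AnalyticAt ℂ f z) (hg : AnalyticAt ℂ g z) : AnalyticAt ℂ (fun w => f w (g w)) z :=
  AnalyticAt.comp ((ContinuousLinearMap.id ℂ (Vd 3 →L[ℂ] Vd 2)).analyticAt_bilinear _) (hf.prod hg)

theorem Quo_cross_an {h t : ℂ → Vd 3} {z : ℂ} (hh : AnalyticAt ℂ h z) (ht : AnalyticAt ℂ t z) : AnalyticAt ℂ (fun w => crossProduct (h w) (t w)) z := by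
  have hh' : ∀ l, AnalyticAt ℂ (fun w => h w l) z := fun l => (analyticAt_pi_iff.mp hh) l
  have ht' : ∀ l, AnalyticAt ℂ (fun w => t w l) z := fun l => (analyticAt_pi_iff.mp ht) l
  have hm : ∀ k l k' l', AnalyticAt ℂ (fun w => h w k * t w l - h w k' * t w l') z := fun k l k' l' => ((hh' k).mul (ht' l)).sub ((hh' k').mul (ht' l'))
  rw [analyticAt_pi_iff]
  intro i
  simp only [cross_apply]
  fin_cases i
  · exact hm 1 2 2 1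
  · exact hm 2 0 0 2
  · exact hm 0 1 1 0

theorem Quo_curve (S : Setting X) {v b : Vd 2} {F : ℂ → EN N} (hF : F ∈ S.G v b) (z : ℂ) : CurveAt X F z :=
  ⟨hF.1.analyticAt z, Eventually.of_forall hF.2.1⟩

theorem Quo_nhds (S : Setting X) {v b : Vd 2} {F : ℂ → EN N} (hF : F ∈ S.G v b) {z : ℂ} {i : Fin S.A.n} (hi : F z ∈ (S.A.χ i).U) :
    ∀ᶠ w in 𝓝 z, F w ∈ (S.A.χ i).U :=
  hF.1.continuous.continuousAt.eventually ((S.A.χ i).isOpen_U.mem_nhds hi)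

theorem Quo_good (S : Setting X) {v b : Vd 2} {F : ℂ → EN N} (hF : F ∈ S.G v b) (z : ℂ) : F z ∈ (S.A.χ (S.ix (F z))).U := (S.good_ix (hF.2.1 z)).2.1

theorem Quo_ball (S : Setting X) {v b : Vd 2} {F : ℂ → EN N} (hF : F ∈ S.G v b) {z : ℂ} {i : Fin S.A.n} (hi : F z ∈ (S.A.χ i).U) :
    S.q i (F z) ∈ ball (0 : Vd 3) 2 := ((S.A.χ i).surj _ (hF.2.1 z) hi).1

/-- the vector field in the chart `i` -/
noncomputable def Quo_h (S : Setting X) (F : ℂ → EN N) (ξ : ℂ → Vd 3) (i : Fin S.A.n) (z : ℂ) : Vd 3 := S.T (S.ix (F z)) i (F z) (ξ z)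

/-- the tangent vector in the chart `i` -/
noncomputable def Quo_t (S : Setting X) (F : ℂ → EN N) (i : Fin S.A.n) (z : ℂ) : Vd 3 := deriv (fun w => S.q i (F w)) z

/-- the one-form in the chart `i` -/
noncomputable def Quo_θ (S : Setting X) (v : Vd 2) (F : ℂ → EN N) (i : Fin S.A.n) (z : ℂ) : Vd 3 := S.cov v i (S.q i (F z))

/-- the bivector in the chart `i` -/
noncomputable def Quo_w (S : Setting X) (F : ℂ → EN N) (ξ : ℂ → Vd 3) (e : ℂ → ℂ) (i : Fin S.A.n) (z : ℂ) : Vd 3 :=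
  e z • crossProduct (Quo_h S F ξ i z) (Quo_t S F i z)

theorem Quo_h_an (S : Setting X) {v b : Vd 2} {F : ℂ → EN N} (hF : F ∈ S.G v b) {ξ : ℂ → Vd 3} (hξ : S.Field F ξ) {z₀ : ℂ} {i : Fin S.A.n}
    (hi : F z₀ ∈ (S.A.χ i).U) : AnalyticAt ℂ (Quo_h S F ξ i) z₀ := by
  obtain ⟨r, h, hr, hh, hg⟩ := hξ.hol z₀
  have hj' : F z₀ ∈ (S.A.χ (S.ix (F z₀))).U := Quo_good S hF z₀
  have hT := S.T_an (Quo_curve S hF z₀) hj' hi
  have hha : AnalyticAt ℂ h z₀ := hh.analyticAt (ball_mem_nhds z₀ hr)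
  refine (Quo_clm hT hha).congr ?_
  filter_upwards [ball_mem_nhds z₀ hr, Quo_nhds S hF hi, Quo_nhds S hF hj'] with z hz hzi hzj
  rw [← (hg z hz).2]
  exact S.T_comp (hF.2.1 z) (Quo_good S hF z) hzj hzi (ξ z)

theorem Quo_t_an (S : Setting X) {v b : Vd 2} {F : ℂ → EN N} (hF : F ∈ S.G v b) {z₀ : ℂ} {i : Fin S.A.n}
    (hi : F z₀ ∈ (S.A.χ i).U) : AnalyticAt ℂ (Quo_t S F i) z₀ :=
  (S.q_an (Quo_curve S hF z₀) hi).deriv

theorem Quo_θ_an (S : Setting X) {v b : Vd 2} {F : ℂ → EN N} (hF : F ∈ S.G v b) {z₀ : ℂ} {i : Fin S.A.n}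
    (hi : F z₀ ∈ (S.A.χ i).U) : AnalyticAt ℂ (Quo_θ S v F i) z₀ := by
  have h1 : AnalyticAt ℂ (fun w => fderiv ℂ (S.β i) (S.q i (F w))) z₀ :=
    AnalyticAt.comp (g := fderiv ℂ (S.β i)) (f := fun w => S.q i (F w)) (S.β_an i _ (Quo_ball S hF hi)).fderiv (S.q_an (Quo_curve S hF z₀) hi)
  rw [analyticAt_pi_iff]
  intro l
  have h2 : AnalyticAt ℂ (fun w => fderiv ℂ (S.β i) (S.q i (F w)) (Pi.single l 1)) z₀ := Quo_clm2 h1 analyticAt_const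
  have h3 := analyticAt_pi_iff.mp h2
  exact (analyticAt_const.mul (h3 1)).sub (analyticAt_const.mul (h3 0))

theorem Quo_cov_dot (S : Setting X) (v : Vd 2) (i : Fin S.A.n) (p w : Vd 3) :
    ∑ l, w l * S.cov v i p l = om v (fderiv ℂ (S.β i) p w) := by
  have hw : w = w 0 • (Pi.single 0 1 : Vd 3) + w 1 • (Pi.single 1 1 : Vd 3) + w 2 • (Pi.single 2 1 : Vd 3) := by
    ext l
    fin_cases l <;> simp
  conv_rhs => rw [hw]
  simp only [map_add, map_smul, Fin.sum_univ_three, Setting.cov, om, Pi.add_apply, Pi.smul_apply, smul_eq_mul]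
  ring

theorem Quo_h_dot (S : Setting X) {v b : Vd 2} {F : ℂ → EN N} (hF : F ∈ S.G v b) {ξ : ℂ → Vd 3} (hξ : S.Field F ξ) {z : ℂ} {i : Fin S.A.n}
    (hi : F z ∈ (S.A.χ i).U) : ∑ l, Quo_h S F ξ i z l * Quo_θ S v F i z l = 0 := by
  unfold Quo_θ
  rw [Quo_cov_dot, Quo_h, S.T_beta (hF.2.1 z) (Quo_good S hF z) hi, hξ.ver z]
  simp [om]

theorem Quo_t_dot (S : Setting X) {v b : Vd 2} {F : ℂ → EN N} (hF : F ∈ S.G v b) {z : ℂ} {i : Fin S.A.n}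
    (hi : F z ∈ (S.A.χ i).U) : ∑ l, Quo_t S F i z l * Quo_θ S v F i z l = 0 := by
  unfold Quo_θ
  rw [Quo_cov_dot, Quo_t, S.der_beta hF hi]
  simp only [om]
  ring

theorem Quo_det_ne (S : Setting X) {x : EN N} (hx : x ∈ X) {i j : Fin S.A.n} (hi : x ∈ (S.A.χ i).U) (hj : x ∈ (S.A.χ j).U) :
    LinearMap.det (S.T i j x : Vd 3 →ₗ[ℂ] Vd 3) ≠ 0 := by
  have h : (S.T j i x : Vd 3 →ₗ[ℂ] Vd 3) ∘ₗ (S.T i j x : Vd 3 →ₗ[ℂ] Vd 3) = LinearMap.id := by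
    refine LinearMap.ext fun w => ?_
    change S.T j i x (S.T i j x w) = w
    rw [S.T_comp hx hi hj hi, S.T_self hx hi]
  have h2 := congrArg LinearMap.det h
  rw [LinearMap.det_comp, LinearMap.det_id] at h2
  exact right_ne_zero_of_mul_eq_one h2

theorem Quo_det_an {f : ℂ → Vd 3 →L[ℂ] Vd 3} {z : ℂ} (hf : AnalyticAt ℂ f z) : AnalyticAt ℂ (fun w => LinearMap.det (f w : Vd 3 →ₗ[ℂ] Vd 3)) z := by
  have h1 : ∀ k l, AnalyticAt ℂ (fun w => f w (Pi.single l 1) k) z := fun k l =>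
    analyticAt_pi_iff.mp (Quo_clm hf analyticAt_const) k
  have h2 : (fun w => LinearMap.det (f w : Vd 3 →ₗ[ℂ] Vd 3)) = fun w =>
      f w (Pi.single 0 1) 0 * f w (Pi.single 1 1) 1 * f w (Pi.single 2 1) 2 - f w (Pi.single 0 1) 0 * f w (Pi.single 2 1) 1 * f w (Pi.single 1 1) 2 -
      f w (Pi.single 1 1) 0 * f w (Pi.single 0 1) 1 * f w (Pi.single 2 1) 2 + f w (Pi.single 1 1) 0 * f w (Pi.single 2 1) 1 * f w (Pi.single 0 1) 2 +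
      f w (Pi.single 2 1) 0 * f w (Pi.single 0 1) 1 * f w (Pi.single 1 1) 2 - f w (Pi.single 2 1) 0 * f w (Pi.single 1 1) 1 * f w (Pi.single 0 1) 2 := by
    funext w
    rw [← LinearMap.det_toMatrix', Matrix.det_fin_three]
    simp only [LinearMap.toMatrix'_apply, ContinuousLinearMap.coe_coe]
  rw [h2]
  exact (((((((h1 0 0).mul (h1 1 1)).mul (h1 2 2)).sub (((h1 0 0).mul (h1 1 2)).mul (h1 2 1))).sub
    (((h1 0 1).mul (h1 1 0)).mul (h1 2 2))).add (((h1 0 1).mul (h1 1 2)).mul (h1 2 0))).add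
    (((h1 0 2).mul (h1 1 0)).mul (h1 2 1))).sub (((h1 0 2).mul (h1 1 1)).mul (h1 2 0))

theorem Quo_transport (S : Setting X) {v b : Vd 2} {F : ℂ → EN N} (hF : F ∈ S.G v b) {ξ : ℂ → Vd 3} {z : ℂ} {i j : Fin S.A.n}
    (hi : F z ∈ (S.A.χ i).U) (hj : F z ∈ (S.A.χ j).U) (e : ℂ → ℂ) {a : ℂ} (ha : Quo_w S F ξ e i z = a • Quo_θ S v F i z) :
    Quo_w S F ξ e j z = (LinearMap.det (S.T i j (F z) : Vd 3 →ₗ[ℂ] Vd 3) * a) • Quo_θ S v F j z := by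
  have h1 := Quo_cross_key (S.T i j (F z) : Vd 3 →ₗ[ℂ] Vd 3) (Quo_det_ne S (hF.2.1 z) hi hj) (h := Quo_h S F ξ i z) (t := Quo_t S F i z)
    (θ := Quo_θ S v F i z) (θ' := Quo_θ S v F j z) (e := e z) (a := a) (fun l => S.cov_trans v (hF.2.1 z) hi hj l) ha
  have h2 : (S.T i j (F z) : Vd 3 →ₗ[ℂ] Vd 3) (Quo_h S F ξ i z) = Quo_h S F ξ j z := S.T_comp (hF.2.1 z) (Quo_good S hF z) hi hj (ξ z)
  have h3 : (S.T i j (F z) : Vd 3 →ₗ[ℂ] Vd 3) (Quo_t S F i z) = Quo_t S F j z := S.T_curve (Quo_curve S hF z) hi hj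
  rw [h2, h3] at h1
  exact h1

end basics

/-- the data -/
structure Quo_D (S : Setting X) (v b : Vd 2) (F : ℂ → EN N) (ξ : ℂ → Vd 3) (E : ℂ → ℂ) (N₀ : ℕ) : Prop where
  dir : S.Dir v
  hF : F ∈ S.G v b
  field : S.Field F ξ
  hE : Differentiable ℂ E
  hit : ∀ z, S.Hit v (F z) → E z = 0
  ord : ∀ z₀, ∃ (k : ℕ) (g : ℂ → Vd 3), k ≤ N₀ ∧ AnalyticAt ℂ g z₀ ∧ g z₀ ≠ 0 ∧
    ∀ᶠ z in 𝓝 z₀, S.cov v (S.ix (F z₀)) (S.q (S.ix (F z₀)) (F z)) = (z - z₀) ^ k • g z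

/-- a local quotient -/
def Quo_Rep (S : Setting X) (v : Vd 2) (F : ℂ → EN N) (ξ : ℂ → Vd 3) (e : ℂ → ℂ) (i : Fin S.A.n) (g : ℂ → ℂ) (z : ℂ) : Prop :=
  AnalyticAt ℂ g z ∧ ∀ᶠ w in 𝓝 z, Quo_w S F ξ e i w = g w • Quo_θ S v F i w

section rep

variable {S : Setting X} {v b : Vd 2} {F : ℂ → EN N} {ξ : ℂ → Vd 3} {E : ℂ → ℂ} {N₀ : ℕ}

theorem Quo_w_an (D : Quo_D S v b F ξ E N₀) {z₀ : ℂ} {i : Fin S.A.n} (hi : F z₀ ∈ (S.A.χ i).U) : AnalyticAt ℂ (Quo_w S F ξ (fun z => E z ^ N₀) i) z₀ :=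
  ((D.hE.analyticAt z₀).pow N₀).smul (Quo_cross_an (Quo_h_an S D.hF D.field hi) (Quo_t_an S D.hF hi))

theorem Quo_E (D : Quo_D S v b F ξ E N₀) {z₀ : ℂ} {k : ℕ} {g : ℂ → Vd 3} (hk : k ≤ N₀)
    (hg : ∀ᶠ z in 𝓝 z₀, S.cov v (S.ix (F z₀)) (S.q (S.ix (F z₀)) (F z)) = (z - z₀) ^ k • g z) :
    ∃ e₁ : ℂ → ℂ, AnalyticAt ℂ e₁ z₀ ∧ ∀ᶠ z in 𝓝 z₀, E z ^ N₀ = (z - z₀) ^ k * e₁ z := by
  rcases Nat.eq_zero_or_pos k with rfl | hk0
  · exact ⟨fun z => E z ^ N₀, (D.hE.analyticAt z₀).pow N₀, Eventually.of_forall fun z => by simp⟩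
  · have h0 := hg.self_of_nhds
    rw [sub_self, zero_pow hk0.ne', zero_smul] at h0
    have hE0 : E z₀ = 0 := D.hit z₀ ((S.hit_of_cov (D.hF.2.1 z₀) (Quo_good S D.hF z₀)).mp h0)
    have hEa := D.hE.analyticAt z₀
    have h1 : ((1 : ℕ) : ℕ∞) ≤ analyticOrderAt E z₀ := by
      rw [Nat.cast_one, Order.one_le_iff_ne_zero]
      exact hEa.analyticOrderAt_ne_zero.mpr hE0
    obtain ⟨E₁, hE₁, hE₁'⟩ := (natCast_le_analyticOrderAt hEa).mp h1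
    refine ⟨fun z => (z - z₀) ^ (N₀ - k) * E₁ z ^ N₀, ((analyticAt_id.sub analyticAt_const).pow _).mul (hE₁.pow _), ?_⟩
    filter_upwards [hE₁'] with z hz
    rw [hz, pow_one, smul_eq_mul, mul_pow, ← mul_assoc, ← pow_add, Nat.add_sub_cancel' hk]

theorem Quo_rep_ix (D : Quo_D S v b F ξ E N₀) (z₀ : ℂ) : ∃ g, Quo_Rep S v F ξ (fun z => E z ^ N₀) (S.ix (F z₀)) g z₀ := by
  obtain ⟨k, g₁, hk, hg₁, hg₁0, hg₁'⟩ := D.ord z₀
  obtain ⟨e₁, he₁, he₁'⟩ := Quo_E D hk hg₁'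
  have hi := Quo_good S D.hF z₀
  obtain ⟨l, hl⟩ := Function.ne_iff.mp hg₁0
  simp only [Pi.zero_apply] at hl
  have hha := Quo_h_an S D.hF D.field hi
  have hta := Quo_t_an S D.hF hi
  have hca := Quo_cross_an hha hta
  have hgl : AnalyticAt ℂ (fun z => g₁ z l) z₀ := analyticAt_pi_iff.mp hg₁ l
  have hcl : AnalyticAt ℂ (fun z => crossProduct (Quo_h S F ξ (S.ix (F z₀)) z) (Quo_t S F (S.ix (F z₀)) z) l) z₀ := analyticAt_pi_iff.mp hca l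
  have hg : AnalyticAt ℂ (fun z => e₁ z * (crossProduct (Quo_h S F ξ (S.ix (F z₀)) z) (Quo_t S F (S.ix (F z₀)) z) l / g₁ z l)) z₀ :=
    he₁.mul (hcl.div hgl hl)
  refine ⟨_, hg, ?_⟩
  have hcont : ContinuousAt (fun z => (e₁ z * (crossProduct (Quo_h S F ξ (S.ix (F z₀)) z) (Quo_t S F (S.ix (F z₀)) z) l / g₁ z l)) •
      Quo_θ S v F (S.ix (F z₀)) z) z₀ := hg.continuousAt.smul (Quo_θ_an S D.hF hi).continuousAt
  refine ((Quo_w_an D hi).continuousAt.eventuallyEq_nhds_iff_eventuallyEq_nhdsNE hcont).mp ?_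
  have hne : ∀ᶠ z in 𝓝 z₀, g₁ z l ≠ 0 := hgl.continuousAt.eventually_ne hl
  have hz₁ : ∀ᶠ z in 𝓝[≠] z₀, z ≠ z₀ := eventually_mem_nhdsWithin
  filter_upwards [hz₁, hg₁'.filter_mono nhdsWithin_le_nhds, he₁'.filter_mono nhdsWithin_le_nhds, hne.filter_mono nhdsWithin_le_nhds,
    (Quo_nhds S D.hF hi).filter_mono nhdsWithin_le_nhds] with z hz hg1 he1 hgz hzi
  have hzk : (z - z₀) ^ k ≠ 0 := pow_ne_zero _ (sub_ne_zero.mpr hz)
  have hθ : Quo_θ S v F (S.ix (F z₀)) z = (z - z₀) ^ k • g₁ z := hg1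
  have hd1 := Quo_h_dot S D.hF D.field hzi
  have hd2 := Quo_t_dot S D.hF hzi
  rw [hθ] at hd1 hd2
  simp only [Pi.smul_apply, smul_eq_mul] at hd1 hd2
  have hd1' : ∑ l, Quo_h S F ξ (S.ix (F z₀)) z l * g₁ z l = 0 := by
    have : (z - z₀) ^ k * ∑ l, Quo_h S F ξ (S.ix (F z₀)) z l * g₁ z l = 0 := by
      rw [Finset.mul_sum, ← hd1]
      exact Finset.sum_congr rfl fun l _ => by ring
    exact (mul_eq_zero.mp this).resolve_left hzk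
  have hd2' : ∑ l, Quo_t S F (S.ix (F z₀)) z l * g₁ z l = 0 := by
    have : (z - z₀) ^ k * ∑ l, Quo_t S F (S.ix (F z₀)) z l * g₁ z l = 0 := by
      rw [Finset.mul_sum, ← hd2]
      exact Finset.sum_congr rfl fun l _ => by ring
    exact (mul_eq_zero.mp this).resolve_left hzk
  have hpar := Quo_cross_par hd1' hd2'
  ext m
  rw [hθ]
  simp only [Quo_w, Pi.smul_apply, smul_eq_mul]
  rw [he1]
  have h3 : crossProduct (Quo_h S F ξ (S.ix (F z₀)) z) (Quo_t S F (S.ix (F z₀)) z) m =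
      crossProduct (Quo_h S F ξ (S.ix (F z₀)) z) (Quo_t S F (S.ix (F z₀)) z) l / g₁ z l * g₁ z m := by
    rw [div_mul_eq_mul_div, eq_div_iff hgz]
    exact hpar m l
  rw [h3]
  ring

theorem Quo_rep (D : Quo_D S v b F ξ E N₀) {z₀ : ℂ} {i : Fin S.A.n} (hi : F z₀ ∈ (S.A.χ i).U) : ∃ g, Quo_Rep S v F ξ (fun z => E z ^ N₀) i g z₀ := by
  obtain ⟨g, hg, hg'⟩ := Quo_rep_ix D z₀
  have hj := Quo_good S D.hF z₀
  refine ⟨fun z => LinearMap.det (S.T (S.ix (F z₀)) i (F z) : Vd 3 →ₗ[ℂ] Vd 3) * g z, (Quo_det_an (S.T_an (Quo_curve S D.hF z₀) hj hi)).mul hg, ?_⟩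
  filter_upwards [hg', Quo_nhds S D.hF hi, Quo_nhds S D.hF hj] with z hz hzi hzj
  exact Quo_transport S D.hF hzj hzi _ hz

theorem Quo_θ_ne (D : Quo_D S v b F ξ E N₀) {z₀ : ℂ} {i : Fin S.A.n} (hi : F z₀ ∈ (S.A.χ i).U) : ∀ᶠ z in 𝓝[≠] z₀, Quo_θ S v F i z ≠ 0 := by
  filter_upwards [S.hit_iso D.dir D.hF z₀, (Quo_nhds S D.hF hi).filter_mono nhdsWithin_le_nhds] with z hz hzi h0
  exact hz ((S.hit_of_cov (D.hF.2.1 z) hzi).mp h0)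

theorem Quo_unique (D : Quo_D S v b F ξ E N₀) {z₀ : ℂ} {i : Fin S.A.n} (hi : F z₀ ∈ (S.A.χ i).U) {g g' : ℂ → ℂ}
    (h : Quo_Rep S v F ξ (fun z => E z ^ N₀) i g z₀) (h' : Quo_Rep S v F ξ (fun z => E z ^ N₀) i g' z₀) : g z₀ = g' z₀ := by
  have h1 : g =ᶠ[𝓝 z₀] g' := by
    refine (h.1.continuousAt.eventuallyEq_nhds_iff_eventuallyEq_nhdsNE h'.1.continuousAt).mp ?_
    filter_upwards [Quo_θ_ne D hi, h.2.filter_mono nhdsWithin_le_nhds, h'.2.filter_mono nhdsWithin_le_nhds] with z hz h2 h3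
    exact smul_left_injective ℂ hz (h2.symm.trans h3)
  exact h1.self_of_nhds

theorem Quo_Rep.eventually {e : ℂ → ℂ} {z₀ : ℂ} {i : Fin S.A.n} {g : ℂ → ℂ} (h : Quo_Rep S v F ξ e i g z₀) : ∀ᶠ z in 𝓝 z₀, Quo_Rep S v F ξ e i g z := by
  filter_upwards [h.1.eventually_analyticAt, h.2.eventually_nhds] with z h1 h2
  exact ⟨h1, h2⟩

open Classical in
/-- the quotient in the chart `i` -/
noncomputable def Quo_g (S : Setting X) (v : Vd 2) (F : ℂ → EN N) (ξ : ℂ → Vd 3) (e : ℂ → ℂ) (i : Fin S.A.n) (z : ℂ) : ℂ :=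
  if h : ∃ g, Quo_Rep S v F ξ e i g z then h.choose z else 0

theorem Quo_g_eq (D : Quo_D S v b F ξ E N₀) {z₀ : ℂ} {i : Fin S.A.n} (hi : F z₀ ∈ (S.A.χ i).U) {g : ℂ → ℂ}
    (h : Quo_Rep S v F ξ (fun z => E z ^ N₀) i g z₀) : Quo_g S v F ξ (fun z => E z ^ N₀) i z₀ = g z₀ := by
  have hex : ∃ g, Quo_Rep S v F ξ (fun z => E z ^ N₀) i g z₀ := ⟨g, h⟩
  rw [Quo_g, dif_pos hex]
  exact Quo_unique D hi hex.choose_spec h

theorem Quo_g_ev (D : Quo_D S v b F ξ E N₀) {z₀ : ℂ} {i : Fin S.A.n} (hi : F z₀ ∈ (S.A.χ i).U) {g : ℂ → ℂ}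
    (h : Quo_Rep S v F ξ (fun z => E z ^ N₀) i g z₀) : ∀ᶠ z in 𝓝 z₀, Quo_g S v F ξ (fun z => E z ^ N₀) i z = g z := by
  filter_upwards [h.eventually, Quo_nhds S D.hF hi] with z h1 h2
  exact Quo_g_eq D h2 h1

theorem Quo_g_rep (D : Quo_D S v b F ξ E N₀) {z₀ : ℂ} {i : Fin S.A.n} (hi : F z₀ ∈ (S.A.χ i).U) :
    Quo_Rep S v F ξ (fun z => E z ^ N₀) i (Quo_g S v F ξ (fun z => E z ^ N₀) i) z₀ := by
  obtain ⟨g, hg⟩ := Quo_rep D hi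
  have h1 := Quo_g_ev D hi hg
  refine ⟨hg.1.congr (h1.mono fun z hz => hz.symm), ?_⟩
  filter_upwards [h1, hg.2] with z hz1 hz2
  rw [hz1, hz2]

/-- the function `P` -/
noncomputable def Quo_P (S : Setting X) (v : Vd 2) (F : ℂ → EN N) (ξ : ℂ → Vd 3) (e : ℂ → ℂ) (z : ℂ) : ℝ :=
  S.kk (S.ix (F z)) (S.q (S.ix (F z)) (F z)) * ‖Quo_g S v F ξ e (S.ix (F z)) z‖ ^ S.m

theorem Quo_P_eq (D : Quo_D S v b F ξ E N₀) {z : ℂ} {j : Fin S.A.n} (hj : F z ∈ (S.A.χ j).U) :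
    Quo_P S v F ξ (fun z => E z ^ N₀) z = S.kk j (S.q j (F z)) * ‖Quo_g S v F ξ (fun z => E z ^ N₀) j z‖ ^ S.m := by
  have hi := Quo_good S D.hF z
  have h1 := Quo_g_rep D hi
  have h2 : Quo_Rep S v F ξ (fun z => E z ^ N₀) j (fun w => LinearMap.det (S.T (S.ix (F z)) j (F w) : Vd 3 →ₗ[ℂ] Vd 3) *
      Quo_g S v F ξ (fun z => E z ^ N₀) (S.ix (F z)) w) z := by
    refine ⟨(Quo_det_an (S.T_an (Quo_curve S D.hF z) hi hj)).mul h1.1, ?_⟩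
    filter_upwards [h1.2, Quo_nhds S D.hF hj, Quo_nhds S D.hF hi] with w hw hwj hwi
    exact Quo_transport S D.hF hwi hwj _ hw
  have h3 := Quo_g_eq D hj h2
  rw [h3, Quo_P, S.kk_trans (D.hF.2.1 z) hi hj, norm_mul, mul_pow]
  ring

end rep

section final

variable {S : Setting X} {v b : Vd 2} {F : ℂ → EN N} {ξ : ℂ → Vd 3} {E : ℂ → ℂ} {N₀ : ℕ}

theorem Quo_kk_nonneg (S : Setting X) (i : Fin S.A.n) (p : Vd 3) : 0 ≤ S.kk i p :=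
  mul_nonneg (Finset.sum_nonneg fun _ _ => norm_nonneg _) (norm_nonneg _)

theorem Quo_P_nonneg (e : ℂ → ℂ) (z : ℂ) : 0 ≤ Quo_P S v F ξ e z := mul_nonneg (Quo_kk_nonneg S _ _) (by positivity)

theorem Quo_P_local (D : Quo_D S v b F ξ E N₀) (z₀ : ℂ) : ∀ᶠ z in 𝓝 z₀, S.kk (S.ix (F z₀)) (S.q (S.ix (F z₀)) (F z)) *
    ‖Quo_g S v F ξ (fun z => E z ^ N₀) (S.ix (F z₀)) z‖ ^ S.m = Quo_P S v F ξ (fun z => E z ^ N₀) z := by
  filter_upwards [Quo_nhds S D.hF (Quo_good S D.hF z₀)] with z hz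
  exact (Quo_P_eq D hz).symm

theorem Quo_P_cont (D : Quo_D S v b F ξ E N₀) : Continuous (Quo_P S v F ξ (fun z => E z ^ N₀)) := by
  rw [continuous_iff_continuousAt]
  intro z₀
  have hi := Quo_good S D.hF z₀
  have h1 : ContinuousAt (fun z => S.q (S.ix (F z₀)) (F z)) z₀ := (S.q_an (Quo_curve S D.hF z₀) hi).continuousAt
  have h2 : ContinuousAt (fun z => S.kk (S.ix (F z₀)) (S.q (S.ix (F z₀)) (F z))) z₀ := (S.kk_cont (S.ix (F z₀)) (Quo_ball S D.hF hi)).comp_of_eq h1 rfl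
  have h3 : ContinuousAt (fun z => ‖Quo_g S v F ξ (fun z => E z ^ N₀) (S.ix (F z₀)) z‖ ^ S.m) z₀ := ((Quo_g_rep D hi).1.continuousAt.norm).pow _
  exact (h2.mul h3).congr (Quo_P_local D z₀)

theorem Quo_P_sub (D : Quo_D S v b F ξ E N₀) {c L r₀ c₁ K κ₀ : ℝ} (hdat : S.Dat v c L r₀ c₁ K) (hκ₀ : 0 < κ₀)
    (hsub : ∀ (i : Fin S.A.n) (p : ℂ → Vd 3) (c : ℂ → ℂ) (z₀ : ℂ), AnalyticAt ℂ p z₀ → ‖p z₀‖ ≤ 1 / 2 → AnalyticAt ℂ c z₀ → c z₀ ≠ 0 →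
    Sub (fun z => S.kk i (p z) * ‖c z‖ ^ S.m) z₀ (κ₀ * ‖deriv p z₀‖ ^ 2)) (z₀ : ℂ) (h0 : 0 < Quo_P S v F ξ (fun z => E z ^ N₀) z₀) :
    Sub (Quo_P S v F ξ (fun z => E z ^ N₀)) z₀ (κ₀ * c₁ ^ 2) := by
  have hi := Quo_good S D.hF z₀
  have hg : Quo_g S v F ξ (fun z => E z ^ N₀) (S.ix (F z₀)) z₀ ≠ 0 := by
    intro h1
    rw [Quo_P, h1, norm_zero, zero_pow (Nat.one_le_iff_ne_zero.mp S.m_pos), mul_zero] at h0
    exact lt_irrefl _ h0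
  have h1 := hsub (S.ix (F z₀)) (fun z => S.q (S.ix (F z₀)) (F z)) _ z₀ (S.q_an (Quo_curve S D.hF z₀) hi) (S.good_ix (D.hF.2.1 z₀)).2.2 (Quo_g_rep D hi).1 hg
  have h2 := h1.congr (Quo_P_local D z₀)
  refine h2.anti ?_
  have h3 : c₁ ≤ ‖deriv (fun z => S.q (S.ix (F z₀)) (F z)) z₀‖ := hdat.lc.der_ge F (hdat.sub b D.hF) (S.ix (F z₀)) z₀ (S.good_ix (D.hF.2.1 z₀))
  have h4 := hdat.lc.c₁_pos
  gcongr

theorem Quo_P_zero (D : Quo_D S v b F ξ E N₀) (hE0 : ∃ z, E z ≠ 0) (hP : ∀ z, Quo_P S v F ξ (fun z => E z ^ N₀) z = 0) (z₀ : ℂ) : ξ z₀ = 0 := by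
  have hi := Quo_good S D.hF z₀
  have hEne : ∀ᶠ z in 𝓝[≠] z₀, E z ≠ 0 := by
    rcases (D.hE.analyticAt z₀).eventually_eq_zero_or_eventually_ne_zero with h | h
    · exfalso
      have h1 : AnalyticOnNhd ℂ E Set.univ := fun z _ => D.hE.analyticAt z
      have h2 := h1.eq_of_eventuallyEq (g := fun _ => (0 : ℂ)) (fun z _ => analyticAt_const) h
      obtain ⟨z, hz⟩ := hE0
      exact hz (congrFun h2 z)
    · exact h
  have hca := Quo_cross_an (Quo_h_an S D.hF D.field hi) (Quo_t_an S D.hF hi)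
  have h1 : (fun z => crossProduct (Quo_h S F ξ (S.ix (F z₀)) z) (Quo_t S F (S.ix (F z₀)) z)) =ᶠ[𝓝 z₀] fun _ => (0 : Vd 3) := by
    refine (hca.continuousAt.eventuallyEq_nhds_iff_eventuallyEq_nhdsNE continuousAt_const).mp ?_
    filter_upwards [hEne, (Quo_nhds S D.hF hi).filter_mono nhdsWithin_le_nhds] with z hz hzi
    have h2 := Quo_P_eq D hzi
    rw [hP z] at h2
    have h3 : S.kk (S.ix (F z₀)) (S.q (S.ix (F z₀)) (F z)) ≠ 0 := (S.kk_pos _ (Quo_ball S D.hF hzi)).ne'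
    have h4 : Quo_g S v F ξ (fun z => E z ^ N₀) (S.ix (F z₀)) z = 0 := by
      have h5 := (mul_eq_zero.mp h2.symm).resolve_left h3
      exact norm_eq_zero.mp (pow_eq_zero_iff (Nat.one_le_iff_ne_zero.mp S.m_pos) |>.mp h5)
    have h6 := (Quo_g_rep D hzi).2.self_of_nhds
    rw [h4, zero_smul] at h6
    exact (smul_eq_zero.mp h6).resolve_left (pow_ne_zero _ hz)
  have h2 := h1.self_of_nhds
  have h3 : fderiv ℂ (S.β (S.ix (F z₀))) (S.q (S.ix (F z₀)) (F z₀)) (Quo_t S F (S.ix (F z₀)) z₀) = v := S.der_beta D.hF hi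
  have ht : Quo_t S F (S.ix (F z₀)) z₀ ≠ 0 := by
    intro h0
    rw [h0, map_zero] at h3
    exact D.dir.ne h3.symm
  obtain ⟨a, ha⟩ := Quo_cross_zero h2 ht
  have h4 : fderiv ℂ (S.β (S.ix (F z₀))) (S.q (S.ix (F z₀)) (F z₀)) (Quo_h S F ξ (S.ix (F z₀)) z₀) = 0 := by
    rw [Quo_h, S.T_beta (D.hF.2.1 z₀) hi hi, D.field.ver z₀]
  rw [ha, map_smul, h3] at h4
  have h5 : a = 0 := (smul_eq_zero.mp h4).resolve_right D.dir.ne
  rw [h5, zero_smul, Quo_h, S.T_self (D.hF.2.1 z₀) hi] at ha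
  exact ha

theorem Quo_kk_bound (S : Setting X) : ∃ B : ℝ, 0 ≤ B ∧ ∀ i (p : Vd 3), ‖p‖ ≤ 1 / 2 → S.kk i p ≤ B := by
  have h1 : ∀ i, ∃ B : ℝ, ∀ p ∈ closedBall (0 : Vd 3) (1 / 2), ‖S.kk i p‖ ≤ B := fun i => by
    refine (isCompact_closedBall (0 : Vd 3) (1 / 2)).exists_bound_of_continuousOn fun p hp => (S.kk_cont i ?_).continuousWithinAt
    rw [mem_ball_zero_iff]
    rw [mem_closedBall_zero_iff] at hp
    linarith
  choose B hB using h1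
  refine ⟨∑ i, |B i|, Finset.sum_nonneg fun i _ => abs_nonneg _, fun i p hp => ?_⟩
  calc S.kk i p ≤ ‖S.kk i p‖ := Real.le_norm_self _
    _ ≤ B i := hB i p (mem_closedBall_zero_iff.mpr hp)
    _ ≤ |B i| := le_abs_self _
    _ ≤ ∑ i, |B i| := Finset.single_le_sum (f := fun i => |B i|) (fun i _ => abs_nonneg _) (Finset.mem_univ i)

theorem Quo_g_bound (D : Quo_D S v b F ξ E N₀) {c L r₀ c₁ K : ℝ} (hdat : S.Dat v c L r₀ c₁ K) {CE C κ CT c₂ s' : ℝ} (hCE : 0 ≤ CE) (hC : 0 ≤ C) (hκ : 0 ≤ κ)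
    (hE : ∀ z, ‖E z‖ ≤ Real.exp (CE * (1 + ‖z‖))) (hξ : ∀ z, ‖ξ z‖ ≤ C * Real.exp (κ * ‖z‖ ^ 2)) (hCT : 1 ≤ CT)
    (hT : ∀ i j x, Good (S.A.χ i) x → Good (S.A.χ j) x → ‖S.T i j x‖ ≤ CT) (hc₂ : 0 < c₂) {z₀ : ℂ} (hs0 : 0 < s') (hs1 : s' ≤ 1) (hs2 : s' < r₀)
    (hlow : ∀ z, ‖z - z₀‖ = s' → c₂ ≤ ‖S.cov v (S.ix (F z₀)) (S.q (S.ix (F z₀)) (F z))‖) :
    ‖Quo_g S v F ξ (fun z => E z ^ N₀) (S.ix (F z₀)) z₀‖ ≤
      2 * CT * C * K / c₂ * Real.exp (N₀ * CE * (2 + ‖z₀‖) + κ * (‖z₀‖ + 1) ^ 2) := by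
  have hBC := hdat.sub b D.hF
  have hgood : ∀ z ∈ ball z₀ r₀, Good (S.A.χ (S.ix (F z₀))) (F z) := fun z hz =>
    hdat.lc.good F hBC (F z₀) (D.hF.2.1 z₀) z₀ (by rw [dist_self]; have := S.A.δ_pos; positivity) z hz
  have hK : 0 ≤ K := zero_le_one.trans hdat.lc.one_le
  have hd : DiffContOnCl ℂ (Quo_g S v F ξ (fun z => E z ^ N₀) (S.ix (F z₀))) (ball z₀ s') := by
    apply DifferentiableOn.diffContOnCl
    intro z hz
    have hz1 : z ∈ ball z₀ r₀ := by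
      rw [closure_ball _ hs0.ne'] at hz
      exact closedBall_subset_ball hs2 hz
    exact (Quo_g_rep D (hgood z hz1).2.1).1.differentiableAt.differentiableWithinAt
  refine Complex.norm_le_of_forall_mem_frontier_norm_le (isBounded_ball) hd ?_ (subset_closure (mem_ball_self hs0))
  intro z hz
  rw [frontier_ball _ hs0.ne', mem_sphere_iff_norm] at hz
  have hzb : z ∈ ball z₀ r₀ := by rw [mem_ball_iff_norm, hz]; exact hs2
  have hzg := hgood z hzb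
  have hnz : ‖z‖ ≤ ‖z₀‖ + 1 := by
    calc ‖z‖ = ‖z₀ + (z - z₀)‖ := by ring_nf
      _ ≤ ‖z₀‖ + ‖z - z₀‖ := norm_add_le _ _
      _ ≤ ‖z₀‖ + 1 := by rw [hz]; linarith
  have h1 := (Quo_g_rep D hzg.2.1).2.self_of_nhds
  have h2 : ‖Quo_w S F ξ (fun z => E z ^ N₀) (S.ix (F z₀)) z‖ = ‖Quo_g S v F ξ (fun z => E z ^ N₀) (S.ix (F z₀)) z‖ * ‖Quo_θ S v F (S.ix (F z₀)) z‖ := by
    rw [h1, norm_smul]
  have h3 : ‖Quo_g S v F ξ (fun z => E z ^ N₀) (S.ix (F z₀)) z‖ * c₂ ≤ ‖Quo_w S F ξ (fun z => E z ^ N₀) (S.ix (F z₀)) z‖ := by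
    rw [h2]
    exact mul_le_mul_of_nonneg_left (hlow z hz) (norm_nonneg _)
  have hh : ‖Quo_h S F ξ (S.ix (F z₀)) z‖ ≤ CT * (C * Real.exp (κ * (‖z₀‖ + 1) ^ 2)) := by
    calc ‖Quo_h S F ξ (S.ix (F z₀)) z‖ ≤ ‖S.T (S.ix (F z)) (S.ix (F z₀)) (F z)‖ * ‖ξ z‖ := ContinuousLinearMap.le_opNorm _ _
      _ ≤ CT * (C * Real.exp (κ * (‖z₀‖ + 1) ^ 2)) := by
        have h4 : ‖ξ z‖ ≤ C * Real.exp (κ * (‖z₀‖ + 1) ^ 2) := (hξ z).trans (by gcongr)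
        exact mul_le_mul (hT _ _ _ (S.good_ix (D.hF.2.1 z)) hzg) h4 (norm_nonneg _) (by linarith)
  have ht : ‖Quo_t S F (S.ix (F z₀)) z‖ ≤ K := hdat.lc.der_le F hBC (S.ix (F z₀)) z hzg
  have hEz : ‖E z ^ N₀‖ ≤ Real.exp (N₀ * CE * (2 + ‖z₀‖)) := by
    rw [norm_pow]
    calc ‖E z‖ ^ N₀ ≤ (Real.exp (CE * (2 + ‖z₀‖))) ^ N₀ := by
          refine pow_le_pow_left₀ (norm_nonneg _) ((hE z).trans (Real.exp_le_exp.mpr ?_)) _
          exact mul_le_mul_of_nonneg_left (by linarith) hCE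
      _ = Real.exp (N₀ * CE * (2 + ‖z₀‖)) := by
          rw [← Real.exp_nat_mul, mul_assoc]
  have h5 : ‖Quo_w S F ξ (fun z => E z ^ N₀) (S.ix (F z₀)) z‖ ≤
      Real.exp (N₀ * CE * (2 + ‖z₀‖)) * (2 * (CT * (C * Real.exp (κ * (‖z₀‖ + 1) ^ 2)) * K)) := by
    rw [Quo_w, norm_smul]
    refine mul_le_mul hEz ((Quo_cross_norm _ _).trans ?_) (norm_nonneg _) (Real.exp_pos _).le
    exact mul_le_mul_of_nonneg_left (mul_le_mul hh ht (norm_nonneg _) (by positivity)) (by norm_num)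
  have h6 : ‖Quo_g S v F ξ (fun z => E z ^ N₀) (S.ix (F z₀)) z‖ ≤
      Real.exp (N₀ * CE * (2 + ‖z₀‖)) * (2 * (CT * (C * Real.exp (κ * (‖z₀‖ + 1) ^ 2)) * K)) / c₂ := by
    rw [le_div_iff₀ hc₂]
    exact h3.trans h5
  refine h6.trans (le_of_eq ?_)
  rw [Real.exp_add]
  ring

end final

theorem Setting.exists_P (S : Setting X) {v : Vd 2} (hD : S.Dir v) : ∃ κ₁ : ℝ, 0 < κ₁ ∧ ∀ b, ∀ F ∈ S.G v b, ∀ ξ : ℂ → Vd 3, S.Field F ξ → ∀ κ C : ℝ, 0 ≤ κ →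
    (∀ z, ‖ξ z‖ ≤ C * Real.exp (κ * ‖z‖ ^ 2)) → ∃ (P : ℂ → ℝ) (C' : ℝ), (∀ z, 0 ≤ P z) ∧ Continuous P ∧ (∀ z, 0 < P z → Sub P z κ₁) ∧
      (∀ z, P z ≤ C' * Real.exp (2 * S.m * κ * ‖z‖ ^ 2 + C' * ‖z‖)) ∧ ((∀ z, P z = 0) → ∀ z, ξ z = 0) := by
  obtain ⟨c, L, r₀, c₁, K, hdat⟩ := S.exists_dat hD.ne
  obtain ⟨κ₀, hκ₀, hsub⟩ := S.kk_sub
  obtain ⟨N₀, hN₀⟩ := S.exists_order hD
  have hc₁ := hdat.lc.c₁_pos
  refine ⟨κ₀ * c₁ ^ 2, by positivity, ?_⟩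
  intro b F hF ξ hξ κ C hκ hC
  obtain ⟨E, CE, hE, hhit, hzE, hCE, hEb⟩ := S.exists_kill hD hF
  have D : Quo_D S v b F ξ E N₀ := ⟨hD, hF, hξ, hE, hhit, hN₀ b F hF⟩
  obtain ⟨CT, hCT, hT⟩ := S.T_bound
  obtain ⟨Bk, hBk0, hBk⟩ := Quo_kk_bound S
  have hr₀ := hdat.lc.r₀_pos
  have hs : 0 < min 1 (r₀ / 2) := lt_min one_pos (by positivity)
  obtain ⟨c₂, hc₂, hlow⟩ := S.exists_lower hD hdat hs (min_le_right _ _)
  have hC0 : 0 ≤ C := by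
    have h1 := (norm_nonneg _).trans (hC 0)
    by_contra h2
    exact absurd h1 (not_le.mpr (mul_neg_of_neg_of_pos (not_le.mp h2) (Real.exp_pos _)))
  have hK : 0 ≤ K := zero_le_one.trans hdat.lc.one_le
  set A₁ : ℝ := Bk * ((2 * CT * C * K / c₂) ^ S.m * Real.exp (S.m * (2 * (N₀ * CE) + κ))) with hA₁
  set A₂ : ℝ := S.m * (N₀ * CE + 2 * κ) with hA₂
  have hA₁0 : 0 ≤ A₁ := by positivity
  have hA₂0 : 0 ≤ A₂ := by positivity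
  refine ⟨Quo_P S v F ξ (fun z => E z ^ N₀), A₁ + A₂, Quo_P_nonneg _, Quo_P_cont D, Quo_P_sub D hdat hκ₀ hsub, fun z₀ => ?_, Quo_P_zero D hzE⟩
  obtain ⟨s', hs', hlow'⟩ := hlow b F hF z₀
  have hs'0 : 0 < s' := lt_of_lt_of_le (by positivity) hs'.1
  have hs'1 : s' ≤ 1 := hs'.2.trans (min_le_left _ _)
  have hs'2 : s' < r₀ := lt_of_le_of_lt (hs'.2.trans (min_le_right _ _)) (by linarith)
  have hg := Quo_g_bound D hdat hCE hC0 hκ hEb hC hCT hT hc₂ hs'0 hs'1 hs'2 hlow'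
  have h1 : Quo_P S v F ξ (fun z => E z ^ N₀) z₀ ≤
      Bk * (2 * CT * C * K / c₂ * Real.exp (N₀ * CE * (2 + ‖z₀‖) + κ * (‖z₀‖ + 1) ^ 2)) ^ S.m :=
    mul_le_mul (hBk _ _ (S.good_ix (hF.2.1 z₀)).2.2) (pow_le_pow_left₀ (norm_nonneg _) hg _) (by positivity) hBk0
  refine h1.trans ?_
  have h2 : Bk * (2 * CT * C * K / c₂ * Real.exp (N₀ * CE * (2 + ‖z₀‖) + κ * (‖z₀‖ + 1) ^ 2)) ^ S.m =
      A₁ * Real.exp (S.m * κ * ‖z₀‖ ^ 2 + A₂ * ‖z₀‖) := by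
    rw [mul_pow, ← Real.exp_nat_mul, hA₁, hA₂]
    have h3 : (S.m : ℝ) * (N₀ * CE * (2 + ‖z₀‖) + κ * (‖z₀‖ + 1) ^ 2) =
        S.m * (2 * (N₀ * CE) + κ) + (S.m * κ * ‖z₀‖ ^ 2 + S.m * (N₀ * CE + 2 * κ) * ‖z₀‖) := by ring
    rw [h3, Real.exp_add]
    ring
  rw [h2]
  have h3 : (S.m : ℝ) * κ * ‖z₀‖ ^ 2 + A₂ * ‖z₀‖ ≤ 2 * S.m * κ * ‖z₀‖ ^ 2 + (A₁ + A₂) * ‖z₀‖ := by
    have h4 : 0 ≤ (S.m : ℝ) * κ * ‖z₀‖ ^ 2 := by positivity
    have h5 : 0 ≤ A₁ * ‖z₀‖ := by positivity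
    nlinarith
  exact mul_le_mul (by linarith) (Real.exp_le_exp.mpr h3) (Real.exp_pos _).le (by linarith)

end Pool.Agent.TH
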