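import Pool.Agent.TH.HitC
import Pool.Agent.TH.CritX
import Pool.Agent.TH.RDir
import Mathlib.MeasureTheory.Measure.Lebesgue.VolumeOfBalls

/-!
# TH Rare: the hits have density zero

Let `K = {y : ℂ² | ∃ F ∈ G v y, Hit v (F 0)}`.  It is `Λ`-periodic (`G_lat`) and closed (`exists_limit_of`: `y n → y`, `F n → H ∈ G v y`; in a chart `i` good at `H 0`: `cov v i (q i (F n 0)) = 0` tends to
`cov v i (q i (H 0))`, `hit_of_cov`), and `om v '' K ⊆ Q`, `Q` countable (`exists_crit`).  `K' = {y | ∃ s : ℂ, ‖s‖ ≤ 1 ∧ y + s v ∈ K}` has the same properties (`om v (s v) = 0`).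

Let `e` be the vector of `exists_real`, `om v e ≠ 0`.  Given `n ≥ 1` choose a real `t` such that `i t om v e` is not in the countable set `Q - Q` for `i = ± 1, ..., ± n`; put `t_i = i t` (`0 ≤ i < n`).
The sets `K' + t_i e` have pairwise positive distance: otherwise `y k, y' k ∈ K'` with `y k + t_i e - y' k - t_j e → 0`; add the same lattice vector, so they are bounded (`S.cpt`), limits `y, y' ∈ K'` with
`om v y - om v y' = (t_j - t_i) om v e`, contradiction.  So there is `ε > 0` with: `‖y + t_i e - y' - t_j e‖ ≥ 2 ε` for `y, y' ∈ K'`, `i ≠ j`.  Take `z_i`, `l_i ∈ Λ` with `‖z_i v + l_i - t_i e‖ < ε`.  For every `b` the set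
`𝒯 = {z | b + z v ∈ K'}` is closed, and the translates `𝒯 + z_i` are pairwise disjoint.  So `n area (𝒯 ∩ ball z₀ (R + 1)) ≤ π (R + 1 + max |z_i|)²`.

Let `F ∈ G v b`, `H` the set of the hits in `closedBall z₀ R` (finite: cover by finitely many discs of radius `s`, `exists_count`).  For a hit `z` we have `b + z v ∈ K` (`G_trans`), so `closedBall z 1 ⊆ 𝒯`.  Every point is
in at most `n₀` of the discs `ball z s`, `z ∈ H`, so `card H π s² = ∫ ∑_{z ∈ H} 1_{ball z s} ≤ n₀ area (𝒯 ∩ ball z₀ (R + 2)) ≤ n₀ π (R + 2 + max |z_i|)² / n`.  Take `n` large, then `R₀` large.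
-/

set_option autoImplicit false

open Topology Filter Metric

namespace Pool.Agent.TH

open Pool.Agent.H36.BP (EN fs wd Sub)
open Pool.Agent.H14.PP (IsCone CurveAt Tan)
open Pool.Agent.H62.EF (MN pr)
open Pool.Agent.H5.BD (BC evp)
open Pool.Agent.AD (Vd Chart Charts TorusMapV DiscreteSub)
open Pool.Agent.AD.BD (Atlas LC Good qc)

variable {N : ℕ} {X : Set (EN N)}

private theorem Rare_om_add (v a b : Vd 2) : om v (a + b) = om v a + om v b := by
  simp only [om, Pi.add_apply]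
  ring

private theorem Rare_om_smul (v a : Vd 2) (c : ℂ) : om v (c • a) = c * om v a := by
  simp only [om, Pi.smul_apply, smul_eq_mul]
  ring

private theorem Rare_om_self (v : Vd 2) (z : ℂ) : om v (z • v) = 0 := by
  simp only [om, Pi.smul_apply, smul_eq_mul]
  ring

/-- a limit of hits is a hit -/
private theorem Rare_hit_lim (S : Setting X) {v : Vd 2} {𝒰 : Ultrafilter ℕ} {F : ℕ → ℂ → EN N} {H : ℂ → EN N} (hconv : S.Conv 𝒰 F H)
    (hFX : ∀ᶠ n in (𝒰 : Filter ℕ), F n 0 ∈ X) (hHX : H 0 ∈ X) (hh : ∀ᶠ n in (𝒰 : Filter ℕ), S.Hit v (F n 0)) : S.Hit v (H 0) := by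
  have hg := S.good_ix hHX
  unfold Setting.Hit
  generalize S.ix (H 0) = i at hg
  obtain ⟨r, hr, h1, -, h3⟩ := hconv.chart 0 i hg
  have h0 : (0 : ℂ) ∈ ball (0 : ℂ) r := mem_ball_self hr
  have h4 : Tendsto (fun n => S.q i (F n 0)) 𝒰 (𝓝 (S.q i (H 0))) := h3.tendsto_at h0
  have hq : S.q i (H 0) ∈ ball (0 : Vd 3) 2 := by
    rw [mem_ball_zero_iff]
    exact lt_of_le_of_lt hg.2.2 (by norm_num)
  have h5 : ContinuousAt (S.cov v i) (S.q i (H 0)) := by
    refine continuousAt_pi.2 fun l => ?_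
    have h6 : ContinuousAt (fderiv ℂ (S.β i)) (S.q i (H 0)) := (S.β_an i _ hq).fderiv.continuousAt
    have h7 : ContinuousAt (fun p => fderiv ℂ (S.β i) p (Pi.single l 1)) (S.q i (H 0)) := h6.clm_apply continuousAt_const
    have h8 : ContinuousAt (fun p => fderiv ℂ (S.β i) p (Pi.single l 1) 0) (S.q i (H 0)) := (continuous_apply 0).continuousAt.comp h7
    have h9 : ContinuousAt (fun p => fderiv ℂ (S.β i) p (Pi.single l 1) 1) (S.q i (H 0)) := (continuous_apply 1).continuousAt.comp h7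
    exact (continuousAt_const.mul h9).sub (continuousAt_const.mul h8)
  have h8 : Tendsto (fun n => S.cov v i (S.q i (F n 0))) 𝒰 (𝓝 (S.cov v i (S.q i (H 0)))) := h5.tendsto.comp h4
  have h9 : Tendsto (fun n => S.cov v i (S.q i (F n 0))) 𝒰 (𝓝 0) := by
    refine (tendsto_congr' ?_).2 tendsto_const_nhds
    filter_upwards [hFX, h1, hh] with n a b c
    exact (S.hit_of_cov a (b 0 h0)).2 c
  exact tendsto_nhds_unique h8 h9

/-- the limit of points of a compact ball along an ultrafilter -/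
private theorem Rare_cpt {E : Type*} [NormedAddCommGroup E] [ProperSpace E] (𝒰 : Ultrafilter ℕ) {x : ℕ → E} {C : ℝ} (h : ∀ n, ‖x n‖ ≤ C) : ∃ x₀ : E, Tendsto x 𝒰 (𝓝 x₀) := by
  obtain ⟨x₀, -, hx₀⟩ : ∃ x₀ ∈ closedBall (0 : E) C, (𝒰.map x : Filter E) ≤ 𝓝 x₀ := by
    refine (isCompact_closedBall (0 : E) C).ultrafilter_le_nhds (𝒰.map x) ?_
    rw [le_principal_iff]
    refine Eventually.of_forall (f := (𝒰 : Filter ℕ)) fun n => ?_
    rw [mem_closedBall_zero_iff]
    exact h n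
  exact ⟨x₀, hx₀⟩

/-- two hits do not differ by a vector near `c` -/
private theorem Rare_sep (S : Setting X) {v : Vd 2} (hv : v ≠ 0) {Q : Set ℂ} (hQ : ∀ x ∈ X, S.Hit v x → ∀ y : Vd 2, S.u x - y ∈ S.Λ → om v y ∈ Q) {c : Vd 2}
    (hc : ∀ p ∈ Q, ∀ q ∈ Q, om v c ≠ q - p) :
    ∃ ε : ℝ, 0 < ε ∧ ∀ (y y' : Vd 2) (s s' : ℂ), ‖s‖ ≤ 1 → ‖s'‖ ≤ 1 → (∃ F ∈ S.G v (y + s • v), S.Hit v (F 0)) → (∃ F ∈ S.G v (y' + s' • v), S.Hit v (F 0)) →
      ε ≤ ‖y + c - y'‖ := by
  by_contra hcon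
  push Not at hcon
  choose y y' s s' hs hs' hF hF' hlt using fun n : ℕ => hcon (1 / ((n : ℝ) + 1)) (by positivity)
  choose F hFG hFh using hF
  choose F' hFG' hFh' using hF'
  obtain ⟨C, hC⟩ := S.cpt
  choose l hl hlC using fun n => hC (y n)
  obtain ⟨𝒰, hle⟩ : ∃ 𝒰 : Ultrafilter ℕ, (𝒰 : Filter ℕ) ≤ atTop := ⟨Filter.hyperfilter ℕ, Nat.hyperfilter_le_atTop⟩
  obtain ⟨y₀, hy₀⟩ := Rare_cpt 𝒰 hlC
  obtain ⟨s₀, hs₀⟩ := Rare_cpt 𝒰 hs
  obtain ⟨s₁, hs₁⟩ := Rare_cpt 𝒰 hs'
  have hd : Tendsto (fun n => y n + c - y' n) 𝒰 (𝓝 0) := by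
    have h1 : Tendsto (fun n => y n + c - y' n) atTop (𝓝 0) :=
      squeeze_zero_norm (fun n => (hlt n).le) tendsto_one_div_add_atTop_nhds_zero_nat
    exact h1.mono_left hle
  have e1 : Tendsto (fun n => y n - l n + s n • v) 𝒰 (𝓝 (y₀ + s₀ • v)) := hy₀.add (hs₀.smul_const v)
  have e2 : Tendsto (fun n => y' n - l n + s' n • v) 𝒰 (𝓝 (y₀ + c + s₁ • v)) := by
    have h1 : Tendsto (fun n => (y n - l n) + c - (y n + c - y' n) + s' n • v) 𝒰 (𝓝 (y₀ + c - 0 + s₁ • v)) :=
      ((hy₀.add_const c).sub hd).add (hs₁.smul_const v)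
    rw [sub_zero] at h1
    refine h1.congr fun n => ?_
    abel
  obtain ⟨H, hHG, hHc⟩ := S.exists_limit_of hv 𝒰 _ _ e1 F (Eventually.of_forall fun n => by
    have h1 : y n - l n + s n • v = y n + s n • v + (-l n) := by abel
    rw [h1, S.G_lat v _ (S.Λ.neg_mem (hl n))]
    exact hFG n)
  obtain ⟨H', hHG', hHc'⟩ := S.exists_limit_of hv 𝒰 _ _ e2 F' (Eventually.of_forall fun n => by
    have h1 : y' n - l n + s' n • v = y' n + s' n • v + (-l n) := by abel
    rw [h1, S.G_lat v _ (S.Λ.neg_mem (hl n))]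
    exact hFG' n)
  have k1 : S.Hit v (H 0) := Rare_hit_lim S hHc (Eventually.of_forall fun n => (hFG n).2.1 0) (hHG.2.1 0) (Eventually.of_forall hFh)
  have k2 : S.Hit v (H' 0) := Rare_hit_lim S hHc' (Eventually.of_forall fun n => (hFG' n).2.1 0) (hHG'.2.1 0) (Eventually.of_forall hFh')
  have m1 := hQ _ (hHG.2.1 0) k1 _ (hHG.2.2 0)
  have m2 := hQ _ (hHG'.2.1 0) k2 _ (hHG'.2.2 0)
  refine hc _ m1 _ m2 ?_
  simp only [Rare_om_add, Rare_om_self]
  ring

/-- a family of discs which covers every point at most `n₀` times -/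
private theorem Rare_area {ι : Type*} (T : Finset ι) (a : ι → ℂ) {s : ℝ} (hs : 0 < s) {n₀ : ℕ} {z₀ : ℂ} {ρ : ℝ} (hρ : 0 ≤ ρ)
    (hin : ∀ i ∈ T, ‖a i - z₀‖ + s ≤ ρ) (hcov : ∀ (w : ℂ) (T' : Finset ι), T' ⊆ T → (∀ i ∈ T', ‖w - a i‖ < s) → T'.card ≤ n₀) : (T.card : ℝ) * s ^ 2 ≤ n₀ * ρ ^ 2 := by
  classical
  have h1 : ∑ i ∈ T, MeasureTheory.volume (ball (a i) s) ≤ n₀ * MeasureTheory.volume (ball z₀ ρ) := by
    calc ∑ i ∈ T, MeasureTheory.volume (ball (a i) s) = ∑ i ∈ T, ∫⁻ w, (ball (a i) s).indicator 1 w := by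
          refine Finset.sum_congr rfl fun i _ => ?_
          rw [MeasureTheory.lintegral_indicator_one measurableSet_ball]
      _ = ∫⁻ w, ∑ i ∈ T, (ball (a i) s).indicator 1 w :=
          (MeasureTheory.lintegral_finsetSum _ fun i _ => measurable_one.indicator measurableSet_ball).symm
      _ ≤ ∫⁻ w, (n₀ : ENNReal) * (ball z₀ ρ).indicator 1 w := by
          refine MeasureTheory.lintegral_mono fun w => ?_
          have h2 : ∑ i ∈ T, (ball (a i) s).indicator (1 : ℂ → ENNReal) w = ((T.filter fun i => w ∈ ball (a i) s).card : ENNReal) := by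
            rw [Finset.card_filter]
            push_cast
            refine Finset.sum_congr rfl fun i _ => ?_
            rw [Set.indicator_apply]
            rfl
          have h3 : ∀ i ∈ T.filter fun i => w ∈ ball (a i) s, ‖w - a i‖ < s := by
            intro i hi
            have h4 := (Finset.mem_filter.1 hi).2
            rwa [mem_ball_iff_norm] at h4
          show ∑ i ∈ T, (ball (a i) s).indicator (1 : ℂ → ENNReal) w ≤ (n₀ : ENNReal) * (ball z₀ ρ).indicator 1 w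
          rw [h2]
          by_cases hw : w ∈ ball z₀ ρ
          · rw [Set.indicator_of_mem hw, Pi.one_apply, mul_one]
            exact_mod_cast hcov w _ (Finset.filter_subset _ _) h3
          · have h4 : (T.filter fun i => w ∈ ball (a i) s) = ∅ := by
              rw [Finset.filter_eq_empty_iff]
              intro i hi hwi
              apply hw
              rw [mem_ball_iff_norm] at hwi ⊢
              have h5 := hin i hi
              have h6 : ‖w - z₀‖ ≤ ‖w - a i‖ + ‖a i - z₀‖ := by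
                have := norm_add_le (w - a i) (a i - z₀)
                rwa [sub_add_sub_cancel] at this
              linarith
            rw [h4, Finset.card_empty, Nat.cast_zero]
            exact zero_le
      _ = n₀ * MeasureTheory.volume (ball z₀ ρ) := by
          rw [MeasureTheory.lintegral_const_mul _ (measurable_one.indicator measurableSet_ball), MeasureTheory.lintegral_indicator_one measurableSet_ball]
  simp only [Complex.volume_ball, Finset.sum_const, nsmul_eq_mul] at h1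
  have h2 := ENNReal.toReal_mono (by
    refine ENNReal.mul_ne_top (ENNReal.natCast_ne_top _) (ENNReal.mul_ne_top (ENNReal.pow_ne_top ENNReal.ofReal_ne_top) ENNReal.coe_ne_top)) h1
  simp only [ENNReal.toReal_mul, ENNReal.toReal_natCast, ENNReal.toReal_pow, ENNReal.toReal_ofReal hs.le, ENNReal.toReal_ofReal hρ, ENNReal.coe_toReal, NNReal.coe_real_pi] at h2
  have h3 := Real.pi_pos
  rw [← mul_assoc, ← mul_assoc] at h2
  exact le_of_mul_le_mul_right h2 h3

theorem Setting.rare (S : Setting X) {v : Vd 2} (hD : S.Dir v) {δ : ℝ} (hδ : 0 < δ) : ∃ R₀ : ℝ, 0 < R₀ ∧ ∀ b, ∀ F ∈ S.G v b, ∀ (z₀ : ℂ) (R : ℝ), R₀ ≤ R →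
    {z | ‖z - z₀‖ ≤ R ∧ S.Hit v (F z)}.Finite ∧ ({z | ‖z - z₀‖ ≤ R ∧ S.Hit v (F z)}.ncard : ℝ) ≤ δ * R ^ 2 := by
  obtain ⟨s, n₀, hs, hs1, hcount⟩ := S.exists_count hD
  obtain ⟨e, he0, he⟩ := S.exists_real hD
  obtain ⟨Q, hQc, hQ⟩ := S.exists_crit v
  -- the number of the translates
  obtain ⟨n, hn⟩ := exists_nat_ge (4 * (n₀ : ℝ) / (δ * s ^ 2) + 1)
  have hn1 : (1 : ℝ) ≤ n := by
    have : 0 ≤ 4 * (n₀ : ℝ) / (δ * s ^ 2) := by positivity
    linarith
  have hn2 : 4 * (n₀ : ℝ) ≤ δ * (n * s ^ 2) := by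
    have h1 : 4 * (n₀ : ℝ) / (δ * s ^ 2) ≤ n := by linarith
    rw [div_le_iff₀ (by positivity)] at h1
    linarith
  -- the time
  obtain ⟨t, ht⟩ : ∃ t : ℝ, ∀ k : ℤ, k ≠ 0 → ∀ p ∈ Q, ∀ q ∈ Q, (k : ℂ) * t * om v e ≠ q - p := by
    have hB : ((fun x : ℤ × ℂ × ℂ => ((x.2.2 - x.2.1) / ((x.1 : ℂ) * om v e)).re) '' (Set.univ ×ˢ (Q ×ˢ Q))).Countable :=
      (Set.countable_univ.prod (hQc.prod hQc)).image _
    obtain ⟨t, ht⟩ := (hB.dense_compl ℝ).nonempty
    refine ⟨t, fun k hk p hp q hq h => ht ⟨(k, p, q), ⟨Set.mem_univ _, hp, hq⟩, ?_⟩⟩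
    have hk' : (k : ℂ) ≠ 0 := by exact_mod_cast hk
    have h1 : (q - p) / ((k : ℂ) * om v e) = (t : ℂ) := by
      rw [← h]
      field_simp
    show ((q - p) / ((k : ℂ) * om v e)).re = t
    rw [h1, Complex.ofReal_re]
  -- the separation
  have hsep : ∀ x : Fin n × Fin n, ∃ ε : ℝ, 0 < ε ∧ (x.1 ≠ x.2 → ∀ (y y' : Vd 2) (s s' : ℂ), ‖s‖ ≤ 1 → ‖s'‖ ≤ 1 → (∃ F ∈ S.G v (y + s • v), S.Hit v (F 0)) →
      (∃ F ∈ S.G v (y' + s' • v), S.Hit v (F 0)) → ε ≤ ‖y + ((((x.1 : ℕ) : ℤ) - ((x.2 : ℕ) : ℤ) : ℤ) * (t : ℂ)) • e - y'‖) := by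
    intro x
    by_cases hx : x.1 = x.2
    · exact ⟨1, one_pos, fun h => absurd hx h⟩
    · obtain ⟨ε, hε, h1⟩ := Rare_sep S hD.ne hQ (c := ((((x.1 : ℕ) : ℤ) - ((x.2 : ℕ) : ℤ) : ℤ) * (t : ℂ)) • e) (by
        intro p hp q hq
        rw [Rare_om_smul]
        refine ht _ ?_ p hp q hq
        intro h0
        apply hx
        have h2 : ((x.1 : ℕ) : ℤ) = ((x.2 : ℕ) : ℤ) := by linarith
        exact Fin.ext (by exact_mod_cast h2))
      exact ⟨ε, hε, fun _ => h1⟩
  choose εs hεs hsep using hsep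
  obtain ⟨ε, hε, hεle⟩ : ∃ ε : ℝ, 0 < ε ∧ ∀ x, ε ≤ εs x := by
    have h1 : ∀ᶠ ε in 𝓝[>] (0 : ℝ), ∀ x, ε ≤ εs x :=
      eventually_all.2 fun x => nhdsWithin_le_nhds (Iic_mem_nhds (hεs x))
    obtain ⟨ε, h2, h3⟩ := (h1.and self_mem_nhdsWithin).exists
    exact ⟨ε, h3, h2⟩
  choose z l hl hz using fun i : Fin n => he (((i : ℕ) : ℝ) * t) (ε / 2) (half_pos hε)
  obtain ⟨M, hM0, hM⟩ : ∃ M : ℝ, 0 ≤ M ∧ ∀ i, ‖z i‖ ≤ M :=
    ⟨∑ i, ‖z i‖, Finset.sum_nonneg fun i _ => norm_nonneg _, fun i => Finset.single_le_sum (f := fun i => ‖z i‖) (fun i _ => norm_nonneg _) (Finset.mem_univ i)⟩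
  refine ⟨s + M, by linarith, fun b F hF z₀ R hR => ?_⟩
  have hfin : {z | ‖z - z₀‖ ≤ R ∧ S.Hit v (F z)}.Finite := by
    obtain ⟨T, hTf, hT⟩ := Metric.totallyBounded_iff.1 (isCompact_closedBall z₀ R).totallyBounded s hs
    refine (hTf.biUnion fun w _ => (hcount b F hF w).1).subset ?_
    intro x hx
    have hxR : x ∈ closedBall z₀ R := by
      rw [mem_closedBall_iff_norm]
      exact hx.1
    obtain ⟨w, hwT, hxw⟩ := Set.mem_iUnion₂.1 (hT hxR)
    refine Set.mem_biUnion hwT ⟨?_, hx.2⟩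
    rw [← dist_eq_norm]
    exact hxw.le
  refine ⟨hfin, ?_⟩
  -- two translates do not meet
  have hdisj : ∀ (x x' w : ℂ) (i j : Fin n), S.Hit v (F x) → S.Hit v (F x') → ‖w - (x + z i)‖ < s → ‖w - (x' + z j)‖ < s → i = j := by
    intro x x' w i j hx hx' h1 h2
    by_contra hij
    have key := hsep (i, j) hij (b + (w - z i) • v - l i) (b + (w - z j) • v - l j) (x - (w - z i)) (x' - (w - z j)) (by
        rw [norm_sub_rev]
        have e1 : w - z i - x = w - (x + z i) := by ring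
        rw [e1]
        linarith) (by
        rw [norm_sub_rev]
        have e1 : w - z j - x' = w - (x' + z j) := by ring
        rw [e1]
        linarith) ⟨fun y => F (y + x), by
          have e1 : b + (w - z i) • v - l i + (x - (w - z i)) • v = b + x • v + (-l i) := by
            rw [sub_smul x]
            abel
          rw [e1, S.G_lat v _ (S.Λ.neg_mem (hl i))]
          exact S.G_trans hF x, by
          show S.Hit v (F (0 + x))
          rw [zero_add]
          exact hx⟩ ⟨fun y => F (y + x'), by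
          have e1 : b + (w - z j) • v - l j + (x' - (w - z j)) • v = b + x' • v + (-l j) := by
            rw [sub_smul x']
            abel
          rw [e1, S.G_lat v _ (S.Λ.neg_mem (hl j))]
          exact S.G_trans hF x', by
          show S.Hit v (F (0 + x'))
          rw [zero_add]
          exact hx'⟩
    have h3 : b + (w - z i) • v - l i + ((((i : ℕ) : ℤ) - ((j : ℕ) : ℤ) : ℤ) * (t : ℂ)) • e - (b + (w - z j) • v - l j)
        = (z j • v + l j - (((((j : ℕ) : ℝ) * t : ℝ)) : ℂ) • e) - (z i • v + l i - (((((i : ℕ) : ℝ) * t : ℝ)) : ℂ) • e) := by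
      push_cast
      simp only [sub_mul, sub_smul]
      abel
    rw [h3] at key
    have h4 := norm_sub_le (z j • v + l j - (((((j : ℕ) : ℝ) * t : ℝ)) : ℂ) • e) (z i • v + l i - (((((i : ℕ) : ℝ) * t : ℝ)) : ℂ) • e)
    have h5 := hz i
    have h6 := hz j
    have h7 := hεle (i, j)
    linarith
  have harea := Rare_area (hfin.toFinset ×ˢ (Finset.univ : Finset (Fin n))) (fun x => x.1 + z x.2) hs (n₀ := n₀) (z₀ := z₀) (ρ := R + M + s) (by linarith) (by
      intro x hx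
      have h1 := (Finset.mem_product.1 hx).1
      rw [Set.Finite.mem_toFinset] at h1
      have h2 : ‖x.1 + z x.2 - z₀‖ ≤ ‖x.1 - z₀‖ + ‖z x.2‖ := by
        have e1 : x.1 + z x.2 - z₀ = (x.1 - z₀) + z x.2 := by ring
        rw [e1]
        exact norm_add_le _ _
      have h3 := hM x.2
      have h4 : ‖x.1 - z₀‖ ≤ R := h1.1
      show ‖x.1 + z x.2 - z₀‖ + s ≤ R + M + s
      linarith) (by
      intro w T' hT' hw
      rcases T'.eq_empty_or_nonempty with h0 | ⟨x₁, hx₁⟩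
      · rw [h0, Finset.card_empty]
        exact Nat.zero_le _
      · have hit : ∀ x ∈ T', S.Hit v (F x.1) := by
          intro x hx
          have h1 := (Finset.mem_product.1 (hT' hx)).1
          rw [Set.Finite.mem_toFinset] at h1
          exact h1.2
        have hsame : ∀ x ∈ T', x.2 = x₁.2 := fun x hx => hdisj x.1 x₁.1 w x.2 x₁.2 (hit x hx) (hit x₁ hx₁) (hw x hx) (hw x₁ hx₁)
        have hc := hcount b F hF (w - z x₁.2)
        refine le_trans ?_ hc.2
        rw [Set.ncard_eq_toFinset_card _ hc.1]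
        refine Finset.card_le_card_of_injOn (fun x => x.1) ?_ ?_
        · intro x hx
          rw [Finset.mem_coe] at hx
          rw [Finset.mem_coe, Set.Finite.mem_toFinset]
          refine ⟨?_, hit x hx⟩
          have h1 : ‖w - (x.1 + z x.2)‖ < s := hw x hx
          rw [hsame x hx] at h1
          rw [norm_sub_rev]
          have e1 : w - z x₁.2 - x.1 = w - (x.1 + z x₁.2) := by ring
          rw [e1]
          exact h1.le
        · intro x hx y hy hxy
          rw [Finset.mem_coe] at hx hy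
          exact Prod.ext hxy ((hsame x hx).trans (hsame y hy).symm))
  rw [Finset.card_product, Finset.card_univ, Fintype.card_fin, ← Set.ncard_eq_toFinset_card _ hfin] at harea
  push_cast at harea
  generalize ({z | ‖z - z₀‖ ≤ R ∧ S.Hit v (F z)}.ncard : ℝ) = m at harea ⊢
  have hR0 : 0 < R := by linarith
  have h1 : (R + M + s) ^ 2 ≤ 4 * R ^ 2 := by nlinarith
  have h2 : m * n * s ^ 2 ≤ δ * R ^ 2 * (n * s ^ 2) := by
    calc m * n * s ^ 2 ≤ n₀ * (R + M + s) ^ 2 := harea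
      _ ≤ n₀ * (4 * R ^ 2) := mul_le_mul_of_nonneg_left h1 (Nat.cast_nonneg _)
      _ = 4 * n₀ * R ^ 2 := by ring
      _ ≤ δ * (n * s ^ 2) * R ^ 2 := mul_le_mul_of_nonneg_right hn2 (by positivity)
      _ = δ * R ^ 2 * (n * s ^ 2) := by ring
  rw [mul_assoc] at h2
  exact le_of_mul_le_mul_right h2 (by positivity)

end Pool.Agent.TH
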